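import Pool.Agent.X318.PencilDet

/-! Hankel determinants of weighted binary digit sums: recursions `n → n/2`. -/

namespace X318.DigHank
open Matrix Finset X318.PencilDet

variable {K : Type*} [CommRing K]

lemma det_sym_blocks {ι : Type*} [Fintype ι] [DecidableEq ι] (P Q : Matrix ι ι K) :
    (fromBlocks P Q Q P).det = (P + Q).det * (P - Q).det := by
  have h : fromBlocks (1 : Matrix ι ι K) 0 (-1) 1 * fromBlocks P Q Q P * fromBlocks 1 0 1 1 =
      fromBlocks (P + Q) Q 0 (P - Q) := by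
    rw [fromBlocks_multiply, fromBlocks_multiply]
    congr 1
    · simp
    · simp
    · simp
    · simp; abel
  have h2 := congrArg Matrix.det h
  rw [det_mul, det_mul, det_fromBlocks_zero₁₂, det_fromBlocks_zero₁₂, det_fromBlocks_zero₂₁] at h2
  simpa using h2

lemma det_anti' {ι : Type*} [Fintype ι] [DecidableEq ι] (A B C : Matrix ι ι K) :
    (fromBlocks A B C 0).det = (-1) ^ (Fintype.card ι) * (B.det * C.det) := by
  have h1 : (fromBlocks (0 : Matrix ι ι K) (1 : Matrix ι ι K) (1 : Matrix ι ι K)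
      (0 : Matrix ι ι K)).det = (-1) ^ (Fintype.card ι) := by
    have h : (fromBlocks (1 : Matrix ι ι K) (1 : Matrix ι ι K) (0 : Matrix ι ι K) (1 : Matrix ι ι K) *
        fromBlocks (0 : Matrix ι ι K) (1 : Matrix ι ι K) (1 : Matrix ι ι K) (0 : Matrix ι ι K)).det
        = (fromBlocks (0 : Matrix ι ι K) (1 : Matrix ι ι K) (1 : Matrix ι ι K) (0 : Matrix ι ι K)).det := by
      rw [det_mul, det_fromBlocks_zero₂₁]; simp
    rw [← h, fromBlocks_multiply]
    simp only [Matrix.mul_zero, Matrix.mul_one, zero_add, add_zero, Matrix.zero_mul]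
    rw [det_fromBlocks_one₁₁]
    simp [Matrix.det_neg]
  have h2 : fromBlocks A B C 0 = fromBlocks B A 0 C * fromBlocks (0 : Matrix ι ι K) 1 1 0 := by
    rw [fromBlocks_multiply]; simp
  rw [h2, det_mul, h1, det_fromBlocks_zero₂₁]
  ring

lemma dN_pivot (N : ℕ) (F : ℕ → ℕ → K) (h : F 0 0 = 1) :
    dN (N + 1) F = dN N (fun i j => F (i + 1) (j + 1) - F (i + 1) 0 * F 0 (j + 1)) := by
  unfold dN
  have h1 : (Matrix.of fun i j : Fin (N + 1) => F i j).det =
      (Matrix.of fun i j : Fin (N + 1) => F i j - (if (i : ℕ) = 0 then 0 else F i 0) * F 0 j).det := by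
    apply det_eq_of_forall_row_eq_smul_add_const
      (fun i : Fin (N + 1) => if (i : ℕ) = 0 then 0 else F i 0) 0 (by simp)
    intro i j
    simp only [of_apply, Fin.val_zero, if_true]
    ring
  rw [h1, det_succ_column_zero, Finset.sum_eq_single (0 : Fin (N + 1))]
  · simp only [Fin.val_zero, pow_zero, of_apply, if_true, h, one_mul, zero_mul, sub_zero]
    congr 1
  · intro i _ hi
    have hi' : (i : ℕ) ≠ 0 := fun h => hi (Fin.ext h)
    simp only [of_apply, if_neg hi', Fin.val_zero, h, mul_one, sub_self, mul_zero, zero_mul]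
  · simp

lemma dN_neg (N : ℕ) (F : ℕ → ℕ → K) : dN N (fun i j => - F i j) = (-1) ^ N * dN N F := by
  have := dN_smul N F (-1 : K)
  simpa using this

lemma dN_odd_zero [IsDomain K] [CharZero K] (m : ℕ) (F : ℕ → ℕ → K)
    (h : ∀ i j, (i + j) % 2 = 0 → F i j = 0) : dN (2 * m + 1) F = 0 := by
  have h1 : dN (2 * m + 1) F = - dN (2 * m + 1) F := by
    conv_lhs => rw [← dN_sign]
    have e : dN (2 * m + 1) (fun i j => (-1) ^ (i + j) * F i j) = dN (2 * m + 1) (fun i j => - F i j) := by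
      apply dN_congr
      intro i j _ _
      by_cases hp : (i + j) % 2 = 0
      · rw [h i j hp]; ring
      · have : Odd (i + j) := Nat.odd_iff.mpr (by omega)
        rw [this.neg_one_pow]; ring
    rw [e, dN_neg]
    simp [pow_succ, pow_mul]
  have h2 : (2 : K) * dN (2 * m + 1) F = 0 := by linear_combination h1
  exact (mul_eq_zero.mp h2).resolve_left two_ne_zero

/-- the digit sum sequence with weights `t^j` -/
structure DigSeq (t : K) (s : ℕ → K) : Prop where
  even : ∀ m, s (2 * m) = t * s m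
  odd : ∀ m, s (2 * m + 1) = 1 + t * s m

section
variable (s : ℕ → K)
/-- first differences -/
def aa (m : ℕ) : K := s (m + 1) - s m
/-- second differences -/
def gg (m : ℕ) : K := aa s (m + 1) - aa s m

def H (n : ℕ) : K := dN n (fun i j => s (i + j))
def H' (n : ℕ) : K := bN n (fun i j => s (i + j))
def B (n : ℕ) : K := dN n (fun i j => aa s (i + j))
def B' (n : ℕ) : K := bN n (fun i j => aa s (i + j))
def G (n : ℕ) : K := dN n (fun i j => gg s (i + j))
end

variable {t : K} {s : ℕ → K}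

lemma aa_even (h : DigSeq t s) (x : ℕ) : aa s (2 * x) = 1 := by
  unfold aa; rw [h.even, h.odd]; ring

lemma aa_odd (h : DigSeq t s) (x : ℕ) : aa s (2 * x + 1) = t * aa s x - 1 := by
  unfold aa; rw [show 2 * x + 1 + 1 = 2 * (x + 1) by ring, h.even, h.odd]; ring

lemma pen (a : ℕ → K) (r c : K) (n : ℕ) :
    dN n (fun i j => r * a (i + j) + c) =
      r ^ n * dN n (fun i j => a (i + j)) + c * (r ^ (n - 1) * bN n (fun i j => a (i + j))) := by
  rw [dN_add_const, dN_smul, bN_smul]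

lemma pen' (a : ℕ → K) (r c : K) (n : ℕ) :
    bN n (fun i j => r * a (i + j) + c) = r ^ (n - 1) * bN n (fun i j => a (i + j)) := by
  rw [bN_add_const, bN_smul]

lemma H_pencil (h : DigSeq t s) (R S : ℕ) (h2 : S ≤ R) (h3 : R ≤ S + 1) (c : K) :
    dN (R + S) (fun i j => s (i + j) + c) =
      (t ^ R * H s R + c * (t ^ (R - 1) * H' s R)) * (t ^ S * B s S - 2 * (t ^ (S - 1) * B' s S)) -
      (t ^ (R - 1) * H' s R) * (t ^ (S - 1) * B' s S) := by
  rw [dN_rowop, dN_colop, dN_blocks rfl h2 h3]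
  have e : (fromBlocks (Matrix.of fun i j : Fin R => t * s (i + j) + c) (Matrix.of fun _ _ => 1) (Matrix.of fun _ _ => 1)
        (Matrix.of fun i j : Fin S => t * aa s (i + j) + (-2))).det =
      dN R (fun i j => t * s (i + j) + c) * dN S (fun i j => t * aa s (i + j) + (-2)) -
      bN R (fun i j => t * s (i + j) + c) * bN S (fun i j => t * aa s (i + j) + (-2)) := det_offdiag _ _
  rw [pen, pen, pen', pen'] at e
  have e' : (t ^ R * H s R + c * (t ^ (R - 1) * H' s R)) * (t ^ S * B s S - 2 * (t ^ (S - 1) * B' s S)) -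
      (t ^ (R - 1) * H' s R) * (t ^ (S - 1) * B' s S) = (fromBlocks (Matrix.of fun i j : Fin R => t * s (i + j) + c) (Matrix.of fun _ _ => 1) (Matrix.of fun _ _ => 1)
        (Matrix.of fun i j : Fin S => t * aa s (i + j) + (-2))).det := by
    rw [e]; unfold H H' B B'; ring
  rw [e']
  congr 1
  have o1 : ∀ x : ℕ, (2 * x + 1) % 2 = 1 := fun x => by omega
  have o2 : ∀ x : ℕ, (2 * x) % 2 ≠ 1 := fun x => by omega
  congr 1
  · ext i j
    simp only [of_apply, if_neg (o2 _), sub_zero]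
    rw [show 2 * (i : ℕ) + 2 * (j : ℕ) = 2 * (i + j) by ring, h.even]
  · ext i j
    simp only [of_apply, if_neg (o2 _), if_pos (o1 _), sub_zero, Nat.add_sub_cancel]
    rw [show 2 * (i : ℕ) + 2 * (j : ℕ) = 2 * (i + j) by ring,
      show 2 * (i : ℕ) + (2 * (j : ℕ) + 1) = 2 * (i + j) + 1 by ring, h.even, h.odd]; ring
  · ext i j
    simp only [of_apply, if_neg (o2 _), if_pos (o1 _), sub_zero, Nat.add_sub_cancel]
    rw [show 2 * (i : ℕ) + 2 * (j : ℕ) = 2 * (i + j) by ring,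
      show 2 * (i : ℕ) + 1 + 2 * (j : ℕ) = 2 * (i + j) + 1 by ring, h.even, h.odd]; ring
  · ext i j
    simp only [of_apply, if_pos (o1 _), Nat.add_sub_cancel]
    rw [show 2 * (i : ℕ) + 2 * (j : ℕ) = 2 * (i + j) by ring,
      show 2 * (i : ℕ) + 1 + 2 * (j : ℕ) = 2 * (i + j) + 1 by ring,
      show 2 * (i : ℕ) + (2 * (j : ℕ) + 1) = 2 * (i + j) + 1 by ring,
      show 2 * (i : ℕ) + 1 + (2 * (j : ℕ) + 1) = 2 * (i + j + 1) by ring, h.even, h.odd, h.even]
    unfold aa
    ring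

lemma H_rec (h : DigSeq t s) (R S : ℕ) (h2 : S ≤ R) (h3 : R ≤ S + 1) :
    H s (R + S) =
      t ^ R * H s R * (t ^ S * B s S - 2 * (t ^ (S - 1) * B' s S)) -
      (t ^ (R - 1) * H' s R) * (t ^ (S - 1) * B' s S) := by
  have := H_pencil h R S h2 h3 0
  simp only [add_zero, zero_mul] at this
  exact this

lemma H'_rec (h : DigSeq t s) (R S : ℕ) (h2 : S ≤ R) (h3 : R ≤ S + 1) :
    H' s (R + S) = t ^ (R - 1) * H' s R * (t ^ S * B s S - 2 * (t ^ (S - 1) * B' s S)) := by
  have h0 := H_pencil h R S h2 h3 0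
  have h1 := H_pencil h R S h2 h3 1
  simp only [add_zero] at h0
  unfold H'
  rw [bN_eq, h0, h1]
  unfold H'
  ring

lemma B_pencil_even (h : DigSeq t s) (m : ℕ) (c : K) :
    dN (2 * m) (fun i j => aa s (i + j) + c) =
      (t ^ m * B s m + 2 * c * (t ^ (m - 1) * B' s m)) *
      ((-1) ^ m * (t ^ m * B s m - 2 * (t ^ (m - 1) * B' s m))) := by
  rw [dN_blocks (show 2 * m = m + m by ring) le_rfl (by omega)]
  have e := det_sym_blocks (Matrix.of fun _ _ : Fin m => (1 : K) + c)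
    (Matrix.of fun i j : Fin m => t * aa s (i + j) - 1 + c)
  have e1 : ((Matrix.of fun _ _ : Fin m => (1 : K) + c) +
    (Matrix.of fun i j : Fin m => t * aa s (i + j) - 1 + c)) =
      Matrix.of fun i j : Fin m => t * aa s (i + j) + 2 * c := by
    ext i j; simp; ring
  have e2 : ((Matrix.of fun _ _ : Fin m => (1 : K) + c) -
    (Matrix.of fun i j : Fin m => t * aa s (i + j) - 1 + c)) =
      - Matrix.of fun i j : Fin m => t * aa s (i + j) + (-2) := by
    ext i j; simp; ring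
  have p1 : (Matrix.of fun i j : Fin m => t * aa s (i + j) + 2 * c).det =
      dN m (fun i j => t * aa s (i + j) + 2 * c) := rfl
  have p2 : (Matrix.of fun i j : Fin m => t * aa s (i + j) + (-2)).det =
      dN m (fun i j => t * aa s (i + j) + (-2)) := rfl
  rw [e1, e2, Matrix.det_neg, p1, p2, pen, pen, Fintype.card_fin] at e
  have e' : (t ^ m * B s m + 2 * c * (t ^ (m - 1) * B' s m)) *
      ((-1) ^ m * (t ^ m * B s m - 2 * (t ^ (m - 1) * B' s m))) =
      (fromBlocks (Matrix.of fun _ _ : Fin m => (1 : K) + c)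
    (Matrix.of fun i j : Fin m => t * aa s (i + j) - 1 + c)
    (Matrix.of fun i j : Fin m => t * aa s (i + j) - 1 + c) (Matrix.of fun _ _ : Fin m => (1 : K) + c)).det := by
    rw [e]; unfold B B'; ring
  rw [e']
  congr 2
  · ext i j
    simp only [of_apply]
    rw [show 2 * (i : ℕ) + 2 * (j : ℕ) = 2 * (i + j) by ring, aa_even h]
  · ext i j
    simp only [of_apply]
    rw [show 2 * (i : ℕ) + (2 * (j : ℕ) + 1) = 2 * (i + j) + 1 by ring, aa_odd h]
  · ext i j
    simp only [of_apply]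
    rw [show 2 * (i : ℕ) + 1 + 2 * (j : ℕ) = 2 * (i + j) + 1 by ring, aa_odd h]
  · ext i j
    simp only [of_apply]
    rw [show 2 * (i : ℕ) + 1 + (2 * (j : ℕ) + 1) = 2 * (i + j + 1) by ring, aa_even h]

lemma B_even (h : DigSeq t s) (m : ℕ) :
    B s (2 * m) = t ^ m * B s m * ((-1) ^ m * (t ^ m * B s m - 2 * (t ^ (m - 1) * B' s m))) := by
  have := B_pencil_even h m 0
  simp only [add_zero, mul_zero, zero_mul] at this
  exact this

lemma B'_even (h : DigSeq t s) (m : ℕ) :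
    B' s (2 * m) = 2 * (t ^ (m - 1) * B' s m) * ((-1) ^ m * (t ^ m * B s m - 2 * (t ^ (m - 1) * B' s m))) := by
  have h0 := B_pencil_even h m 0
  have h1 := B_pencil_even h m 1
  simp only [add_zero] at h0
  have : B' s (2 * m) = dN (2 * m) (fun i j => aa s (i + j) + 1) - dN (2 * m) (fun i j => aa s (i + j)) :=
    bN_eq _ _
  rw [this, h0, h1]
  ring

lemma G_alt (m : ℕ) : dN m (fun i j => aa s (i + j + 1) - aa s j) = G s m := by
  unfold G
  rcases m with _ | m
  · rfl
  · unfold dN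
    apply det_eq_of_forall_row_eq_smul_add_pred (fun _ => 1)
    · intro j
      simp only [of_apply, Fin.val_zero, zero_add]
      rfl
    · intro i j
      simp only [of_apply, Fin.val_succ, Fin.val_castSucc, gg]
      rw [show (i : ℕ) + 1 + (j : ℕ) + 1 = i + j + 1 + 1 by ring, show (i : ℕ) + 1 + (j : ℕ) = i + j + 1 by ring]
      ring

lemma B_odd (h : DigSeq t s) (m : ℕ) : B s (2 * m + 1) = (-1) ^ m * (t ^ m * G s m) ^ 2 := by
  unfold B
  rw [dN_pivot _ _ (aa_even h 0), dN_blocks (show 2 * m = m + m by ring) le_rfl (by omega)]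
  have e4 : (Matrix.of fun s_1 t_1 : Fin m => aa s (2 * (s_1 : ℕ) + 1 + 1 + (2 * (t_1 : ℕ) + 1 + 1)) -
      aa s (2 * (s_1 : ℕ) + 1 + 1 + 0) * aa s (0 + (2 * (t_1 : ℕ) + 1 + 1))) = 0 := by
    ext i j
    simp only [of_apply, Matrix.zero_apply]
    rw [show 2 * (i : ℕ) + 1 + 1 + (2 * (j : ℕ) + 1 + 1) = 2 * (i + j + 2) by ring,
      show 2 * (i : ℕ) + 1 + 1 + 0 = 2 * (i + 1) by ring, show 0 + (2 * (j : ℕ) + 1 + 1) = 2 * (j + 1) by ring,
      aa_even h, aa_even h, aa_even h]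
    ring
  rw [e4, det_anti']
  have e3 : (Matrix.of fun (s_1 : Fin m) (t_1 : Fin m) => aa s (2 * (s_1 : ℕ) + 1 + 1 + (2 * (t_1 : ℕ) + 1)) -
      aa s (2 * (s_1 : ℕ) + 1 + 1 + 0) * aa s (0 + (2 * (t_1 : ℕ) + 1))).det = t ^ m * G s m := by
    have : (Matrix.of fun (s_1 : Fin m) (t_1 : Fin m) => aa s (2 * (s_1 : ℕ) + 1 + 1 + (2 * (t_1 : ℕ) + 1)) -
      aa s (2 * (s_1 : ℕ) + 1 + 1 + 0) * aa s (0 + (2 * (t_1 : ℕ) + 1))).det =
        dN m (fun i j => t * (aa s (i + j + 1) - aa s j)) := by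
      unfold dN
      congr 1
      ext i j
      simp only [of_apply]
      rw [show 2 * (i : ℕ) + 1 + 1 + (2 * (j : ℕ) + 1) = 2 * (i + j + 1) + 1 by ring,
        show 2 * (i : ℕ) + 1 + 1 + 0 = 2 * (i + 1) by ring, show 0 + (2 * (j : ℕ) + 1) = 2 * j + 1 by ring,
        aa_odd h, aa_even h, aa_odd h]
      ring
    rw [this, dN_smul, G_alt]
  have e2 : (Matrix.of fun (s_1 : Fin m) (t_1 : Fin m) => aa s (2 * (s_1 : ℕ) + 1 + (2 * (t_1 : ℕ) + 1 + 1)) -
      aa s (2 * (s_1 : ℕ) + 1 + 0) * aa s (0 + (2 * (t_1 : ℕ) + 1 + 1))).det = t ^ m * G s m := by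
    rw [← e3, ← det_transpose]
    congr 1
    ext i j
    simp only [of_apply, transpose_apply]
    rw [show 2 * (j : ℕ) + 1 + (2 * (i : ℕ) + 1 + 1) = 2 * i + 1 + 1 + (2 * j + 1) by ring,
      show 2 * (j : ℕ) + 1 + 0 = 0 + (2 * j + 1) by ring,
      show 0 + (2 * (i : ℕ) + 1 + 1) = 2 * i + 1 + 1 + 0 by ring]
    ring_nf
  rw [e2, e3, Fintype.card_fin]
  ring

lemma B'_odd [IsDomain K] [CharZero K] (h : DigSeq t s) (m : ℕ) : B' s (2 * m + 1) = B s (2 * m + 1) := by
  have h1 : dN (2 * m + 1) (fun i j => aa s (i + j) + (-1)) = 0 := by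
    apply dN_odd_zero
    intro i j hij
    obtain ⟨x, hx⟩ : ∃ x, i + j = 2 * x := ⟨(i + j) / 2, by omega⟩
    rw [hx, aa_even h]; ring
  rw [dN_add_const] at h1
  unfold B B'
  linear_combination (-1 : K) * h1

lemma G_rec (h : DigSeq t s) (R S : ℕ) (h2 : S ≤ R) (h3 : R ≤ S + 1) :
    G s (R + S) = (t ^ R * B s R - 2 * (t ^ (R - 1) * B' s R)) * (t ^ S * G s S) := by
  unfold G
  have e0 : dN (R + S) (fun i j => gg s (i + j)) =
      dN (R + S) (fun i j => t * aa s ((i + j) / 2) - 2) := by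
    rw [← dN_sign]
    apply dN_congr
    intro i j _ _
    rcases Nat.even_or_odd' (i + j) with ⟨x, hx | hx⟩
    · rw [hx, show 2 * x / 2 = x by omega]
      unfold gg
      rw [aa_odd h, aa_even h, pow_mul]; norm_num; ring
    · rw [hx, show (2 * x + 1) / 2 = x by omega]
      unfold gg
      rw [show 2 * x + 1 + 1 = 2 * (x + 1) by ring, aa_odd h, aa_even h, pow_succ, pow_mul]; norm_num; ring
  rw [e0, dN_rowop, dN_colop, dN_blocks rfl h2 h3]
  have o1 : ∀ x : ℕ, (2 * x + 1) % 2 = 1 := fun x => by omega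
  have o2 : ∀ x : ℕ, (2 * x) % 2 ≠ 1 := fun x => by omega
  have e' : (t ^ R * B s R - 2 * (t ^ (R - 1) * B' s R)) * (t ^ S * dN S (fun i j => gg s (i + j))) =
      (fromBlocks (Matrix.of fun i j : Fin R => t * aa s (i + j) + (-2)) 0 0
        (Matrix.of fun i j : Fin S => t * gg s (i + j))).det := by
    rw [det_fromBlocks_zero₂₁]
    have p1 : (Matrix.of fun i j : Fin R => t * aa s (i + j) + (-2)).det =
      dN R (fun i j => t * aa s (i + j) + (-2)) := rfl
    have p2 : (Matrix.of fun i j : Fin S => t * gg s (i + j)).det =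
      dN S (fun i j => t * gg s (i + j)) := rfl
    rw [p1, p2, pen, dN_smul]
    unfold B B'; ring
  rw [e']
  congr 2
  · ext i j
    simp only [of_apply, if_neg (o2 _), sub_zero]
    rw [show (2 * (i : ℕ) + 2 * (j : ℕ)) / 2 = i + j by omega]; ring
  · ext i j
    simp only [of_apply, if_neg (o2 _), if_pos (o1 _), sub_zero, Nat.add_sub_cancel, Matrix.zero_apply]
    rw [show (2 * (i : ℕ) + 2 * (j : ℕ)) / 2 = i + j by omega,
      show (2 * (i : ℕ) + (2 * (j : ℕ) + 1)) / 2 = i + j by omega]; ring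
  · ext i j
    simp only [of_apply, if_neg (o2 _), if_pos (o1 _), sub_zero, Nat.add_sub_cancel, Matrix.zero_apply]
    rw [show (2 * (i : ℕ) + 2 * (j : ℕ)) / 2 = i + j by omega,
      show (2 * (i : ℕ) + 1 + 2 * (j : ℕ)) / 2 = i + j by omega]; ring
  · ext i j
    simp only [of_apply, if_pos (o1 _), Nat.add_sub_cancel]
    rw [show (2 * (i : ℕ) + 2 * (j : ℕ)) / 2 = i + j by omega,
      show (2 * (i : ℕ) + 1 + 2 * (j : ℕ)) / 2 = i + j by omega,
      show (2 * (i : ℕ) + (2 * (j : ℕ) + 1)) / 2 = i + j by omega,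
      show (2 * (i : ℕ) + 1 + (2 * (j : ℕ) + 1)) / 2 = i + j + 1 by omega]
    unfold gg
    ring

end X318.DigHank
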