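import Mathlib
import Pool.Agent.X318.SixKClausen

/-!
# Divisibility of the convolution square of `C(6k,3k) C(3k,k)`

`(2n-1) C(3n,n)` divides each term `T_k C(k,n-k) 432^(n-k)` of Clausen's formula.
-/

set_option autoImplicit false

open Finset

namespace Pool.Agent.X318.SixK

lemma div_facts (q x : ℕ) (c : ℕ) (hx : x < c * q) :
    ∃ a, 6 * x / q = a ∧ a * q ≤ 6 * x ∧ 6 * x < (a + 1) * q ∧ a < 6 * c ∧ 3 * x / q = a / 2 ∧
      2 * x / q = a / 3 ∧ x / q = a / 6 := by
  have hq : 0 < q := by
    rcases Nat.eq_zero_or_pos q with h | h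
    · rw [h] at hx
      omega
    · exact h
  refine ⟨6 * x / q, rfl, Nat.div_mul_le_self _ _, ?_, ?_, ?_, ?_, ?_⟩
  · have := Nat.lt_div_mul_add (a := 6 * x) hq
    linarith
  · apply Nat.div_lt_of_lt_mul
    nlinarith
  · rw [Nat.div_div_eq_div_mul, mul_comm q 2, show 6 * x = 2 * (3 * x) by ring,
      Nat.mul_div_mul_left _ _ two_pos]
  · rw [Nat.div_div_eq_div_mul, mul_comm q 3, show 6 * x = 3 * (2 * x) by ring,
      Nat.mul_div_mul_left _ _ three_pos]
  · rw [Nat.div_div_eq_div_mul, mul_comm q 6, Nat.mul_div_mul_left _ _ (by norm_num)]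

lemma loc0 (q x y : ℕ) (hx : x < q) (hy : y < q) :
    3 * (x + y) / q + 3 * x / q ≤
      6 * x / q + (x + y) / q + 2 * (x + y) / q + (if x < y then 1 else 0) := by
  obtain ⟨a, e1, h1, h2, h3, e2, e3, e4⟩ := div_facts q x 1 (by omega)
  obtain ⟨b, f1, g1, g2, g3, f2, f3, f4⟩ := div_facts q (x + y) 2 (by omega)
  rw [e1, e2, f2, f3, f4]
  clear e1 e2 e3 e4 f1 f2 f3 f4
  interval_cases a <;> interval_cases b <;> split_ifs <;> omega

lemma loc1 (q x y : ℕ) (hx : x < q) (hy : y < q) (h : 2 * (x + y) = q + 1 ∨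
    2 * (x + y) = 3 * q + 1) (hq : 4 ≤ q) :
    1 + 3 * (x + y) / q + 3 * x / q ≤
      6 * x / q + (x + y) / q + 2 * (x + y) / q + (if x < y then 1 else 0) := by
  obtain ⟨a, e1, h1, h2, h3, e2, e3, e4⟩ := div_facts q x 1 (by omega)
  obtain ⟨b, f1, g1, g2, g3, f2, f3, f4⟩ := div_facts q (x + y) 2 (by omega)
  rw [e1, e2, f2, f3, f4]
  clear e1 e2 e3 e4 f1 f2 f3 f4
  interval_cases a <;> interval_cases b <;> split_ifs <;> omega

lemma loc3 (x y : ℕ) (hx : x < 3) (hy : y < 3) (h : 2 * (x + y) = 4) :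
    1 + 3 * (x + y) / 3 + 3 * x / 3 ≤
      6 * x / 3 + (x + y) / 3 + 2 * (x + y) / 3 + (if x < y then 1 else 0) +
        (if 1 ≤ y then 1 else 0) := by
  interval_cases x <;> interval_cases y <;> simp_all

lemma odd_case (q M s : ℕ) (hq : 2 ≤ q) (hs : s ≤ 2 * q - 2) (hn : 1 ≤ q * M + s)
    (hd : q ∣ 2 * (q * M + s) - 1) : 2 * s = q + 1 ∨ 2 * s = 3 * q + 1 := by
  obtain ⟨c, hc⟩ := hd
  have h1 : q * c + 1 = q * (2 * M) + 2 * s := by
    have h0 : 2 * (q * M + s) = q * c + 1 := by omega
    rw [← h0]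
    ring
  have h2 : 2 * M ≤ c := by
    by_contra hcon
    push Not at hcon
    have h3 : q * (c + 1) ≤ q * (2 * M) := Nat.mul_le_mul_left _ hcon
    have h4 : q * (c + 1) = q * c + q := by ring
    omega
  obtain ⟨d, rfl⟩ := Nat.exists_eq_add_of_le h2
  have h3 : q * d + 1 = 2 * s := by
    have h4 : q * (2 * M + d) = q * (2 * M) + q * d := by ring
    omega
  have h4 : d < 4 := by
    by_contra hcon
    push Not at hcon
    have h5 : q * 4 ≤ q * d := Nat.mul_le_mul_left _ hcon
    omega
  clear h1 h2 hc hn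
  interval_cases d <;> omega

lemma sub_case (q K J x y m : ℕ) (h2 : m * q + (q * J + y) ≤ q * K + x) (hxq : x < q) :
    J + m + (if x < y then 1 else 0) ≤ K := by
  split_ifs with h
  · have h3 : (J + m) * q < K * q := by
      have e1 : (J + m) * q = m * q + q * J := by ring
      have e2 : K * q = q * K := by ring
      omega
    have := Nat.lt_of_mul_lt_mul_right h3
    omega
  · have h3 : (J + m) * q < (K + 1) * q := by
      have e1 : (J + m) * q = m * q + q * J := by ring
      have e2 : (K + 1) * q = q * K + q := by ring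
      omega
    have := Nat.lt_of_mul_lt_mul_right h3
    omega

lemma local_ineq (q k j : ℕ) (hq : 2 ≤ q) (hjk : j ≤ k) (hn : 1 ≤ k + j) :
    (if q ∣ 2 * (k + j) - 1 then 1 else 0) + 3 * (k + j) / q + 3 * k / q + 3 * (k / q) + j / q +
      (k - j) / q ≤
    6 * k / q + k / q + (k + j) / q + 2 * (k + j) / q + (if q = 3 ∧ 1 ≤ j then 1 else 0) := by
  have hq0 : 0 < q := by omega
  obtain ⟨K, hK⟩ : ∃ K, K = k / q := ⟨_, rfl⟩
  obtain ⟨J, hJ⟩ : ∃ J, J = j / q := ⟨_, rfl⟩
  obtain ⟨x, hx⟩ : ∃ x, x = k % q := ⟨_, rfl⟩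
  obtain ⟨y, hy⟩ : ∃ y, y = j % q := ⟨_, rfl⟩
  have hxq : x < q := hx ▸ Nat.mod_lt _ hq0
  have hyq : y < q := hy ▸ Nat.mod_lt _ hq0
  have hk : k = q * K + x := by rw [hK, hx, Nat.div_add_mod]
  have hj : j = q * J + y := by rw [hJ, hy, Nat.div_add_mod]
  have e1 : 3 * (k + j) / q = 3 * (K + J) + 3 * (x + y) / q := by
    rw [hk, hj, show 3 * (q * K + x + (q * J + y)) = q * (3 * (K + J)) + 3 * (x + y) by ring,
      Nat.mul_add_div hq0]
  have e2 : 3 * k / q = 3 * K + 3 * x / q := by
    rw [hk, show 3 * (q * K + x) = q * (3 * K) + 3 * x by ring, Nat.mul_add_div hq0]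
  have e3 : 6 * k / q = 6 * K + 6 * x / q := by
    rw [hk, show 6 * (q * K + x) = q * (6 * K) + 6 * x by ring, Nat.mul_add_div hq0]
  have e4 : (k + j) / q = (K + J) + (x + y) / q := by
    rw [hk, hj, show q * K + x + (q * J + y) = q * (K + J) + (x + y) by ring,
      Nat.mul_add_div hq0]
  have e5 : 2 * (k + j) / q = 2 * (K + J) + 2 * (x + y) / q := by
    rw [hk, hj, show 2 * (q * K + x + (q * J + y)) = q * (2 * (K + J)) + 2 * (x + y) by ring,
      Nat.mul_add_div hq0]
  have e6 : J + (k - j) / q + (if x < y then 1 else 0) ≤ K := by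
    have h1 : (k - j) / q * q ≤ k - j := Nat.div_mul_le_self _ _
    have h2 : (k - j) / q * q + (q * J + y) ≤ q * K + x := by
      rw [← hj, ← hk]
      omega
    exact sub_case q K J x y _ h2 hxq
  rw [e1, e2, e3, e4, e5, ← hK, ← hJ]
  have key : (if q ∣ 2 * (k + j) - 1 then 1 else 0) + 3 * (x + y) / q + 3 * x / q ≤
      6 * x / q + (x + y) / q + 2 * (x + y) / q + (if x < y then 1 else 0) +
        (if q = 3 ∧ 1 ≤ j then 1 else 0) := by
    by_cases hd : q ∣ 2 * (k + j) - 1
    · rw [if_pos hd]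
      have hkj : k + j = q * (K + J) + (x + y) := by
        rw [hk, hj]
        ring
      rw [hkj] at hd hn
      have hodd := odd_case q (K + J) (x + y) hq (by omega) hn hd
      by_cases h3 : q = 3
      · subst h3
        have h4 : 2 * (x + y) = 4 := by
          rcases hodd with h | h
          · omega
          · omega
        have h6 := loc3 x y hxq hyq h4
        refine h6.trans (Nat.add_le_add_left ?_ _)
        by_cases h7 : 1 ≤ y
        · rw [if_pos h7, if_pos ⟨rfl, by omega⟩]
        · rw [if_neg h7]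
          exact Nat.zero_le _
      · have h6 := loc1 q x y hxq hyq hodd (by omega)
        exact h6.trans (Nat.le_add_right _ _)
    · rw [if_neg hd, zero_add]
      exact (loc0 q x y hxq hyq).trans (Nat.le_add_right _ _)
  generalize (if q ∣ 2 * (k + j) - 1 then 1 else 0) = A1 at key ⊢
  generalize (if x < y then 1 else 0) = A2 at key e6
  generalize (if q = 3 ∧ 1 ≤ j then 1 else 0) = A3 at key ⊢
  omega

lemma fm (p a b : ℕ) (ha : a ≠ 0) (hb : b ≠ 0) :
    (a * b).factorization p = a.factorization p + b.factorization p := by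
  rw [Nat.factorization_mul ha hb]
  rfl

/-- The termwise divisibility. -/
theorem term_dvd (k j : ℕ) (hjk : j ≤ k) (hn : 1 ≤ k + j) :
    (2 * (k + j) - 1) * (3 * (k + j)).choose (k + j) ∣ T k * (k.choose j * 432 ^ j) := by
  obtain ⟨n, hn'⟩ : ∃ n, n = k + j := ⟨_, rfl⟩
  rw [← hn']
  have hn1 : 1 ≤ n := by omega
  have h1 := T_factorial k
  have h2 := Nat.choose_mul_factorial_mul_factorial hjk
  have h3 := Nat.choose_mul_factorial_mul_factorial (show n ≤ 3 * n by omega)
  rw [show 3 * n - n = 2 * n by omega] at h3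
  have f1 := (6 * k).factorial_ne_zero
  have f2 := (3 * k).factorial_ne_zero
  have f3 := k.factorial_ne_zero
  have f4 := j.factorial_ne_zero
  have f5 := (k - j).factorial_ne_zero
  have f6 := n.factorial_ne_zero
  have f7 := (2 * n).factorial_ne_zero
  have f8 := (3 * n).factorial_ne_zero
  have f9 : (432 : ℕ) ^ j ≠ 0 := by positivity
  have f10 : 2 * n - 1 ≠ 0 := by omega
  have hpos : 0 < (3 * k).factorial * k.factorial ^ 3 * (j.factorial * (k - j).factorial) *
      (n.factorial * (2 * n).factorial) := by positivity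
  apply Nat.dvd_of_mul_dvd_mul_right hpos
  have hL : (2 * n - 1) * (3 * n).choose n * ((3 * k).factorial * k.factorial ^ 3 *
      (j.factorial * (k - j).factorial) * (n.factorial * (2 * n).factorial)) =
      ((2 * n - 1) * ((3 * n).factorial * ((3 * k).factorial * (k.factorial * (k.factorial *
        (k.factorial * (j.factorial * (k - j).factorial))))))) := by
    rw [← h3]
    ring
  have hR : T k * (k.choose j * 432 ^ j) * ((3 * k).factorial * k.factorial ^ 3 *
      (j.factorial * (k - j).factorial) * (n.factorial * (2 * n).factorial)) =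
      ((6 * k).factorial * (k.factorial * (n.factorial * ((2 * n).factorial * 432 ^ j)))) := by
    rw [← h1]
    rw [← h2]
    ring
  rw [hL, hR]
  rw [← Nat.factorization_prime_le_iff_dvd (by positivity) (by positivity)]
  intro p hp
  have g0 : p = 3 → j ≤ ((432 : ℕ) ^ j).factorization p := by
    intro h
    rw [Nat.factorization_pow, h]
    have : 1 ≤ (432 : ℕ).factorization 3 :=
      Nat.Prime.factorization_pos_of_dvd Nat.prime_three (by norm_num) (by norm_num)
    simp only [Finsupp.smul_apply, smul_eq_mul]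
    nlinarith
  rw [fm _ _ _ f10 (by positivity), fm _ _ _ f8 (by positivity), fm _ _ _ f2 (by positivity),
    fm _ _ _ f3 (by positivity), fm _ _ _ f3 (by positivity), fm _ _ _ f3 (by positivity),
    fm _ _ _ f4 f5, fm _ _ _ f1 (by positivity), fm _ _ _ f3 (by positivity),
    fm _ _ _ f6 (by positivity), fm _ _ _ f7 f9]
  obtain ⟨b, hb⟩ : ∃ b, b = 6 * n + 1 := ⟨_, rfl⟩
  have hlog : ∀ m ≤ 6 * n, Nat.log p m < b := fun m hm =>
    lt_of_le_of_lt (Nat.log_le_self _ _) (by omega)
  have hkn : k ≤ n := by omega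
  rw [Nat.factorization_factorial hp (hlog (3 * n) (by omega)),
    Nat.factorization_factorial hp (hlog (3 * k) (by omega)),
    Nat.factorization_factorial hp (hlog k (by omega)),
    Nat.factorization_factorial hp (hlog j (by omega)),
    Nat.factorization_factorial hp (hlog (k - j) (by omega)),
    Nat.factorization_factorial hp (hlog (6 * k) (by omega)),
    Nat.factorization_factorial hp (hlog n (by omega)),
    Nat.factorization_factorial hp (hlog (2 * n) (by omega)),
    Nat.factorization_eq_card_pow_dvd_of_lt hp (Nat.pos_of_ne_zero f10)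
      (Nat.lt_pow_of_log_lt hp.one_lt (hlog (2 * n - 1) (by omega))), Finset.card_filter]
  have hsum := Finset.sum_le_sum (s := Ico 1 b) fun i hi => local_ineq (p ^ i) k j
    (by
      have h4 := (Finset.mem_Ico.1 hi).1
      calc 2 ≤ p := hp.two_le
        _ = p ^ 1 := (pow_one p).symm
        _ ≤ p ^ i := Nat.pow_le_pow_right hp.pos h4) hjk hn
  rw [← hn'] at hsum
  simp only [sum_add_distrib, ← mul_sum] at hsum
  have hlast : ∑ i ∈ Ico 1 b, (if p ^ i = 3 ∧ 1 ≤ j then 1 else 0) ≤
      ((432 : ℕ) ^ j).factorization p := by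
    rw [← Finset.card_filter]
    by_cases h5 : p = 3 ∧ 1 ≤ j
    · refine le_trans ?_ (h5.2.trans (g0 h5.1))
      rw [Finset.card_le_one]
      intro a ha c hc
      rw [Finset.mem_filter] at ha hc
      have h6 : p ^ a = p ^ c := ha.2.1.trans hc.2.1.symm
      exact Nat.pow_right_injective hp.two_le h6
    · rw [Finset.card_eq_zero.2]
      · exact Nat.zero_le _
      · rw [Finset.filter_eq_empty_iff]
        intro i hi h6
        apply h5
        refine ⟨?_, h6.2⟩
        have h7 : p ∣ 3 := by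
          rw [← h6.1]
          exact dvd_pow_self p (by have := (Finset.mem_Ico.1 hi).1; omega)
        exact (Nat.prime_dvd_prime_iff_eq hp Nat.prime_three).1 h7
  linarith

/-- The convolution square. -/
def S (n : ℕ) : ℕ := ∑ k ∈ range (n + 1), t k * t (n - k)

/-- Integrality of the normalised sum. -/
theorem base_dvd (n : ℕ) (hn : 1 ≤ n) : (2 * n - 1) * (3 * n).choose n ∣ S n := by
  have h := clausen n
  have h1 : (((2 * n - 1) * (3 * n).choose n : ℕ) : ℤ) ∣
      ((∑ k ∈ range (n + 1), t k * t (n - k) : ℕ) : ℤ) := by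
    rw [h]
    refine Finset.dvd_sum fun k hk => ?_
    have hk' : k ≤ n := Nat.lt_succ_iff.1 (mem_range.1 hk)
    by_cases h2 : n - k ≤ k
    · have h3 := term_dvd k (n - k) h2 (by omega)
      rw [show k + (n - k) = n by omega] at h3
      have h4 : (((2 * n - 1) * (3 * n).choose n : ℕ) : ℤ) ∣
          ((T k * (k.choose (n - k) * 432 ^ (n - k)) : ℕ) : ℤ) := Int.natCast_dvd_natCast.2 h3
      have h5 : (T k : ℤ) * (k.choose (n - k) * (-432) ^ (n - k)) =
          ((T k * (k.choose (n - k) * 432 ^ (n - k)) : ℕ) : ℤ) * (-1) ^ (n - k) := by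
        rw [neg_pow]
        push_cast
        ring
      rw [h5]
      exact Dvd.dvd.mul_right h4 _
    · rw [Nat.choose_eq_zero_of_lt (show k < n - k by omega)]
      simp
  exact Int.natCast_dvd_natCast.1 h1

end Pool.Agent.X318.SixK
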