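import Mathlib
import Pool.Agent.X318.SixKDiv

/-!
# The 2-adic valuation of the convolution square of `C(6k,3k) C(3k,k)`
-/

set_option autoImplicit false

open Finset

namespace Pool.Agent.X318.SixK

/-- Binary digit sum. -/
def s (m : ℕ) : ℕ := (Nat.digits 2 m).sum

/-- The 2-adic valuation. -/
abbrev v (m : ℕ) : ℕ := padicValNat 2 m

lemma v_fac (m : ℕ) : v m.factorial + s m = m := by
  have h := sub_one_mul_padicValNat_factorial (p := 2) m
  have h1 := Nat.digit_sum_le 2 m
  unfold s v
  omega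

lemma s_two_mul (m : ℕ) : s (2 * m) = s m := by
  rcases Nat.eq_zero_or_pos m with h | h
  · simp [h]
  · unfold s
    rw [Nat.digits_def' (by norm_num) (by omega : 0 < 2 * m)]
    simp

lemma s_two_mul_add_one (m : ℕ) : s (2 * m + 1) = s m + 1 := by
  unfold s
  rw [Nat.digits_def' (by norm_num) (by omega : 0 < 2 * m + 1)]
  rw [show (2 * m + 1) / 2 = m by omega, show (2 * m + 1) % 2 = 1 by omega, List.sum_cons]
  ring

lemma s_zero : s 0 = 0 := by simp [s]

lemma s_pos {m : ℕ} (h : 1 ≤ m) : 1 ≤ s m := by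
  induction m using Nat.strong_induction_on with
  | _ m ih =>
    rcases Nat.even_or_odd' m with ⟨i, hi | hi⟩
    · rw [hi, s_two_mul]
      exact ih i (by omega) (by omega)
    · rw [hi, s_two_mul_add_one]
      omega

lemma s_eq_one_iff (m : ℕ) : s m = 1 ↔ ∃ i, m = 2 ^ i := by
  constructor
  · intro h
    induction m using Nat.strong_induction_on with
    | _ m ih =>
      rcases Nat.even_or_odd' m with ⟨i, hi | hi⟩
      · rw [hi, s_two_mul] at h
        have hm : m ≠ 0 := by
          intro h0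
          have hi0 : i = 0 := by omega
          rw [hi0, s_zero] at h
          omega
        obtain ⟨r, hr⟩ := ih i (by omega) h
        exact ⟨r + 1, by rw [hi, hr, pow_succ]; ring⟩
      · rw [hi, s_two_mul_add_one] at h
        have hi0 : i = 0 := by
          by_contra hne
          have := s_pos (Nat.one_le_iff_ne_zero.2 hne)
          omega
        exact ⟨0, by rw [hi, hi0]; norm_num⟩
  · rintro ⟨i, rfl⟩
    induction i with
    | zero => simp [s]
    | succ i ih =>
      rw [pow_succ, mul_comm, s_two_mul, ih]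

lemma s_three_mul {m : ℕ} (h : 1 ≤ m) : 2 ≤ s (3 * m) := by
  by_contra hcon
  push Not at hcon
  have h1 := s_pos (show 1 ≤ 3 * m by omega)
  obtain ⟨i, hi⟩ := (s_eq_one_iff (3 * m)).1 (by omega)
  have h2 : 3 ∣ 2 ^ i := ⟨m, hi.symm⟩
  have h3 := Nat.prime_three.dvd_of_dvd_pow h2
  omega

lemma s_three_mul_pow (i : ℕ) : s (3 * 2 ^ i) = 2 := by
  induction i with
  | zero => simp [s]
  | succ i ih =>
    rw [pow_succ, show 3 * (2 ^ i * 2) = 2 * (3 * 2 ^ i) by ring, s_two_mul, ih]

lemma vm (a b : ℕ) (ha : a ≠ 0) (hb : b ≠ 0) : v (a * b) = v a + v b :=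
  padicValNat.mul ha hb

lemma t_pos (k : ℕ) : 0 < t k :=
  Nat.mul_pos (Nat.choose_pos (by omega)) (Nat.choose_pos (by omega))

lemma v_t (k : ℕ) : v (t k) = 2 * s k := by
  have h := congrArg v (t_factorial k)
  rw [vm _ _ (t_pos k).ne' (by positivity), vm _ _ (by positivity) (by positivity),
    vm _ _ (by positivity) (by positivity)] at h
  have h6 := v_fac (6 * k)
  have h3 := v_fac (3 * k)
  have h2 := v_fac (2 * k)
  have h1 := v_fac k
  rw [s_two_mul] at h2
  rw [show 6 * k = 2 * (3 * k) by ring, s_two_mul, show 2 * (3 * k) = 6 * k by ring] at h6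
  omega

lemma v_choose {n k : ℕ} (h : k ≤ n) : v (n.choose k) + s n = s k + s (n - k) := by
  have h0 := congrArg v (Nat.choose_mul_factorial_mul_factorial h)
  rw [vm _ _ (Nat.mul_pos (Nat.choose_pos h) k.factorial_pos).ne' (Nat.factorial_ne_zero _),
    vm _ _ (Nat.choose_pos h).ne' (Nat.factorial_ne_zero _)] at h0
  have h1 := v_fac n
  have h2 := v_fac k
  have h3 := v_fac (n - k)
  omega

lemma v_choose_three (n : ℕ) : v ((3 * n).choose n) + s (3 * n) = 2 * s n := by
  have h := v_choose (show n ≤ 3 * n by omega)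
  rw [show 3 * n - n = 2 * n by omega, s_two_mul] at h
  omega

lemma odd_iff_v {m : ℕ} (h : 0 < m) : m % 2 = 1 ↔ v m = 0 := by
  rw [padicValNat.eq_zero_iff]
  omega

/-- The terms, normalised by `4^s(n)`. -/
lemma term_norm {n k : ℕ} (h : k ≤ n) : ∃ w, t k * t (n - k) = 4 ^ s n * w ∧
    w % 2 = n.choose k % 2 ∧ (v (n.choose k) ≠ 0 → 4 ∣ w) := by
  have h1 : v (t k * t (n - k)) = 2 * s n + 2 * v (n.choose k) := by
    rw [vm _ _ (t_pos _).ne' (t_pos _).ne', v_t, v_t]
    have := v_choose h
    omega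
  have hpos : 0 < t k * t (n - k) := Nat.mul_pos (t_pos _) (t_pos _)
  have h2 : 4 ^ s n ∣ t k * t (n - k) := by
    rw [show 4 = 2 ^ 2 by norm_num, ← pow_mul, padicValNat_dvd_iff_le hpos.ne']
    change _ ≤ v _
    omega
  obtain ⟨w, hw⟩ := h2
  have hw0 : w ≠ 0 := by
    rintro rfl
    omega
  have h3 : v w = 2 * v (n.choose k) := by
    rw [hw, vm _ _ (by positivity) hw0] at h1
    have h4 : v (4 ^ s n) = 2 * s n := by
      unfold v
      rw [show 4 = 2 ^ 2 by norm_num, ← pow_mul, padicValNat.prime_pow]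
    omega
  refine ⟨w, hw, ?_, ?_⟩
  · have h5 := odd_iff_v (Nat.pos_of_ne_zero hw0)
    have h6 := odd_iff_v (Nat.choose_pos h)
    by_cases h7 : v (n.choose k) = 0
    · rw [h6.2 h7, h5.2 (by omega)]
    · have h8 : ¬ n.choose k % 2 = 1 := fun h => h7 (h6.1 h)
      have h9 : ¬ w % 2 = 1 := fun h => h7 (by have := h5.1 h; omega)
      omega
  · intro h7
    rw [show 4 = 2 ^ 2 by norm_num, padicValNat_dvd_iff_le hw0]
    change _ ≤ v _
    omega

/-- Halving a symmetric sum, odd number of terms. -/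
lemma sym_sum_odd (m : ℕ) (f : ℕ → ℤ) (hf : ∀ k ≤ 2 * m, f k = f (2 * m - k)) :
    ∑ k ∈ range (2 * m + 1), f k = 2 * ∑ k ∈ range m, f k + f m := by
  rw [show 2 * m + 1 = m + (m + 1) by ring, Finset.sum_range_add, Finset.sum_range_succ']
  have h : ∑ k ∈ range m, f (m + (k + 1)) = ∑ k ∈ range m, f k := by
    rw [← Finset.sum_range_reflect]
    refine sum_congr rfl fun k hk => ?_
    have hk' := mem_range.1 hk
    rw [hf k (by omega)]
    congr 1
    omega
  rw [h, add_zero]
  ring

/-- Halving a symmetric sum, even number of terms. -/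
lemma sym_sum_even (m : ℕ) (f : ℕ → ℤ) (hf : ∀ k ≤ 2 * m + 1, f k = f (2 * m + 1 - k)) :
    ∑ k ∈ range (2 * m + 1 + 1), f k = 2 * ∑ k ∈ range (m + 1), f k := by
  rw [show 2 * m + 1 + 1 = (m + 1) + (m + 1) by ring, Finset.sum_range_add]
  have h : ∑ k ∈ range (m + 1), f (m + 1 + k) = ∑ k ∈ range (m + 1), f k := by
    rw [← Finset.sum_range_reflect]
    refine sum_congr rfl fun k hk => ?_
    have hk' := mem_range.1 hk
    rw [hf k (by omega)]
    congr 1
    omega
  rw [h]
  ring

/-- The normalised sum modulo 4. -/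
lemma S_norm (n : ℕ) (hn : 1 ≤ n) : ∃ W : ℤ, (S n : ℤ) = 4 ^ s n * W ∧
    (s n = 1 → W % 4 = 2) ∧ (2 ≤ s n → W % 4 = 0) := by
  have h0 : ∀ k, ∃ w : ℤ, k ≤ n → ((t k * t (n - k) : ℕ) : ℤ) = 4 ^ s n * w ∧
      w % 2 = (n.choose k : ℤ) % 2 ∧ (v (n.choose k) ≠ 0 → 4 ∣ w) := by
    intro k
    by_cases h : k ≤ n
    · obtain ⟨w, h1, h2, h3⟩ := term_norm h
      refine ⟨w, fun _ => ⟨by rw [h1]; push_cast; ring, by omega, fun h4 => ?_⟩⟩
      have := h3 h4
      omega
    · exact ⟨0, fun h' => absurd h' h⟩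
  choose w hw using h0
  have hpow : (4 : ℤ) ^ s n ≠ 0 := by positivity
  have hsym : ∀ k ≤ n, w k = w (n - k) := by
    intro k hk
    apply mul_left_cancel₀ hpow
    rw [← (hw k hk).1, ← (hw (n - k) (Nat.sub_le _ _)).1, Nat.sub_sub_self hk]
    push_cast
    ring
  have he : ∀ k, ∃ e : ℤ, k ≤ n → w k = n.choose k + 2 * e := by
    intro k
    by_cases h : k ≤ n
    · refine ⟨(w k - n.choose k) / 2, fun _ => ?_⟩
      have := (hw k h).2.1
      omega
    · exact ⟨0, fun h' => absurd h' h⟩
  choose e he using he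
  have hesym : ∀ k ≤ n, e k = e (n - k) := by
    intro k hk
    have h1 := he k hk
    have h2 := he (n - k) (Nat.sub_le _ _)
    rw [Nat.choose_symm hk, ← hsym k hk] at h2
    linarith
  refine ⟨∑ k ∈ range (n + 1), w k, ?_, ?_⟩
  · unfold S
    rw [mul_sum]
    push_cast
    refine sum_congr rfl fun k hk => ?_
    rw [← (hw k (Nat.lt_succ_iff.1 (mem_range.1 hk))).1]
    push_cast
    ring
  · have hsum : ∑ k ∈ range (n + 1), w k = 2 ^ n + 2 * ∑ k ∈ range (n + 1), e k := by
      rw [mul_sum]
      have h1 : (2 : ℤ) ^ n = ∑ k ∈ range (n + 1), (n.choose k : ℤ) := by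
        have := Nat.sum_range_choose n
        exact_mod_cast this.symm
      rw [h1, ← sum_add_distrib]
      exact sum_congr rfl fun k hk => he k (Nat.lt_succ_iff.1 (mem_range.1 hk))
    rcases Nat.even_or_odd' n with ⟨m, hm | hm⟩
    · -- even case
      have hsm : s n = s m := by rw [hm, s_two_mul]
      have h1 : ∑ k ∈ range (n + 1), e k = 2 * ∑ k ∈ range m, e k + e m := by
        rw [hm]
        refine sym_sum_odd m e fun k hk => ?_
        rw [← hm]
        exact hesym k (by omega)
      have h2 := he m (by omega)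
      have h3 : v (n.choose m) = s n := by
        have := v_choose (show m ≤ n by omega)
        rw [show n - m = m by omega] at this
        omega
      have h4 : (4 : ℤ) ∣ w m := (hw m (by omega)).2.2 (by
        have := s_pos hn
        omega)
      have h5 : (4 : ℤ) ∣ 2 ^ n := by
        rw [show (4 : ℤ) = 2 ^ 2 by norm_num]
        exact pow_dvd_pow _ (by omega)
      have hcpos : 0 < n.choose m := Nat.choose_pos (by omega)
      constructor
      · intro hs
        -- v (choose) = 1
        have h6 : 2 ∣ n.choose m := by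
          have := (padicValNat_dvd_iff_le (p := 2) (a := n.choose m) (n := 1) hcpos.ne').2
            (by change _ ≤ v _; omega)
          simpa using this
        have h7 : ¬ 4 ∣ n.choose m := by
          intro h8
          rw [show 4 = 2 ^ 2 by norm_num, padicValNat_dvd_iff_le hcpos.ne'] at h8
          change _ ≤ v _ at h8
          omega
        rw [hsum, h1]
        omega
      · intro hs
        have h6 : 4 ∣ n.choose m := by
          rw [show 4 = 2 ^ 2 by norm_num, padicValNat_dvd_iff_le hcpos.ne']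
          change _ ≤ v _
          omega
        rw [hsum, h1]
        omega
    · -- odd case
      have h1 : ∑ k ∈ range (n + 1), e k = 2 * ∑ k ∈ range (m + 1), e k := by
        rw [hm]
        refine sym_sum_even m e fun k hk => ?_
        rw [← hm]
        exact hesym k (by omega)
      have hsm : s n = s m + 1 := by rw [hm, s_two_mul_add_one]
      constructor
      · intro hs
        have hm0 : m = 0 := by
          by_contra hne
          have := s_pos (Nat.one_le_iff_ne_zero.2 hne)
          omega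
        have hn1 : n = 1 := by omega
        rw [hsum, h1, hn1]
        omega
      · intro hs
        have hm0 : 1 ≤ m := by
          by_contra hne
          have hm0 : m = 0 := by omega
          rw [hm0, s_zero] at hsm
          omega
        have h5 : (4 : ℤ) ∣ 2 ^ n := by
          rw [show (4 : ℤ) = 2 ^ 2 by norm_num]
          exact pow_dvd_pow _ (by omega)
        rw [hsum, h1]
        omega

lemma S_pos (n : ℕ) : 0 < S n := by
  unfold S
  refine Finset.sum_pos (fun k _ => Nat.mul_pos (t_pos _) (t_pos _)) ⟨0, mem_range.2 (by omega)⟩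

lemma v_S_one {n : ℕ} (hn : 1 ≤ n) (hs : s n = 1) : 8 ∣ S n ∧ ¬ 16 ∣ S n := by
  obtain ⟨W, h1, h2, -⟩ := S_norm n hn
  have h3 := h2 hs
  rw [hs, pow_one] at h1
  omega

lemma v_S_two {n : ℕ} (hn : 1 ≤ n) (hs : 2 ≤ s n) : 2 ^ (2 * s n + 2) ∣ S n := by
  obtain ⟨W, h1, -, h2⟩ := S_norm n hn
  have h3 := h2 hs
  have h4 : (4 : ℤ) ∣ W := by omega
  have h5 : (((2 ^ (2 * s n + 2) : ℕ)) : ℤ) ∣ (S n : ℤ) := by
    rw [h1]
    have h6 : (((2 ^ (2 * s n + 2) : ℕ)) : ℤ) = 4 ^ s n * 4 := by
      push_cast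
      rw [pow_add, pow_mul]
      norm_num
    rw [h6]
    exact mul_dvd_mul_left _ h4
  exact Int.natCast_dvd_natCast.1 h5

/-- The main theorem: with `S_n = (2n-1) C(3n,n) a`, the integer `a` is divisible by `8`, and `a/8`
is odd exactly when `n` is a power of two. -/
theorem main (n : ℕ) (hn : 1 ≤ n) : ∃ b : ℕ, S n = (2 * n - 1) * (3 * n).choose n * (8 * b) ∧
    (Odd b ↔ ∃ i, n = 2 ^ i) := by
  obtain ⟨a, ha⟩ := base_dvd n hn
  have hS := S_pos n
  have ha0 : a ≠ 0 := by
    rintro rfl
    omega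
  have hc0 : (3 * n).choose n ≠ 0 := (Nat.choose_pos (by omega)).ne'
  have hn0 : 2 * n - 1 ≠ 0 := by omega
  have h1 : v (S n) = v ((3 * n).choose n) + v a := by
    rw [ha, vm _ _ (Nat.mul_ne_zero hn0 hc0) ha0, vm _ _ hn0 hc0]
    have h2 : v (2 * n - 1) = 0 := (odd_iff_v (Nat.pos_of_ne_zero hn0)).1 (by omega)
    omega
  have h2 := v_choose_three n
  have h3 := s_three_mul hn
  by_cases hs : s n = 1
  · obtain ⟨i, hi⟩ := (s_eq_one_iff n).1 hs
    have h4 := s_three_mul_pow i
    rw [← hi] at h4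
    have h5 := v_S_one hn hs
    have h6 : 3 ≤ v (S n) := by
      have := (padicValNat_dvd_iff_le (p := 2) (a := S n) (n := 3) hS.ne').1 (by
        norm_num
        exact h5.1)
      exact this
    have h7 : ¬ 4 ≤ v (S n) := by
      intro h
      have := (padicValNat_dvd_iff_le (p := 2) (a := S n) (n := 4) hS.ne').2 h
      norm_num at this
      exact h5.2 this
    have h8 : v a = 3 := by omega
    have h9 : 8 ∣ a := by
      have := (padicValNat_dvd_iff_le (p := 2) (a := a) (n := 3) ha0).2 h8.ge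
      norm_num at this
      exact this
    have h10 : ¬ 16 ∣ a := by
      intro h
      have := (padicValNat_dvd_iff_le (p := 2) (a := a) (n := 4) ha0).1 (by norm_num; exact h)
      change _ ≤ v a at this
      omega
    obtain ⟨b, hb⟩ := h9
    refine ⟨b, by rw [ha, hb], ?_⟩
    constructor
    · intro _
      exact ⟨i, hi⟩
    · intro _
      rw [← Nat.not_even_iff_odd]
      rintro ⟨c, hc⟩
      apply h10
      exact ⟨c, by rw [hb, hc]; ring⟩
  · have hs1 := s_pos hn
    have h5 := v_S_two hn (by omega)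
    have h6 : 2 * s n + 2 ≤ v (S n) :=
      (padicValNat_dvd_iff_le (p := 2) hS.ne').1 h5
    have h8 : 4 ≤ v a := by omega
    have h9 : 16 ∣ a := by
      have := (padicValNat_dvd_iff_le (p := 2) (a := a) (n := 4) ha0).2 h8
      norm_num at this
      exact this
    obtain ⟨b, hb⟩ := h9
    refine ⟨2 * b, by rw [ha, hb]; ring, ?_⟩
    constructor
    · intro h
      exact absurd (even_two_mul b) (Nat.not_even_iff_odd.2 h)
    · rintro ⟨i, hi⟩
      exact absurd ((s_eq_one_iff n).2 ⟨i, hi⟩) hs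

end Pool.Agent.X318.SixK
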