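import Mathlib

namespace Pool.Agent.X318.Crown
open Polynomial

/-- `k! * coeff k` -/
noncomputable def bb (p : ℝ[X]) (k : ℕ) : ℝ := (k.factorial : ℝ) * p.coeff k

def ULC (p : ℝ[X]) : Prop := (∀ k, 0 ≤ p.coeff k) ∧
  ∀ i j, i ≤ j → bb p i * bb p (j + 2) ≤ bb p (i + 1) * bb p (j + 1)

lemma bb_nonneg {p : ℝ[X]} (h : ULC p) (k : ℕ) : 0 ≤ bb p k :=
  mul_nonneg (by positivity) (h.1 k)

lemma ulc_one : ULC (1 : ℝ[X]) := by
  refine ⟨fun k => ?_, fun i j _ => ?_⟩
  · rw [coeff_one]; split_ifs <;> norm_num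
  · simp [bb, coeff_one]

lemma bb_mul_zero (p : ℝ[X]) (c : ℝ) : bb ((X + C c) * p) 0 = c * bb p 0 := by
  simp [bb, add_mul, mul_coeff_zero]

lemma bb_mul_succ (p : ℝ[X]) (c : ℝ) (k : ℕ) :
    bb ((X + C c) * p) (k + 1) = c * bb p (k + 1) + (k + 1) * bb p k := by
  simp only [bb, add_mul, coeff_add, coeff_X_mul, coeff_C_mul, Nat.factorial_succ]
  push_cast
  ring

lemma ulc_mul {p : ℝ[X]} (h : ULC p) {c : ℝ} (hc : 0 ≤ c) : ULC ((X + C c) * p) := by
  refine ⟨fun k => ?_, fun i j hij => ?_⟩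
  · rcases k with _ | k
    · simp only [add_mul, coeff_add, mul_coeff_zero, coeff_X_zero, zero_mul, zero_add, coeff_C_zero]
      exact mul_nonneg hc (h.1 0)
    · simp only [add_mul, coeff_add, coeff_X_mul, coeff_C_mul]
      exact add_nonneg (h.1 k) (mul_nonneg hc (h.1 (k + 1)))
  · have hb := fun k => bb_nonneg h k
    set b := bb p with hbd
    have key := h.2
    rw [← hbd] at key
    rw [show j + 2 = (j + 1) + 1 from rfl, bb_mul_succ, bb_mul_succ, bb_mul_succ, ← hbd]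
    rcases i with _ | i
    · rw [bb_mul_zero, ← hbd]
      have k1 := key 0 j (by omega)
      -- b 0 * b (j+2) ≤ b 1 * b (j+1)
      rcases j with _ | j
      · push_cast
        simp only [zero_add] at *
        nlinarith [mul_nonneg (mul_nonneg hc hc) (sub_nonneg.mpr k1), mul_nonneg (hb 0) (hb 0), mul_nonneg (hb 0) (hb 1), mul_nonneg hc (mul_nonneg (hb 0) (hb 1))]
      · have k2 := key 0 j (by omega)
        push_cast
        simp only [zero_add] at *
        have e1 := mul_nonneg (mul_nonneg hc hc) (sub_nonneg.mpr k1)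
        have e2 := mul_nonneg (mul_nonneg hc (by positivity : (0:ℝ) ≤ (j:ℝ) + 2)) (sub_nonneg.mpr k2)
        have e3 := mul_nonneg (mul_nonneg (hb 0) (hb (j + 1))) (by positivity : (0:ℝ) ≤ (j:ℝ) + 2)
        rw [show j + 1 + 1 = j + 2 from rfl, show j + 1 + 2 = j + 3 from rfl] at *
        nlinarith [mul_nonneg hc (mul_nonneg (hb 0) (hb (j+2)))]
    · rw [bb_mul_succ, ← hbd]
      obtain ⟨d, rfl⟩ := Nat.exists_eq_add_of_le hij
      rw [show i + 1 + 1 = i + 2 from rfl]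
      -- A = b (i+1), etc
      have k1 := key (i + 1) (i + 1 + d) (by omega)
      have k2 : b (i + 1) * b (i + 1 + d + 1) ≤ b (i + 2) * b (i + 1 + d) := by
        rcases d with _ | d
        · simp only [add_zero]; rw [show i + 1 + 1 = i + 2 from rfl, mul_comm]
        · have := key (i + 1) (i + 1 + d) (by omega)
          rw [show i + 1 + (d + 1) + 1 = i + 1 + d + 2 from by ring, show i + 1 + (d + 1) = i + 1 + d + 1 from by ring,
            show i + 2 = i + 1 + 1 from rfl]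
          exact this
      have k3 : b i * b (i + 1 + d + 2) ≤ b (i + 1) * b (i + 1 + d + 1) := by
        have := key i (i + 1 + d + 1 - 1) (by omega)
        have h2 := key i (i + 1 + d) (by omega)
        exact h2
      have k4 : b i * b (i + 1 + d + 1) ≤ b (i + 1) * b (i + 1 + d) := by
        have h2 := key i (i + d) (by omega)
        rw [show i + 1 + d + 1 = i + d + 2 by ring, show i + 1 + d = i + d + 1 by ring]
        exact h2
      push_cast
      have hi : (0 : ℝ) ≤ i := by positivity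
      have hd : (0 : ℝ) ≤ d := by positivity
      have e1 := mul_nonneg (mul_nonneg hc hc) (sub_nonneg.mpr k1)
      have e2 := mul_nonneg (mul_nonneg hc (by positivity : (0:ℝ) ≤ (d : ℝ) + 1)) (sub_nonneg.mpr k2)
      have e3 := mul_nonneg (mul_nonneg hc (by positivity : (0:ℝ) ≤ (i : ℝ) + 1)) (sub_nonneg.mpr (k3.trans k2))
      have e4 := mul_nonneg (by positivity : (0:ℝ) ≤ ((i : ℝ) + 1) * ((i : ℝ) + 1 + d + 2)) (sub_nonneg.mpr k4)
      have e5 := mul_nonneg (by positivity : (0:ℝ) ≤ ((d : ℝ) + 1)) (mul_nonneg (hb (i + 1)) (hb (i + 1 + d)))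
      rw [show i + 1 + d + 1 + 1 = i + 1 + d + 2 from rfl]
      linarith

lemma ulc_pow (c : ℝ) (hc : 0 ≤ c) (n : ℕ) {p : ℝ[X]} (h : ULC p) : ULC ((X + C c) ^ n * p) := by
  induction n with
  | zero => simpa using h
  | succ n ih => rw [pow_succ', mul_assoc]; exact ulc_mul ih hc

lemma ulc_prod {ι : Type*} (S : Finset ι) (c : ι → ℝ) (hc : ∀ i ∈ S, 0 ≤ c i) :
    ULC (∏ i ∈ S, (X + C (c i))) := by
  classical
  induction S using Finset.induction_on with
  | empty => simpa using ulc_one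
  | insert a S ha ih =>
    rw [Finset.prod_insert ha]
    exact ulc_mul (ih fun i hi => hc i (Finset.mem_insert_of_mem hi)) (hc a (Finset.mem_insert_self _ _))

/-- Newton type inequality -/
lemma ulc_newton {p : ℝ[X]} (h : ULC p) (k : ℕ) :
    ((k : ℝ) + 2) * (p.coeff k * p.coeff (k + 2)) ≤ ((k : ℝ) + 1) * p.coeff (k + 1) ^ 2 := by
  have h1 := h.2 k k le_rfl
  simp only [bb, Nat.factorial_succ] at h1
  push_cast at h1
  have hf : (0 : ℝ) < (k.factorial : ℝ) := by positivity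
  have hf2 : (0 : ℝ) < (k.factorial : ℝ) ^ 2 * ((k : ℝ) + 1) := by positivity
  have : ((k.factorial : ℝ) ^ 2 * ((k : ℝ) + 1)) * (((k : ℝ) + 2) * (p.coeff k * p.coeff (k + 2)))
      ≤ ((k.factorial : ℝ) ^ 2 * ((k : ℝ) + 1)) * (((k : ℝ) + 1) * p.coeff (k + 1) ^ 2) := by
    nlinarith
  exact le_of_mul_le_mul_left this hf2

/-! Chebyshev part -/

noncomputable def xr (m k : ℕ) : ℝ := Real.cos ((k + 1) * Real.pi / (m + 1))

lemma U_eval_prod (m : ℕ) (x : ℝ) : (Chebyshev.U ℝ m).eval x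
    = 2 ^ m * ∏ k ∈ Finset.range m, (x - xr m k) := by
  have hr := Chebyshev.roots_U_real m
  have hcard : Multiset.card (Chebyshev.U ℝ m).roots = (Chebyshev.U ℝ m).natDegree := by
    rw [hr, Chebyshev.natDegree_U_natCast]
    have := Finset.card_image_of_injOn ((Finset.range m).nodup_map_iff_injOn.mp (Chebyshev.roots_U_real_nodup m))
    rw [Finset.card_range] at this
    exact this
  have h := Polynomial.C_leadingCoeff_mul_prod_multiset_X_sub_C hcard
  rw [← h, hr, Chebyshev.leadingCoeff_U_natCast]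
  have hmap : (((Finset.range m).image (fun (k : ℕ) => Real.cos ((k + 1) * Real.pi / (m + 1)))).val.map
      (fun a => (X - C a : ℝ[X]))).prod = ∏ k ∈ Finset.range m, (X - C (xr m k)) := by
    rw [Finset.prod_map_val, Finset.prod_image]
    · rfl
    · exact (Finset.range m).nodup_map_iff_injOn.mp (Chebyshev.roots_U_real_nodup m)
  rw [hmap, eval_mul, eval_C, eval_prod]
  simp

lemma U_sq (m : ℕ) (x : ℝ) : ((Chebyshev.U ℝ m).eval x) ^ 2
    = ∏ k ∈ Finset.range m, (4 * x ^ 2 - 4 * (xr m k) ^ 2) := by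
  have h1 := U_eval_prod m x
  have h2 := U_eval_prod m (-x)
  have h3 := Chebyshev.U_eval_neg (R := ℝ) m x
  have hsgn : (((Int.negOnePow (m : ℤ) : ℤˣ) : ℤ) : ℝ) = (-1) ^ m := by
    rw [Int.negOnePow_def]; simp
  rw [h2, hsgn] at h3
  have h5 : ∏ k ∈ Finset.range m, (-x - xr m k) = (-1) ^ m * ∏ k ∈ Finset.range m, (x + xr m k) := by
    have h8 : ∀ k, -x - xr m k = (-1) * (x + xr m k) := by intro k; ring
    simp only [h8, Finset.prod_mul_distrib, Finset.prod_const, Finset.card_range]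
  rw [h5] at h3
  have h6 : (Chebyshev.U ℝ m).eval x = 2 ^ m * ∏ k ∈ Finset.range m, (x + xr m k) := by
    have h7 : ((-1 : ℝ) ^ m) * ((-1) ^ m) = 1 := by
      rw [← mul_pow]; simp
    calc (Chebyshev.U ℝ m).eval x = ((-1 : ℝ) ^ m * (-1) ^ m) * (Chebyshev.U ℝ m).eval x := by rw [h7, one_mul]
      _ = (-1 : ℝ) ^ m * ((-1) ^ m * (Chebyshev.U ℝ m).eval x) := by ring
      _ = (-1 : ℝ) ^ m * (2 ^ m * ((-1) ^ m * ∏ k ∈ Finset.range m, (x + xr m k))) := by rw [← h3]
      _ = ((-1 : ℝ) ^ m * (-1) ^ m) * (2 ^ m * ∏ k ∈ Finset.range m, (x + xr m k)) := by ring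
      _ = _ := by rw [h7, one_mul]
  calc ((Chebyshev.U ℝ m).eval x) ^ 2 = (Chebyshev.U ℝ m).eval x * (Chebyshev.U ℝ m).eval x := by ring
    _ = (2 ^ m * ∏ k ∈ Finset.range m, (x - xr m k)) * (2 ^ m * ∏ k ∈ Finset.range m, (x + xr m k)) := by
      rw [← h1, ← h6]
    _ = (4 : ℝ) ^ m * ∏ k ∈ Finset.range m, ((x - xr m k) * (x + xr m k)) := by
      rw [Finset.prod_mul_distrib, show (4 : ℝ) = 2 * 2 by norm_num, mul_pow]; ring
    _ = ∏ k ∈ Finset.range m, (4 * ((x - xr m k) * (x + xr m k))) := by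
      rw [Finset.prod_mul_distrib (f := fun _ => (4 : ℝ))]
      simp
    _ = _ := by
      apply Finset.prod_congr rfl
      intro k _; ring

/-! Morgan-Voyce type sums -/

noncomputable def E (n : ℕ) (T : ℝ) : ℝ := ∑ s ∈ Finset.range (n + 1), ((n + s).choose (2 * s) : ℝ) * T ^ s

lemma E_ext (n K : ℕ) (hK : n + 1 ≤ K) (T : ℝ) :
    E n T = ∑ s ∈ Finset.range K, ((n + s).choose (2 * s) : ℝ) * T ^ s := by
  rw [E]
  apply Finset.sum_subset
  · intro s hs; simp at hs ⊢; omega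
  · intro s _ hs
    simp at hs
    rw [Nat.choose_eq_zero_of_lt (by omega)]
    simp

lemma choose_id (N k : ℕ) : ((N + 2).choose (k + 2) : ℝ) = 2 * ((N + 1).choose (k + 2) : ℝ)
    - (N.choose (k + 2) : ℝ) + (N.choose k : ℝ) := by
  have h1 : ((N + 2).choose (k + 2) : ℝ) = ((N + 1).choose (k + 1) : ℝ) + ((N + 1).choose (k + 2) : ℝ) := by
    exact_mod_cast Nat.choose_succ_succ (N + 1) (k + 1)
  have h2 : ((N + 1).choose (k + 1) : ℝ) = (N.choose k : ℝ) + (N.choose (k + 1) : ℝ) := by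
    exact_mod_cast Nat.choose_succ_succ N k
  have h3 : ((N + 1).choose (k + 2) : ℝ) = (N.choose (k + 1) : ℝ) + (N.choose (k + 2) : ℝ) := by
    exact_mod_cast Nat.choose_succ_succ N (k + 1)
  linarith

lemma E_rec (n : ℕ) (T : ℝ) : E (n + 2) T = (T + 2) * E (n + 1) T - E n T := by
  have h1 : E (n + 2) T = ∑ s ∈ Finset.range (n + 2), ((n + 3 + s).choose (2 * s + 2) : ℝ) * T ^ (s + 1) + 1 := by
    rw [E, Finset.sum_range_succ']
    congr 1
    · apply Finset.sum_congr rfl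
      intro s _
      congr 3
      omega
    · simp
  have h2 : E (n + 1) T = ∑ s ∈ Finset.range (n + 2), ((n + 2 + s).choose (2 * s + 2) : ℝ) * T ^ (s + 1) + 1 := by
    rw [E_ext (n + 1) (n + 3) (by omega), Finset.sum_range_succ']
    congr 1
    · apply Finset.sum_congr rfl
      intro s _
      congr 3
      omega
    · simp
  have h3 : E n T = ∑ s ∈ Finset.range (n + 2), ((n + 1 + s).choose (2 * s + 2) : ℝ) * T ^ (s + 1) + 1 := by
    rw [E_ext n (n + 3) (by omega), Finset.sum_range_succ']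
    congr 1
    · apply Finset.sum_congr rfl
      intro s _
      congr 3
      omega
    · simp
  have h4 : T * E (n + 1) T = ∑ s ∈ Finset.range (n + 2), ((n + 1 + s).choose (2 * s) : ℝ) * T ^ (s + 1) := by
    rw [E, Finset.mul_sum]
    apply Finset.sum_congr rfl
    intro s _
    ring
  have h5 : (T + 2) * E (n + 1) T - E n T = T * E (n + 1) T + 2 * E (n + 1) T - E n T := by ring
  rw [h5, h4, h2, h3, h1]
  have h6 : ∀ s, ((n + 3 + s).choose (2 * s + 2) : ℝ) * T ^ (s + 1)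
      = ((n + 1 + s).choose (2 * s) : ℝ) * T ^ (s + 1)
        + 2 * (((n + 2 + s).choose (2 * s + 2) : ℝ) * T ^ (s + 1))
        - ((n + 1 + s).choose (2 * s + 2) : ℝ) * T ^ (s + 1) := by
    intro s
    have := choose_id (n + 1 + s) (2 * s)
    rw [show n + 1 + s + 2 = n + 3 + s by ring, show n + 1 + s + 1 = n + 2 + s by ring] at this
    rw [this]; ring
  rw [Finset.sum_congr rfl (fun s _ => h6 s), Finset.sum_sub_distrib, Finset.sum_add_distrib, ← Finset.mul_sum]
  ring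

lemma E_zero (T : ℝ) : E 0 T = 1 := by simp [E]
lemma E_one (T : ℝ) : E 1 T = 1 + T := by
  simp [E, Finset.sum_range_succ]

lemma EU (n : ℕ) (x : ℝ) : E (n + 1) (4 * x ^ 2 - 4) + E n (4 * x ^ 2 - 4)
    = 2 + (4 * x ^ 2 - 4) * ((Chebyshev.U ℝ n).eval x) ^ 2 := by
  have inv : ∀ n : ℕ, ((Chebyshev.U ℝ (n + 1 : ℕ)).eval x) ^ 2
      - 2 * x * ((Chebyshev.U ℝ (n + 1 : ℕ)).eval x) * ((Chebyshev.U ℝ n).eval x) + ((Chebyshev.U ℝ n).eval x) ^ 2 = 1 := by
    intro n
    induction n with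
    | zero => simp; ring
    | succ n ih =>
      have h := Chebyshev.U_add_two ℝ (n : ℤ)
      have h2 : (Chebyshev.U ℝ ((n + 1 + 1 : ℕ) : ℤ)).eval x = 2 * x * (Chebyshev.U ℝ ((n + 1 : ℕ) : ℤ)).eval x - (Chebyshev.U ℝ (n : ℤ)).eval x := by
        have : ((n + 1 + 1 : ℕ) : ℤ) = (n : ℤ) + 2 := by push_cast; ring
        rw [this, h]
        simp
      rw [h2]
      linear_combination ih
  induction n using Nat.strong_induction_on with
  | _ n ih =>
    rcases n with _ | _ | n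
    · rw [zero_add, E_zero, E_one]; simp; ring
    · rw [show (0 + 1 + 1 : ℕ) = 0 + 2 from rfl, E_rec, show (0 + 1 : ℕ) = 1 from rfl, E_zero, E_one]
      simp; ring
    · have i1 := ih (n + 1) (by omega)
      have i0 := ih n (by omega)
      have r1 := E_rec (n + 1) (4 * x ^ 2 - 4)
      have r0 := E_rec n (4 * x ^ 2 - 4)
      have h := Chebyshev.U_add_two ℝ (n : ℤ)
      have h2 : (Chebyshev.U ℝ ((n + 1 + 1 : ℕ) : ℤ)).eval x = 2 * x * (Chebyshev.U ℝ ((n + 1 : ℕ) : ℤ)).eval x - (Chebyshev.U ℝ (n : ℤ)).eval x := by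
        have : ((n + 1 + 1 : ℕ) : ℤ) = (n : ℤ) + 2 := by push_cast; ring
        rw [this, h]
        simp
      have h3 := inv n
      rw [h2]
      rw [show n + 1 + 1 + 1 = n + 1 + 2 from rfl, r1]
      rw [show n + 1 + 1 = n + 2 from rfl] at *
      linear_combination (4 * x ^ 2 - 4 + 2) * i1 - i0 - 2 * (4 * x ^ 2 - 4) * h3 + r0

/-- `c n s = (n/s) * C(n+s-1, 2s-1)`, here as a sum of two binomials -/
noncomputable def cc (n s : ℕ) : ℝ := ((n + s).choose (2 * s) : ℝ) + ((n + s - 1).choose (2 * s) : ℝ)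

lemma cc_nonneg (n s : ℕ) : 0 ≤ cc n s := by unfold cc; positivity

noncomputable def P (n : ℕ) : ℝ[X] := ∑ s ∈ Finset.Icc 1 n, C (cc n s) * X ^ s

lemma P_eval (n : ℕ) (T : ℝ) : (P (n + 1)).eval T = E (n + 1) T + E n T - 2 := by
  rw [P, eval_finsetSum, E_ext n (n + 2) (by omega), E, ← Finset.sum_add_distrib, Finset.sum_range_succ']
  have : Finset.Icc 1 (n + 1) = (Finset.range (n + 1)).map ⟨(· + 1), add_left_injective 1⟩ := by
    ext x; simp only [Finset.mem_Icc, Finset.mem_map, Finset.mem_range, Function.Embedding.coeFn_mk]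
    constructor
    · rintro ⟨h1, h2⟩; exact ⟨x - 1, by omega, by omega⟩
    · rintro ⟨y, hy, rfl⟩; omega
  rw [this, Finset.sum_map]
  simp only [Function.Embedding.coeFn_mk, mul_zero, add_zero, Nat.choose_zero_right, Nat.cast_one, pow_zero, mul_one]
  have h2 : ∀ s ∈ Finset.range (n + 1), eval T (C (cc (n + 1) (s + 1)) * X ^ (s + 1))
      = ((n + 1 + (s + 1)).choose (2 * (s + 1)) : ℝ) * T ^ (s + 1) + ((n + (s + 1)).choose (2 * (s + 1)) : ℝ) * T ^ (s + 1) := by
    intro s _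
    simp only [eval_mul, eval_C, eval_pow, eval_X, cc]
    rw [show n + 1 + (s + 1) - 1 = n + (s + 1) by omega]
    ring
  rw [Finset.sum_congr rfl h2]
  ring

lemma P_prod (n : ℕ) : P (n + 1) = X * ∏ k ∈ Finset.range n, (X + C (4 - 4 * (xr n k) ^ 2)) := by
  apply Polynomial.eq_of_infinite_eval_eq
  apply Set.Infinite.mono _ (Set.Ici_infinite (-4 : ℝ))
  intro T hT
  rw [Set.mem_Ici] at hT
  show eval T _ = eval T _
  obtain ⟨x, hx⟩ : ∃ x : ℝ, T = 4 * x ^ 2 - 4 := by
    refine ⟨Real.sqrt ((T + 4) / 4), ?_⟩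
    rw [Real.sq_sqrt (by linarith)]; ring
  rw [P_eval, eval_mul, eval_X, eval_prod, hx, EU, U_sq]
  have : ∏ k ∈ Finset.range n, (4 * x ^ 2 - 4 * (xr n k) ^ 2)
      = ∏ k ∈ Finset.range n, eval (4 * x ^ 2 - 4) (X + C (4 - 4 * (xr n k) ^ 2)) := by
    apply Finset.prod_congr rfl
    intro k _
    simp only [eval_add, eval_X, eval_C]
    ring
  rw [this]
  ring

/-- the polynomial `G` -/
noncomputable def G (n : ℕ) : ℝ[X] := ∑ s ∈ Finset.Icc 1 n, C (cc n s) * (X + C 1) ^ (n + s)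

lemma G_ulc (n : ℕ) : ULC (G (n + 1)) := by
  have h : G (n + 1) = (X + C 1) ^ (n + 2) * ∏ k ∈ Finset.range n, (X + C (5 - 4 * (xr n k) ^ 2)) := by
    have h1 : G (n + 1) = (X + C 1) ^ (n + 1) * (P (n + 1)).comp (X + C 1) := by
      rw [P, G, Polynomial.sum_comp, Finset.mul_sum]
      apply Finset.sum_congr rfl
      intro s _
      simp only [mul_comp, C_comp, pow_comp, X_comp]
      rw [pow_add]; ring
    rw [h1, P_prod, mul_comp, X_comp, Polynomial.prod_comp]
    have : ∀ k ∈ Finset.range n, (X + C (4 - 4 * (xr n k) ^ 2) : ℝ[X]).comp (X + C 1)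
        = X + C (5 - 4 * (xr n k) ^ 2) := by
      intro k _
      simp only [add_comp, X_comp, C_comp]
      rw [add_assoc, ← C_add]
      congr 2
      ring
    rw [Finset.prod_congr rfl this]
    ring
  rw [h]
  apply ulc_pow 1 (by norm_num)
  apply ulc_prod
  intro k _
  have : (xr n k) ^ 2 ≤ 1 := by
    rw [sq_le_one_iff_abs_le_one]; exact Real.abs_cos_le_one _
  linarith

lemma G_coeff (n k : ℕ) : (G n).coeff k = ∑ s ∈ Finset.Icc 1 n, cc n s * ((n + s).choose k : ℝ) := by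
  rw [G, Polynomial.finsetSum_coeff]
  apply Finset.sum_congr rfl
  intro s _
  rw [coeff_C_mul, coeff_X_add_C_pow]
  simp

/-! The face numbers -/

/-- `N_n(r,s) = (2n/r) C(r,2s) C(n+s-1,r-1)` -/
def NN (n r s : ℕ) : ℚ := (2 * n : ℚ) / r * (r.choose (2 * s) : ℚ) * ((n + s - 1).choose (r - 1) : ℚ)

/-- `C(a,b)` for an integer `b`, zero unless `0 ≤ b ≤ a` -/
def binom (a : ℕ) (b : ℤ) : ℚ := if 0 ≤ b then (a.choose b.toNat : ℚ) else 0

/-- `δ_0 = 2`, `δ_1 = 1`, `δ_k = 0` for `k > 1` -/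
def del (k : ℕ) : ℚ := if k = 0 then 2 else if k = 1 then 1 else 0

/-- the number of `k`-dimensional faces of the order polytope of the crown, by the known formula -/
def faceNum (n k : ℕ) : ℚ :=
  del k + ∑ s ∈ Finset.Icc 1 n, ∑ r ∈ Finset.Icc (2 * s) (2 * n), NN n r s * binom (2 * s) ((r : ℤ) - k)

/-- the `f`-vector `(f_{-1}, f_0, f_1, ...)` with the index shifted by one -/
def fvec (n : ℕ) : ℕ → ℚ
  | 0 => 1
  | (k + 1) => faceNum n k

lemma vand (A B k M : ℕ) (hM : A ≤ M) :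
    ∑ i ∈ Finset.range (M + 1), (A.choose i : ℚ) * binom B ((B : ℤ) + i - k) = ((A + B).choose k : ℚ) := by
  have hb : ∀ i : ℕ, binom B ((B : ℤ) + i - k) = if i ≤ k then (B.choose (k - i) : ℚ) else 0 := by
    intro i
    unfold binom
    by_cases hik : i ≤ k
    · rw [if_pos hik]
      by_cases hkB : k - i ≤ B
      · rw [if_pos (by omega)]
        have : ((B : ℤ) + i - k).toNat = B - (k - i) := by omega
        rw [this, Nat.choose_symm hkB]
      · rw [if_neg (by omega), Nat.choose_eq_zero_of_lt (by omega)]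
        simp
    · rw [if_neg hik, if_pos (by omega), Nat.choose_eq_zero_of_lt (by omega)]
      simp
  have h1 : ((A + B).choose k : ℚ) = ∑ i ∈ Finset.range (k + 1), (A.choose i : ℚ) * (B.choose (k - i) : ℚ) := by
    rw [Nat.add_choose_eq, Finset.Nat.sum_antidiagonal_eq_sum_range_succ_mk]
    push_cast
    rfl
  have h2 : ∑ i ∈ Finset.range (k + 1), (A.choose i : ℚ) * (B.choose (k - i) : ℚ)
      = ∑ i ∈ Finset.range (M + k + 1), (A.choose i : ℚ) * (if i ≤ k then (B.choose (k - i) : ℚ) else 0) := by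
    trans ∑ i ∈ Finset.range (k + 1), (A.choose i : ℚ) * (if i ≤ k then (B.choose (k - i) : ℚ) else 0)
    · apply Finset.sum_congr rfl
      intro i hi
      rw [Finset.mem_range] at hi
      rw [if_pos (by omega)]
    · apply Finset.sum_subset
      · intro i hi; rw [Finset.mem_range] at hi ⊢; omega
      · intro i _ hi
        rw [Finset.mem_range] at hi
        rw [if_neg (by omega), mul_zero]
  have h3 : ∑ i ∈ Finset.range (M + 1), (A.choose i : ℚ) * binom B ((B : ℤ) + i - k)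
      = ∑ i ∈ Finset.range (M + k + 1), (A.choose i : ℚ) * (if i ≤ k then (B.choose (k - i) : ℚ) else 0) := by
    trans ∑ i ∈ Finset.range (M + 1), (A.choose i : ℚ) * (if i ≤ k then (B.choose (k - i) : ℚ) else 0)
    · apply Finset.sum_congr rfl
      intro i _
      rw [hb]
    · apply Finset.sum_subset
      · intro i hi; rw [Finset.mem_range] at hi ⊢; omega
      · intro i _ hi
        rw [Finset.mem_range] at hi
        rw [Nat.choose_eq_zero_of_lt (by omega)]
        simp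
  rw [h3, h1, h2]

lemma NN_eq (n s i : ℕ) (hs : 1 ≤ s) (hsn : s ≤ n) :
    NN n (2 * s + i) s = (((n + s).choose (2 * s) : ℚ) + ((n + s - 1).choose (2 * s) : ℚ)) * ((n - s).choose i : ℚ) := by
  unfold NN
  obtain ⟨t, rfl⟩ : ∃ t, s = t + 1 := ⟨s - 1, by omega⟩
  -- r * C(r-1, 2s-1) = 2s * C(r, 2s)
  have e1 : ((2 * (t + 1) + i : ℕ) : ℚ) * ((2 * (t + 1) + i - 1).choose (2 * (t + 1) - 1) : ℚ)
      = ((2 * (t + 1) + i).choose (2 * (t + 1)) : ℚ) * (2 * (t + 1) : ℕ) := by
    have := Nat.add_one_mul_choose_eq (2 * (t + 1) + i - 1) (2 * (t + 1) - 1)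
    rw [show 2 * (t + 1) + i - 1 + 1 = 2 * (t + 1) + i by omega, show 2 * (t + 1) - 1 + 1 = 2 * (t + 1) by omega] at this
    exact_mod_cast this
  have e2 : ((n + (t + 1) - 1).choose (2 * (t + 1) + i - 1) : ℚ) * ((2 * (t + 1) + i - 1).choose (2 * (t + 1) - 1) : ℚ)
      = ((n + (t + 1) - 1).choose (2 * (t + 1) - 1) : ℚ) * ((n - (t + 1)).choose i : ℚ) := by
    rcases Nat.lt_or_ge (n + (t + 1) - 1) (2 * (t + 1) + i - 1) with hlt | hge
    · rw [Nat.choose_eq_zero_of_lt hlt, Nat.choose_eq_zero_of_lt (show n - (t + 1) < i by omega)]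
      simp
    · have := Nat.choose_mul (n := n + (t + 1) - 1) (k := 2 * (t + 1) + i - 1) (s := 2 * (t + 1) - 1) (by omega)
      rw [show n + (t + 1) - 1 - (2 * (t + 1) - 1) = n - (t + 1) by omega,
        show 2 * (t + 1) + i - 1 - (2 * (t + 1) - 1) = i by omega] at this
      exact_mod_cast this
  have e3 : ((n + (t + 1) : ℕ) : ℚ) * ((n + (t + 1) - 1).choose (2 * (t + 1) - 1) : ℚ)
      = ((n + (t + 1)).choose (2 * (t + 1)) : ℚ) * (2 * (t + 1) : ℕ) := by
    have := Nat.add_one_mul_choose_eq (n + (t + 1) - 1) (2 * (t + 1) - 1)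
    rw [show n + (t + 1) - 1 + 1 = n + (t + 1) by omega, show 2 * (t + 1) - 1 + 1 = 2 * (t + 1) by omega] at this
    exact_mod_cast this
  have e4 : ((n + (t + 1) - 1).choose (2 * (t + 1)) : ℚ) * (2 * (t + 1) : ℕ)
      = ((n + (t + 1) - 1).choose (2 * (t + 1) - 1) : ℚ) * (n - (t + 1) : ℕ) := by
    have := Nat.choose_succ_right_eq (n + (t + 1) - 1) (2 * (t + 1) - 1)
    rw [show 2 * (t + 1) - 1 + 1 = 2 * (t + 1) by omega,
      show n + (t + 1) - 1 - (2 * (t + 1) - 1) = n - (t + 1) by omega] at this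
    exact_mod_cast this
  have hr : ((2 * (t + 1) + i : ℕ) : ℚ) ≠ 0 := by positivity
  have h2s : ((2 * (t + 1) : ℕ) : ℚ) ≠ 0 := by positivity
  have e5 : ((n - (t + 1) : ℕ) : ℚ) = n - (t + 1) := by
    rw [Nat.cast_sub hsn]; push_cast; ring
  have key : (2 * (n : ℚ)) * ((2 * (t + 1) + i).choose (2 * (t + 1)) : ℚ) * ((n + (t + 1) - 1).choose (2 * (t + 1) + i - 1) : ℚ) * ((2 * (t + 1) : ℕ) : ℚ)
      = ((2 * (t + 1) + i : ℕ) : ℚ) * ((((n + (t + 1)).choose (2 * (t + 1)) : ℚ) + ((n + (t + 1) - 1).choose (2 * (t + 1)) : ℚ)) * ((n - (t + 1)).choose i : ℚ)) * ((2 * (t + 1) : ℕ) : ℚ) := by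
    have h1 : (2 * (n : ℚ)) * ((2 * (t + 1) + i).choose (2 * (t + 1)) : ℚ) * ((n + (t + 1) - 1).choose (2 * (t + 1) + i - 1) : ℚ) * ((2 * (t + 1) : ℕ) : ℚ)
        = (2 * (n : ℚ)) * ((2 * (t + 1) + i : ℕ) : ℚ) * (((n + (t + 1) - 1).choose (2 * (t + 1) + i - 1) : ℚ) * ((2 * (t + 1) + i - 1).choose (2 * (t + 1) - 1) : ℚ)) := by
      linear_combination (-(2 * (n : ℚ)) * ((n + (t + 1) - 1).choose (2 * (t + 1) + i - 1) : ℚ)) * e1
    rw [h1, e2]
    rw [e5] at e4
    have h2 : (((n + (t + 1)).choose (2 * (t + 1)) : ℚ) + ((n + (t + 1) - 1).choose (2 * (t + 1)) : ℚ)) * ((2 * (t + 1) : ℕ) : ℚ)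
        = 2 * n * ((n + (t + 1) - 1).choose (2 * (t + 1) - 1) : ℚ) := by
      rw [add_mul, ← e3, e4]
      push_cast
      ring
    linear_combination (-((2 * (t + 1) + i : ℕ) : ℚ) * ((n - (t + 1)).choose i : ℚ)) * h2
  have key2 := mul_right_cancel₀ h2s key
  rw [div_mul_eq_mul_div, div_mul_eq_mul_div, div_eq_iff hr]
  push_cast at key2 ⊢
  linear_combination key2

lemma faceNum_eq (n k : ℕ) : (faceNum n k : ℝ) = (del k : ℝ) + (G n).coeff k := by
  rw [G_coeff, faceNum]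
  push_cast
  congr 1
  apply Finset.sum_congr rfl
  intro s hs
  rw [Finset.mem_Icc] at hs
  obtain ⟨hs1, hs2⟩ := hs
  have h : ∑ r ∈ Finset.Icc (2 * s) (2 * n), NN n r s * binom (2 * s) ((r : ℤ) - k)
      = (((n + s).choose (2 * s) : ℚ) + ((n + s - 1).choose (2 * s) : ℚ)) * ((n + s).choose k : ℚ) := by
    have hI : Finset.Icc (2 * s) (2 * n) = (Finset.range (2 * n - 2 * s + 1)).map ⟨(2 * s + ·), add_right_injective (2 * s)⟩ := by
      ext x; simp only [Finset.mem_Icc, Finset.mem_map, Finset.mem_range, Function.Embedding.coeFn_mk]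
      constructor
      · rintro ⟨h1, h2⟩; exact ⟨x - 2 * s, by omega, by omega⟩
      · rintro ⟨y, hy, rfl⟩; omega
    rw [hI, Finset.sum_map]
    simp only [Function.Embedding.coeFn_mk]
    have h1 : ∀ i ∈ Finset.range (2 * n - 2 * s + 1), NN n (2 * s + i) s * binom (2 * s) (((2 * s + i : ℕ) : ℤ) - k)
        = (((n + s).choose (2 * s) : ℚ) + ((n + s - 1).choose (2 * s) : ℚ)) * (((n - s).choose i : ℚ) * binom (2 * s) (((2 * s : ℕ) : ℤ) + i - k)) := by
      intro i _
      rw [NN_eq n s i hs1 hs2]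
      push_cast
      ring
    rw [Finset.sum_congr rfl h1, ← Finset.mul_sum, vand (n - s) (2 * s) k (2 * n - 2 * s) (by omega)]
    rw [show n - s + 2 * s = n + s by omega]
  have h2 := congrArg (fun q : ℚ => (q : ℝ)) h
  push_cast at h2
  rw [h2, cc]


/-- check against the example in the problem file -/
lemma check_two : (List.range 6).map (fvec 2) = [1, 7, 17, 18, 8, 1] := by decide +kernel

lemma G_nonneg (n k : ℕ) : 0 ≤ (G n).coeff k := by
  rw [G_coeff]
  exact Finset.sum_nonneg fun s _ => mul_nonneg (cc_nonneg n s) (by positivity)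

lemma G_pos (n k : ℕ) (hn : 1 ≤ n) (hk : k ≤ 2 * n) : 0 < (G n).coeff k := by
  rw [G_coeff]
  apply Finset.sum_pos' (fun s _ => mul_nonneg (cc_nonneg n s) (by positivity))
  refine ⟨n, Finset.mem_Icc.mpr ⟨hn, le_rfl⟩, ?_⟩
  apply mul_pos
  · unfold cc
    rw [show n + n = 2 * n by ring, Nat.choose_self]
    positivity
  · have : 0 < (n + n).choose k := Nat.choose_pos (by omega)
    exact_mod_cast this

lemma del_nonneg (k : ℕ) : 0 ≤ del k := by
  unfold del; split_ifs <;> norm_num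

lemma fvec_pos (n j : ℕ) (hn : 1 ≤ n) (hj : j ≤ 2 * n + 1) : 0 < fvec n j := by
  rcases j with _ | k
  · simp [fvec]
  · have h : (0 : ℝ) < (faceNum n k : ℝ) := by
      rw [faceNum_eq]
      have := G_pos n k hn (by omega)
      have h2 : (0 : ℝ) ≤ (del k : ℝ) := by exact_mod_cast del_nonneg k
      linarith
    show 0 < faceNum n k
    exact_mod_cast h

lemma fvec_lc (n j : ℕ) (hn : 1 ≤ n) (hj : 1 ≤ j) : fvec n (j - 1) * fvec n (j + 1) ≤ fvec n j ^ 2 := by
  obtain ⟨m, rfl⟩ : ∃ m, n = m + 1 := ⟨n - 1, by omega⟩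
  have hN := ulc_newton (G_ulc m)
  have hg := G_nonneg (m + 1)
  have hf := faceNum_eq (m + 1)
  have d0 : (del 0 : ℝ) = 2 := by simp [del]
  have d1 : (del 1 : ℝ) = 1 := by simp [del]
  have d2 : ∀ k, (del (k + 2) : ℝ) = 0 := by intro k; simp [del]
  have c1 : cc (m + 1) 1 = ((m : ℝ) + 1) ^ 2 := by
    unfold cc
    rw [show m + 1 + 1 - 1 = m + 1 by omega, show 2 * 1 = 2 by rfl, Nat.cast_choose_two, Nat.cast_choose_two]
    push_cast
    ring
  have g0 : ((m : ℝ) + 1) ^ 2 ≤ (G (m + 1)).coeff 0 := by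
    rw [G_coeff, ← c1]
    have := Finset.single_le_sum (f := fun s => cc (m + 1) s * ((m + 1 + s).choose 0 : ℝ))
      (fun s _ => mul_nonneg (cc_nonneg (m + 1) s) (by positivity)) (show 1 ∈ Finset.Icc 1 (m + 1) by simp)
    simpa using this
  have g1u : (G (m + 1)).coeff 1 ≤ 2 * ((m : ℝ) + 1) * (G (m + 1)).coeff 0 := by
    rw [G_coeff, G_coeff, Finset.mul_sum]
    apply Finset.sum_le_sum
    intro s hs
    rw [Finset.mem_Icc] at hs
    have h1 := cc_nonneg (m + 1) s
    have h2 : (s : ℝ) ≤ m + 1 := by exact_mod_cast hs.2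
    simp only [Nat.choose_one_right, Nat.choose_zero_right]
    push_cast
    nlinarith
  have g1l : 2 * (G (m + 1)).coeff 0 ≤ (G (m + 1)).coeff 1 := by
    rw [G_coeff, G_coeff, Finset.mul_sum]
    apply Finset.sum_le_sum
    intro s hs
    rw [Finset.mem_Icc] at hs
    have h1 := cc_nonneg (m + 1) s
    have h2 : (1 : ℝ) ≤ s := by exact_mod_cast hs.1
    have h3 : (0 : ℝ) ≤ m := by positivity
    simp only [Nat.choose_one_right, Nat.choose_zero_right]
    push_cast
    nlinarith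
  have hm : (0 : ℝ) ≤ m := by positivity
  set g := fun k => (G (m + 1)).coeff k with hgd
  have key : (fvec (m + 1) (j - 1) : ℝ) * fvec (m + 1) (j + 1) ≤ (fvec (m + 1) j : ℝ) ^ 2 := by
    rcases j with _ | _ | _ | _ | k
    · omega
    · -- j = 1
      show ((fvec (m + 1) 0 : ℚ) : ℝ) * ((faceNum (m + 1) 1 : ℚ) : ℝ) ≤ ((faceNum (m + 1) 0 : ℚ) : ℝ) ^ 2
      rw [hf, hf, d0, d1]
      simp only [fvec, Rat.cast_one, one_mul]
      have h0 := hg 0
      nlinarith
    · -- j = 2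
      show ((faceNum (m + 1) 0 : ℚ) : ℝ) * ((faceNum (m + 1) 2 : ℚ) : ℝ) ≤ ((faceNum (m + 1) 1 : ℚ) : ℝ) ^ 2
      rw [hf, hf, hf, d0, d1, d2 0]
      have n0 := hN 0
      have h0 := hg 0
      have h1 := hg 1
      have h2 := hg 2
      norm_num at n0
      rcases m with _ | m
      · have e0 : (G (0 + 1)).coeff 0 = 1 := by rw [G_coeff]; simp [cc]
        have e1 : (G (0 + 1)).coeff 1 = 2 := by rw [G_coeff]; simp [cc]; norm_num
        have e2 : (G (0 + 1)).coeff (0 + 2) = 1 := by rw [G_coeff]; simp [cc]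
        rw [e0, e1, e2]; norm_num
      · have h4 : (4 : ℝ) ≤ (G (m + 1 + 1)).coeff 0 := by
          refine le_trans ?_ g0
          push_cast
          have : (0 : ℝ) ≤ m := by positivity
          nlinarith
        nlinarith [mul_nonneg (sub_nonneg.mpr h4) h2]
    · -- j = 3
      show ((faceNum (m + 1) 1 : ℚ) : ℝ) * ((faceNum (m + 1) 3 : ℚ) : ℝ) ≤ ((faceNum (m + 1) 2 : ℚ) : ℝ) ^ 2
      rw [hf, hf, hf, d1, d2 0, show (3 : ℕ) = 1 + 2 from rfl, d2 1]
      have n1 := hN 1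
      have h0 := hg 0
      have h1 := hg 1
      have h2 := hg 2
      have h3 := hg 3
      norm_num at n1
      have h5 : 2 ≤ (G (m + 1)).coeff 1 := by nlinarith
      norm_num
      nlinarith [mul_nonneg (sub_nonneg.mpr h5) h3]
    · -- j = k + 4
      show ((faceNum (m + 1) (k + 2) : ℚ) : ℝ) * ((faceNum (m + 1) (k + 4) : ℚ) : ℝ) ≤ ((faceNum (m + 1) (k + 3) : ℚ) : ℝ) ^ 2
      rw [hf, hf, hf, d2 k, show k + 4 = (k + 2) + 2 from rfl, d2 (k + 2), show k + 3 = (k + 1) + 2 from rfl, d2 (k + 1)]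
      have n1 := hN (k + 2)
      have h2 := hg (k + 2)
      have h3 := hg (k + 1 + 2)
      have h4 := hg (k + 2 + 2)
      rw [show k + 2 + 1 = k + 1 + 2 from rfl] at n1
      push_cast at n1
      have hk : (0 : ℝ) ≤ k := by positivity
      simp only [zero_add]
      have h6 : ((k : ℝ) + 2 + 2) * ((G (m + 1)).coeff (k + 2) * (G (m + 1)).coeff (k + 2 + 2))
          ≤ ((k : ℝ) + 2 + 2) * ((G (m + 1)).coeff (k + 1 + 2)) ^ 2 := by
        nlinarith [sq_nonneg ((G (m + 1)).coeff (k + 1 + 2))]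
      exact le_of_mul_le_mul_left h6 (by positivity)
  exact_mod_cast key

end Pool.Agent.X318.Crown
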