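import Mathlib

/-!
# Algebraic part: convolutions of central binomial coefficients and a Lucas sequence
-/

set_option autoImplicit false

open Finset

namespace Pool.Agent.X318.ThreeAdic

/-- `C(2j,j)` as an integer. -/
def cb (j : ℕ) : ℤ := (j.centralBinom : ℤ)

lemma cb_succ (j : ℕ) : ((j : ℤ) + 1) * cb (j + 1) = 2 * (2 * j + 1) * cb j := by
  have h := Nat.succ_mul_centralBinom_succ j
  unfold cb
  exact_mod_cast h

lemma cb_zero : cb 0 = 1 := by simp [cb]

lemma choose_succ_mul (j k : ℕ) : ((k : ℤ) + 1) * (j + 1).choose (k + 1) = (j + 1) * j.choose k := by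
  have h := Nat.add_one_mul_choose_eq j k
  have h' := congrArg (Nat.cast : ℕ → ℤ) h
  push_cast at h'
  linarith

lemma choose_succ_mul' (j k : ℕ) : ((k : ℤ) + 1) * j.choose (k + 1) = (j - k) * j.choose k := by
  by_cases h : k ≤ j
  · have h1 := Nat.choose_succ_right_eq j k
    have h2 := congrArg (Nat.cast : ℕ → ℤ) h1
    push_cast [Nat.cast_sub h] at h2
    linarith
  · rw [Nat.choose_eq_zero_of_lt (show j < k by omega),
      Nat.choose_eq_zero_of_lt (show j < k + 1 by omega)]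
    simp

/-- The convolution sums. -/
def c (N k : ℕ) : ℤ := ∑ j ∈ range (N + 1), cb j * j.choose k * cb (N - j)

lemma pointwise (j k : ℕ) : ((k : ℤ) + 1) * (cb (j + 1) * (j + 1).choose (k + 1)) =
    4 * (k + 1) * (cb j * j.choose (k + 1)) + (4 * k + 2) * (cb j * j.choose k) := by
  have h1 := choose_succ_mul j k
  have h2 := choose_succ_mul' j k
  have h3 := cb_succ j
  linear_combination cb (j + 1) * h1 + (j.choose k : ℤ) * h3 - 4 * cb j * h2

lemma conv_succ (N k : ℕ) : ((k : ℤ) + 1) * c (N + 1) (k + 1) =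
    4 * (k + 1) * c N (k + 1) + (4 * k + 2) * c N k := by
  unfold c
  rw [sum_range_succ' (fun j => cb j * (j.choose (k + 1) : ℤ) * cb (N + 1 - j)),
    Nat.choose_eq_zero_of_lt (show 0 < k + 1 by omega), Nat.cast_zero, mul_zero, zero_mul, add_zero,
    mul_sum, mul_sum, mul_sum, ← sum_add_distrib]
  refine sum_congr rfl fun j _ => ?_
  rw [show N + 1 - (j + 1) = N - j by omega]
  linear_combination cb (N - j) * pointwise j k

lemma conv_one (N : ℕ) : 2 * c N 1 = N * c N 0 := by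
  have h1 : c N 1 = ∑ j ∈ range (N + 1), ((N : ℤ) - j) * (cb j * cb (N - j)) := by
    unfold c
    rw [← Finset.sum_range_reflect]
    refine sum_congr rfl fun j hj => ?_
    have hj' : j ≤ N := Nat.lt_succ_iff.1 (mem_range.1 hj)
    rw [show N + 1 - 1 - j = N - j by omega, show N - (N - j) = j by omega, Nat.choose_one_right,
      Nat.cast_sub hj']
    ring
  have h2 : c N 1 = ∑ j ∈ range (N + 1), (j : ℤ) * (cb j * cb (N - j)) := by
    unfold c
    refine sum_congr rfl fun j _ => ?_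
    rw [Nat.choose_one_right]
    ring
  have h3 : c N 0 = ∑ j ∈ range (N + 1), (cb j * cb (N - j)) := by
    unfold c
    refine sum_congr rfl fun j _ => ?_
    rw [Nat.choose_zero_right]
    push_cast
    ring
  calc 2 * c N 1 = c N 1 + c N 1 := by ring
    _ = _ := by
      nth_rw 1 [h1]
      rw [h2, h3, ← sum_add_distrib, mul_sum]
      exact sum_congr rfl fun j _ => by ring

lemma conv_zero (N : ℕ) : c N 0 = 4 ^ N := by
  induction N with
  | zero => simp [c, cb]
  | succ N ih =>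
    have h1 := conv_succ N 0
    have h2 := conv_one N
    have h3 := conv_one (N + 1)
    push_cast at h1 h3
    have h4 : ((N : ℤ) + 1) * c (N + 1) 0 = (N + 1) * (4 * c N 0) := by
      linear_combination - h3 + 2 * h1 + 4 * h2
    have h5 : ((N : ℤ) + 1) ≠ 0 := by positivity
    rw [mul_left_cancel₀ h5 h4, ih]
    ring

lemma conv (N k : ℕ) : 4 ^ k * c N k = 4 ^ N * (N.choose k * cb k) := by
  induction N generalizing k with
  | zero =>
    cases k with
    | zero => simp [c, cb]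
    | succ k => simp [c]
  | succ N ih =>
    cases k with
    | zero =>
      rw [conv_zero, cb_zero]
      simp
    | succ k =>
      have h1 := conv_succ N k
      have h2 := ih (k + 1)
      have h3 := ih k
      have h4 := cb_succ k
      have hk : ((k : ℤ) + 1) ≠ 0 := by positivity
      apply mul_left_cancel₀ hk
      rw [Nat.choose_succ_succ]
      push_cast
      linear_combination 4 ^ (k + 1) * h1 + 4 * (k + 1) * h2 + 4 * (4 * k + 2) * h3 -
        4 * 4 ^ N * (N.choose k : ℤ) * h4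

/-- The two expressions for the central trinomial coefficient. -/
lemma two_forms (N : ℕ) (m : ℤ) :
    ∑ j ∈ range (N + 1), cb j * cb (N - j) * ((m - 4) ^ j * m ^ (N - j)) =
      4 ^ N * ∑ k ∈ range (N + 1), (-1) ^ k * (N.choose k : ℤ) * cb k * m ^ (N - k) := by
  have h1 : ∀ j ∈ range (N + 1), cb j * cb (N - j) * ((m - 4) ^ j * m ^ (N - j)) =
      ∑ k ∈ range (N + 1), (-4) ^ k * m ^ (N - k) * (cb j * (j.choose k : ℤ) * cb (N - j)) := by
    intro j hj
    have hj' : j ≤ N := Nat.lt_succ_iff.1 (mem_range.1 hj)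
    have h2 : (m - 4) ^ j = ∑ k ∈ range (j + 1), (-4) ^ k * m ^ (j - k) * (j.choose k : ℤ) := by
      rw [show m - 4 = -4 + m by ring, add_pow]
    rw [h2, sum_mul, mul_sum]
    have h3 : ∑ k ∈ range (N + 1), (-4 : ℤ) ^ k * m ^ (N - k) *
        (cb j * (j.choose k : ℤ) * cb (N - j)) =
        ∑ k ∈ range (j + 1), (-4) ^ k * m ^ (N - k) * (cb j * (j.choose k : ℤ) * cb (N - j)) := by
      symm
      apply sum_subset (range_mono (by omega))
      intro k _ hk
      rw [Nat.choose_eq_zero_of_lt]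
      · simp
      · by_contra hcon
        exact hk (mem_range.2 (by omega))
    rw [h3]
    refine sum_congr rfl fun k hk => ?_
    have hk' : k ≤ j := Nat.lt_succ_iff.1 (mem_range.1 hk)
    rw [show N - k = (j - k) + (N - j) by omega, pow_add]
    ring
  rw [sum_congr rfl h1, sum_comm, mul_sum]
  refine sum_congr rfl fun k _ => ?_
  rw [← mul_sum]
  have h := conv N k
  unfold c at h
  have h4 : (-4 : ℤ) ^ k = (-1) ^ k * 4 ^ k := by
    rw [← mul_pow]
    norm_num
  rw [h4]
  linear_combination (-1) ^ k * m ^ (N - k) * h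

/-! ### The Lucas sequence -/

/-- `m + √(m(m-4))`. -/
def z (m : ℤ) : ℤ√(m * (m - 4)) := ⟨m, 1⟩

lemma z_pow (m : ℤ) (n : ℕ) :
    (z m ^ n).re = ∑ j ∈ range (n + 1), (n.choose (2 * j) : ℤ) * ((m - 4) ^ j * m ^ (n - j)) ∧
    (z m ^ n).im = ∑ j ∈ range n, (n.choose (2 * j + 1) : ℤ) * ((m - 4) ^ j * m ^ (n - 1 - j)) := by
  induction n with
  | zero => simp
  | succ n ih =>
    obtain ⟨ih1, ih2⟩ := ih
    have him : m * (z m ^ n).im = ∑ j ∈ range (n + 1), (n.choose (2 * j + 1) : ℤ) *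
        ((m - 4) ^ j * m ^ (n - j)) := by
      rw [ih2, sum_range_succ, Nat.choose_eq_zero_of_lt (show n < 2 * n + 1 by omega),
        Nat.cast_zero, zero_mul, add_zero, mul_sum]
      refine sum_congr rfl fun j hj => ?_
      have hj' := mem_range.1 hj
      rw [show n - j = n - 1 - j + 1 by omega, pow_succ]
      ring
    constructor
    · rw [pow_succ, Zsqrtd.re_mul]
      change (z m ^ n).re * m + m * (m - 4) * (z m ^ n).im * 1 = _
      have h1 : (z m ^ n).re * m = m ^ (n + 1) + ∑ j ∈ range (n + 1),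
          (n.choose (2 * j + 2) : ℤ) * ((m - 4) ^ (j + 1) * m ^ (n - j)) := by
        rw [sum_range_succ (fun j => (n.choose (2 * j + 2) : ℤ) * ((m - 4) ^ (j + 1) *
          m ^ (n - j))), Nat.choose_eq_zero_of_lt (show n < 2 * n + 2 by omega),
          Nat.cast_zero, zero_mul, add_zero, ih1, sum_range_succ', add_mul, sum_mul, add_comm]
        congr 1
        · simp [pow_succ]
        · refine sum_congr rfl fun j hj => ?_
          have hj' := mem_range.1 hj
          rw [show n - j = n - (j + 1) + 1 by omega, pow_succ m, show 2 * (j + 1) = 2 * j + 2 by ring]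
          ring
      have h2 : m * (m - 4) * (z m ^ n).im * 1 = ∑ j ∈ range (n + 1),
          (n.choose (2 * j + 1) : ℤ) * ((m - 4) ^ (j + 1) * m ^ (n - j)) := by
        rw [mul_one, show m * (m - 4) * (z m ^ n).im = (m - 4) * (m * (z m ^ n).im) by ring, him,
          mul_sum]
        refine sum_congr rfl fun j _ => ?_
        rw [pow_succ]
        ring
      rw [h1, h2, sum_range_succ' _ (n + 1), add_assoc, ← sum_add_distrib, add_comm]
      congr 1
      · refine sum_congr rfl fun j _ => ?_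
        rw [show 2 * (j + 1) = 2 * j + 1 + 1 by ring, Nat.choose_succ_succ n (2 * j + 1),
          show n + 1 - (j + 1) = n - j by omega]
        push_cast
        ring
      · simp
    · rw [pow_succ, Zsqrtd.im_mul]
      change (z m ^ n).re * 1 + (z m ^ n).im * m = _
      rw [mul_one, mul_comm (z m ^ n).im m, him, ih1, ← sum_add_distrib]
      refine sum_congr rfl fun j _ => ?_
      rw [Nat.choose_succ_succ n (2 * j), show n + 1 - 1 - j = n - j by omega]
      push_cast
      ring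

/-- The cube. -/
lemma z_cube (m : ℤ) : z m ^ 3 = (⟨4 * m, 0⟩ : ℤ√(m * (m - 4))) * ⟨m * (m - 3), m - 1⟩ := by
  have h : z m ^ 3 = z m * z m * z m := by ring
  rw [h, z]
  ext
  · simp only [Zsqrtd.re_mul, Zsqrtd.im_mul]
    ring
  · simp only [Zsqrtd.re_mul, Zsqrtd.im_mul]
    ring

lemma int_pow {d : ℤ} (a : ℤ) (k : ℕ) : (⟨a, 0⟩ : ℤ√d) ^ k = ⟨a ^ k, 0⟩ := by
  induction k with
  | zero =>
    rw [pow_zero, pow_zero]
    rfl
  | succ k ih =>
    rw [pow_succ, ih]
    ext
    · simp only [Zsqrtd.re_mul, pow_succ]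
      ring
    · simp only [Zsqrtd.im_mul]
      ring

lemma W_three (m : ℤ) (k : ℕ) : (z m ^ (3 * k)).im =
    (4 * m) ^ k * ((⟨m * (m - 3), m - 1⟩ : ℤ√(m * (m - 4))) ^ k).im := by
  rw [pow_mul, z_cube, mul_pow, int_pow, Zsqrtd.im_mul]
  ring

lemma dvd_im {d : ℤ} (w : ℤ√d) (k : ℕ) : w.im ∣ (w ^ k).im := by
  induction k with
  | zero =>
    rw [pow_zero]
    exact dvd_zero _
  | succ k ih =>
    rw [pow_succ, Zsqrtd.im_mul]
    exact dvd_add (dvd_mul_left _ _) (Dvd.dvd.mul_right ih _)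

/-- Raising to the power `3^t`. -/
lemma pow_three_pow (m : ℤ) (hm : 3 ∣ m - 1) (t : ℕ) : ∃ x y : ℤ,
    (⟨m * (m - 3), m - 1⟩ : ℤ√(m * (m - 4))) ^ (3 ^ t) =
      ⟨1 + 3 * x, 3 ^ t * (m - 1) * (1 + 3 * y)⟩ := by
  obtain ⟨r, hr⟩ := hm
  have hm' : m = 1 + 3 * r := by linarith
  induction t with
  | zero =>
    refine ⟨3 * r * r - r - 1, 0, ?_⟩
    rw [pow_zero, pow_one]
    ext
    · change m * (m - 3) = 1 + 3 * (3 * r * r - r - 1)
      rw [hm']
      ring
    · change m - 1 = 3 ^ 0 * (m - 1) * (1 + 3 * 0)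
      ring
  | succ t ih =>
    obtain ⟨x, y, h⟩ := ih
    obtain ⟨Q, hQ⟩ : ∃ Q, Q = 3 ^ t * (m - 1) * (1 + 3 * y) := ⟨_, rfl⟩
    obtain ⟨e, he⟩ : ∃ e, Q = 3 * e := ⟨3 ^ t * r * (1 + 3 * y), by rw [hQ, hr]; ring⟩
    have hd : m * (m - 4) = 3 * ((1 + 3 * r) * (r - 1)) := by
      rw [hm']
      ring
    rw [pow_succ (3 : ℕ) t, pow_mul, h, ← hQ]
    refine ⟨3 * x + 9 * x ^ 2 + 9 * x ^ 3 + (1 + 3 * x) * Q ^ 2 * (m * (m - 4)),
      y + (2 * x + 3 * x ^ 2 + 3 * e ^ 2 * ((1 + 3 * r) * (r - 1))) +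
        3 * y * (2 * x + 3 * x ^ 2 + 3 * e ^ 2 * ((1 + 3 * r) * (r - 1))), ?_⟩
    have h3 : ∀ w : ℤ√(m * (m - 4)), w ^ 3 = w * w * w := fun w => by ring
    rw [h3]
    ext
    · simp only [Zsqrtd.re_mul, Zsqrtd.im_mul]
      ring
    · simp only [Zsqrtd.re_mul, Zsqrtd.im_mul]
      have h4 : 3 ^ (t + 1) * (m - 1) * (1 + 3 * (y + (2 * x + 3 * x ^ 2 + 3 * e ^ 2 *
          ((1 + 3 * r) * (r - 1))) + 3 * y * (2 * x + 3 * x ^ 2 + 3 * e ^ 2 *
          ((1 + 3 * r) * (r - 1))))) = 3 * Q * (1 + 3 * (2 * x + 3 * x ^ 2 + 3 * e ^ 2 *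
          ((1 + 3 * r) * (r - 1)))) := by
        rw [hQ, pow_succ]
        ring
      rw [h4, hd, he]
      ring

end Pool.Agent.X318.ThreeAdic
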