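import Mathlib
import Pool.Agent.X318.ThreeAdicA

/-!
# 3-adic estimates
-/

set_option autoImplicit false

open Finset

namespace Pool.Agent.X318.ThreeAdic

/-- The 3-adic norm on the rationals. -/
abbrev N (x : ℚ) : ℚ := padicNorm 3 x

lemma N_mul (x y : ℚ) : N (x * y) = N x * N y := padicNorm.mul x y

lemma N_int (x : ℤ) : N x ≤ 1 := padicNorm.of_int x

lemma N_nonneg (x : ℚ) : 0 ≤ N x := padicNorm.nonneg x

lemma N_add (x y : ℚ) : N (x + y) ≤ max (N x) (N y) := padicNorm.nonarchimedean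

lemma N_sub (x y : ℚ) : N (x - y) ≤ max (N x) (N y) := padicNorm.sub

lemma N_neg (x : ℚ) : N (-x) = N x := padicNorm.neg x

lemma N_one : N 1 = 1 := padicNorm.one

lemma N_sub_comm (x y : ℚ) : N (x - y) = N (y - x) := by
  rw [← N_neg, neg_sub]

lemma N_dvd (a : ℕ) (x : ℤ) : (3 : ℤ) ^ a ∣ x ↔ N x ≤ 3 ^ (-(a : ℤ)) := by
  have h := padicNorm.dvd_iff_norm_le (p := 3) (n := a) (z := x)
  push_cast at h
  exact h

lemma N_unit {x : ℤ} (h : ¬ (3 : ℤ) ∣ x) : N x = 1 := (padicNorm.int_eq_one_iff (p := 3) x).2 h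

/-- `∏_{i<j} (1 - q/(i+1))`. -/
def pr (q : ℚ) (j : ℕ) : ℚ := ∏ i ∈ range j, (1 - q / (i + 1))

lemma pr_succ (q : ℚ) (j : ℕ) : pr q (j + 1) = pr q j * (1 - q / (j + 1)) := prod_range_succ _ _

lemma pr_zero (q : ℚ) : pr q 0 = 1 := prod_range_zero _

lemma pr_norm (q ε : ℚ) (hε : ε ≤ 1) (hε0 : 0 ≤ ε) (j : ℕ) (h : ∀ i < j, N (q / (i + 1)) ≤ ε) :
    N (pr q j - 1) ≤ ε ∧ N (pr q j) ≤ 1 := by
  induction j with
  | zero =>
    rw [pr_zero, sub_self]
    refine ⟨?_, N_one.le⟩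
    rw [N, padicNorm.zero]
    exact hε0
  | succ j ih =>
    obtain ⟨h1, h2⟩ := ih fun i hi => h i (by omega)
    have h3 := h j (by omega)
    have h4 : N (pr q (j + 1) - 1) ≤ ε := by
      have e : pr q (j + 1) - 1 = (pr q j - 1) - pr q j * (q / (j + 1)) := by
        rw [pr_succ]
        ring
      rw [e]
      refine (N_sub _ _).trans (max_le h1 ?_)
      rw [N_mul]
      calc N (pr q j) * N (q / (j + 1)) ≤ 1 * ε :=
            mul_le_mul h2 h3 (N_nonneg _) zero_le_one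
        _ = ε := one_mul _
    refine ⟨h4, ?_⟩
    have e : pr q (j + 1) = (pr q (j + 1) - 1) + 1 := by ring
    rw [e]
    exact (N_add _ _).trans (max_le (h4.trans hε) N_one.le)

lemma norm_one_of_sub {x ε : ℚ} (hε : ε < 1) (h : N (x - 1) ≤ ε) : N x = 1 := by
  have h1 : N (x - 1) < 1 := h.trans_lt hε
  have h2 : N x ≤ 1 := by
    have e : x = (x - 1) + 1 := by ring
    rw [e]
    exact (N_add _ _).trans (max_le h1.le N_one.le)
  have h3 : N 1 ≤ max (N x) (N (x - 1)) := by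
    have e : (1 : ℚ) = x - (x - 1) := by ring
    conv_lhs => rw [e]
    exact N_sub _ _
  rw [N_one] at h3
  rcases le_max_iff.1 h3 with h4 | h4
  · exact le_antisymm h2 h4
  · exact absurd h4 (not_le.2 h1)

/-- The binomial coefficient `C(n-1,k)`. -/
lemma choose_eq_pr (n k : ℕ) (hn : 1 ≤ n) : ((n - 1).choose k : ℚ) = (-1) ^ k * pr n k := by
  induction k with
  | zero => simp [pr_zero]
  | succ k ih =>
    have h1 := choose_succ_mul' (n - 1) k
    have h2 := congrArg (Int.cast : ℤ → ℚ) h1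
    push_cast [Nat.cast_sub hn] at h2
    have hk : ((k : ℚ) + 1) ≠ 0 := by positivity
    apply mul_left_cancel₀ hk
    rw [h2, ih, pr_succ, pow_succ]
    field_simp
    ring

/-- `C(2n-1,n)`. -/
def κ (n : ℕ) : ℤ := ((2 * n - 1).choose n : ℤ)

lemma κ_mul (n : ℕ) (hn : 1 ≤ n) : (n : ℤ) * κ n = (2 * n - 1) * cb (n - 1) := by
  obtain ⟨k, rfl⟩ := Nat.exists_eq_add_of_le hn
  unfold κ cb Nat.centralBinom
  rw [show 2 * (1 + k) - 1 = 2 * k + 1 by omega, show 1 + k - 1 = k by omega, add_comm 1 k]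
  have h := choose_succ_mul (2 * k) k
  push_cast at h ⊢
  linear_combination h

/-- The products of two central binomial coefficients. -/
lemma prod_eq (n j : ℕ) (hj : j < n) :
    ((cb j * cb (n - 1 - j) : ℤ) : ℚ) * ((2 * j + 1) * pr (2 * n) (2 * j + 1)) =
      - (κ n * n * pr n j ^ 2) := by
  induction j with
  | zero =>
    have h := κ_mul n (by omega)
    have h' := congrArg (Int.cast : ℤ → ℚ) h
    push_cast at h'
    rw [cb_zero, pr_succ, pr_zero, pr_zero, Nat.sub_zero]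
    push_cast
    linear_combination h'
  | succ j ih =>
    have ih := ih (by omega)
    have h1 := cb_succ j
    have h2 := cb_succ (n - 1 - (j + 1))
    have e1 : n - 1 - (j + 1) + 1 = n - 1 - j := by omega
    rw [e1] at h2
    have h1' := congrArg (Int.cast : ℤ → ℚ) h1
    have h2' := congrArg (Int.cast : ℤ → ℚ) h2
    have e2 : ((n - 1 - (j + 1) : ℕ) : ℚ) = n - 2 - j := by
      rw [Nat.cast_sub (by omega), Nat.cast_sub (by omega)]
      push_cast
      ring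
    push_cast at h1' h2' ih ⊢
    rw [e2] at h2'
    have hj1 : ((j : ℚ) + 1) ≠ 0 := by positivity
    have hj2 : (2 * (j : ℚ) + 1 + 1) ≠ 0 := by positivity
    have hj3 : (2 * (j : ℚ) + 1 + 1 + 1) ≠ 0 := by positivity
    have hj4 : (2 * ((j : ℚ) + 1) + 1) ≠ 0 := by positivity
    rw [show 2 * (j + 1) + 1 = 2 * j + 1 + 1 + 1 by ring, pr_succ, pr_succ, pr_succ (n : ℚ) j]
    push_cast
    -- goal: cb (j+1) * cb (n-1-(j+1)) * ...
    have goal' : (2 * ((j : ℚ) + 1) + 1) * (1 - 2 * n / (2 * j + 1 + 1)) *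
        (1 - 2 * n / (2 * j + 1 + 1 + 1)) * ((j + 1) ^ 2) =
        - ((j + 1) * (n - 1 - j) * (2 * j + 3 - 2 * n)) := by
      field_simp
      ring
    have goal'' : (1 - (n : ℚ) / (j + 1)) ^ 2 * ((j + 1) ^ 2) = (n - 1 - j) ^ 2 := by
      field_simp
      ring
    have hj5 : ((j : ℚ) + 1) ^ 2 ≠ 0 := by positivity
    apply mul_right_cancel₀ hj5
    have h3 : ((j : ℚ) + 1) * (2 * n - 2 * j - 3) * ((cb (j + 1) : ℚ) * cb (n - 1 - (j + 1))) =
        (2 * j + 1) * (n - 1 - j) * ((cb j : ℚ) * cb (n - 1 - j)) := by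
      have e3 : ((n : ℚ) - 2 - j + 1) = n - 1 - j := by ring
      rw [e3] at h2'
      have : (2 : ℚ) ≠ 0 := by norm_num
      apply mul_left_cancel₀ this
      linear_combination 2 * (2 * (n : ℚ) - 2 * j - 3) * (cb (n - 1 - (j + 1)) : ℚ) * h1' -
        2 * (2 * j + 1) * (cb j : ℚ) * h2'
    calc (cb (j + 1) : ℚ) * cb (n - 1 - (j + 1)) * ((2 * ((j : ℚ) + 1) + 1) *
          (pr (2 * n) (2 * j + 1) * (1 - 2 * n / (2 * j + 1 + 1)) *
            (1 - 2 * n / (2 * j + 2 + 1)))) * (j + 1) ^ 2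
        = (cb (j + 1) : ℚ) * cb (n - 1 - (j + 1)) * pr (2 * n) (2 * j + 1) *
            ((2 * ((j : ℚ) + 1) + 1) * (1 - 2 * n / (2 * j + 1 + 1)) *
              (1 - 2 * n / (2 * j + 1 + 1 + 1)) * ((j + 1) ^ 2)) := by ring
      _ = (n - 1 - j) * pr (2 * n) (2 * j + 1) * (((j : ℚ) + 1) * (2 * n - 2 * j - 3) *
            ((cb (j + 1) : ℚ) * cb (n - 1 - (j + 1)))) := by
          rw [goal']
          ring
      _ = (n - 1 - j) ^ 2 * ((cb j : ℚ) * cb (n - 1 - j) * ((2 * j + 1) *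
            pr (2 * n) (2 * j + 1))) := by
          rw [h3]
          ring
      _ = (n - 1 - j) ^ 2 * - (κ n * n * pr n j ^ 2) := by rw [ih]
      _ = - (κ n * n * (pr n j * (1 - n / (j + 1))) ^ 2) * (j + 1) ^ 2 := by
          rw [← goal'']
          ring

/-- The combination which is small. -/
lemma comb_eq (n j : ℕ) (hn : 1 ≤ n) (hj : j < n) :
    ((cb j * cb (n - 1 - j) + κ n * n.choose (2 * j + 1) : ℤ) : ℚ) *
      ((2 * j + 1) * pr (2 * n) (2 * j + 1)) =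
      κ n * n * (pr n (2 * j) * pr (2 * n) (2 * j + 1) - pr n j ^ 2) := by
  have h1 := prod_eq n j hj
  have h2 : (2 * (j : ℚ) + 1) * n.choose (2 * j + 1) = n * pr n (2 * j) := by
    have h3 := choose_succ_mul (n - 1) (2 * j)
    rw [Nat.sub_add_cancel hn] at h3
    have h4 := congrArg (Int.cast : ℤ → ℚ) h3
    push_cast [Nat.cast_sub hn] at h4
    rw [choose_eq_pr n (2 * j) hn, pow_mul] at h4
    norm_num at h4
    rw [h4]
  push_cast at h1 ⊢
  linear_combination h1 + (κ n : ℚ) * pr (2 * n) (2 * j + 1) * h2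

lemma N_ge (L i : ℕ) (hi : 0 < i) (h : i < 3 ^ (L + 1)) : (3 : ℚ) ^ (-(L : ℤ)) ≤ N i := by
  have hi0 : (i : ℚ) ≠ 0 := by exact_mod_cast hi.ne'
  rw [N, padicNorm.eq_zpow_of_nonzero hi0]
  push_cast
  apply zpow_le_zpow_right₀ (by norm_num)
  rw [padicValRat.of_nat]
  have h1 : padicValNat 3 i < L + 1 := by
    by_contra hcon
    push Not at hcon
    have h2 : 3 ^ (L + 1) ∣ i := (padicValNat_dvd_iff_le (p := 3) hi.ne').2 hcon
    exact absurd (Nat.le_of_dvd hi h2) (not_le.2 h)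
  omega

lemma log_bound (j L : ℕ) (h : 3 ^ L ≤ 2 * j + 1) : 2 * L ≤ j + 1 ∧ (j ≠ 1 → 2 * L ≤ j) := by
  have h4 : ∀ L, 2 ≤ L → 4 * L + 1 ≤ 3 ^ L := by
    intro L hL
    induction L, hL using Nat.le_induction with
    | base => norm_num
    | succ L _ ih =>
      rw [pow_succ]
      omega
  rcases Nat.lt_or_ge L 2 with hL | hL
  · interval_cases L
    · omega
    · omega
  · have := h4 L hL
    omega

/-- The key estimate. -/
lemma key_norm (n a j : ℕ) (hn : 1 ≤ n) (ha : 3 ^ a ∣ n) (hj : 2 * j + 1 < 3 ^ a) :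
    N ((cb j * cb (n - 1 - j) + κ n * n.choose (2 * j + 1) : ℤ) : ℚ) ≤
      3 ^ (2 * (Nat.log 3 (2 * j + 1) : ℤ) - 2 * a) := by
  obtain ⟨L, hL⟩ : ∃ L, L = Nat.log 3 (2 * j + 1) := ⟨_, rfl⟩
  rw [← hL]
  have hL1 : 3 ^ L ≤ 2 * j + 1 := hL ▸ Nat.pow_log_le_self 3 (by omega)
  have hL2 : 2 * j + 1 < 3 ^ (L + 1) := hL ▸ Nat.lt_pow_succ_log_self (by norm_num) _
  have hLa : L < a := (Nat.pow_lt_pow_iff_right (by norm_num : 1 < 3)).1 (hL1.trans_lt hj)
  have hjn : j < n := by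
    have := Nat.le_of_dvd (by omega) ha
    omega
  have hε1 : (3 : ℚ) ^ ((L : ℤ) - a) < 1 := by
    apply zpow_lt_one_of_neg₀ (by norm_num)
    omega
  have hNn : N (n : ℚ) ≤ 3 ^ (-(a : ℤ)) := by
    have h := (N_dvd a (n : ℤ)).1 (by exact_mod_cast ha)
    simpa using h
  have hdiv : ∀ (c : ℤ) (i : ℕ), i < 2 * j + 1 → N ((c * n : ℚ) / (i + 1)) ≤ 3 ^ ((L : ℤ) - a) := by
    intro c i hi
    have h1 := N_ge L (i + 1) (by omega) (by omega)
    push_cast at h1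
    have h2 : N ((c * n : ℚ) / (i + 1)) = N (c * n) / N (i + 1) := padicNorm.div _ _
    have h3 : N ((c : ℚ) * n) ≤ 3 ^ (-(a : ℤ)) := by
      rw [N_mul]
      calc N (c : ℚ) * N n ≤ 1 * 3 ^ (-(a : ℤ)) :=
            mul_le_mul (N_int c) hNn (N_nonneg _) zero_le_one
        _ = _ := one_mul _
    rw [h2]
    have hpos : (0 : ℚ) < 3 ^ (-(L : ℤ)) := by positivity
    rw [div_le_iff₀ (hpos.trans_le h1)]
    calc N ((c : ℚ) * n) ≤ 3 ^ (-(a : ℤ)) := h3
      _ = 3 ^ ((L : ℤ) - a) * 3 ^ (-(L : ℤ)) := by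
          rw [← zpow_add₀ (by norm_num)]
          congr 1
          ring
      _ ≤ _ := mul_le_mul_of_nonneg_left h1 (by positivity)
  have hd1 : ∀ i < 2 * j + 1, N ((n : ℚ) / (i + 1)) ≤ 3 ^ ((L : ℤ) - a) := by
    intro i hi
    have := hdiv 1 i hi
    simpa using this
  have hd2 : ∀ i < 2 * j + 1, N ((2 * n : ℚ) / (i + 1)) ≤ 3 ^ ((L : ℤ) - a) := by
    intro i hi
    have := hdiv 2 i hi
    simpa using this
  obtain ⟨p1, p1'⟩ := pr_norm n _ hε1.le (by positivity) (2 * j) fun i hi => hd1 i (by omega)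
  obtain ⟨p2, p2'⟩ := pr_norm (2 * n) _ hε1.le (by positivity) (2 * j + 1) hd2
  obtain ⟨p3, p3'⟩ := pr_norm n _ hε1.le (by positivity) j fun i hi => hd1 i (by omega)
  have p2u := norm_one_of_sub hε1 p2
  have hbr : N (pr n (2 * j) * pr (2 * n) (2 * j + 1) - pr n j ^ 2) ≤ 3 ^ ((L : ℤ) - a) := by
    have e : pr n (2 * j) * pr (2 * n) (2 * j + 1) - pr n j ^ 2 =
        ((pr n (2 * j) - 1) * pr (2 * n) (2 * j + 1) + (pr (2 * n) (2 * j + 1) - 1)) -
          ((pr n j - 1) * pr n j + (pr n j - 1)) := by ring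
    rw [e]
    refine (N_sub _ _).trans (max_le ((N_add _ _).trans (max_le ?_ p2))
      ((N_add _ _).trans (max_le ?_ p3)))
    · rw [N_mul, p2u, mul_one]
      exact p1
    · rw [N_mul]
      calc N (pr n j - 1) * N (pr n j) ≤ 3 ^ ((L : ℤ) - a) * 1 :=
            mul_le_mul p3 p3' (N_nonneg _) (by positivity)
        _ = _ := mul_one _
  have hmain := congrArg N (comb_eq n j hn hjn)
  rw [N_mul, N_mul, N_mul, N_mul, p2u, mul_one] at hmain
  have h2j : (3 : ℚ) ^ (-(L : ℤ)) ≤ N (2 * (j : ℚ) + 1) := by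
    have := N_ge L (2 * j + 1) (by omega) hL2
    push_cast at this
    exact this
  have hR : N (κ n : ℚ) * N (n : ℚ) * N (pr n (2 * j) * pr (2 * n) (2 * j + 1) - pr n j ^ 2) ≤
      3 ^ (-(a : ℤ)) * 3 ^ ((L : ℤ) - a) := by
    apply mul_le_mul _ hbr (N_nonneg _) (by positivity)
    calc N (κ n : ℚ) * N (n : ℚ) ≤ 1 * 3 ^ (-(a : ℤ)) :=
          mul_le_mul (N_int _) hNn (N_nonneg _) zero_le_one
      _ = _ := one_mul _
  rw [← hmain] at hR
  have hpos : (0 : ℚ) < 3 ^ (-(L : ℤ)) := by positivity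
  have hfin := (mul_le_mul_of_nonneg_left h2j (N_nonneg
    ((cb j * cb (n - 1 - j) + κ n * n.choose (2 * j + 1) : ℤ) : ℚ))).trans hR
  rw [← le_div_iff₀ hpos] at hfin
  refine hfin.trans (le_of_eq ?_)
  rw [div_eq_mul_inv, ← zpow_neg, ← zpow_add₀ (by norm_num), ← zpow_add₀ (by norm_num)]
  congr 1
  ring

end Pool.Agent.X318.ThreeAdic
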