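import Mathlib
import Pool.Agent.X318.ThreeAdicB

/-!
# 3-adic valuations of alternating sums of central binomial coefficients
-/

set_option autoImplicit false

open Finset

namespace Pool.Agent.X318.ThreeAdic

/-- `∑_j C(2j,j) C(2(n-1-j),n-1-j) (m-4)^j m^(n-1-j)`. -/
def Ts (m : ℤ) (n : ℕ) : ℤ := ∑ j ∈ range n, cb j * cb (n - 1 - j) * ((m - 4) ^ j * m ^ (n - 1 - j))

/-- The Lucas sequence. -/
def W (m : ℤ) (n : ℕ) : ℤ := (z m ^ n).im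

lemma Ts_add (m : ℤ) (n : ℕ) : Ts m n + κ n * W m n =
    ∑ j ∈ range n, (cb j * cb (n - 1 - j) + κ n * n.choose (2 * j + 1)) *
      ((m - 4) ^ j * m ^ (n - 1 - j)) := by
  unfold W
  rw [(z_pow m n).2, Ts, mul_sum, ← sum_add_distrib]
  exact sum_congr rfl fun j _ => by ring

lemma pow_bound (a j : ℕ) (ha : 1 ≤ a) (h : 3 ^ a ≤ 2 * j + 1) : 2 * a ≤ j + 1 ∧ (2 ≤ a → 2 * a ≤ j) := by
  have h1 : ∀ a, 1 ≤ a → 4 * a - 1 ≤ 3 ^ a := by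
    intro a ha
    induction a, ha using Nat.le_induction with
    | base => norm_num
    | succ a _ ih =>
      rw [pow_succ]
      omega
  have h2 : ∀ a, 2 ≤ a → 4 * a + 1 ≤ 3 ^ a := by
    intro a ha
    induction a, ha using Nat.le_induction with
    | base => norm_num
    | succ a _ ih =>
      rw [pow_succ]
      omega
  constructor
  · have := h1 a ha
    omega
  · intro h3
    have := h2 a h3
    omega

lemma N_pow_dvd (m : ℤ) (hm : 3 ∣ m - 1) (j : ℕ) : N (((m - 4) ^ j : ℤ) : ℚ) ≤ 3 ^ (-(j : ℤ)) := by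
  rw [← N_dvd]
  apply pow_dvd_pow_of_dvd
  omega

lemma term_bound (m : ℤ) (hm : 3 ∣ m - 1) (n a j : ℕ) (hn : 1 ≤ n) (ha : 3 ^ a ∣ n) (ha1 : 1 ≤ a) :
    N (((cb j * cb (n - 1 - j) + κ n * n.choose (2 * j + 1)) *
      ((m - 4) ^ j * m ^ (n - 1 - j)) : ℤ) : ℚ) ≤ 3 ^ (-(2 * (a : ℤ) - 1)) ∧
    (2 ≤ a → j ≠ 1 → N (((cb j * cb (n - 1 - j) + κ n * n.choose (2 * j + 1)) *
      ((m - 4) ^ j * m ^ (n - 1 - j)) : ℤ) : ℚ) ≤ 3 ^ (-(2 * (a : ℤ)))) := by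
  obtain ⟨A, hA⟩ : ∃ A, A = cb j * cb (n - 1 - j) + κ n * n.choose (2 * j + 1) := ⟨_, rfl⟩
  rw [← hA]
  have h1 : N ((A * ((m - 4) ^ j * m ^ (n - 1 - j)) : ℤ) : ℚ) ≤ N (A : ℚ) * 3 ^ (-(j : ℤ)) := by
    rw [Int.cast_mul, N_mul]
    apply mul_le_mul_of_nonneg_left _ (N_nonneg _)
    rw [Int.cast_mul, N_mul]
    calc N (((m - 4) ^ j : ℤ) : ℚ) * N ((m ^ (n - 1 - j) : ℤ) : ℚ)
        ≤ 3 ^ (-(j : ℤ)) * 1 := mul_le_mul (N_pow_dvd m hm j) (N_int _) (N_nonneg _) (by positivity)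
      _ = _ := mul_one _
  by_cases hj : 2 * j + 1 < 3 ^ a
  · have h2 := key_norm n a j hn ha hj
    rw [← hA] at h2
    have hL1 : 3 ^ Nat.log 3 (2 * j + 1) ≤ 2 * j + 1 := Nat.pow_log_le_self 3 (by omega)
    obtain ⟨L, hL⟩ : ∃ L, L = Nat.log 3 (2 * j + 1) := ⟨_, rfl⟩
    rw [← hL] at h2 hL1
    obtain ⟨b1, b2⟩ := log_bound j L hL1
    have h3 : N ((A * ((m - 4) ^ j * m ^ (n - 1 - j)) : ℤ) : ℚ) ≤ 3 ^ (2 * (L : ℤ) - 2 * a - j) := by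
      refine h1.trans ?_
      rw [sub_eq_add_neg _ (j : ℤ), zpow_add₀ (by norm_num)]
      exact mul_le_mul_of_nonneg_right h2 (by positivity)
    constructor
    · refine h3.trans (zpow_le_zpow_right₀ (by norm_num) ?_)
      omega
    · intro _ hj1
      have := b2 hj1
      refine h3.trans (zpow_le_zpow_right₀ (by norm_num) ?_)
      omega
  · obtain ⟨b1, b2⟩ := pow_bound a j ha1 (by omega)
    have h3 : N ((A * ((m - 4) ^ j * m ^ (n - 1 - j)) : ℤ) : ℚ) ≤ 3 ^ (- (j : ℤ)) := by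
      refine h1.trans ?_
      calc N (A : ℚ) * 3 ^ (-(j : ℤ)) ≤ 1 * 3 ^ (-(j : ℤ)) :=
            mul_le_mul_of_nonneg_right (N_int _) (by positivity)
        _ = _ := one_mul _
    constructor
    · refine h3.trans (zpow_le_zpow_right₀ (by norm_num) ?_)
      omega
    · intro h2a _
      have := b2 h2a
      refine h3.trans (zpow_le_zpow_right₀ (by norm_num) ?_)
      omega

lemma Ts_bound (m : ℤ) (hm : 3 ∣ m - 1) (n a : ℕ) (hn : 1 ≤ n) (ha : 3 ^ a ∣ n) (ha1 : 1 ≤ a) :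
    N ((Ts m n + κ n * W m n : ℤ) : ℚ) ≤ 3 ^ (-(2 * (a : ℤ) - 1)) := by
  rw [Ts_add, Int.cast_sum]
  apply padicNorm.sum_le' _ (by positivity)
  intro j _
  exact (term_bound m hm n a j hn ha ha1).1

lemma W_dvd (m : ℤ) (hm : 3 ∣ m - 1) (a s : ℕ) (n : ℕ) (ha : 3 ^ (a + 1) ∣ n)
    (hs : 3 ^ s ∣ m - 1) : (3 : ℤ) ^ (a + s) ∣ W m n := by
  obtain ⟨k, rfl⟩ := ha
  obtain ⟨x, y, hxy⟩ := pow_three_pow m hm a
  unfold W
  rw [show 3 ^ (a + 1) * k = 3 * (3 ^ a * k) by ring, W_three]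
  apply Dvd.dvd.mul_left
  rw [pow_mul, hxy]
  refine dvd_trans ?_ (dvd_im _ k)
  rw [pow_add]
  exact Dvd.dvd.mul_right (mul_dvd_mul_left _ hs) _

/-- The sum of the problem. -/
def S (m : ℤ) (n : ℕ) : ℚ :=
  ∑ k ∈ range n, (-1) ^ k * ((n - 1).choose k : ℚ) * ((2 * k).choose k : ℚ) * ((m : ℚ) ^ k)⁻¹

lemma S_rel (m : ℤ) (hm : m ≠ 0) (n : ℕ) (hn : 1 ≤ n) :
    (((4 * m) ^ (n - 1) : ℤ) : ℚ) * S m n = (Ts m n : ℚ) := by
  have h := two_forms (n - 1) m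
  rw [Nat.sub_add_cancel hn] at h
  unfold Ts
  rw [h, S, mul_sum]
  push_cast
  rw [mul_sum]
  refine sum_congr rfl fun k hk => ?_
  have hk' := mem_range.1 hk
  have hm' : (m : ℚ) ≠ 0 := by exact_mod_cast hm
  rw [show n - 1 = k + (n - 1 - k) by omega, mul_pow, pow_add (m : ℚ),
    show k + (n - 1 - k) - k = n - 1 - k by omega]
  unfold cb Nat.centralBinom
  push_cast
  field_simp

lemma N_four_mul (m : ℤ) (hm : 3 ∣ m - 1) (k : ℕ) : N (((4 * m) ^ k : ℤ) : ℚ) = 1 := by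
  apply N_unit
  intro h
  have := Int.prime_three.dvd_of_dvd_pow h
  omega

lemma m_ne_zero (m : ℤ) (hm : 3 ∣ m - 1) : m ≠ 0 := by
  rintro rfl
  omega

lemma N_S (m : ℤ) (hm : 3 ∣ m - 1) (n : ℕ) (hn : 1 ≤ n) : N (S m n) = N (Ts m n : ℚ) := by
  rw [← S_rel m (m_ne_zero m hm) n hn, N_mul, N_four_mul m hm, one_mul]

lemma N_S_bound (m : ℤ) (hm : 3 ∣ m - 1) (n : ℕ) (hn : 1 ≤ n) (a s : ℕ) (ha : 3 ^ a ∣ n)
    (ha1 : 1 ≤ a) (hs : 3 ^ s ∣ m - 1) (hsa : s ≤ a) :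
    N (S m n) ≤ 3 ^ (-((a : ℤ) + s - 1)) := by
  rw [N_S m hm n hn]
  have e : (Ts m n : ℚ) = ((Ts m n + κ n * W m n : ℤ) : ℚ) - ((κ n * W m n : ℤ) : ℚ) := by
    push_cast
    ring
  rw [e]
  refine (N_sub _ _).trans (max_le ?_ ?_)
  · refine (Ts_bound m hm n a hn ha ha1).trans (zpow_le_zpow_right₀ (by norm_num) ?_)
    omega
  · obtain ⟨b, rfl⟩ : ∃ b, a = b + 1 := ⟨a - 1, by omega⟩
    have h := W_dvd m hm b s n ha hs
    have h2 := (N_dvd (b + s) (κ n * W m n)).1 (Dvd.dvd.mul_left h _)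
    refine h2.trans (zpow_le_zpow_right₀ (by norm_num) ?_)
    push_cast
    omega

lemma kappa_mod (a : ℕ) : (3 : ℤ) ∣ κ (3 ^ a) - 1 := by
  have h1 : ∀ a : ℕ, (2 * 3 ^ a).choose (3 ^ a) ≡ 2 [MOD 3] := by
    intro a
    induction a with
    | zero => decide
    | succ a ih =>
      have h := Choose.choose_modEq_choose_mod_mul_choose_div_nat (n := 2 * 3 ^ (a + 1))
        (k := 3 ^ (a + 1)) (p := 3)
      rw [show 2 * 3 ^ (a + 1) % 3 = 0 by rw [pow_succ]; omega,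
        show 3 ^ (a + 1) % 3 = 0 by rw [pow_succ]; omega,
        show 2 * 3 ^ (a + 1) / 3 = 2 * 3 ^ a by rw [pow_succ]; omega,
        show 3 ^ (a + 1) / 3 = 3 ^ a by rw [pow_succ]; omega, Nat.choose_self, one_mul] at h
      exact h.trans ih
  have h2 := h1 a
  have h3 : (2 * 3 ^ a).choose (3 ^ a) = 2 * (2 * 3 ^ a - 1).choose (3 ^ a) := by
    obtain ⟨k, hk⟩ : ∃ k, 3 ^ a = k + 1 := ⟨3 ^ a - 1, by
      have : 0 < 3 ^ a := by positivity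
      omega⟩
    rw [hk, show 2 * (k + 1) = 2 * k + 1 + 1 by ring, Nat.choose_succ_succ,
      show 2 * k + 1 + 1 - 1 = 2 * k + 1 by omega,
      show (2 * k + 1).choose k = (2 * k + 1).choose (k + 1) by
        rw [← Nat.choose_symm_of_eq_add (show 2 * k + 1 = k + (k + 1) by ring)]]
    ring
  rw [h3] at h2
  unfold κ
  unfold Nat.ModEq at h2
  omega

/-- Question 2 (a), in terms of norms. -/
lemma Q2a (m : ℤ) (hm : 3 ∣ m - 1) (a s : ℕ) (hs : 3 ^ s ∣ m - 1) (hsa : s < a) :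
    N (S m (3 ^ a) + 3 ^ (a - 1) * (m - 1)) ≤ 3 ^ (-((a : ℤ) + s)) := by
  obtain ⟨b, rfl⟩ : ∃ b, a = b + 1 := ⟨a - 1, by omega⟩
  obtain ⟨x, y, hxy⟩ := pow_three_pow m hm b
  have hn : 1 ≤ 3 ^ (b + 1) := Nat.one_le_pow _ _ (by norm_num)
  have hW : W m (3 ^ (b + 1)) = (4 * m) ^ (3 ^ b) * (3 ^ b * (m - 1) * (1 + 3 * y)) := by
    unfold W
    rw [show 3 ^ (b + 1) = 3 * 3 ^ b by ring, W_three, hxy]
  have h1 := Ts_bound m hm (3 ^ (b + 1)) (b + 1) hn dvd_rfl (by omega)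
  have hrel := S_rel m (m_ne_zero m hm) (3 ^ (b + 1)) hn
  have h2 : N (S m (3 ^ (b + 1)) + 3 ^ (b + 1 - 1) * (m - 1)) =
      N ((((4 * m) ^ (3 ^ (b + 1) - 1) : ℤ) : ℚ) * (S m (3 ^ (b + 1)) +
        3 ^ (b + 1 - 1) * (m - 1))) := by
    rw [N_mul, N_four_mul m hm, one_mul]
  rw [h2, mul_add, hrel, Nat.add_sub_cancel]
  have e : (Ts m (3 ^ (b + 1)) : ℚ) + (((4 * m) ^ (3 ^ (b + 1) - 1) : ℤ) : ℚ) *
      (3 ^ b * (m - 1)) = ((Ts m (3 ^ (b + 1)) + κ (3 ^ (b + 1)) * W m (3 ^ (b + 1)) : ℤ) : ℚ) +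
      (((3 ^ b * (m - 1)) * ((4 * m) ^ (3 ^ (b + 1) - 1) -
        κ (3 ^ (b + 1)) * ((4 * m) ^ (3 ^ b) * (1 + 3 * y))) : ℤ) : ℚ) := by
    rw [hW]
    push_cast
    ring
  rw [e]
  refine (N_add _ _).trans (max_le (h1.trans (zpow_le_zpow_right₀ (by norm_num) ?_)) ?_)
  · push_cast
    omega
  · have h3 : (3 : ℤ) ∣ (4 * m) ^ (3 ^ (b + 1) - 1) -
        κ (3 ^ (b + 1)) * ((4 * m) ^ (3 ^ b) * (1 + 3 * y)) := by
      have h4 : ∀ k : ℕ, (3 : ℤ) ∣ (4 * m) ^ k - 1 := by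
        intro k
        have h5 : (3 : ℤ) ∣ 4 * m - 1 := by omega
        have h6 := sub_dvd_pow_sub_pow (4 * m) 1 k
        rw [one_pow] at h6
        exact h5.trans h6
      obtain ⟨c1, h5⟩ := h4 (3 ^ (b + 1) - 1)
      obtain ⟨c2, h6⟩ := h4 (3 ^ b)
      obtain ⟨c3, h7⟩ := kappa_mod (b + 1)
      refine ⟨c1 - (c3 * (1 + 3 * c2) * (1 + 3 * y) + c2 * (1 + 3 * y) + y), ?_⟩
      have e5 : (4 * m) ^ (3 ^ (b + 1) - 1) = 1 + 3 * c1 := by linarith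
      have e6 : (4 * m) ^ (3 ^ b) = 1 + 3 * c2 := by linarith
      have e7 : κ (3 ^ (b + 1)) = 1 + 3 * c3 := by linarith
      rw [e5, e6, e7]
      ring
    have h4 : (3 : ℤ) ^ (b + 1 + s) ∣ (3 ^ b * (m - 1)) * ((4 * m) ^ (3 ^ (b + 1) - 1) -
        κ (3 ^ (b + 1)) * ((4 * m) ^ (3 ^ b) * (1 + 3 * y))) := by
      rw [show (3 : ℤ) ^ (b + 1 + s) = 3 ^ b * 3 ^ s * 3 by ring]
      exact mul_dvd_mul (mul_dvd_mul_left _ hs) h3
    have h5 := (N_dvd _ _).1 h4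
    push_cast at h5 ⊢
    exact h5

/-- Question 2 (b), in terms of norms. -/
lemma Q2b (a : ℕ) (ha : 2 ≤ a) : N (S 1 (3 ^ a) + 3 ^ (2 * a - 1)) ≤ 3 ^ (-(2 * (a : ℤ))) := by
  have hm : (3 : ℤ) ∣ 1 - 1 := by norm_num
  obtain ⟨b, rfl⟩ : ∃ b, a = b + 1 := ⟨a - 1, by omega⟩
  obtain ⟨x, y, hxy⟩ := pow_three_pow 1 hm b
  have hn : 1 ≤ 3 ^ (b + 1) := Nat.one_le_pow _ _ (by norm_num)
  have hW : W 1 (3 ^ (b + 1)) = 0 := by
    unfold W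
    rw [show 3 ^ (b + 1) = 3 * 3 ^ b by ring, W_three, hxy]
    simp
  have hrel := S_rel 1 (by norm_num) (3 ^ (b + 1)) hn
  have h2 : N (S 1 (3 ^ (b + 1)) + 3 ^ (2 * (b + 1) - 1)) =
      N ((((4 * 1) ^ (3 ^ (b + 1) - 1) : ℤ) : ℚ) * (S 1 (3 ^ (b + 1)) +
        3 ^ (2 * (b + 1) - 1))) := by
    rw [N_mul, N_four_mul 1 hm, one_mul]
  have hT := Ts_add 1 (3 ^ (b + 1))
  rw [hW, mul_zero, add_zero] at hT
  obtain ⟨f, hf⟩ : ∃ f : ℕ → ℤ, f = fun j => (cb j * cb (3 ^ (b + 1) - 1 - j) +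
      κ (3 ^ (b + 1)) * (3 ^ (b + 1)).choose (2 * j + 1)) *
      ((1 - 4) ^ j * 1 ^ (3 ^ (b + 1) - 1 - j)) := ⟨_, rfl⟩
  have hT' : Ts 1 (3 ^ (b + 1)) = ∑ j ∈ range (3 ^ (b + 1)), f j := by rw [hT, hf]
  have h1mem : 1 ∈ range (3 ^ (b + 1)) := by
    rw [mem_range]
    calc 1 < 3 ^ 1 := by norm_num
      _ ≤ 3 ^ (b + 1) := Nat.pow_le_pow_right (by norm_num) (by omega)
  rw [h2, mul_add, hrel, hT', ← add_sum_erase _ _ h1mem]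
  have e : ((f 1 + ∑ j ∈ (range (3 ^ (b + 1))).erase 1, f j : ℤ) : ℚ) +
      (((4 * 1) ^ (3 ^ (b + 1) - 1) : ℤ) : ℚ) * 3 ^ (2 * (b + 1) - 1) =
      ((∑ j ∈ (range (3 ^ (b + 1))).erase 1, f j : ℤ) : ℚ) +
      ((f 1 + 4 ^ (3 ^ (b + 1) - 1) * 3 ^ (2 * (b + 1) - 1) : ℤ) : ℚ) := by
    push_cast
    ring
  rw [e]
  refine (N_add _ _).trans (max_le ?_ ?_)
  · rw [Int.cast_sum]
    apply padicNorm.sum_le' _ (by positivity)
    intro j hj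
    have h3 := (term_bound 1 hm (3 ^ (b + 1)) (b + 1) j hn dvd_rfl (by omega)).2 ha
      (ne_of_mem_erase hj)
    rw [hf]
    exact h3
  · -- the term `j = 1`
    have hn2 : 1 < 3 ^ (b + 1) := mem_range.1 h1mem
    have h4 := comb_eq (3 ^ (b + 1)) 1 hn hn2
    have hb1 : ((3 ^ (b + 1) : ℕ) : ℚ) = 3 * 3 ^ b := by
      push_cast
      ring
    have hf1 : f 1 = -3 * (cb 1 * cb (3 ^ (b + 1) - 1 - 1) +
        κ (3 ^ (b + 1)) * (3 ^ (b + 1)).choose (2 * 1 + 1)) := by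
      rw [hf]
      ring
    obtain ⟨A, hA⟩ : ∃ A, A = cb 1 * cb (3 ^ (b + 1) - 1 - 1) +
        κ (3 ^ (b + 1)) * (3 ^ (b + 1)).choose (2 * 1 + 1) := ⟨_, rfl⟩
    rw [← hA] at h4 hf1
    obtain ⟨q, hq⟩ : ∃ q : ℤ, q = 3 ^ b := ⟨_, rfl⟩
    have hqQ : ((3 : ℚ) ^ b) = (q : ℚ) := by
      rw [hq]
      push_cast
      ring
    rw [hb1, hqQ] at h4
    simp only [pr, prod_range_succ, prod_range_zero, mul_one, one_mul] at h4
    norm_num at h4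
    have hq1 : (1 - 3 * (q : ℚ)) ≠ 0 := by
      have : (1 : ℚ) ≤ (q : ℚ) := by
        rw [hq]
        exact_mod_cast Nat.one_le_pow b 3 (by norm_num)
      intro h
      linarith
    -- A * 6 * 3 * (1-2n)(1-2n') = - κ n^2 (1-n) (19-16n+4n^2)
    have h5 : (A : ℚ) * (2 * (1 - 2 * (3 * q)) * (1 - 2 * q)) =
        - (κ (3 ^ (b + 1)) * q ^ 2 * (1 - 3 * q) * (19 - 16 * (3 * q) + 4 * (3 * q) ^ 2)) := by
      field_simp at h4
      linear_combination h4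
    have h6 : (A : ℤ) * (2 * (1 - 2 * (3 * q)) * (1 - 2 * q)) =
        - (κ (3 ^ (b + 1)) * q ^ 2 * (1 - 3 * q) * (19 - 16 * (3 * q) + 4 * (3 * q) ^ 2)) := by
      exact_mod_cast h5
    have hq3 : (3 : ℤ) ∣ q := by
      rw [hq]
      exact dvd_pow_self 3 (by omega)
    obtain ⟨D, hD⟩ : ∃ D, D = 2 * (1 - 2 * (3 * q)) * (1 - 2 * q) := ⟨_, rfl⟩
    obtain ⟨q', hq'⟩ := hq3
    have hDn : N (D : ℚ) = 1 := by
      apply N_unit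
      have h7 : D = 2 + 3 * (-16 * q' + 24 * q * q') := by
        rw [hD, hq']
        ring
      omega
    have h8 : N ((f 1 + 4 ^ (3 ^ (b + 1) - 1) * 3 ^ (2 * (b + 1) - 1) : ℤ) : ℚ) =
        N (((f 1 + 4 ^ (3 ^ (b + 1) - 1) * 3 ^ (2 * (b + 1) - 1)) * D : ℤ) : ℚ) := by
      rw [Int.cast_mul _ D, N_mul, hDn, mul_one]
    rw [h8]
    have h9 : (3 : ℤ) ^ (2 * (b + 1)) ∣
        (f 1 + 4 ^ (3 ^ (b + 1) - 1) * 3 ^ (2 * (b + 1) - 1)) * D := by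
      obtain ⟨c1, hc1⟩ : ∃ c1, (4 : ℤ) ^ (3 ^ (b + 1) - 1) = 1 + 3 * c1 := by
        have h6 := sub_dvd_pow_sub_pow (4 : ℤ) 1 (3 ^ (b + 1) - 1)
        rw [one_pow] at h6
        obtain ⟨c1, hc⟩ := h6
        exact ⟨c1, by linarith⟩
      obtain ⟨c3, h7⟩ := kappa_mod (b + 1)
      have e7 : κ (3 ^ (b + 1)) = 1 + 3 * c3 := by linarith
      have e8 : (3 : ℤ) ^ (2 * (b + 1) - 1) = 3 * q ^ 2 := by
        rw [show 2 * (b + 1) - 1 = b + b + 1 by omega, hq]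
        ring
      have e9 : (3 : ℤ) ^ (2 * (b + 1)) = 9 * q ^ 2 := by
        rw [show 2 * (b + 1) = b + b + 2 by omega, hq]
        ring
      rw [e8, e9, hc1, hf1, add_mul, mul_assoc (-3 : ℤ) A D, hD, h6, e7]
      refine ⟨7 - 40 * q - q' + 68 * q ^ 2 - 36 * q ^ 3 +
        c3 * (1 - 3 * q) * (19 - 48 * q + 36 * q ^ 2) + c1 * (2 * (1 - 2 * (3 * q)) * (1 - 2 * q)),
        ?_⟩
      linear_combination (-3 * q ^ 2) * hq'
    have h10 := (N_dvd _ _).1 h9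
    push_cast at h10 ⊢
    exact h10

end Pool.Agent.X318.ThreeAdic
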