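import Mathlib

/-!
# A `q`-inversion symmetry for nested sums attached to words in `x, y, z`
-/

set_option autoImplicit false

open Finset

namespace Pool.Agent.X318.QInv

/-- The three letters. -/
inductive L | x | y | z
deriving DecidableEq

variable {K : Type*} [Field K]

/-- `κ_i = (-1)^i q^{i(i+1)/2} / ((1-q)⋯(1-q^i))`. -/
def κ (q : K) : ℕ → K
  | 0 => 1
  | i + 1 => κ q i * (-(q ^ (i + 1)) / (1 - q ^ (i + 1)))

/-- `(1 - q^P)(1 - q^{P+1})⋯(1 - q^{P+i-1})`. -/
def A (q : K) (P : ℤ) (i : ℕ) : K := ∏ t ∈ range i, (1 - q ^ (P + t))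

/-- `(1 - q^R)(1 - q^{R-1})⋯(1 - q^{R-i+1})`. -/
def W (q : K) (R : ℤ) (i : ℕ) : K := ∏ t ∈ range i, (1 - q ^ (R - t))

/-- The coefficients of the intertwiner. -/
def c (q : K) (i : ℕ) (P R : ℤ) : K := κ q i * q ^ (-((P + i) * R)) * A q P i * W q R i

/-- Companion coefficients. -/
def e (q : K) (i : ℕ) (P R : ℤ) : K := κ q i * q ^ (-((P + i) * R)) * A q (P + 1) i * W q (R - 1) i

lemma A_left (q : K) (P : ℤ) (i : ℕ) : A q P (i + 1) = (1 - q ^ P) * A q (P + 1) i := by
  unfold A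
  rw [prod_range_succ', mul_comm]
  congr 1
  · simp
  · refine prod_congr rfl fun t _ => ?_
    congr 2
    push_cast
    ring

lemma A_right (q : K) (P : ℤ) (i : ℕ) : A q P (i + 1) = A q P i * (1 - q ^ (P + i)) := by
  unfold A
  rw [prod_range_succ]

lemma W_left (q : K) (R : ℤ) (i : ℕ) : W q R (i + 1) = (1 - q ^ R) * W q (R - 1) i := by
  unfold W
  rw [prod_range_succ', mul_comm]
  congr 1
  · simp
  · refine prod_congr rfl fun t _ => ?_
    congr 2
    push_cast
    ring

lemma W_right (q : K) (R : ℤ) (i : ℕ) : W q R (i + 1) = W q R i * (1 - q ^ (R - i)) := by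
  unfold W
  rw [prod_range_succ]

lemma A_rel (q : K) (P : ℤ) (i : ℕ) : A q P i * (1 - q ^ (P + i)) = (1 - q ^ P) * A q (P + 1) i := by
  rw [← A_right, A_left]

lemma W_rel (q : K) (R : ℤ) (i : ℕ) : W q R i * (1 - q ^ (R - i)) = (1 - q ^ R) * W q (R - 1) i := by
  rw [← W_right, W_left]

/-- The basic step. -/
lemma step (q : K) (hq : q ≠ 0) (hr : ∀ m : ℕ, 0 < m → q ^ m ≠ 1) (i : ℕ) (P R : ℤ) :
    c q (i + 1) P R - c q i (P + 1) (R - 1) = e q (i + 1) P R - e q i P R := by
  unfold c e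
  rw [A_left q P, W_left q R, A_right q (P + 1), W_right q (R - 1)]
  obtain ⟨a, ha⟩ : ∃ a, a = A q (P + 1) i := ⟨_, rfl⟩
  obtain ⟨w, hw⟩ : ∃ w, w = W q (R - 1) i := ⟨_, rfl⟩
  rw [← ha, ← hw]
  obtain ⟨u, hu⟩ : ∃ u, u = q ^ P := ⟨_, rfl⟩
  obtain ⟨v, hv⟩ : ∃ v, v = q ^ R := ⟨_, rfl⟩
  obtain ⟨g, hg⟩ : ∃ g, g = q ^ (i + 1) := ⟨_, rfl⟩
  obtain ⟨Q, hQ⟩ : ∃ Q, Q = q ^ (-((P + (i + 1 : ℕ)) * R)) := ⟨_, rfl⟩
  have hg0 : g ≠ 0 := hg ▸ pow_ne_zero _ hq
  have hg1 : 1 - g ≠ 0 := sub_ne_zero.2 (hg ▸ (hr (i + 1) (Nat.succ_pos i)).symm)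
  have hgz : q ^ ((i : ℤ) + 1) = g := by
    rw [hg, ← zpow_natCast]
    push_cast
    rfl
  have e1 : q ^ (P + 1 + (i : ℤ)) = u * g := by
    rw [show P + 1 + (i : ℤ) = P + (i + 1) by ring, zpow_add₀ hq, hgz, hu]
  have e2 : q ^ (R - 1 - (i : ℤ)) = v / g := by
    rw [show R - 1 - (i : ℤ) = R - (i + 1) by ring, zpow_sub₀ hq, hgz, hv]
  have e3 : q ^ (-((P + 1 + (i : ℤ)) * (R - 1))) = Q * (u * g) := by
    rw [← e1, hQ, ← zpow_add₀ hq]
    congr 1
    push_cast
    ring
  have e4 : q ^ (-((P + (i : ℤ)) * R)) = Q * v := by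
    rw [hv, hQ, ← zpow_add₀ hq]
    congr 1
    push_cast
    ring
  rw [e1, e2, e3, e4, ← hQ, ← hu, ← hv]
  have e5 : κ q (i + 1) = κ q i * (-g / (1 - g)) := by rw [hg]; rfl
  rw [e5]
  field_simp
  ring

lemma sum_step (q : K) (hq : q ≠ 0) (hr : ∀ m : ℕ, 0 < m → q ^ m ≠ 1) (i : ℕ) (P R : ℤ) :
    ∑ j ∈ range (i + 2), c q j P R = ∑ j ∈ range (i + 1), c q j (P + 1) (R - 1) + e q (i + 1) P R := by
  induction i with
  | zero =>
    have h := step q hq hr 0 P R
    have h0 : c q 0 P R = e q 0 P R := by simp [c, e, A, W]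
    rw [sum_range_succ, sum_range_one, sum_range_one, h0]
    linear_combination h
  | succ i ih =>
    rw [sum_range_succ, ih, sum_range_succ _ (i + 1)]
    linear_combination step q hq hr (i + 1) P R

lemma total (q : K) (hq : q ≠ 0) (hr : ∀ m : ℕ, 0 < m → q ^ m ≠ 1) (t : ℕ) (P : ℤ) :
    ∑ i ∈ range (t + 1), c q i P t = 1 := by
  induction t generalizing P with
  | zero => simp [c, κ, A, W]
  | succ t ih =>
    rw [sum_step q hq hr t P]
    have h1 : ((t + 1 : ℕ) : ℤ) - 1 = t := by push_cast; ring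
    rw [h1, ih]
    have h2 : W q (t : ℤ) (t + 1) = 0 := by
      rw [W_right]
      simp
    unfold e
    rw [h1, h2, mul_zero, add_zero]

/-- Shift of `P` caused by a letter. -/
def da : L → ℤ
  | L.y => 1
  | _ => 0

/-- Shift of `R` caused by a letter. -/
def db : L → ℤ
  | L.x => 1
  | _ => 0

/-- The weights at `q`. -/
def fm (q : K) : L → ℤ → ℤ → K
  | L.x, P, _ => 1 / (1 - q ^ P)
  | L.y, _, R => q ^ R / (1 - q ^ R)
  | L.z, P, R => 1 / (1 - q ^ P) + q ^ R / (1 - q ^ R)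

/-- The weights at `q⁻¹`, up to sign. -/
def fp (q : K) : L → ℤ → ℤ → K
  | L.x, P, _ => q ^ P / (1 - q ^ P)
  | L.y, _, R => 1 / (1 - q ^ R)
  | L.z, P, R => q ^ P / (1 - q ^ P) + 1 / (1 - q ^ R)

/-- The local intertwining relation. -/
lemma local_rel (q : K) (hq : q ≠ 0) (u : L) (i : ℕ) (P R : ℤ)
    (h1 : u ≠ L.y → q ^ P ≠ 1 ∧ q ^ (P + i) ≠ 1) (h2 : u ≠ L.x → q ^ R ≠ 1 ∧ q ^ (R - i) ≠ 1) :
    fm q u P R * c q i (P + da u) (R - db u) = fp q u (P + i) (R - i) * e q i P R := by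
  have hA := A_rel q P i
  have hW := W_rel q R i
  cases u with
  | x =>
    obtain ⟨h3, h4⟩ := h1 (by decide)
    have h3' : 1 - q ^ P ≠ 0 := sub_ne_zero.2 h3.symm
    have h4' : 1 - q ^ (P + i) ≠ 0 := sub_ne_zero.2 h4.symm
    unfold fm fp c e da db
    rw [add_zero]
    have e3 : q ^ (-((P + (i : ℤ)) * (R - 1))) = q ^ (-((P + (i : ℤ)) * R)) * q ^ (P + (i : ℤ)) := by
      rw [← zpow_add₀ hq]
      congr 1
      ring
    rw [e3]
    field_simp
    linear_combination (κ q i * W q (R - 1) i) * hA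
  | y =>
    obtain ⟨h3, h4⟩ := h2 (by decide)
    have h3' : 1 - q ^ R ≠ 0 := sub_ne_zero.2 h3.symm
    have h4' : 1 - q ^ (R - i) ≠ 0 := sub_ne_zero.2 h4.symm
    unfold fm fp c e da db
    rw [sub_zero]
    have e3 : q ^ (-((P + (i : ℤ)) * R)) = q ^ (-((P + 1 + (i : ℤ)) * R)) * q ^ R := by
      rw [← zpow_add₀ hq]
      congr 1
      ring
    rw [e3]
    field_simp
    linear_combination (κ q i * A q (P + 1) i) * hW
  | z =>
    obtain ⟨h3, h4⟩ := h2 (by decide)
    obtain ⟨h5, h6⟩ := h1 (by decide)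
    have h3' : 1 - q ^ R ≠ 0 := sub_ne_zero.2 h3.symm
    have h4' : 1 - q ^ (R - i) ≠ 0 := sub_ne_zero.2 h4.symm
    have h5' : 1 - q ^ P ≠ 0 := sub_ne_zero.2 h5.symm
    have h6' : 1 - q ^ (P + i) ≠ 0 := sub_ne_zero.2 h6.symm
    unfold da db
    rw [add_zero, sub_zero]
    have e1 : fm q L.z P R = (1 - q ^ (P + R)) / ((1 - q ^ P) * (1 - q ^ R)) := by
      unfold fm
      rw [zpow_add₀ hq]
      field_simp
      ring
    have e2 : fp q L.z (P + i) (R - i) = (1 - q ^ (P + R)) / ((1 - q ^ (P + i)) * (1 - q ^ (R - i))) := by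
      unfold fp
      rw [show P + R = (P + i) + (R - i) by ring, zpow_add₀ hq (P + i) (R - i)]
      field_simp
      ring
    rw [e1, e2]
    unfold c e
    have hAW : A q P i * W q R i * ((1 - q ^ (P + i)) * (1 - q ^ (R - i))) =
        A q (P + 1) i * W q (R - 1) i * ((1 - q ^ P) * (1 - q ^ R)) := by
      linear_combination (W q R i * (1 - q ^ (R - i))) * hA + ((1 - q ^ P) * A q (P + 1) i) * hW
    rw [div_mul_eq_mul_div, div_mul_eq_mul_div, div_eq_div_iff (mul_ne_zero h5' h3') (mul_ne_zero h6' h4')]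
    linear_combination (1 - q ^ (P + R)) * κ q i * q ^ (-((P + (i : ℤ)) * R)) * hAW

/-- The summed intertwining relation. -/
lemma key (q : K) (hq : q ≠ 0) (hr : ∀ m : ℕ, 0 < m → q ^ m ≠ 1) (u : L) (i : ℕ) (P R : ℤ)
    (h : ∀ j : ℕ, j ≤ i → (u ≠ L.y → q ^ (P + j) ≠ 1) ∧ (u ≠ L.x → q ^ (R - j) ≠ 1)) :
    ∑ j ∈ range (i + 1), fm q u (P + j) (R - j) * c q (i - j) (P + j + da u) (R - j - db u) =
      fp q u (P + i) (R - i) * ∑ j ∈ range (i + 1), c q j P R := by
  induction i generalizing P R with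
  | zero =>
    have h0 := h 0 le_rfl
    have := local_rel q hq u 0 P R (fun hu => ⟨by simpa using h0.1 hu, h0.1 hu⟩)
      (fun hu => ⟨by simpa using h0.2 hu, h0.2 hu⟩)
    rw [sum_range_one, sum_range_one]
    have hce : c q 0 P R = e q 0 P R := by simp [c, e, A, W]
    rw [hce]
    simpa using this
  | succ i ih =>
    rw [sum_range_succ', sum_step q hq hr i P R, mul_add]
    have h1 := ih (P + 1) (R - 1) (fun j hj => by
      have := h (j + 1) (by omega)
      have e1 : P + 1 + (j : ℤ) = P + ((j + 1 : ℕ) : ℤ) := by push_cast; ring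
      have e2 : R - 1 - (j : ℤ) = R - ((j + 1 : ℕ) : ℤ) := by push_cast; ring
      rw [e1, e2]
      exact this)
    have h2 := local_rel q hq u (i + 1) P R (fun hu => ⟨by simpa using (h 0 (by omega)).1 hu, (h (i + 1) le_rfl).1 hu⟩)
      (fun hu => ⟨by simpa using (h 0 (by omega)).2 hu, (h (i + 1) le_rfl).2 hu⟩)
    have e1 : P + 1 + (i : ℤ) = P + ((i + 1 : ℕ) : ℤ) := by push_cast; ring
    have e2 : R - 1 - (i : ℤ) = R - ((i + 1 : ℕ) : ℤ) := by push_cast; ring
    rw [e1, e2] at h1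
    rw [← h1, ← h2]
    congr 1
    · refine sum_congr rfl fun j hj => ?_
      have e3 : P + 1 + (j : ℤ) = P + ((j + 1 : ℕ) : ℤ) := by push_cast; ring
      have e4 : R - 1 - (j : ℤ) = R - ((j + 1 : ℕ) : ℤ) := by push_cast; ring
      rw [e3, e4, show i + 1 - (j + 1) = i - j by omega]
    · simp

/-- Nested sums. -/
def ψ (f : L → ℤ → ℤ → K) : (k : ℕ) → (Fin k → L) → ℤ → ℤ → ℕ → K
  | 0, _, _, _, _ => 1
  | k + 1, w, P, R, t => ∑ j ∈ range (t + 1), f (w 0) (P + j) (R - j) *
      ψ f k (fun i => w i.succ) (P + j + da (w 0)) (R - j - db (w 0)) (t - j)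

/-- Number of letters `x`. -/
def cnt {k : ℕ} (w : Fin k → L) : ℕ := (univ.filter (fun h => w h = L.x)).card

lemma cnt_succ {k : ℕ} (w : Fin (k + 1) → L) : (cnt w : ℤ) = db (w 0) + cnt (fun i => w i.succ) := by
  unfold cnt
  rw [Fin.card_filter_univ_succ]
  cases w 0 <;> simp [db] <;> ring

/-- **The intertwining theorem.** -/
theorem intertwine (q : K) (hq : q ≠ 0) (hr : ∀ m : ℕ, 0 < m → q ^ m ≠ 1) (k : ℕ) (w : Fin k → L)
    (hlast : ∀ h : 0 < k, w ⟨k - 1, by omega⟩ = L.x) (P : ℤ) (hP : 0 ≤ P)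
    (hfirst : ∀ h : 0 < k, 0 < P ∨ w ⟨0, h⟩ = L.y) (t : ℕ) :
    ψ (fm q) k w P (t + cnt w) t =
      ∑ i ∈ range (t + 1), c q i P (t + cnt w) * ψ (fp q) k w (P + i) (t + cnt w - i) (t - i) := by
  have hz : ∀ m : ℤ, 0 < m → q ^ m ≠ 1 := by
    intro m hm
    obtain ⟨n, rfl⟩ := Int.eq_ofNat_of_zero_le hm.le
    have := hr n (by exact_mod_cast hm)
    simpa using this
  induction k generalizing P t with
  | zero =>
    have h1 := total q hq hr t P
    have h2 : cnt w = 0 := by
      unfold cnt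
      simp
    unfold ψ
    rw [h2]
    simpa using h1.symm
  | succ k ih =>
    obtain ⟨R, hR⟩ : ∃ R : ℤ, R = (t : ℤ) + cnt w := ⟨_, rfl⟩
    rw [← hR]
    have hcnt : 1 ≤ cnt w := by
      unfold cnt
      rw [Nat.one_le_iff_ne_zero, card_ne_zero]
      exact ⟨_, mem_filter.2 ⟨mem_univ _, hlast (Nat.succ_pos k)⟩⟩
    have hcs := cnt_succ w
    unfold ψ
    -- the induction hypothesis
    have h1 : ∀ j ∈ range (t + 1), fm q (w 0) (P + j) (R - j) *
        ψ (fm q) k (fun i => w i.succ) (P + j + da (w 0)) (R - j - db (w 0)) (t - j) =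
        ∑ i ∈ range (t + 1 - j), fm q (w 0) (P + j) (R - j) * c q i (P + j + da (w 0)) (R - j - db (w 0)) *
          ψ (fp q) k (fun i => w i.succ) (P + (j + i : ℕ) + da (w 0)) (R - (j + i : ℕ) - db (w 0)) (t - (j + i)) := by
      intro j hj
      have hj := mem_range.1 hj
      have hR' : R - j - db (w 0) = ((t - j : ℕ) : ℤ) + cnt (fun i => w i.succ) := by
        rw [hR, hcs, Nat.cast_sub (by omega)]
        ring
      rw [hR', ih (fun i => w i.succ) ?_ (P + j + da (w 0)) ?_ ?_ (t - j), mul_sum,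
        show t + 1 - j = t - j + 1 by omega]
      · refine sum_congr rfl fun i hi => ?_
        rw [← mul_assoc, ← hR']
        congr 2
        · push_cast; ring
        · push_cast; ring
        · omega
      · intro hk
        have := hlast (Nat.succ_pos k)
        have e : (⟨k + 1 - 1, by omega⟩ : Fin (k + 1)) = Fin.succ ⟨k - 1, by omega⟩ := by
          apply Fin.ext
          simp
          omega
        rw [e] at this
        exact this
      · have : 0 ≤ da (w 0) := by cases w 0 <;> decide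
        positivity
      · intro hk
        left
        rcases hfirst (Nat.succ_pos k) with h | h
        · have : 0 ≤ da (w 0) := by cases w 0 <;> decide
          have hj' : (0 : ℤ) ≤ j := by positivity
          linarith
        · have : da (w 0) = 1 := by
            have h' : w 0 = L.y := h
            rw [h']
            rfl
          have hj' : (0 : ℤ) ≤ j := by positivity
          linarith
    rw [sum_congr rfl h1, ← sum_range_diag_flip (t + 1) (fun j i => fm q (w 0) (P + j) (R - j) *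
      c q i (P + j + da (w 0)) (R - j - db (w 0)) *
          ψ (fp q) k (fun i => w i.succ) (P + (j + i : ℕ) + da (w 0)) (R - (j + i : ℕ) - db (w 0)) (t - (j + i)))]
    have h2 : ∀ i ∈ range (t + 1), c q i P R * ∑ j ∈ range (t - i + 1), fp q (w 0) (P + i + j) (R - i - j) *
        ψ (fp q) k (fun i => w i.succ) (P + i + j + da (w 0)) (R - i - j - db (w 0)) (t - i - j) =
        ∑ j ∈ range (t + 1 - i), c q i P R * (fp q (w 0) (P + (i + j : ℕ)) (R - (i + j : ℕ)) *
        ψ (fp q) k (fun i => w i.succ) (P + (i + j : ℕ) + da (w 0)) (R - (i + j : ℕ) - db (w 0)) (t - (i + j))) := by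
      intro i hi
      have hi := mem_range.1 hi
      rw [mul_sum, show t + 1 - i = t - i + 1 by omega]
      refine sum_congr rfl fun j hj => ?_
      rw [show P + (i : ℤ) + j = P + (i + j : ℕ) by push_cast; ring,
        show R - (i : ℤ) - j = R - (i + j : ℕ) by push_cast; ring, Nat.sub_sub]
    rw [sum_congr rfl h2, ← sum_range_diag_flip (t + 1) (fun i j => c q i P R *
      (fp q (w 0) (P + (i + j : ℕ)) (R - (i + j : ℕ)) *
        ψ (fp q) k (fun i => w i.succ) (P + (i + j : ℕ) + da (w 0)) (R - (i + j : ℕ) - db (w 0)) (t - (i + j))))]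
    refine sum_congr rfl fun s hs => ?_
    have hs := mem_range.1 hs
    have h3 := key q hq hr (w 0) s P R (by
      intro j hj
      constructor
      · intro hu
        apply hz
        rcases hfirst (Nat.succ_pos k) with h | h
        · positivity
        · exact absurd h hu
      · intro _
        apply hz
        rw [hR]
        omega)
    have h4 : ∀ j ∈ range (s + 1), fm q (w 0) (P + j) (R - j) *
        c q (s - j) (P + j + da (w 0)) (R - j - db (w 0)) *
          ψ (fp q) k (fun i => w i.succ) (P + (j + (s - j) : ℕ) + da (w 0)) (R - (j + (s - j) : ℕ) - db (w 0))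
            (t - (j + (s - j))) =
        (fm q (w 0) (P + j) (R - j) * c q (s - j) (P + j + da (w 0)) (R - j - db (w 0))) *
          ψ (fp q) k (fun i => w i.succ) (P + s + da (w 0)) (R - s - db (w 0)) (t - s) := by
      intro j hj
      have hj := mem_range.1 hj
      rw [show j + (s - j) = s by omega]
    have h5 : ∀ j ∈ range (s + 1), c q j P R *
        (fp q (w 0) (P + (j + (s - j) : ℕ)) (R - (j + (s - j) : ℕ)) *
        ψ (fp q) k (fun i => w i.succ) (P + (j + (s - j) : ℕ) + da (w 0)) (R - (j + (s - j) : ℕ) - db (w 0))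
          (t - (j + (s - j)))) =
        c q j P R * (fp q (w 0) (P + s) (R - s) *
          ψ (fp q) k (fun i => w i.succ) (P + s + da (w 0)) (R - s - db (w 0)) (t - s)) := by
      intro j hj
      have hj := mem_range.1 hj
      rw [show j + (s - j) = s by omega]
    rw [sum_congr rfl h4, sum_congr rfl h5, ← sum_mul, ← sum_mul, h3]
    ring

/-- The symmetry for the nested sums. -/
theorem symm (q : K) (hq : q ≠ 0) (hr : ∀ m : ℕ, 0 < m → q ^ m ≠ 1) (k : ℕ) (w : Fin k → L)
    (hlast : ∀ h : 0 < k, w ⟨k - 1, by omega⟩ = L.x) (hfirst : ∀ h : 0 < k, w ⟨0, h⟩ = L.y) (t : ℕ) :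
    ψ (fm q) k w 0 (t + cnt w) t = ψ (fp q) k w 0 (t + cnt w) t := by
  rw [intertwine q hq hr k w hlast 0 le_rfl (fun h => Or.inr (hfirst h)) t, sum_range_succ', sum_eq_zero]
  · simp [c, κ, A, W]
  · intro i _
    have : A q 0 (i + 1) = 0 := by
      rw [A_left]
      simp
    unfold c
    rw [this]
    ring

/-! ### Sums over weakly increasing tuples -/

/-- Number of letters `y` strictly before `j`. -/
def aa {k : ℕ} (w : Fin k → L) (j : Fin k) : ℕ := (univ.filter (fun h => h < j ∧ w h = L.y)).card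

/-- Number of letters `x` from `j` on. -/
def bb {k : ℕ} (w : Fin k → L) (j : Fin k) : ℕ := (univ.filter (fun h => j ≤ h ∧ w h = L.x)).card

lemma aa_zero {k : ℕ} (w : Fin (k + 1) → L) : aa w 0 = 0 := by
  unfold aa
  rw [card_eq_zero, filter_eq_empty_iff]
  intro h _ h'
  exact absurd h'.1 (Fin.not_lt_zero h)

lemma aa_succ {k : ℕ} (w : Fin (k + 1) → L) (j : Fin k) :
    (aa w j.succ : ℤ) = da (w 0) + aa (fun i => w i.succ) j := by
  unfold aa
  rw [Fin.card_filter_univ_succ]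
  simp only [Fin.succ_lt_succ_iff, Fin.succ_pos, true_and]
  cases w 0 <;> simp [da] <;> ring

lemma bb_zero {k : ℕ} (w : Fin (k + 1) → L) : bb w 0 = cnt w := by
  unfold bb cnt
  simp

lemma bb_succ {k : ℕ} (w : Fin (k + 1) → L) (j : Fin k) : bb w j.succ = bb (fun i => w i.succ) j := by
  unfold bb
  rw [Fin.card_filter_univ_succ]
  simp

open Classical in
/-- The sum over weakly increasing tuples with entries in `[n0, N]`. -/
noncomputable def T (f : L → ℤ → ℤ → K) (N k : ℕ) (w : Fin k → L) (n0 : ℕ) (a0 : ℤ) : K :=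
  ∑ n ∈ univ.filter (fun n : Fin k → Fin (N + 1) => Monotone n ∧ ∀ j, n0 ≤ (n j : ℕ)),
    ∏ j, f (w j) ((n j : ℕ) + a0 + aa w j) (N - (n j : ℕ) + bb w j)

lemma T_eq (f : L → ℤ → ℤ → K) (N k : ℕ) (w : Fin k → L) (n0 : ℕ) (hn0 : n0 ≤ N) (a0 : ℤ) :
    T f N k w n0 a0 = ψ f k w (n0 + a0) ((N - n0 : ℕ) + cnt w) (N - n0) := by
  classical
  induction k generalizing n0 a0 with
  | zero =>
    unfold T ψ
    rw [filter_true_of_mem]
    · simp
    · intro n _
      exact ⟨fun i => i.elim0, fun i => i.elim0⟩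
  | succ k ih =>
    unfold T ψ
    have hmon : ∀ (m : Fin (N + 1)) (n : Fin k → Fin (N + 1)),
        (Monotone (Fin.cons m n : Fin (k + 1) → Fin (N + 1)) ∧
          ∀ j, n0 ≤ (((Fin.cons m n : Fin (k + 1) → Fin (N + 1)) j : Fin (N + 1)) : ℕ)) ↔
        (n0 ≤ (m : ℕ) ∧ (Monotone n ∧ ∀ j, (m : ℕ) ≤ (n j : ℕ))) := by
      intro m n
      constructor
      · rintro ⟨h1, h2⟩
        refine ⟨by simpa using h2 0, ?_, ?_⟩
        · intro i j hij
          simpa using h1 (Fin.succ_le_succ_iff.2 hij)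
        · intro j
          have := h1 (Fin.zero_le j.succ)
          simpa using this
      · rintro ⟨h1, h2, h3⟩
        refine ⟨?_, ?_⟩
        · intro i j hij
          rcases Fin.eq_zero_or_eq_succ i with rfl | ⟨i', rfl⟩
          · rcases Fin.eq_zero_or_eq_succ j with rfl | ⟨j', rfl⟩
            · exact le_rfl
            · rw [Fin.cons_zero, Fin.cons_succ]
              exact h3 j'
          · rcases Fin.eq_zero_or_eq_succ j with rfl | ⟨j', rfl⟩
            · exact absurd hij (not_le.2 (Fin.succ_pos i'))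
            · rw [Fin.cons_succ, Fin.cons_succ]
              exact h2 (Fin.succ_le_succ_iff.1 hij)
        · intro j
          rcases Fin.eq_zero_or_eq_succ j with rfl | ⟨j', rfl⟩
          · simpa using h1
          · simpa using h1.trans (h3 j')
    have h1 : ∀ m : Fin (N + 1), (∑ n : Fin k → Fin (N + 1),
        if (Monotone (Fin.cons m n : Fin (k + 1) → Fin (N + 1)) ∧
          ∀ j, n0 ≤ (((Fin.cons m n : Fin (k + 1) → Fin (N + 1)) j : Fin (N + 1)) : ℕ)) then
        ∏ j, f (w j) ((((Fin.cons m n : Fin (k + 1) → Fin (N + 1)) j : Fin (N + 1)) : ℕ) + a0 + aa w j)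
          (N - (((Fin.cons m n : Fin (k + 1) → Fin (N + 1)) j : Fin (N + 1)) : ℕ) + bb w j) else 0) =
        if n0 ≤ (m : ℕ) then f (w 0) ((m : ℕ) + a0) (N - (m : ℕ) + cnt w) *
          ψ f k (fun i => w i.succ) ((m : ℕ) + (a0 + da (w 0))) ((N - (m : ℕ) : ℕ) + cnt (fun i => w i.succ))
            (N - (m : ℕ)) else 0 := by
      intro m
      rw [← ih (fun i => w i.succ) m (Nat.lt_succ_iff.1 m.2) (a0 + da (w 0))]
      split_ifs with hm
      · unfold T
        rw [mul_sum, sum_filter]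
        refine sum_congr rfl fun n _ => ?_
        have hcond := hmon m n
        by_cases hc : Monotone n ∧ ∀ j, (m : ℕ) ≤ (n j : ℕ)
        · rw [if_pos (hcond.2 ⟨hm, hc⟩), if_pos hc, Fin.prod_univ_succ, Fin.cons_zero, aa_zero, bb_zero]
          congr 1
          · push_cast
            rw [add_zero]
          · refine prod_congr rfl fun i _ => ?_
            rw [Fin.cons_succ, aa_succ, bb_succ]
            congr 1
            ring
        · rw [if_neg (fun h => hc (hcond.1 h).2), if_neg hc]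
      · refine sum_eq_zero fun n _ => ?_
        rw [if_neg (fun h => hm ((hmon m n).1 h).1)]
    rw [sum_filter, ← (Fin.consEquiv (fun _ : Fin (k + 1) => Fin (N + 1))).sum_comp, Fintype.sum_prod_type]
    have h2 : ∀ m : Fin (N + 1), ∀ n : Fin k → Fin (N + 1),
        (Fin.consEquiv (fun _ : Fin (k + 1) => Fin (N + 1))) (m, n) =
        (Fin.cons m n : Fin (k + 1) → Fin (N + 1)) := fun m n => rfl
    simp only [h2]
    rw [sum_congr rfl fun m _ => h1 m]
    rw [Fin.sum_univ_eq_sum_range (fun m => if n0 ≤ m then f (w 0) ((m : ℕ) + a0) (N - (m : ℕ) + cnt w) *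
          ψ f k (fun i => w i.succ) ((m : ℕ) + (a0 + da (w 0))) ((N - (m : ℕ) : ℕ) + cnt (fun i => w i.succ))
            (N - (m : ℕ)) else 0) (N + 1), ← sum_filter]
    have h3 : (range (N + 1)).filter (fun m => n0 ≤ m) = Ico n0 (N + 1) := by
      ext m
      rw [mem_filter, mem_range, mem_Ico]
      omega
    rw [h3, sum_Ico_eq_sum_range, show N + 1 - n0 = N - n0 + 1 by omega]
    refine sum_congr rfl fun j hj => ?_
    have hj := mem_range.1 hj
    have hcs := cnt_succ w
    rw [show N - (n0 + j) = N - n0 - j by omega]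
    have e1 : ((n0 + j : ℕ) : ℤ) + a0 = n0 + a0 + j := by push_cast; ring
    have e2 : (N : ℤ) - ((n0 + j : ℕ) : ℤ) + cnt w = ((N - n0 : ℕ) : ℤ) + cnt w - j := by
      rw [Nat.cast_sub hn0]
      push_cast
      ring
    have e3 : ((n0 + j : ℕ) : ℤ) + (a0 + da (w 0)) = n0 + a0 + j + da (w 0) := by push_cast; ring
    have e4 : ((N - n0 - j : ℕ) : ℤ) + cnt (fun i => w i.succ) = ((N - n0 : ℕ) : ℤ) + cnt w - j - db (w 0) := by
      rw [hcs, Nat.cast_sub (by omega)]
      ring
    rw [e1, e2, e3, e4]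

end Pool.Agent.X318.QInv
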