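import Pool.Agent.X318.HankTM

/-! The values of the near-diagonal Hankel determinants. -/

namespace X318.HankPar

def V (m : ℕ) : ℤ := if m = 0 then 1 else if m % 2 = 1 then (-1) ^ (m / 2) * phi (m / 2) else 0
def E (m : ℕ) : ℤ := if m % 2 = 0 then (-1) ^ (m / 2) * phi (m / 2) else 0
def G1 (m : ℕ) : ℤ := if m % 2 = 0 then (-1) ^ (m / 2) * phi (m / 2) else -((-1) ^ (m / 2) * phi (m / 2))

lemma V_zero : V 0 = 1 := by simp [V]
lemma V_odd (a : ℕ) : V (2 * a + 1) = (-1) ^ a * phi a := by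
  unfold V; rw [if_neg (by omega), if_pos (by omega), show (2 * a + 1) / 2 = a by omega]
lemma V_even (a : ℕ) : V (2 * a + 2) = 0 := by
  unfold V; rw [if_neg (by omega), if_neg (by omega)]
lemma E_even (a : ℕ) : E (2 * a) = (-1) ^ a * phi a := by
  unfold E; rw [if_pos (by omega), show (2 * a) / 2 = a by omega]
lemma E_odd (a : ℕ) : E (2 * a + 1) = 0 := by
  unfold E; rw [if_neg (by omega)]
lemma G1_even (a : ℕ) : G1 (2 * a) = (-1) ^ a * phi a := by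
  unfold G1; rw [if_pos (by omega), show (2 * a) / 2 = a by omega]
lemma G1_odd (a : ℕ) : G1 (2 * a + 1) = -((-1) ^ a * phi a) := by
  unfold G1; rw [if_neg (by omega), show (2 * a + 1) / 2 = a by omega]

/-- the statement for size `m` -/
structure St (m : ℕ) : Prop where
  fm : D f ((m : ℤ) - 1) m = V m
  f0 : D f (m : ℤ) m = V m
  f1 : D f ((m : ℤ) + 1) m = E m
  f2 : D f ((m : ℤ) + 2) m = E m
  g1 : D (mu 1 f) ((m : ℤ) + 1) m = G1 m
  g2 : D (mu 1 f) ((m : ℤ) + 2) m = E m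
  g3 : m % 2 = 0 → D (mu 1 f) ((m : ℤ) + 3) m = E m

lemma phi_sq (a : ℕ) : phi a * phi a = phi a := by
  rcases phi_01 a with h | h <;> rw [h] <;> norm_num

lemma npow_sq (a : ℕ) : ((-1 : ℤ) ^ a) * (-1) ^ a = 1 := by
  rw [← mul_pow]; norm_num

/-! half-step quantities, `l = 2r` -/
section
variable {r : ℕ}

lemma A0_e (hr : St r) : D (up f) ((2 * r : ℕ) : ℤ) (2 * r) = V r * E r := by
  have := Da_even (r : ℤ) r r le_rfl (by omega)
  rw [← two_mul] at this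
  rw [show (((2 * r : ℕ) : ℤ)) = 2 * (r : ℤ) by push_cast; ring, this, hr.f0, hr.f1]

lemma A0_o : D (up f) ((2 * r + 1 : ℕ) : ℤ) (2 * r + 1) = 0 := by
  have := Da_oo ((r : ℤ) + 1) r
  rwa [show 2 * ((r : ℤ) + 1) - 1 = ((2 * r + 1 : ℕ) : ℤ) by push_cast; ring] at this

lemma A1_e (hr : St r) : D (up f) (((2 * r : ℕ) : ℤ) + 1) (2 * r) = (-1) ^ r * (E r) ^ 2 := by
  have := Da_oe ((r : ℤ) + 1) r
  rw [hr.f1] at this
  rwa [show 2 * ((r : ℤ) + 1) - 1 = ((2 * r : ℕ) : ℤ) + 1 by push_cast; ring] at this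

lemma A1_o (hr : St r) (hr' : St (r + 1)) :
    D (up f) (((2 * r + 1 : ℕ) : ℤ) + 1) (2 * r + 1) = V (r + 1) * E r := by
  have := Da_even ((r : ℤ) + 1) (r + 1) r (by omega) le_rfl
  have h := hr'.f0
  push_cast at h
  rw [h, show (r : ℤ) + 1 + 1 = r + 2 by ring, hr.f2] at this
  rw [← this]
  congr 1
  · ring

lemma Am_e (hr : St r) : D (up f) (((2 * r : ℕ) : ℤ) - 1) (2 * r) = (-1) ^ r * (V r) ^ 2 := by
  have := Da_oe (r : ℤ) r
  rw [hr.f0] at this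
  rwa [show 2 * (r : ℤ) - 1 = ((2 * r : ℕ) : ℤ) - 1 by push_cast; ring] at this

lemma Am_o (hr : St r) (hr' : St (r + 1)) :
    D (up f) (((2 * r + 1 : ℕ) : ℤ) - 1) (2 * r + 1) = V (r + 1) * E r := by
  have := Da_even (r : ℤ) (r + 1) r (by omega) le_rfl
  have h := hr'.fm
  push_cast at h
  rw [show (r : ℤ) + 1 - 1 = r by ring] at h
  rw [h, hr.f1] at this
  rw [← this]
  congr 1
  · push_cast; ring
  · ring

lemma B1_e (hr : St r) : D b (((2 * r : ℕ) : ℤ) + 1) (2 * r) = (-1) ^ r * (G1 r * E r) := by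
  have := Db_oe (r : ℤ) r
  rw [hr.f1, hr.g1] at this
  rwa [show 2 * (r : ℤ) + 1 = ((2 * r : ℕ) : ℤ) + 1 by push_cast; ring] at this

lemma B1_o (hr : St r) (hr' : St (r + 1)) :
    D b (((2 * r + 1 : ℕ) : ℤ) + 1) (2 * r + 1) = E r * V (r + 1) := by
  have := Db_even ((r : ℤ) + 1) (r + 1) r (by omega) le_rfl
  have h := hr'.f0
  push_cast at h
  rw [h, show (r : ℤ) + 1 + 1 = r + 2 by ring, hr.g2] at this
  rw [← this]
  congr 1
  · ring

lemma B2_e (hr : St r) : D b (((2 * r : ℕ) : ℤ) + 2) (2 * r) = E r * E r := by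
  have := Db_even ((r : ℤ) + 1) r r le_rfl (by omega)
  rw [hr.f1, show (r : ℤ) + 1 + 1 = r + 2 by ring, hr.g2] at this
  rw [← this]
  congr 1
  · ring

lemma B2_o (hr' : St (r + 1)) :
    D b (((2 * r + 1 : ℕ) : ℤ) + 2) (2 * r + 1) = (-1) ^ (r + 1) * (V (r + 1) * D (mu 1 f) ((r : ℤ) + 3) r) := by
  have := Db_oo ((r : ℤ) + 1) r
  have h := hr'.f0
  push_cast at h
  rw [h, show (r : ℤ) + 1 + 2 = r + 3 by ring] at this
  rw [← this]
  congr 1

lemma B0_e (hr : St r) : D b ((2 * r : ℕ) : ℤ) (2 * r) = G1 r * V r := by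
  have := Db_even (r : ℤ) r r le_rfl (by omega)
  rw [hr.f0, hr.g1] at this
  rw [← this]
  congr 1
  · ring

lemma B0_o (hr : St r) (hr' : St (r + 1)) :
    D b ((2 * r + 1 : ℕ) : ℤ) (2 * r + 1) = (-1) ^ (r + 1) * (V (r + 1) * E r) := by
  have := Db_oo (r : ℤ) r
  have h := hr'.fm
  push_cast at h
  rw [show (r : ℤ) + 1 - 1 = r by ring] at h
  rw [h, hr.g2] at this
  rw [← this]
  congr 1

end

lemma phi_2_e (a : ℕ) : phi (2 * (2 * a)) = phi a := by rw [← phi_4 a]; congr 1; ring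
lemma phi_2_o (a : ℕ) : phi (2 * (2 * a + 1)) = 0 := by rw [← phi_42 a]; congr 1; ring
lemma phi_21_e (a : ℕ) : phi (2 * (2 * a) + 1) = phi a := by rw [← phi_41 a]; congr 1; ring
lemma phi_21_o (a : ℕ) : phi (2 * (2 * a + 1) + 1) = 0 := by rw [← phi_43 a]; congr 1; ring

lemma VE (r : ℕ) (hr : 0 < r) : V r * E r = 0 := by
  rcases Nat.even_or_odd' r with ⟨a, rfl | rfl⟩
  · obtain ⟨c, rfl⟩ : ∃ c, a = c + 1 := ⟨a - 1, by omega⟩
    rw [show 2 * (c + 1) = 2 * c + 2 by ring, V_even, zero_mul]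
  · rw [E_odd, mul_zero]

/-- size `m = 4r` -/
lemma st_0 {r : ℕ} (hpos : 0 < r) (hr : St r) : St (4 * r) := by
  have hm : 4 * r = 2 * r + 2 * r := by ring
  have hV : V (4 * r) = 0 := by
    obtain ⟨c, rfl⟩ : ∃ c, r = c + 1 := ⟨r - 1, by omega⟩
    rw [show 4 * (c + 1) = 2 * (2 * c + 1) + 2 by ring, V_even]
  have hE : E (4 * r) = phi (2 * r) := by
    rw [show 4 * r = 2 * (2 * r) by ring, E_even, pow_mul]; norm_num
  have hG : G1 (4 * r) = phi (2 * r) := by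
    rw [show 4 * r = 2 * (2 * r) by ring, G1_even, pow_mul]; norm_num
  have hA0 := A0_e hr
  rw [VE r hpos] at hA0
  have key : ∀ r, (E r) ^ 4 = phi (2 * r) ∧ G1 r * E r ^ 3 = phi (2 * r) ∧ (G1 r * E r) ^ 2 = phi (2 * r) ∧
      (-1) ^ r * E r ^ 4 = phi (2 * r) := by
    intro r
    rcases Nat.even_or_odd' r with ⟨a, rfl | rfl⟩
    · rw [E_even, G1_even, phi_2_e]
      rcases phi_01 a with h | h <;> rcases neg_one_pow_eq_or ℤ a with h' | h' <;> rw [h, h', pow_mul] <;>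
        norm_num
    · rw [E_odd, phi_2_o]; norm_num
  obtain ⟨k1, k2, k3, k4⟩ := key r
  constructor
  · -- fm
    rw [hV]
    have := Df_oe ((2 * r : ℕ) - 1 : ℤ) (2 * r)
    rw [show ((2 * r : ℕ) - 1 : ℤ) + 1 = ((2 * r : ℕ) : ℤ) by push_cast; ring, hA0] at this
    rw [show ((4 * r : ℕ) : ℤ) - 1 = 2 * ((2 * r : ℕ) - 1 : ℤ) + 1 by push_cast; ring,
      show 4 * r = 2 * (2 * r) by ring, this]
    ring
  · -- f0
    rw [hV]
    have := Df_even ((2 * r : ℕ) : ℤ) (2 * r) (2 * r) le_rfl (by omega)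
    rw [hA0] at this
    rw [show ((4 * r : ℕ) : ℤ) = 2 * ((2 * r : ℕ) : ℤ) by push_cast; ring, hm, this]
    ring
  · -- f1
    rw [hE]
    have := Df_oe ((2 * r : ℕ) : ℤ) (2 * r)
    rw [B1_e hr, A1_e hr] at this
    rw [show ((4 * r : ℕ) : ℤ) + 1 = 2 * ((2 * r : ℕ) : ℤ) + 1 by push_cast; ring,
      show 4 * r = 2 * (2 * r) by ring, this, ← k2]
    rw [pow_mul]
    have := npow_sq r
    linear_combination (G1 r * E r ^ 3) * this
  · -- f2
    rw [hE]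
    have := Df_even (((2 * r : ℕ) : ℤ) + 1) (2 * r) (2 * r) le_rfl (by omega)
    rw [show ((2 * r : ℕ) : ℤ) + 1 + 1 = ((2 * r : ℕ) : ℤ) + 2 by ring, B2_e hr, A1_e hr] at this
    rw [show ((4 * r : ℕ) : ℤ) + 2 = 2 * (((2 * r : ℕ) : ℤ) + 1) by push_cast; ring, hm, this, ← k4]
    ring
  · -- g1
    rw [hG]
    have := Dg_oe (((2 * r : ℕ) : ℤ) + 1) (2 * r)
    rw [B1_e hr] at this
    rw [show ((4 * r : ℕ) : ℤ) + 1 = 2 * (((2 * r : ℕ) : ℤ) + 1) - 1 by push_cast; ring,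
      show 4 * r = 2 * (2 * r) by ring, this, ← k3]
    rw [pow_mul]
    have := npow_sq r
    linear_combination ((G1 r * E r) ^ 2) * this
  · -- g2
    rw [hE]
    have := Dg_even (((2 * r : ℕ) : ℤ) + 1) (2 * r) (2 * r) le_rfl (by omega)
    rw [show ((2 * r : ℕ) : ℤ) + 1 + 1 = ((2 * r : ℕ) : ℤ) + 2 by ring, B2_e hr, B1_e hr] at this
    rw [show ((4 * r : ℕ) : ℤ) + 2 = 2 * (((2 * r : ℕ) : ℤ) + 1) by push_cast; ring, hm, this, ← k2]
    rcases Nat.even_or_odd' r with ⟨a, rfl | rfl⟩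
    · rw [pow_mul]; norm_num; ring
    · rw [E_odd]; ring
  · -- g3
    intro _
    rw [hE]
    have := Dg_oe (((2 * r : ℕ) : ℤ) + 2) (2 * r)
    rw [B2_e hr] at this
    rw [show ((4 * r : ℕ) : ℤ) + 3 = 2 * (((2 * r : ℕ) : ℤ) + 2) - 1 by push_cast; ring,
      show 4 * r = 2 * (2 * r) by ring, this, ← k1]
    rw [pow_mul]
    norm_num
    ring

/-- size `m = 4r+1` -/
lemma st_1 {r : ℕ} (hr : St r) (hr' : St (r + 1)) : St (4 * r + 1) := by
  have hV : V (4 * r + 1) = phi (2 * r) := by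
    rw [show 4 * r + 1 = 2 * (2 * r) + 1 by ring, V_odd, pow_mul]; norm_num
  have hE : E (4 * r + 1) = 0 := by
    rw [show 4 * r + 1 = 2 * (2 * r) + 1 by ring, E_odd]
  have hG : G1 (4 * r + 1) = - phi (2 * r) := by
    rw [show 4 * r + 1 = 2 * (2 * r) + 1 by ring, G1_odd, pow_mul]; norm_num
  have hA0 : D (up f) (((2 * r : ℕ) : ℤ) + 1) (2 * r + 1) = 0 := by
    have := A0_o (r := r)
    push_cast at this ⊢
    exact this
  have hAm : D (up f) ((2 * r : ℕ) : ℤ) (2 * r + 1) = V (r + 1) * E r := by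
    have := Am_o hr hr'
    rwa [show ((2 * r + 1 : ℕ) : ℤ) - 1 = ((2 * r : ℕ) : ℤ) by push_cast; ring] at this
  have hB0 : D b (((2 * r : ℕ) : ℤ) + 1) (2 * r + 1) = (-1) ^ (r + 1) * (V (r + 1) * E r) := by
    have := B0_o hr hr'
    push_cast at this ⊢
    exact this
  have key : ∀ r, (-1) ^ r * (G1 r * E r) * (V (r + 1) * E r) = phi (2 * r) ∧
      V (r + 1) * E r * (E r * E r) = phi (2 * r) ∧
      (-1) ^ (r + 1) * (V (r + 1) * E r) * (E r * E r) = - phi (2 * r) := by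
    intro r
    rcases Nat.even_or_odd' r with ⟨a, rfl | rfl⟩
    · rw [E_even, G1_even, phi_2_e, V_odd, pow_succ, pow_mul]
      rcases phi_01 a with h | h <;> rcases neg_one_pow_eq_or ℤ a with h' | h' <;> rw [h, h'] <;>
        norm_num
    · rw [E_odd, phi_2_o]; norm_num
  obtain ⟨k1, k2, k3⟩ := key r
  constructor
  · -- fm
    rw [hV]
    have := Df_even ((2 * r : ℕ) : ℤ) (2 * r + 1) (2 * r) (by omega) le_rfl
    rw [hAm, B1_e hr] at this
    rw [show ((4 * r + 1 : ℕ) : ℤ) - 1 = 2 * ((2 * r : ℕ) : ℤ) by push_cast; ring,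
      show 4 * r + 1 = 2 * r + 1 + 2 * r by ring, this, k1]
  · -- f0
    rw [hV]
    have := Df_oo ((2 * r : ℕ) : ℤ) (2 * r)
    rw [hAm, B2_e hr, pow_mul] at this
    rw [show ((4 * r + 1 : ℕ) : ℤ) = 2 * ((2 * r : ℕ) : ℤ) + 1 by push_cast; ring,
      show 4 * r + 1 = 2 * (2 * r) + 1 by ring, this, ← k2]
    norm_num
  · -- f1
    rw [hE]
    have := Df_even (((2 * r : ℕ) : ℤ) + 1) (2 * r + 1) (2 * r) (by omega) le_rfl
    rw [hA0] at this
    rw [show ((4 * r + 1 : ℕ) : ℤ) + 1 = 2 * (((2 * r : ℕ) : ℤ) + 1) by push_cast; ring,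
      show 4 * r + 1 = 2 * r + 1 + 2 * r by ring, this]
    ring
  · -- f2
    rw [hE]
    have := Df_oo (((2 * r : ℕ) : ℤ) + 1) (2 * r)
    rw [hA0] at this
    rw [show ((4 * r + 1 : ℕ) : ℤ) + 2 = 2 * (((2 * r : ℕ) : ℤ) + 1) + 1 by push_cast; ring,
      show 4 * r + 1 = 2 * (2 * r) + 1 by ring, this]
    ring
  · -- g1
    rw [hG]
    have := Dg_even (((2 * r : ℕ) : ℤ) + 1) (2 * r + 1) (2 * r) (by omega) le_rfl
    rw [show ((2 * r : ℕ) : ℤ) + 1 + 1 = ((2 * r : ℕ) : ℤ) + 2 by ring, B2_e hr, hB0] at this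
    rw [show ((4 * r + 1 : ℕ) : ℤ) + 1 = 2 * (((2 * r : ℕ) : ℤ) + 1) by push_cast; ring,
      show 4 * r + 1 = 2 * r + 1 + 2 * r by ring, this, k3]
  · -- g2
    rw [hE]
    have := Dg_oo (((2 * r : ℕ) : ℤ) + 2) (2 * r)
    rw [show ((4 * r + 1 : ℕ) : ℤ) + 2 = 2 * (((2 * r : ℕ) : ℤ) + 2) - 1 by push_cast; ring,
      show 4 * r + 1 = 2 * (2 * r) + 1 by ring, this]
  · intro h; omega

/-- size `m = 4r+2` -/
lemma st_2 {r : ℕ} (hr : St r) (hr' : St (r + 1)) : St (4 * r + 2) := by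
  have hV : V (4 * r + 2) = 0 := by
    rw [show 4 * r + 2 = 2 * (2 * r) + 2 by ring, V_even]
  have hE : E (4 * r + 2) = - phi (2 * r + 1) := by
    rw [show 4 * r + 2 = 2 * (2 * r + 1) by ring, E_even, pow_succ, pow_mul]; norm_num
  have hG : G1 (4 * r + 2) = - phi (2 * r + 1) := by
    rw [show 4 * r + 2 = 2 * (2 * r + 1) by ring, G1_even, pow_succ, pow_mul]; norm_num
  have key : E r ^ 2 * V (r + 1) ^ 2 = phi (2 * r + 1) ∧
      (-1) ^ (r + 1) * (V (r + 1) * D (mu 1 f) ((r : ℤ) + 3) r) * (V (r + 1) * E r) = - phi (2 * r + 1) ∧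
      (V (r + 1) * D (mu 1 f) ((r : ℤ) + 3) r) ^ 2 = phi (2 * r + 1) := by
    rcases Nat.even_or_odd' r with ⟨a, rfl | rfl⟩
    · rw [hr.g3 (by omega), E_even, phi_21_e, V_odd, pow_succ (-1) (2 * a), pow_mul (-1) 2 a]
      rcases phi_01 a with h | h <;> rcases neg_one_pow_eq_or ℤ a with h' | h' <;> rw [h, h'] <;>
        norm_num
    · rw [E_odd, phi_21_o, show 2 * a + 1 + 1 = 2 * a + 2 by ring, V_even]; norm_num
  obtain ⟨k1, k2, k3⟩ := key
  have hneg : (-1 : ℤ) ^ (2 * r + 1) = -1 := by rw [pow_succ, pow_mul]; norm_num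
  have hsq : ((-1 : ℤ) ^ (r + 1)) ^ 2 = 1 := by rw [← pow_mul, mul_comm, pow_mul]; norm_num
  have hm : 4 * r + 2 = 2 * (2 * r + 1) := by ring
  have hm' : 4 * r + 2 = (2 * r + 1) + (2 * r + 1) := by ring
  constructor
  · -- fm
    rw [hV]
    have := Df_oe ((2 * r + 1 : ℕ) - 1 : ℤ) (2 * r + 1)
    rw [show ((2 * r + 1 : ℕ) - 1 : ℤ) + 1 = ((2 * r + 1 : ℕ) : ℤ) by ring, A0_o] at this
    rw [show ((4 * r + 2 : ℕ) : ℤ) - 1 = 2 * ((2 * r + 1 : ℕ) - 1 : ℤ) + 1 by push_cast; ring,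
      hm, this]
    ring
  · -- f0
    rw [hV]
    have := Df_even ((2 * r + 1 : ℕ) : ℤ) (2 * r + 1) (2 * r + 1) le_rfl (by omega)
    rw [A0_o] at this
    rw [show ((4 * r + 2 : ℕ) : ℤ) = 2 * ((2 * r + 1 : ℕ) : ℤ) by push_cast; ring, hm', this]
    ring
  · -- f1
    rw [hE]
    have := Df_oe ((2 * r + 1 : ℕ) : ℤ) (2 * r + 1)
    rw [B1_o hr hr', A1_o hr hr', hneg] at this
    rw [show ((4 * r + 2 : ℕ) : ℤ) + 1 = 2 * ((2 * r + 1 : ℕ) : ℤ) + 1 by push_cast; ring,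
      hm, this, ← k1]
    ring
  · -- f2
    rw [hE]
    have := Df_even (((2 * r + 1 : ℕ) : ℤ) + 1) (2 * r + 1) (2 * r + 1) le_rfl (by omega)
    rw [show ((2 * r + 1 : ℕ) : ℤ) + 1 + 1 = ((2 * r + 1 : ℕ) : ℤ) + 2 by ring, B2_o hr', A1_o hr hr'] at this
    rw [show ((4 * r + 2 : ℕ) : ℤ) + 2 = 2 * (((2 * r + 1 : ℕ) : ℤ) + 1) by push_cast; ring, hm', this, ← k2]
  · -- g1
    rw [hG]
    have := Dg_oe (((2 * r + 1 : ℕ) : ℤ) + 1) (2 * r + 1)
    rw [B1_o hr hr', hneg] at this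
    rw [show ((4 * r + 2 : ℕ) : ℤ) + 1 = 2 * (((2 * r + 1 : ℕ) : ℤ) + 1) - 1 by push_cast; ring,
      hm, this, ← k1]
    ring
  · -- g2
    rw [hE]
    have := Dg_even (((2 * r + 1 : ℕ) : ℤ) + 1) (2 * r + 1) (2 * r + 1) le_rfl (by omega)
    rw [show ((2 * r + 1 : ℕ) : ℤ) + 1 + 1 = ((2 * r + 1 : ℕ) : ℤ) + 2 by ring, B2_o hr', B1_o hr hr'] at this
    rw [show ((4 * r + 2 : ℕ) : ℤ) + 2 = 2 * (((2 * r + 1 : ℕ) : ℤ) + 1) by push_cast; ring, hm', this, ← k2]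
    ring
  · -- g3
    intro _
    rw [hE]
    have := Dg_oe (((2 * r + 1 : ℕ) : ℤ) + 2) (2 * r + 1)
    rw [B2_o hr', hneg] at this
    rw [show ((4 * r + 2 : ℕ) : ℤ) + 3 = 2 * (((2 * r + 1 : ℕ) : ℤ) + 2) - 1 by push_cast; ring,
      hm, this, ← k3]
    rw [mul_pow, hsq]; ring

/-- size `m = 4r+3` -/
lemma st_3 {r : ℕ} (hr : St r) (hr' : St (r + 1)) : St (4 * r + 3) := by
  have hV : V (4 * r + 3) = - phi (2 * r + 1) := by
    rw [show 4 * r + 3 = 2 * (2 * r + 1) + 1 by ring, V_odd, pow_succ, pow_mul]; norm_num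
  have hE : E (4 * r + 3) = 0 := by
    rw [show 4 * r + 3 = 2 * (2 * r + 1) + 1 by ring, E_odd]
  have hG : G1 (4 * r + 3) = phi (2 * r + 1) := by
    rw [show 4 * r + 3 = 2 * (2 * r + 1) + 1 by ring, G1_odd, pow_succ, pow_mul]; norm_num
  have hA0 : D (up f) (((2 * r + 1 : ℕ) : ℤ) + 1) (2 * r + 1 + 1) = 0 := by
    have := A0_e hr'
    rw [VE (r + 1) (by omega)] at this
    rw [show ((2 * r + 1 : ℕ) : ℤ) + 1 = ((2 * (r + 1) : ℕ) : ℤ) by push_cast; ring,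
      show 2 * r + 1 + 1 = 2 * (r + 1) by ring, this]
  have hAm : D (up f) ((2 * r + 1 : ℕ) : ℤ) (2 * r + 1 + 1) = (-1) ^ (r + 1) * V (r + 1) ^ 2 := by
    have := Am_e hr'
    rw [show ((2 * (r + 1) : ℕ) : ℤ) - 1 = ((2 * r + 1 : ℕ) : ℤ) by push_cast; ring] at this
    rw [show 2 * r + 1 + 1 = 2 * (r + 1) by ring, this]
  have hB0 : D b (((2 * r + 1 : ℕ) : ℤ) + 1) (2 * r + 1 + 1) = G1 (r + 1) * V (r + 1) := by
    have := B0_e hr'
    rw [show ((2 * r + 1 : ℕ) : ℤ) + 1 = ((2 * (r + 1) : ℕ) : ℤ) by push_cast; ring,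
      show 2 * r + 1 + 1 = 2 * (r + 1) by ring, this]
  have hneg : (-1 : ℤ) ^ (2 * r + 1) = -1 := by rw [pow_succ, pow_mul]; norm_num
  have hsq : ((-1 : ℤ) ^ (r + 1)) ^ 2 = 1 := by rw [← pow_mul, mul_comm, pow_mul]; norm_num
  have key : (-1) ^ (r + 1) * (E r * V (r + 1) ^ 3) = - phi (2 * r + 1) ∧
      V (r + 1) ^ 3 * D (mu 1 f) ((r : ℤ) + 3) r = phi (2 * r + 1) ∧
      (-1) ^ (r + 1) * (V (r + 1) * D (mu 1 f) ((r : ℤ) + 3) r) * (G1 (r + 1) * V (r + 1)) = phi (2 * r + 1) := by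
    rcases Nat.even_or_odd' r with ⟨a, rfl | rfl⟩
    · rw [hr.g3 (by omega), E_even, phi_21_e, V_odd, G1_odd, pow_succ (-1) (2 * a), pow_mul (-1) 2 a]
      rcases phi_01 a with h | h <;> rcases neg_one_pow_eq_or ℤ a with h' | h' <;> rw [h, h'] <;>
        norm_num
    · rw [E_odd, phi_21_o, show 2 * a + 1 + 1 = 2 * a + 2 by ring, V_even]; norm_num
  obtain ⟨k1, k2, k3⟩ := key
  have hm : 4 * r + 3 = 2 * (2 * r + 1) + 1 := by ring
  have hm' : 4 * r + 3 = (2 * r + 1 + 1) + (2 * r + 1) := by ring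
  constructor
  · -- fm
    rw [hV]
    have := Df_even ((2 * r + 1 : ℕ) : ℤ) (2 * r + 1 + 1) (2 * r + 1) (by omega) le_rfl
    rw [hAm, B1_o hr hr'] at this
    rw [show ((4 * r + 3 : ℕ) : ℤ) - 1 = 2 * ((2 * r + 1 : ℕ) : ℤ) by push_cast; ring,
      hm', this, ← k1]
    ring
  · -- f0
    rw [hV]
    have := Df_oo ((2 * r + 1 : ℕ) : ℤ) (2 * r + 1)
    rw [hAm, B2_o hr', hneg] at this
    rw [show ((4 * r + 3 : ℕ) : ℤ) = 2 * ((2 * r + 1 : ℕ) : ℤ) + 1 by push_cast; ring,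
      hm, this, ← k2]
    linear_combination (-(V (r + 1) ^ 3 * D (mu 1 f) ((r : ℤ) + 3) r)) * hsq
  · -- f1
    rw [hE]
    have := Df_even (((2 * r + 1 : ℕ) : ℤ) + 1) (2 * r + 1 + 1) (2 * r + 1) (by omega) le_rfl
    rw [hA0] at this
    rw [show ((4 * r + 3 : ℕ) : ℤ) + 1 = 2 * (((2 * r + 1 : ℕ) : ℤ) + 1) by push_cast; ring,
      hm', this]
    ring
  · -- f2
    rw [hE]
    have := Df_oo (((2 * r + 1 : ℕ) : ℤ) + 1) (2 * r + 1)
    rw [hA0] at this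
    rw [show ((4 * r + 3 : ℕ) : ℤ) + 2 = 2 * (((2 * r + 1 : ℕ) : ℤ) + 1) + 1 by push_cast; ring,
      hm, this]
    ring
  · -- g1
    rw [hG]
    have := Dg_even (((2 * r + 1 : ℕ) : ℤ) + 1) (2 * r + 1 + 1) (2 * r + 1) (by omega) le_rfl
    rw [show ((2 * r + 1 : ℕ) : ℤ) + 1 + 1 = ((2 * r + 1 : ℕ) : ℤ) + 2 by ring, B2_o hr', hB0] at this
    rw [show ((4 * r + 3 : ℕ) : ℤ) + 1 = 2 * (((2 * r + 1 : ℕ) : ℤ) + 1) by push_cast; ring,
      hm', this, ← k3]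
    ring
  · -- g2
    rw [hE]
    have := Dg_oo (((2 * r + 1 : ℕ) : ℤ) + 2) (2 * r + 1)
    rw [show ((4 * r + 3 : ℕ) : ℤ) + 2 = 2 * (((2 * r + 1 : ℕ) : ℤ) + 2) - 1 by push_cast; ring,
      hm, this]
  · intro h; omega

lemma st_base0 : St 0 := by
  constructor <;> simp [D_zero, V, E, G1, phi_zero]

lemma phi_1 : phi 1 = 1 := by have := phi_41 0; rwa [phi_zero] at this

lemma st_base1 : St 1 := by
  have f0 : f 0 = 1 := (f_nat 0).trans phi_zero
  have f1 : f 1 = 1 := (f_nat 1).trans phi_1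
  have f2 : f 2 = 0 := (f_nat 2).trans (phi_42 0)
  have f3 : f 3 = 0 := (f_nat 3).trans (phi_43 0)
  have hV : V 1 = 1 := by have := V_odd 0; simpa [phi_zero] using this
  have hE : E 1 = 0 := E_odd 0
  have hG : G1 1 = -1 := by have := G1_odd 0; simpa [phi_zero] using this
  constructor
  · rw [D_one, hV]; norm_num [f0]
  · rw [D_one, hV]; norm_num [f1]
  · rw [D_one, hE]; norm_num [f2]
  · rw [D_one, hE]; norm_num [f3]
  · rw [D_one, hG]; unfold mu; norm_num [f2, f1]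
  · rw [D_one, hE]; unfold mu; norm_num [f2, f3]
  · intro h; omega

theorem st_all (m : ℕ) : St m := by
  induction m using Nat.strong_induction_on with
  | _ m ih =>
    rcases Nat.lt_or_ge m 2 with hm | hm
    · interval_cases m
      · exact st_base0
      · exact st_base1
    · obtain ⟨r, s, hs, rfl⟩ : ∃ r s, s < 4 ∧ m = 4 * r + s := ⟨m / 4, m % 4, by omega, by omega⟩
      interval_cases s
      · exact st_0 (by omega) (ih r (by omega))
      · exact st_1 (ih r (by omega)) (ih (r + 1) (by omega))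
      · exact st_2 (ih r (by omega)) (ih (r + 1) (by omega))
      · exact st_3 (ih r (by omega)) (ih (r + 1) (by omega))

/-- the diagonal value -/
theorem D_cc_diag (n : ℕ) : D cc ((n : ℤ) + 2) n = phi n := by
  rcases Nat.even_or_odd' n with ⟨m, rfl | rfl⟩
  · have := D_mu_even (-1) (by norm_num) f ((m : ℤ) + 1) m m le_rfl (by omega)
    rw [show (m : ℤ) + 1 + 1 = m + 2 by ring, (st_all m).g2, (st_all m).f1] at this
    have h2 : D cc (((2 * m : ℕ) : ℤ) + 2) (2 * m) = E m * E m := by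
      rw [← this]; unfold cc
      congr 1
      · ring
    rw [h2]
    rcases Nat.even_or_odd' m with ⟨a, rfl | rfl⟩
    · rw [E_even, phi_2_e]
      linear_combination (phi a * phi a) * npow_sq a + phi_sq a
    · rw [E_odd, phi_2_o]; ring
  · have := D_mu_odd_odd (-1) (by norm_num) f ((m : ℤ) + 1) m
    have h0 := (st_all (m + 1)).f0
    push_cast at h0
    rw [show (m : ℤ) + 1 + 2 = m + 3 by ring, h0] at this
    have h2 : D cc (((2 * m + 1 : ℕ) : ℤ) + 2) (2 * m + 1) =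
        (-1) ^ (m + 1) * (-1) * (V (m + 1) * D (mu 1 f) ((m : ℤ) + 3) m) := by
      rw [← this]; unfold cc
      congr 1
    rw [h2]
    rcases Nat.even_or_odd' m with ⟨a, rfl | rfl⟩
    · rw [(st_all _).g3 (by omega), E_even, V_odd, phi_21_e, pow_succ (-1) (2 * a), pow_mul (-1) 2 a]
      norm_num
      linear_combination (phi a * phi a) * npow_sq a + phi_sq a
    · rw [show 2 * a + 1 + 1 = 2 * a + 2 by ring, V_even, phi_21_o]; ring

end X318.HankPar
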