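import Pool.Agent.X318.HankTM

/-! Coefficients of the compositional inverse of the Thue–Morse series over `𝔽₂`. -/

namespace X318.TMInv
open PowerSeries X318.HankPar

/-- Thue–Morse sequence: binary digit sum mod 2. -/
def tm (n : ℕ) : ZMod 2 := (((Nat.digits 2 n).sum : ℕ) : ZMod 2)

/-- Thue–Morse series. -/
noncomputable def F : PowerSeries (ZMod 2) := PowerSeries.mk tm

lemma tm_zero : tm 0 = 0 := by simp [tm]

lemma tm_even (n : ℕ) : tm (2 * n) = tm n := by
  unfold tm
  rcases Nat.eq_zero_or_pos n with h | h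
  · subst h; simp
  · rw [Nat.digits_def' (by norm_num) (by omega)]
    simp [Nat.mul_mod_right]

lemma tm_odd (n : ℕ) : tm (2 * n + 1) = 1 + tm n := by
  unfold tm
  rw [Nat.digits_def' (by norm_num) (by omega)]
  have h1 : (2 * n + 1) % 2 = 1 := by omega
  have h2 : (2 * n + 1) / 2 = n := by omega
  rw [h1, h2]
  simp

/-- coefficients of a square over `𝔽₂` -/
lemma coeff_sq (G : PowerSeries (ZMod 2)) (n : ℕ) :
    coeff n (G ^ 2) = if n % 2 = 0 then coeff (n / 2) G else 0 := by
  rw [sq, coeff_mul]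
  have hz : ∀ x : ZMod 2, x + x = 0 := by decide
  have hs : ∀ x : ZMod 2, x * x = x := by decide
  have key : ∑ p ∈ Finset.HasAntidiagonal.antidiagonal n, coeff p.1 G * coeff p.2 G =
      ∑ p ∈ (Finset.HasAntidiagonal.antidiagonal n).filter (fun p => p.1 = p.2), coeff p.1 G * coeff p.2 G := by
    rw [← Finset.sum_filter_add_sum_filter_not (Finset.HasAntidiagonal.antidiagonal n) (fun p => p.1 = p.2)]
    have : ∑ p ∈ (Finset.HasAntidiagonal.antidiagonal n).filter (fun p => ¬ p.1 = p.2), coeff p.1 G * coeff p.2 G = 0 := by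
      apply Finset.sum_involution (fun p _ => p.swap)
      · rintro ⟨i, j⟩ _
        simp only [Prod.fst_swap, Prod.snd_swap]
        rw [mul_comm (coeff j G)]
        exact hz _
      · rintro ⟨i, j⟩ h _
        simp only [Finset.mem_filter, Finset.HasAntidiagonal.mem_antidiagonal] at h
        intro h2
        simp only [Prod.swap_prod_mk, Prod.mk.injEq] at h2
        exact h.2 h2.2
      · rintro ⟨i, j⟩ _
        simp
      · rintro ⟨i, j⟩ h
        simp only [Finset.mem_filter, Finset.HasAntidiagonal.mem_antidiagonal, Prod.swap_prod_mk] at h ⊢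
        exact ⟨by omega, fun h' => h.2 h'.symm⟩
    rw [this, add_zero]
  rw [key]
  split_ifs with h
  · rw [Finset.sum_eq_single ((n / 2, n / 2) : ℕ × ℕ)]
    · exact hs _
    · rintro ⟨i, j⟩ hij hne
      simp only [Finset.mem_filter, Finset.HasAntidiagonal.mem_antidiagonal] at hij
      exfalso; apply hne
      rw [Prod.mk.injEq]; omega
    · intro hn
      exfalso; apply hn
      simp only [Finset.mem_filter, Finset.HasAntidiagonal.mem_antidiagonal, and_true]
      omega
  · apply Finset.sum_eq_zero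
    rintro ⟨i, j⟩ hij
    simp only [Finset.mem_filter, Finset.HasAntidiagonal.mem_antidiagonal] at hij
    omega

lemma two_eq_zero' : (2 : PowerSeries (ZMod 2)) = 0 := by
  have := congrArg (C (R := ZMod 2)) (show (2 : ZMod 2) = 0 by decide)
  rwa [map_ofNat, map_zero] at this

/-- functional equation of the Thue–Morse series -/
lemma F_eq : (1 + X) ^ 2 * F = (1 + X) ^ 3 * F ^ 2 + X := by
  set O : PowerSeries (ZMod 2) := PowerSeries.mk (fun n => if n % 2 = 0 then (1 : ZMod 2) else 0) with hO
  have h1 : F = (1 + X) * F ^ 2 + X * O := by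
    ext n
    rw [add_mul, one_mul, map_add, map_add]
    rcases n with _ | n
    · rw [coeff_sq, coeff_zero_X_mul, coeff_zero_X_mul]
      simp [F, tm_zero]
    · rw [coeff_succ_X_mul, coeff_succ_X_mul, coeff_sq, coeff_sq, hO, coeff_mk]
      unfold F
      rw [coeff_mk, coeff_mk, coeff_mk]
      rcases Nat.even_or_odd' n with ⟨m, rfl | rfl⟩
      · rw [if_neg (by omega), if_pos (by omega), if_pos (by omega), tm_odd,
          show 2 * m / 2 = m by omega]; ring
      · rw [if_pos (by omega), if_neg (by omega), if_neg (by omega),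
          show 2 * m + 1 + 1 = 2 * (m + 1) by ring, tm_even,
          show 2 * (m + 1) / 2 = m + 1 by omega]; ring
  have h2 : (1 + X) ^ 2 * O = 1 := by
    have : (1 + X) ^ 2 * O = (1 + X ^ 2) * O := by
      linear_combination (X * O) * two_eq_zero'
    rw [this, add_mul, one_mul]
    ext n
    rw [map_add, coeff_X_pow_mul', hO, coeff_mk, coeff_mk, coeff_one]
    rcases Nat.lt_or_ge n 2 with hn | hn
    · interval_cases n <;> simp
    · rw [if_pos hn]
      have h3 : (n - 2) % 2 = n % 2 := by omega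
      rw [h3, if_neg (show ¬ n = 0 by omega)]
      split_ifs
      · decide
      · simp
  calc (1 + X) ^ 2 * F = (1 + X) ^ 2 * ((1 + X) * F ^ 2 + X * O) := by rw [← h1]
    _ = (1 + X) ^ 3 * F ^ 2 + X * ((1 + X) ^ 2 * O) := by ring
    _ = _ := by rw [h2, mul_one]

/-- equation satisfied by a compositional (right) inverse -/
lemma G_eq {G : PowerSeries (ZMod 2)} (h0 : constantCoeff G = 0) (hG : F.subst G = X) :
    (1 + X) * (1 + X + X * G) = ((1 + X + X * G) ^ 2) ^ 2 := by
  have hs : HasSubst G := HasSubst.of_constantCoeff_zero' h0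
  have h := congrArg (fun P => PowerSeries.subst G P) F_eq
  have e1 : PowerSeries.subst G ((1 : PowerSeries (ZMod 2)) + X) = 1 + G := by
    have h1 : PowerSeries.subst G (1 : PowerSeries (ZMod 2)) = 1 := by
      rw [← coe_substAlgHom hs]; exact map_one _
    rw [subst_add hs, h1, subst_X hs]
  rw [subst_mul hs, subst_pow hs, e1, subst_add hs, subst_mul hs, subst_pow hs, subst_pow hs, e1,
    subst_X hs, hG] at h
  -- h : (1+G)^2 * X = (1+G)^3 * X^2 + G
  have h2 := two_eq_zero'
  linear_combination (X * (X * (1 + G) + 1)) * h -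
    (X * (1 + G) + 3 * (X * (1 + G)) ^ 2 + 2 * (X * (1 + G)) ^ 3) * h2

lemma phi_rec (m : ℕ) (hm : 0 < m) : ((phi (m / 2) : ℤ) : ZMod 2) =
    ((phi ((m - 1) / 2) : ℤ) : ZMod 2) + if m % 4 = 0 then ((phi (m / 4 / 2) : ℤ) : ZMod 2) else 0 := by
  have hz : ∀ x : ZMod 2, x + x = 0 := by decide
  obtain ⟨q, s, hs, rfl⟩ : ∃ q s, s < 8 ∧ m = 8 * q + s := ⟨m / 8, m % 8, by omega, by omega⟩
  interval_cases s
  · -- m = 8q
    obtain ⟨r, rfl⟩ : ∃ r, q = r + 1 := ⟨q - 1, by omega⟩
    rw [show (8 * (r + 1) + 0) / 2 = 4 * (r + 1) by omega, show (8 * (r + 1) + 0 - 1) / 2 = 4 * r + 3 by omega,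
      if_pos (by omega), show (8 * (r + 1) + 0) / 4 / 2 = r + 1 by omega, phi_4, phi_43]
    simp
  · rw [show (8 * q + 1) / 2 = 4 * q by omega, show (8 * q + 1 - 1) / 2 = 4 * q by omega,
      if_neg (by omega)]; simp
  · rw [show (8 * q + 2) / 2 = 4 * q + 1 by omega, show (8 * q + 2 - 1) / 2 = 4 * q by omega,
      if_neg (by omega), phi_4, phi_41]; simp
  · rw [show (8 * q + 3) / 2 = 4 * q + 1 by omega, show (8 * q + 3 - 1) / 2 = 4 * q + 1 by omega,
      if_neg (by omega)]; simp
  · rw [show (8 * q + 4) / 2 = 4 * q + 2 by omega, show (8 * q + 4 - 1) / 2 = 4 * q + 1 by omega,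
      if_pos (by omega), show (8 * q + 4) / 4 / 2 = q by omega, phi_42, phi_41, hz]; simp
  · rw [show (8 * q + 5) / 2 = 4 * q + 2 by omega, show (8 * q + 5 - 1) / 2 = 4 * q + 2 by omega,
      if_neg (by omega)]; simp
  · rw [show (8 * q + 6) / 2 = 4 * q + 3 by omega, show (8 * q + 6 - 1) / 2 = 4 * q + 2 by omega,
      if_neg (by omega), phi_42, phi_43]; simp
  · rw [show (8 * q + 7) / 2 = 4 * q + 3 by omega, show (8 * q + 7 - 1) / 2 = 4 * q + 3 by omega,
      if_neg (by omega)]; simp

/-- coefficients of `W = 1 + X + X G` -/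
lemma W_coeff {W : PowerSeries (ZMod 2)} (h0 : constantCoeff W = 1) (hW : (1 + X) * W = (W ^ 2) ^ 2)
    (m : ℕ) : coeff m W = ((phi (m / 2) : ℤ) : ZMod 2) := by
  induction m using Nat.strong_induction_on with
  | _ m ih =>
    rcases Nat.eq_zero_or_pos m with hm | hm
    · subst hm
      rw [coeff_zero_eq_constantCoeff_apply, h0]; simp [phi_zero]
    · obtain ⟨k, rfl⟩ : ∃ k, m = k + 1 := ⟨m - 1, by omega⟩
      have h := congrArg (coeff (k + 1)) hW
      rw [add_mul, one_mul, map_add, coeff_succ_X_mul, coeff_sq, coeff_sq, ih k (by omega)] at h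
      have h2 := phi_rec (k + 1) hm
      rw [show k + 1 - 1 = k by omega] at h2
      have hz : ∀ x : ZMod 2, x + x = 0 := by decide
      rw [h2]
      have h3 : coeff (k + 1) W = (if (k + 1) % 2 = 0 then
          if (k + 1) / 2 % 2 = 0 then (coeff ((k + 1) / 2 / 2)) W else 0 else 0) +
          ((phi (k / 2) : ℤ) : ZMod 2) := by
        rw [← h, add_assoc, hz, add_zero]
      rw [h3, add_comm]
      congr 1
      by_cases h4 : (k + 1) % 4 = 0
      · rw [if_pos h4, if_pos (by omega), if_pos (by omega), ih _ (by omega)]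
        congr 3; omega
      · rw [if_neg h4]
        split_ifs
        · omega
        · rfl
        · rfl

/-- The coefficients of the compositional inverse of the Thue–Morse series. -/
theorem G_coeff {G : PowerSeries (ZMod 2)} (h0 : constantCoeff G = 0) (hG : F.subst G = X)
    (m : ℕ) (hm : 1 ≤ m) : ((coeff m G).val : ℤ) = phi ((m + 1) / 2) := by
  have h1 := W_coeff (W := 1 + X + X * G) (by simp) (G_eq h0 hG) (m + 1)
  rw [map_add, map_add, coeff_succ_X_mul, coeff_one, coeff_X, if_neg (by omega), if_neg (by omega),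
    zero_add, zero_add] at h1
  rw [h1]
  rcases phi_01 ((m + 1) / 2) with h | h <;> rw [h] <;> rfl

/-- existence of the compositional inverse -/
theorem exists_inv : ∃ G : PowerSeries (ZMod 2), constantCoeff G = 0 ∧ F.subst G = X ∧ G.subst F = X := by
  have hF : constantCoeff F = 0 := by
    rw [← coeff_zero_eq_constantCoeff_apply]; simp [F, tm_zero]
  have hF1 : IsUnit (coeff 1 F) := by
    have : coeff 1 F = 1 := by
      unfold F; rw [coeff_mk, show 1 = 2 * 0 + 1 by rfl, tm_odd, tm_zero, add_zero]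
    rw [this]; exact isUnit_one
  exact ⟨F.substInvOfIsUnit hF1, constantCoeff_substInvOfIsUnit _ _,
    subst_substInvOfIsUnit_right _ hF hF1, subst_substInvOfIsUnit_left _ hF hF1⟩

end X318.TMInv
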