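import Mathlib

/-!
# A finite form of Landen's transformation

`∑_i C(N,i) C(2i,i) C(2(N-i),N-i) = ∑_k C(2k,k)^2 C(k,N-k) (-4)^(N-k)`. Both sides satisfy the
recurrence `(N+2)^2 a(N+2) = 4 (3N^2+9N+7) a(N+1) - 32 (N+1)^2 a(N)`.
-/

set_option autoImplicit false

open Finset

namespace Pool.Agent.X318.Landen

open PowerSeries

/-- The derivation `X d/dX`. -/
noncomputable def θ (f : ℚ⟦X⟧) : ℚ⟦X⟧ := X * derivative ℚ f

lemma θ_mul (f g : ℚ⟦X⟧) : θ (f * g) = f * θ g + g * θ f := by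
  simp only [θ, Derivation.leibniz, smul_eq_mul]
  ring

lemma θ_add (f g : ℚ⟦X⟧) : θ (f + g) = θ f + θ g := by
  simp only [θ, map_add]
  ring

lemma θ_sub (f g : ℚ⟦X⟧) : θ (f - g) = θ f - θ g := by
  simp only [θ, map_sub]
  ring

lemma θ_X : θ X = X := by
  simp [θ]

lemma θ_natCast (n : ℕ) : θ (n : ℚ⟦X⟧) = 0 := by
  have h : (n : ℚ⟦X⟧) = C (n : ℚ) := by simp
  rw [h]
  simp [θ]

lemma θ_nat_mul (n : ℕ) (f : ℚ⟦X⟧) : θ ((n : ℚ⟦X⟧) * f) = (n : ℚ⟦X⟧) * θ f := by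
  rw [θ_mul, θ_natCast]
  ring

lemma θ_one : θ 1 = 0 := by
  have := θ_natCast 1
  rwa [Nat.cast_one] at this

lemma coeff_θ (f : ℚ⟦X⟧) (n : ℕ) : coeff n (θ f) = n * coeff n f := by
  unfold θ
  cases n with
  | zero => simp
  | succ n =>
    rw [coeff_succ_X_mul, coeff_derivative]
    push_cast
    ring

lemma coeff_nat_mul (a : ℕ) (f : ℚ⟦X⟧) (i : ℕ) : coeff i ((a : ℚ⟦X⟧) * f) = (a : ℚ) * coeff i f := by
  have : (a : ℚ⟦X⟧) = C (a : ℚ) := by simp
  rw [this, coeff_C_mul]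

/-- The square of the central binomial coefficient. -/
def g (k : ℕ) : ℕ := k.centralBinom ^ 2

lemma g_succ (k : ℕ) : (k + 1) ^ 2 * g (k + 1) = 4 * (2 * k + 1) ^ 2 * g k := by
  have h := Nat.succ_mul_centralBinom_succ k
  unfold g
  calc (k + 1) ^ 2 * (k + 1).centralBinom ^ 2 = ((k + 1) * (k + 1).centralBinom) ^ 2 := by ring
    _ = (2 * (2 * k + 1) * k.centralBinom) ^ 2 := by rw [h]
    _ = _ := by ring

/-! ### The first sum -/

/-- `∑_i C(N,i) C(2i,i) C(2(N-i),N-i)`. -/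
def b (N : ℕ) : ℕ := ∑ i ∈ range (N + 1), N.choose i * (i.centralBinom * (N - i).centralBinom)

/-- The exponential generating function of the central binomial coefficients. -/
noncomputable def E : ℚ⟦X⟧ := mk fun i => (i.centralBinom : ℚ) / (i.factorial : ℚ)

lemma θθE : θ (θ E) = X * (4 * θ E + 2 * E) := by
  have h4 : (4 * θ E : ℚ⟦X⟧) = ((4 : ℕ) : ℚ⟦X⟧) * θ E := by push_cast; ring
  have h2 : (2 * E : ℚ⟦X⟧) = ((2 : ℕ) : ℚ⟦X⟧) * E := by push_cast; ring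
  ext n
  rw [coeff_θ, coeff_θ]
  cases n with
  | zero => simp
  | succ n =>
    rw [coeff_succ_X_mul, map_add, h4, h2, coeff_nat_mul, coeff_nat_mul, coeff_θ, E, coeff_mk,
      coeff_mk]
    have h := Nat.succ_mul_centralBinom_succ n
    have h' := congrArg (Nat.cast : ℕ → ℚ) h
    have hf : ((n + 1).factorial : ℚ) = (n + 1) * n.factorial := by
      rw [Nat.factorial_succ]
      push_cast
      ring
    have h0 : (n.factorial : ℚ) ≠ 0 := by exact_mod_cast n.factorial_ne_zero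
    have h1 : ((n : ℚ) + 1) ≠ 0 := by positivity
    rw [hf]
    push_cast at h' ⊢
    field_simp
    linear_combination h'

lemma θθθY : θ (θ (θ (E * E))) =
    4 * (X * (3 * θ (θ (E * E)) + 3 * θ (E * E) + E * E)) - 32 * (X * (X * (θ (E * E) + E * E))) := by
  have hn : ∀ (n : ℕ) (f : ℚ⟦X⟧), θ ((n : ℚ⟦X⟧) * f) = (n : ℚ⟦X⟧) * θ f := θ_nat_mul
  have h1 : θ (E * E) = 2 * (E * θ E) := by
    rw [θ_mul]
    ring
  have h2 : θ (θ (E * E)) = 2 * (θ E * θ E) + 8 * (X * (E * θ E)) + 4 * (X * (E * E)) := by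
    have e1 := hn 2 (E * θ E)
    push_cast at e1
    rw [h1, e1, θ_mul, θθE]
    ring
  have h3 : θ (θ (θ (E * E))) = 24 * (X * (θ E * θ E)) + 24 * (X * (E * θ E)) + 4 * (X * (E * E)) +
      32 * (X * (X * (E * θ E))) + 16 * (X * (X * (E * E))) := by
    have e1 := hn 2 (θ E * θ E)
    have e2 := hn 8 (X * (E * θ E))
    have e3 := hn 4 (X * (E * E))
    push_cast at e1 e2 e3
    rw [h2, θ_add, θ_add, e1, e2, e3, θ_mul X, θ_mul X, θ_mul (θ E) (θ E), θ_mul E (θ E), h1, θθE,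
      θ_X]
    ring
  rw [h3, h2, h1]
  ring

lemma coeff_EE (N : ℕ) : coeff N (E * E) = (b N : ℚ) / (N.factorial : ℚ) := by
  rw [coeff_mul, Nat.sum_antidiagonal_eq_sum_range_succ_mk, b]
  push_cast
  rw [sum_div]
  refine sum_congr rfl fun i hi => ?_
  have hi' : i ≤ N := Nat.lt_succ_iff.1 (mem_range.1 hi)
  rw [E, coeff_mk, coeff_mk]
  have h := Nat.choose_mul_factorial_mul_factorial hi'
  have h' := congrArg (Nat.cast : ℕ → ℚ) h
  push_cast at h'
  have h0 : (N.factorial : ℚ) ≠ 0 := by exact_mod_cast N.factorial_ne_zero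
  have h1 : (i.factorial : ℚ) ≠ 0 := by exact_mod_cast i.factorial_ne_zero
  have h2 : ((N - i).factorial : ℚ) ≠ 0 := by exact_mod_cast (N - i).factorial_ne_zero
  have h3 : (N.choose i : ℚ) ≠ 0 := by exact_mod_cast (Nat.choose_pos hi').ne'
  rw [← h']
  field_simp

lemma b_rec (N : ℕ) : ((N : ℚ) + 2) ^ 2 * b (N + 2) =
    4 * (3 * N ^ 2 + 9 * N + 7) * b (N + 1) - 32 * (N + 1) ^ 2 * b N := by
  have h := congrArg (coeff (N + 2)) θθθY
  have h4 : ∀ f : ℚ⟦X⟧, 4 * f = ((4 : ℕ) : ℚ⟦X⟧) * f := fun f => by push_cast; ring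
  have h3 : ∀ f : ℚ⟦X⟧, 3 * f = ((3 : ℕ) : ℚ⟦X⟧) * f := fun f => by push_cast; ring
  have h32 : ∀ f : ℚ⟦X⟧, 32 * f = ((32 : ℕ) : ℚ⟦X⟧) * f := fun f => by push_cast; ring
  rw [map_sub, h4, h32, coeff_nat_mul, coeff_nat_mul, coeff_succ_X_mul, coeff_succ_X_mul,
    coeff_succ_X_mul, map_add, map_add, map_add, h3, h3, coeff_nat_mul, coeff_nat_mul] at h
  simp only [coeff_θ, coeff_EE] at h
  have h0 : (N.factorial : ℚ) ≠ 0 := by exact_mod_cast N.factorial_ne_zero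
  have hf1 : ((N + 1).factorial : ℚ) = (N + 1) * N.factorial := by
    rw [Nat.factorial_succ]
    push_cast
    ring
  have hf2 : ((N + 2).factorial : ℚ) = (N + 2) * ((N + 1) * N.factorial) := by
    rw [Nat.factorial_succ, Nat.factorial_succ]
    push_cast
    ring
  have h1 : ((N : ℚ) + 1) ≠ 0 := by positivity
  have h2 : ((N : ℚ) + 2) ≠ 0 := by positivity
  rw [hf1, hf2] at h
  push_cast at h
  field_simp at h
  linear_combination h

/-! ### The second sum -/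

/-- `∑_k C(2k,k)^2 C(k,N-k) (-4)^(N-k)`. -/
def R (N : ℕ) : ℤ := ∑ k ∈ range (N + 1), (g k : ℤ) * (k.choose (N - k) * (-4) ^ (N - k))

/-- The argument. -/
noncomputable def u : ℚ⟦X⟧ := X - 4 * (X * X)

lemma θu : θ u = X - 8 * (X * X) := by
  have h := θ_nat_mul 4 (X * X)
  push_cast at h
  unfold u
  rw [θ_sub, θ_X, h, θ_mul, θ_X]
  ring

lemma θ_pow (k : ℕ) : (1 - 4 * X) * θ (u ^ k) = (k : ℚ⟦X⟧) * (u ^ k * (1 - 8 * X)) := by
  induction k with
  | zero =>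
    rw [pow_zero, θ_one]
    push_cast
    ring
  | succ k ih =>
    rw [pow_succ, θ_mul, θu]
    have h1 : (1 - 4 * X : ℚ⟦X⟧) * (X - 8 * (X * X)) = u * (1 - 8 * X) := by
      unfold u
      ring
    push_cast
    linear_combination u * ih + u ^ k * h1

/-- The differential operator. -/
noncomputable def M (y : ℚ⟦X⟧) : ℚ⟦X⟧ :=
  θ (θ y) - 4 * (X * (3 * θ (θ y) + 3 * θ y + y)) + 32 * (X * (X * (θ (θ y) + 2 * θ y + y)))

lemma M_add (y z : ℚ⟦X⟧) : M (y + z) = M y + M z := by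
  unfold M
  rw [θ_add, θ_add]
  ring

lemma M_nat_mul (n : ℕ) (y : ℚ⟦X⟧) : M ((n : ℚ⟦X⟧) * y) = n * M y := by
  unfold M
  rw [θ_nat_mul, θ_nat_mul]
  ring

lemma one_sub_ne : (1 - 4 * X : ℚ⟦X⟧) ≠ 0 := by
  intro h
  have h1 := congrArg (coeff 0) h
  have h4 : (4 * X : ℚ⟦X⟧) = ((4 : ℕ) : ℚ⟦X⟧) * X := by push_cast; ring
  rw [map_sub, h4, coeff_nat_mul] at h1
  simp at h1

lemma M_pow (k : ℕ) : (1 - 4 * X) * M (u ^ k) = (1 - 8 * X) *
    (((k ^ 2 : ℕ) : ℚ⟦X⟧) * u ^ k - ((4 * (2 * k + 1) ^ 2 : ℕ) : ℚ⟦X⟧) * u ^ (k + 1)) := by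
  have h1 := θ_pow k
  have h2 : (1 - 4 * X) * θ (θ (u ^ k)) - 4 * X * θ (u ^ k) =
      (k : ℚ⟦X⟧) * (θ (u ^ k) * (1 - 8 * X) - 8 * X * u ^ k) := by
    have h3 := congrArg θ h1
    have e4 := θ_nat_mul 4 X
    have e8 := θ_nat_mul 8 X
    push_cast at e4 e8
    rw [θ_mul, θ_sub, θ_one, e4, θ_X, θ_nat_mul, θ_mul, θ_sub, θ_one, e8, θ_X] at h3
    linear_combination h3
  apply mul_left_cancel₀ one_sub_ne
  unfold M
  rw [pow_succ u k]
  have hu : u = X - 4 * (X * X) := rfl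
  generalize θ (θ (u ^ k)) = w2 at h2 ⊢
  generalize θ (u ^ k) = w1 at h1 h2 ⊢
  generalize u ^ k = w at h1 h2 ⊢
  rw [hu]
  push_cast
  -- (1-4X)^2 M = ...
  linear_combination (1 - 4 * X) * (1 - 4 * X) * (1 - 8 * X) * h2 +
    ((k : ℚ⟦X⟧) * (1 - 8 * X) * (1 - 8 * X) + 4 * X * (1 - 8 * X) * 1 +
      (- 12 * X + 64 * X * X)) * (1 - 4 * X) * h1

lemma M_sum (K : ℕ) : (1 - 4 * X) * M (∑ k ∈ range (K + 1), (g k : ℚ⟦X⟧) * u ^ k) =
    - ((1 - 8 * X) * (((4 * (2 * K + 1) ^ 2 * g K : ℕ) : ℚ⟦X⟧) * u ^ (K + 1))) := by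
  induction K with
  | zero =>
    have h := M_pow 0
    have hg : g 0 = 1 := by simp [g]
    rw [zero_add, range_one, sum_singleton, hg, Nat.cast_one, one_mul, h]
    push_cast
    ring
  | succ K ih =>
    rw [sum_range_succ, M_add, mul_add, ih, M_nat_mul]
    have hp := M_pow (K + 1)
    have h := congrArg (Nat.cast : ℕ → ℚ⟦X⟧) (g_succ K)
    push_cast at h hp ⊢
    linear_combination (1 - 8 * X) * u ^ (K + 1) * h + (g (K + 1) : ℚ⟦X⟧) * hp

lemma coeff_u_pow (k n : ℕ) : coeff n (u ^ k) =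
    if k ≤ n then (k.choose (n - k) : ℚ) * (-4) ^ (n - k) else 0 := by
  have h1 : u = X * (1 - 4 * X) := by
    unfold u
    ring
  have hc : ∀ (a : ℚ) (f : ℚ⟦X⟧) (i : ℕ), coeff i (C a * f) = a * coeff i f :=
    fun a f i => coeff_C_mul i f a
  have h432 : (4 : ℚ⟦X⟧) = C (4 : ℚ) := by
    have := (map_natCast (C (R := ℚ)) 4).symm
    exact_mod_cast this
  have h2 : (1 - 4 * X : ℚ⟦X⟧) ^ k = ∑ i ∈ range (k + 1),
      C (((-4) ^ i * (k.choose i : ℚ))) * X ^ i := by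
    rw [show (1 - 4 * X : ℚ⟦X⟧) = C (-4) * X + 1 by
      rw [h432, map_neg]
      ring, add_pow]
    refine sum_congr rfl fun i _ => ?_
    rw [one_pow, mul_one, mul_pow, map_mul, map_pow]
    have : ((k.choose i : ℕ) : ℚ⟦X⟧) = C ((k.choose i : ℕ) : ℚ) := by simp
    rw [this]
    ring
  rw [h1, mul_pow, coeff_X_pow_mul']
  split_ifs with h
  · rw [h2, map_sum]
    simp_rw [hc, coeff_X_pow]
    by_cases h3 : n - k ≤ k
    · rw [sum_eq_single (n - k)]
      · rw [if_pos rfl]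
        ring
      · intro i _ hi
        rw [if_neg (Ne.symm hi), mul_zero]
      · intro hi
        exact absurd (mem_range.2 (by omega)) hi
    · rw [Nat.choose_eq_zero_of_lt (show k < n - k by omega), sum_eq_zero]
      · simp
      · intro i hi
        have := mem_range.1 hi
        rw [if_neg (by omega), mul_zero]
  · rfl

lemma coeff_P (K n : ℕ) (h : n ≤ K) :
    coeff n (∑ k ∈ range (K + 1), (g k : ℚ⟦X⟧) * u ^ k) = (R n : ℚ) := by
  rw [map_sum, R]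
  push_cast
  rw [← sum_subset (range_mono (show n + 1 ≤ K + 1 by omega))]
  · refine sum_congr rfl fun k hk => ?_
    rw [coeff_nat_mul, coeff_u_pow, if_pos (Nat.lt_succ_iff.1 (mem_range.1 hk))]
  · intro k _ hk
    rw [coeff_nat_mul, coeff_u_pow, if_neg, mul_zero]
    intro h'
    exact hk (mem_range.2 (by omega))

lemma R_rec (N : ℕ) : ((N : ℚ) + 2) ^ 2 * R (N + 2) =
    4 * (3 * N ^ 2 + 9 * N + 7) * R (N + 1) - 32 * (N + 1) ^ 2 * R N := by
  obtain ⟨P, hP⟩ : ∃ P, P = ∑ k ∈ range (N + 2 + 1), (g k : ℚ⟦X⟧) * u ^ k := ⟨_, rfl⟩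
  have h := M_sum (N + 2)
  rw [← hP] at h
  have h4 : ∀ f : ℚ⟦X⟧, 4 * f = ((4 : ℕ) : ℚ⟦X⟧) * f := fun f => by push_cast; ring
  have h3 : ∀ f : ℚ⟦X⟧, 3 * f = ((3 : ℕ) : ℚ⟦X⟧) * f := fun f => by push_cast; ring
  have h2 : ∀ f : ℚ⟦X⟧, 2 * f = ((2 : ℕ) : ℚ⟦X⟧) * f := fun f => by push_cast; ring
  have h32 : ∀ f : ℚ⟦X⟧, 32 * f = ((32 : ℕ) : ℚ⟦X⟧) * f := fun f => by push_cast; ring
  have hz : ∀ n < N + 3, coeff n ((1 - 4 * X) * M P) = 0 := by
    intro n hn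
    have hu : u = X * (1 - 4 * X) := by
      unfold u
      ring
    have h5 : (1 - 4 * X) * M P = X ^ (N + 3) * (- ((1 - 8 * X) *
        (((4 * (2 * (N + 2) + 1) ^ 2 * g (N + 2) : ℕ) : ℚ⟦X⟧) * (1 - 4 * X) ^ (N + 3)))) := by
      rw [h, hu, mul_pow]
      ring
    rw [h5, coeff_X_pow_mul', if_neg (by omega)]
  have hM : ∀ n < N + 3, coeff n (M P) = 0 := by
    intro n
    induction n with
    | zero =>
      intro hn
      have h6 := hz 0 hn
      have h7 : (1 - 4 * X) * M P = M P - 4 * (X * M P) := by ring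
      rw [h7, map_sub, h4, coeff_nat_mul, coeff_zero_X_mul, mul_zero, sub_zero] at h6
      exact h6
    | succ n ih =>
      intro hn
      have h6 := hz (n + 1) hn
      have h7 : (1 - 4 * X) * M P = M P - 4 * (X * M P) := by ring
      rw [h7, map_sub, h4, coeff_nat_mul, coeff_succ_X_mul, ih (by omega), mul_zero, sub_zero] at h6
      exact h6
  have h8 := hM (N + 2) (by omega)
  unfold M at h8
  rw [map_add, map_sub, h4, h32, coeff_nat_mul, coeff_nat_mul, coeff_succ_X_mul, coeff_succ_X_mul,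
    coeff_succ_X_mul, map_add, map_add, map_add, map_add, h3, h3, h2, coeff_nat_mul, coeff_nat_mul,
    coeff_nat_mul] at h8
  simp only [coeff_θ] at h8
  rw [hP, coeff_P _ _ (by omega), coeff_P _ _ (by omega), coeff_P _ _ (by omega)] at h8
  push_cast at h8
  linear_combination h8

/-- **The identity.** -/
theorem landen (N : ℕ) : (b N : ℤ) = R N := by
  have key : ∀ N, (b N : ℤ) = R N ∧ (b (N + 1) : ℤ) = R (N + 1) := by
    intro N
    induction N with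
    | zero =>
      constructor
      · simp [b, R, g]
      · simp [b, R, g, sum_range_succ, Nat.centralBinom, Nat.choose]
    | succ N ih =>
      refine ⟨ih.2, ?_⟩
      have h1 := b_rec N
      have h2 := R_rec N
      have e1 : (b N : ℚ) = R N := by exact_mod_cast ih.1
      have e2 : (b (N + 1) : ℚ) = R (N + 1) := by exact_mod_cast ih.2
      rw [e1, e2, ← h2] at h1
      have h3 : ((N : ℚ) + 2) ^ 2 ≠ 0 := by positivity
      have h4 := mul_left_cancel₀ h3 h1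
      exact_mod_cast h4
  exact (key N).1

end Pool.Agent.X318.Landen
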