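import Mathlib

/-!
# Divisibility of `∑_{k<n} (-1)^{rk} (2k - y + 1) C(k,y)^r` by `n`

For fixed `y` put `U_b(k) = C(k+b,b) C(k,y+b)`. The sums `∑_{k<n} (-1)^k (2k-y+1) U_b(k)` and
`∑_{k<n} (2k-y+1) C(k,y) U_b(k)` have closed forms which are divisible by `n`, and all odd powers of
`C(k,y)` are integral combinations of the `U_b`: this follows from the two product formulas
`C(k,y)² = ∑_d C(y,d) Φ_d(k)` and
`Φ_d U_b = ∑_e C(y+b+e,e) C(b+e,d) C(y+b+d,y+b+e) U_{b+e}`, where
`Φ_d(k) = C(k+d,d) C(k-y,d)`.
-/

set_option autoImplicit false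

open Finset

namespace Pool.Agent.X318.LineSum

/-- The functions `U_b`. -/
def U (y b k : ℕ) : ℤ := (k + b).choose b * k.choose (y + b)

/-- The functions `Φ_d`, at `k = y + t`. -/
def Φ (y d t : ℕ) : ℤ := (y + t + d).choose d * t.choose d

/-! ### The square of a binomial coefficient -/

lemma vand (N d : ℕ) : (N + d).choose d = ∑ j ∈ range (d + 1), N.choose j * d.choose j := by
  rw [Nat.add_choose_eq, Nat.sum_antidiagonal_eq_sum_range_succ_mk]
  refine sum_congr rfl fun j hj => ?_
  have hj' : j ≤ d := Nat.lt_succ_iff.1 (mem_range.1 hj)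
  rw [Nat.choose_symm hj']

lemma sq_aux (y d j : ℕ) (hd : d ≤ y) (hj : j ≤ y) :
    y.choose d * d.choose j = y.choose j * (y - j).choose (y - d) := by
  by_cases h : j ≤ d
  · rw [Nat.choose_mul h]
    congr 1
    rw [← Nat.choose_symm (show y - d ≤ y - j by omega)]
    congr 1
    omega
  · rw [Nat.choose_eq_zero_of_lt (show d < j by omega),
      Nat.choose_eq_zero_of_lt (show y - j < y - d by omega), mul_zero, mul_zero]

lemma vand2 (y t j : ℕ) (hj : j ≤ y) :
    ∑ d ∈ range (y + 1), y.choose d * d.choose j * t.choose d =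
      y.choose j * (y + t - j).choose y := by
  have h : (y + t - j) = (y - j) + t := by omega
  rw [h, Nat.add_choose_eq, mul_sum,
    ← Nat.sum_antidiagonal_swap,
    Nat.sum_antidiagonal_eq_sum_range_succ_mk]
  refine sum_congr rfl fun d hd => ?_
  have hd' : d ≤ y := Nat.lt_succ_iff.1 (mem_range.1 hd)
  simp only [Prod.swap]
  rw [sq_aux y d j hd' hj, mul_assoc]

lemma sq_nat (y t : ℕ) : (y + t).choose y * (y + t).choose y =
    ∑ d ∈ range (y + 1), y.choose d * ((y + t + d).choose d * t.choose d) := by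
  have h1 : ∀ d ∈ range (y + 1), y.choose d * ((y + t + d).choose d * t.choose d) =
      ∑ j ∈ range (y + 1), (y + t).choose j * (y.choose d * d.choose j * t.choose d) := by
    intro d hd
    have hd' : d ≤ y := Nat.lt_succ_iff.1 (mem_range.1 hd)
    rw [vand, sum_subset (s₂ := range (y + 1)) (range_subset_range.2 (by omega))]
    · rw [sum_mul, mul_sum]
      refine sum_congr rfl fun j _ => ?_
      ring
    · intro j _ hj
      rw [mem_range, not_lt] at hj
      rw [Nat.choose_eq_zero_of_lt (show d < j by omega), mul_zero]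
  rw [sum_congr rfl h1, sum_comm]
  have h2 : ∀ j ∈ range (y + 1),
      ∑ d ∈ range (y + 1), (y + t).choose j * (y.choose d * d.choose j * t.choose d) =
      (y + t).choose y * (t.choose j * y.choose j) := by
    intro j hj
    have hj' : j ≤ y := Nat.lt_succ_iff.1 (mem_range.1 hj)
    rw [← mul_sum, vand2 y t j hj']
    have h3 : (y + t).choose j * (y + t - j).choose y = (y + t).choose y * t.choose j := by
      by_cases hjt : j + y ≤ y + t
      · have h4 := Nat.choose_mul (n := y + t) (k := j + y) (show j ≤ j + y by omega)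
        have h5 := Nat.choose_mul (n := y + t) (k := j + y) (show y ≤ j + y by omega)
        rw [show j + y - j = y by omega] at h4
        rw [show j + y - y = j by omega, show y + t - y = t by omega] at h5
        rw [← h4, ← h5, show (j + y).choose j = (j + y).choose y by
          rw [← Nat.choose_symm (show y ≤ j + y by omega), show j + y - y = j by omega]]
      · rw [Nat.choose_eq_zero_of_lt (show y + t - j < y by omega),
          Nat.choose_eq_zero_of_lt (show t < j by omega), mul_zero, mul_zero]
    calc (y + t).choose j * (y.choose j * (y + t - j).choose y)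
        = ((y + t).choose j * (y + t - j).choose y) * y.choose j := by ring
      _ = _ := by
        rw [h3]
        ring
  rw [sum_congr rfl h2, ← mul_sum, ← vand t y, add_comm t y]

lemma sq (y t : ℕ) : ((y + t).choose y : ℤ) * (y + t).choose y =
    ∑ d ∈ range (y + 1), (y.choose d : ℤ) * Φ y d t := by
  unfold Φ
  exact_mod_cast sq_nat y t

/-! ### The product formula -/

lemma choose_succ_int (n k : ℕ) : ((k : ℤ) + 1) * n.choose (k + 1) = (n - k) * n.choose k := by
  by_cases h : k ≤ n
  · have h1 := Nat.choose_succ_right_eq n k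
    have h2 := congrArg (Nat.cast : ℕ → ℤ) h1
    rw [Nat.cast_mul, Nat.cast_mul, Nat.cast_sub h] at h2
    push_cast at h2
    linear_combination h2
  · rw [Nat.choose_eq_zero_of_lt (show n < k + 1 by omega),
      Nat.choose_eq_zero_of_lt (show n < k by omega)]
    simp

lemma choose_add_succ (N b : ℕ) : ((b : ℤ) + 1) * (N + (b + 1)).choose (b + 1) =
    (N + b + 1) * (N + b).choose b := by
  have h1 := Nat.add_one_mul_choose_eq (N + b) b
  have h2 := congrArg (Nat.cast : ℕ → ℤ) h1
  rw [show N + (b + 1) = N + b + 1 by ring]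
  push_cast at h2 ⊢
  linear_combination - h2

lemma U_succ (y b k : ℕ) : ((b : ℤ) + 1) * (y + b + 1) * U y (b + 1) k =
    (k + b + 1) * (k - y - b) * U y b k := by
  unfold U
  have h1 := choose_add_succ k b
  have h2 := choose_succ_int k (y + b)
  rw [show y + (b + 1) = y + b + 1 by ring]
  push_cast at h1 h2 ⊢
  linear_combination ((y : ℤ) + b + 1) * (k.choose (y + b + 1)) * h1 +
    ((k : ℤ) + b + 1) * ((k + b).choose b) * h2

lemma Φ_succ (y d t : ℕ) : ((d : ℤ) + 1) ^ 2 * Φ y (d + 1) t =
    (y + t + d + 1) * (t - d) * Φ y d t := by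
  unfold Φ
  have h1 := choose_add_succ (y + t) d
  have h2 := choose_succ_int t d
  push_cast at h1 h2 ⊢
  linear_combination ((d : ℤ) + 1) * (t.choose (d + 1)) * h1 +
    ((y : ℤ) + t + d + 1) * ((y + t + d).choose d) * h2

/-- The coefficients of the product formula. -/
def κ (y b d e : ℕ) : ℤ := (y + b + e).choose e * (b + e).choose d * (y + b + d).choose (y + b + e)

lemma κ_zero_of_lt (y b d e : ℕ) (h : d < e) : κ y b d e = 0 := by
  unfold κ
  rw [Nat.choose_eq_zero_of_lt (show y + b + d < y + b + e by omega)]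
  simp

/-- The recursion for the coefficients at `e = 0`. -/
lemma κ_rec_zero (y b d : ℕ) : ((d : ℤ) + 1) ^ 2 * κ y b (d + 1) 0 =
    (b - d) * (b + d + y + 1) * κ y b d 0 := by
  unfold κ
  have h1 := choose_succ_int b d
  have h2 : ((d : ℤ) + 1) * (y + b + (d + 1)).choose (y + b) =
      (y + b + d + 1) * (y + b + d).choose (y + b) := by
    have h3 := choose_add_succ (y + b) d
    rw [show (y + b + (d + 1)).choose (y + b) = (y + b + (d + 1)).choose (d + 1) by
      rw [← Nat.choose_symm (show d + 1 ≤ y + b + (d + 1) by omega)]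
      congr 1
      omega,
      show (y + b + d).choose (y + b) = (y + b + d).choose d by
      rw [← Nat.choose_symm (show d ≤ y + b + d by omega)]
      congr 1
      omega]
    push_cast at h3 ⊢
    exact h3
  simp only [add_zero, Nat.choose_zero_right, Nat.cast_one, one_mul]
  linear_combination ((d : ℤ) + 1) * ((y + b + (d + 1)).choose (y + b)) * h1 +
    ((b : ℤ) - d) * (b.choose d) * h2

/-- The recursion for the coefficients. -/
lemma κ_rec (y b d e : ℕ) : ((d : ℤ) + 1) ^ 2 * κ y b (d + 1) (e + 1) =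
    (b + e + 1 - d) * (b + e + 1 + d + y + 1) * κ y b d (e + 1) +
      (b + e + 1) * (y + b + e + 1) * κ y b d e := by
  unfold κ
  -- `A = C(y+b+e+1,e+1)`, `B = C(b+e+1,d)`
  have h1 := choose_succ_int (b + (e + 1)) d
  have h2 : ((y : ℤ) + b + e + 1) * (y + b + e).choose e =
      ((e : ℤ) + 1) * (y + b + (e + 1)).choose (e + 1) := by
    have := choose_add_succ (y + b) e
    push_cast at this ⊢
    linear_combination - this
  have h3 : ((b : ℤ) + e + 1) * (b + e).choose d =
      (b + e + 1 - d) * (b + (e + 1)).choose d := by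
    have h4 : ((b + e + 1 - d : ℤ)) * (b + (e + 1)).choose d =
        (b + e + 1) * (b + e).choose d := by
      by_cases hd : d ≤ b + e + 1
      · have h5 := Nat.add_one_mul_choose_eq (b + e) (b + e - d)
        by_cases hd2 : d ≤ b + e
        · have h6 : (b + e).choose (b + e - d) = (b + e).choose d := Nat.choose_symm hd2
          have h7 : (b + e + 1).choose (b + e - d + 1) = (b + e + 1).choose d := by
            rw [← Nat.choose_symm hd]
            congr 1
            omega
          have h5' : (b + e + 1) * (b + e).choose d = (b + e + 1).choose d * (b + e + 1 - d) := by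
            rw [← h6, ← h7]
            have : b + e + 1 - d = b + e - d + 1 := by omega
            rw [this]
            exact h5
          have h8 := congrArg (Nat.cast : ℕ → ℤ) h5'
          rw [Nat.cast_mul, Nat.cast_mul, Nat.cast_sub hd] at h8
          rw [show b + (e + 1) = b + e + 1 by ring]
          push_cast at h8 ⊢
          linear_combination - h8
        · have hd3 : d = b + e + 1 := by omega
          rw [Nat.choose_eq_zero_of_lt (show b + e < d by omega), hd3]
          push_cast
          ring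
      · rw [Nat.choose_eq_zero_of_lt (show b + e < d by omega),
          Nat.choose_eq_zero_of_lt (show b + (e + 1) < d by omega)]
        simp
    linear_combination - h4
  -- `N = y + b + d`, `s = y + b + e`
  have h9 : (y + b + (d + 1)).choose (y + b + (e + 1)) =
      (y + b + d).choose (y + b + e) + (y + b + d).choose (y + b + (e + 1)) := by
    rw [show y + b + (d + 1) = (y + b + d) + 1 by ring, show y + b + (e + 1) = (y + b + e) + 1 by ring,
      Nat.choose_succ_succ]
  have h10 := choose_succ_int (y + b + d) (y + b + e)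
  rw [show y + b + e + 1 = y + b + (e + 1) by ring] at h10
  have h9' := congrArg (Nat.cast : ℕ → ℤ) h9
  push_cast at h1 h2 h3 h9' h10 ⊢
  set A : ℤ := (((y + b + (e + 1)).choose (e + 1) : ℕ) : ℤ)
  set B : ℤ := (((b + (e + 1)).choose d : ℕ) : ℤ)
  set B' : ℤ := (((b + (e + 1)).choose (d + 1) : ℕ) : ℤ)
  set A' : ℤ := (((y + b + e).choose e : ℕ) : ℤ)
  set D : ℤ := (((b + e).choose d : ℕ) : ℤ)
  set P : ℤ := (((y + b + d).choose (y + b + e) : ℕ) : ℤ)
  set Q : ℤ := (((y + b + d).choose (y + b + (e + 1)) : ℕ) : ℤ)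
  rw [h9']
  -- goal : (d+1)^2 A B' (P + Q) = (b+e+1-d)(b+e+1+d+y+1) A B Q + (b+e+1)(y+b+e+1) A' D P
  linear_combination ((d : ℤ) + 1) * A * (P + Q) * h1 - (b + e + 1) * D * P * h2 -
    (e + 1) * A * P * h3 - ((b : ℤ) + e + 1 - d) * A * B * h10

lemma U_eq (y d t c : ℕ) : ((y : ℤ) + t + d + 1) * (t - d) * U y c (y + t) =
    (c - d) * (c + d + y + 1) * U y c (y + t) +
      (c + 1) * (y + c + 1) * U y (c + 1) (y + t) := by
  have h := U_succ y c (y + t)
  push_cast at h
  linear_combination - h

/-- The product formula. -/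
lemma product (y b t d : ℕ) : Φ y d t * U y b (y + t) =
    ∑ e ∈ range (d + 1), κ y b d e * U y (b + e) (y + t) := by
  induction d with
  | zero =>
    rw [zero_add, range_one, sum_singleton, add_zero]
    unfold Φ κ
    simp
  | succ d ih =>
    have hd : ((d : ℤ) + 1) ^ 2 ≠ 0 := by positivity
    apply mul_left_cancel₀ hd
    calc ((d : ℤ) + 1) ^ 2 * (Φ y (d + 1) t * U y b (y + t))
        = ((y : ℤ) + t + d + 1) * (t - d) * (Φ y d t * U y b (y + t)) := by
          rw [← mul_assoc, Φ_succ]
          ring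
      _ = ∑ e ∈ range (d + 1), ((b + e - d) * (b + e + d + y + 1) * κ y b d e *
            U y (b + e) (y + t) +
            (b + e + 1) * (y + b + e + 1) * κ y b d e * U y (b + (e + 1)) (y + t)) := by
          rw [ih, mul_sum]
          refine sum_congr rfl fun e _ => ?_
          have h := U_eq y d t (b + e)
          rw [show b + (e + 1) = b + e + 1 by ring]
          push_cast at h
          linear_combination κ y b d e * h
      _ = ((d : ℤ) + 1) ^ 2 * ∑ e ∈ range (d + 1 + 1), κ y b (d + 1) e * U y (b + e) (y + t) := by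
          rw [sum_add_distrib, sum_range_succ' (fun e => κ y b (d + 1) e * U y (b + e) (y + t)),
            mul_add, mul_sum]
          have h1 : ∑ e ∈ range (d + 1), ((b + e - d : ℤ)) * (b + e + d + y + 1) * κ y b d e *
              U y (b + e) (y + t) =
              ∑ e ∈ range (d + 1), ((b + e + 1 - d : ℤ)) * (b + e + 1 + d + y + 1) *
                κ y b d (e + 1) * U y (b + (e + 1)) (y + t) +
                (b - d) * (b + d + y + 1) * κ y b d 0 * U y b (y + t) := by
            have h2 := sum_range_succ' (fun e : ℕ => ((b + e - d : ℤ)) * (b + e + d + y + 1) *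
              κ y b d e * U y (b + e) (y + t)) (d + 1)
            rw [sum_range_succ, κ_zero_of_lt y b d (d + 1) (Nat.lt_succ_self d)] at h2
            rw [mul_zero, zero_mul, add_zero] at h2
            rw [h2]
            congr 1
          rw [h1]
          have h3 : ∀ e ∈ range (d + 1), ((d : ℤ) + 1) ^ 2 * (κ y b (d + 1) (e + 1) *
              U y (b + (e + 1)) (y + t)) =
              ((b + e + 1 - d : ℤ)) * (b + e + 1 + d + y + 1) *
                κ y b d (e + 1) * U y (b + (e + 1)) (y + t) +
              (b + e + 1) * (y + b + e + 1) * κ y b d e * U y (b + (e + 1)) (y + t) := by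
            intro e _
            rw [← mul_assoc, κ_rec]
            ring
          rw [sum_congr rfl h3, sum_add_distrib, ← mul_assoc, κ_rec_zero, add_zero]
          ring

/-! ### Odd powers -/

/-- The functions which are integral combinations of `2 U_b`, `b ≥ 1`. -/
def E (y : ℕ) : Submodule ℤ (ℕ → ℤ) := Submodule.span ℤ {f | ∃ b, 1 ≤ b ∧ f = fun k => 2 * U y b k}

lemma U_zero_of_lt (y b k : ℕ) (h : k < y) : U y b k = 0 := by
  unfold U
  rw [Nat.choose_eq_zero_of_lt (show k < y + b by omega)]
  simp

lemma mem_E (y b : ℕ) (hb : 1 ≤ b) (c : ℤ) : (fun k => c * (2 * U y b k)) ∈ E y := by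
  have : (fun k => c * (2 * U y b k)) = c • (fun k => 2 * U y b k) := by
    ext k
    simp
  rw [this]
  exact Submodule.smul_mem _ _ (Submodule.subset_span ⟨b, hb, rfl⟩)

/-- The square times `U_b` is a combination of the functions `U_c`. -/
lemma sq_mul_U (y b : ℕ) : (fun k => (k.choose y : ℤ) * k.choose y * U y b k) =
    ∑ d ∈ range (y + 1), ∑ e ∈ range (d + 1),
      fun k => (y.choose d : ℤ) * κ y b d e * U y (b + e) k := by
  ext k
  rw [Finset.sum_apply]
  simp_rw [Finset.sum_apply]
  by_cases hk : k < y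
  · rw [U_zero_of_lt y b k hk, mul_zero]
    symm
    refine sum_eq_zero fun d _ => sum_eq_zero fun e _ => ?_
    rw [U_zero_of_lt y _ k hk, mul_zero]
  · obtain ⟨t, rfl⟩ : ∃ t, k = y + t := ⟨k - y, by omega⟩
    rw [sq, sum_mul]
    refine sum_congr rfl fun d _ => ?_
    rw [mul_assoc, product, mul_sum]
    refine sum_congr rfl fun e _ => ?_
    ring

lemma E_closed (y : ℕ) {f : ℕ → ℤ} (hf : f ∈ E y) :
    (fun k => (k.choose y : ℤ) * k.choose y * f k) ∈ E y := by
  unfold E at hf
  induction hf using Submodule.span_induction with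
  | mem f hf =>
    obtain ⟨b, hb, rfl⟩ := hf
    have h1 : (fun k => (k.choose y : ℤ) * k.choose y * (2 * U y b k)) =
        2 • (fun k => (k.choose y : ℤ) * k.choose y * U y b k) := by
      ext k
      simp
      ring
    rw [h1, sq_mul_U, Finset.smul_sum]
    refine Submodule.sum_mem _ fun d _ => ?_
    rw [Finset.smul_sum]
    refine Submodule.sum_mem _ fun e _ => ?_
    have h2 : 2 • (fun k => (y.choose d : ℤ) * κ y b d e * U y (b + e) k) =
        fun k => ((y.choose d : ℤ) * κ y b d e) * (2 * U y (b + e) k) := by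
      ext k
      simp
      ring
    rw [h2]
    exact mem_E y _ (by omega) _
  | zero =>
    have : (fun k => (k.choose y : ℤ) * k.choose y * (0 : ℕ → ℤ) k) = 0 := by
      ext k
      simp
    rw [this]
    exact Submodule.zero_mem _
  | add f g _ _ hf hg =>
    have : (fun k => (k.choose y : ℤ) * k.choose y * (f + g) k) =
        (fun k => (k.choose y : ℤ) * k.choose y * f k) +
        fun k => (k.choose y : ℤ) * k.choose y * g k := by
      ext k
      simp
      ring
    rw [this]
    exact Submodule.add_mem _ hf hg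
  | smul c f _ hf =>
    have : (fun k => (k.choose y : ℤ) * k.choose y * (c • f) k) =
        c • (fun k => (k.choose y : ℤ) * k.choose y * f k) := by
      ext k
      simp
      ring
    rw [this]
    exact Submodule.smul_mem _ _ hf

/-- `C(k,y)² U_0 - U_0` is in `E`. -/
lemma sq_mul_U_zero (y : ℕ) : (fun k => (k.choose y : ℤ) * k.choose y * U y 0 k) - U y 0 ∈ E y := by
  rw [sq_mul_U]
  -- only the terms with `d = e` matter
  have h1 : ∀ d ∈ range (y + 1), (∑ e ∈ range (d + 1),
      fun k => (y.choose d : ℤ) * κ y 0 d e * U y (0 + e) k) =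
      fun k => (y.choose d : ℤ) * (y + d).choose d * U y d k := by
    intro d _
    rw [sum_range_succ]
    have h2 : ∑ e ∈ range d, (fun k => (y.choose d : ℤ) * κ y 0 d e * U y (0 + e) k) = 0 := by
      refine sum_eq_zero fun e he => ?_
      have he' := mem_range.1 he
      ext k
      unfold κ
      rw [Nat.choose_eq_zero_of_lt (show 0 + e < d by omega)]
      simp
    rw [h2, zero_add]
    ext k
    unfold κ
    simp
  rw [sum_congr rfl h1, sum_range_succ']
  have h3 : (fun k => (y.choose 0 : ℤ) * (y + 0).choose 0 * U y 0 k) = U y 0 := by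
    ext k
    simp
  rw [h3, add_sub_cancel_right]
  refine Submodule.sum_mem _ fun d hd => ?_
  -- `C(y,d+1) C(y+d+1,d+1)` is even
  have hev : Even (y.choose (d + 1) * (y + (d + 1)).choose (d + 1)) := by
    have hd' := mem_range.1 hd
    have h4 : y.choose (d + 1) * (y + (d + 1)).choose (d + 1) =
        (y + (d + 1)).choose (2 * (d + 1)) * (2 * (d + 1)).choose (d + 1) := by
      have h5 := Nat.choose_mul (n := y + (d + 1)) (k := 2 * (d + 1)) (show d + 1 ≤ 2 * (d + 1) by omega)
      rw [show y + (d + 1) - (d + 1) = y by omega, show 2 * (d + 1) - (d + 1) = d + 1 by omega] at h5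
      rw [h5]
      ring
    rw [h4]
    exact Even.mul_left (by
      have := Nat.two_dvd_centralBinom_succ d
      rw [Nat.centralBinom_eq_two_mul_choose] at this
      exact even_iff_two_dvd.2 this) _
  obtain ⟨c, hc⟩ := hev
  have h6 : (fun k => (y.choose (d + 1) : ℤ) * (y + (d + 1)).choose (d + 1) * U y (d + 1) k) =
      fun k => (c : ℤ) * (2 * U y (d + 1) k) := by
    ext k
    have h7 := congrArg (Nat.cast : ℕ → ℤ) hc
    push_cast at h7 ⊢
    linear_combination U y (d + 1) k * h7
  rw [h6]
  exact mem_E y _ (by omega) _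

/-- Odd powers of a binomial coefficient. -/
lemma odd_pow (y s : ℕ) : (fun k => (k.choose y : ℤ) ^ (2 * s + 1)) - U y 0 ∈ E y := by
  induction s with
  | zero =>
    have : (fun k => (k.choose y : ℤ) ^ (2 * 0 + 1)) - U y 0 = 0 := by
      ext k
      simp [U]
    rw [this]
    exact Submodule.zero_mem _
  | succ s ih =>
    have h1 := E_closed y ih
    have h2 := Submodule.add_mem _ h1 (sq_mul_U_zero y)
    have h3 : (fun k : ℕ => (k.choose y : ℤ) * k.choose y *
        ((fun k : ℕ => (k.choose y : ℤ) ^ (2 * s + 1)) - U y 0) k) +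
        ((fun k : ℕ => (k.choose y : ℤ) * k.choose y * U y 0 k) - U y 0) =
        (fun k : ℕ => (k.choose y : ℤ) ^ (2 * (s + 1) + 1)) - U y 0 := by
      ext k
      simp only [Pi.add_apply, Pi.sub_apply]
      ring
    rwa [h3] at h2

/-! ### The sums -/

lemma odd_sum (y b n : ℕ) : ∑ k ∈ range (n + 1), (-1) ^ k * (2 * (k : ℤ) - y + 1) * U y b k =
    (-1) ^ n * ((n + 1) * ((n + 1 + b).choose b * n.choose (y + b))) := by
  induction n with
  | zero =>
    rw [zero_add, range_one, sum_singleton]
    unfold U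
    by_cases h : y + b = 0
    · have hy : y = 0 := by omega
      have hb : b = 0 := by omega
      subst hy hb
      simp
    · rw [Nat.choose_eq_zero_of_lt (show 0 < y + b by omega)]
      simp
  | succ n ih =>
    rw [sum_range_succ, ih]
    unfold U
    have h1 := choose_add_succ (n + 1) b
    have h2 : ((n : ℤ) + 1 + 1) * (n + 1 + 1 + b).choose b =
        (n + 1 + 1 + b) * (n + 1 + b).choose b := by
      have h3 := Nat.choose_mul_succ_eq (n + 1 + b) b
      have h4 := congrArg (Nat.cast : ℕ → ℤ) h3
      rw [Nat.cast_mul, Nat.cast_mul, Nat.cast_sub (by omega)] at h4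
      rw [show n + 1 + 1 + b = n + 1 + b + 1 by ring]
      push_cast at h4 ⊢
      linear_combination - h4
    have h5 : ((n : ℤ) + 1) * n.choose (y + b) = (n + 1 - (y + b)) * (n + 1).choose (y + b) := by
      by_cases h : y + b ≤ n + 1
      · have h3 := Nat.choose_mul_succ_eq n (y + b)
        have h4 := congrArg (Nat.cast : ℕ → ℤ) h3
        rw [Nat.cast_mul, Nat.cast_mul, Nat.cast_sub h] at h4
        push_cast at h4
        linear_combination h4
      · rw [Nat.choose_eq_zero_of_lt (show n < y + b by omega),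
          Nat.choose_eq_zero_of_lt (show n + 1 < y + b by omega)]
        simp
    push_cast at h2 h5 ⊢
    rw [pow_succ]
    linear_combination (-1) ^ n * ((n + 1 + b).choose b : ℤ) * h5 +
      (-1) ^ n * ((n + 1).choose (y + b) : ℤ) * h2

lemma even_sum (y b n : ℕ) : ∑ k ∈ range (n + 1), (2 * (k : ℤ) - y + 1) * (k.choose y * U y b k) =
    (n + 1) * (n.choose y * ((n + 1 + b).choose b * (n + 1).choose (y + b + 1))) := by
  induction n with
  | zero =>
    rw [zero_add, range_one, sum_singleton]
    unfold U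
    by_cases h : y + b = 0
    · have hy : y = 0 := by omega
      have hb : b = 0 := by omega
      subst hy hb
      simp
    · rw [Nat.choose_eq_zero_of_lt (show 0 < y + b by omega),
        Nat.choose_eq_zero_of_lt (show 0 + 1 < y + b + 1 by omega)]
      simp
  | succ n ih =>
    rw [sum_range_succ, ih]
    unfold U
    have h2 : ((n : ℤ) + 1 + 1) * (n + 1 + 1 + b).choose b =
        (n + 1 + 1 + b) * (n + 1 + b).choose b := by
      have h3 := Nat.choose_mul_succ_eq (n + 1 + b) b
      have h4 := congrArg (Nat.cast : ℕ → ℤ) h3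
      rw [Nat.cast_mul, Nat.cast_mul, Nat.cast_sub (by omega)] at h4
      rw [show n + 1 + 1 + b = n + 1 + b + 1 by ring]
      push_cast at h4 ⊢
      linear_combination - h4
    have h5 : ((n : ℤ) + 1) * n.choose y = (n + 1 - y) * (n + 1).choose y := by
      by_cases h : y ≤ n + 1
      · have h3 := Nat.choose_mul_succ_eq n y
        have h4 := congrArg (Nat.cast : ℕ → ℤ) h3
        rw [Nat.cast_mul, Nat.cast_mul, Nat.cast_sub h] at h4
        push_cast at h4
        linear_combination h4
      · rw [Nat.choose_eq_zero_of_lt (show n < y by omega),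
          Nat.choose_eq_zero_of_lt (show n + 1 < y by omega)]
        simp
    have h6 : ((n + 1 + 1).choose (y + b + 1) : ℤ) =
        (n + 1).choose (y + b) + (n + 1).choose (y + b + 1) := by
      rw [Nat.choose_succ_succ]
      push_cast
      ring
    have h7 := choose_succ_int (n + 1) (y + b)
    push_cast at h2 h5 h6 h7 ⊢
    rw [h6]
    linear_combination ((n + 1 + b).choose b : ℤ) * ((n + 1).choose (y + b + 1) : ℤ) * h5 -
      ((n + 1).choose y : ℤ) * (((n + 1).choose (y + b) : ℤ) + ((n + 1).choose (y + b + 1) : ℤ)) * h2 -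
      ((n + 1).choose y : ℤ) * ((n + 1 + b).choose b : ℤ) * h7

/-- The sum for odd exponents, modulo `2 n`. -/
lemma odd_mod (y s n : ℕ) : ((2 * (n + 1) : ℕ) : ℤ) ∣
    ∑ k ∈ range (n + 1), (-1) ^ k * (2 * (k : ℤ) - y + 1) * (k.choose y : ℤ) ^ (2 * s + 1) -
      (-1) ^ n * ((n + 1) * n.choose y) := by
  have key : ∀ f ∈ E y, ((2 * (n + 1) : ℕ) : ℤ) ∣
      ∑ k ∈ range (n + 1), (-1) ^ k * (2 * (k : ℤ) - y + 1) * f k := by
    intro f hf
    unfold E at hf
    induction hf using Submodule.span_induction with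
    | mem f hf =>
      obtain ⟨b, _, rfl⟩ := hf
      have h1 : ∑ k ∈ range (n + 1), (-1) ^ k * (2 * (k : ℤ) - y + 1) * (2 * U y b k) =
          2 * ∑ k ∈ range (n + 1), (-1) ^ k * (2 * (k : ℤ) - y + 1) * U y b k := by
        rw [mul_sum]
        exact sum_congr rfl fun k _ => by ring
      rw [h1, odd_sum]
      refine ⟨(-1) ^ n * ((n + 1 + b).choose b * n.choose (y + b)), ?_⟩
      push_cast
      ring
    | zero => simp
    | add f g _ _ hf hg =>
      have h1 : ∑ k ∈ range (n + 1), (-1) ^ k * (2 * (k : ℤ) - y + 1) * (f + g) k =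
          ∑ k ∈ range (n + 1), (-1) ^ k * (2 * (k : ℤ) - y + 1) * f k +
          ∑ k ∈ range (n + 1), (-1) ^ k * (2 * (k : ℤ) - y + 1) * g k := by
        rw [← sum_add_distrib]
        refine sum_congr rfl fun k _ => ?_
        rw [Pi.add_apply]
        ring
      rw [h1]
      exact dvd_add hf hg
    | smul c f _ hf =>
      have h1 : ∑ k ∈ range (n + 1), (-1) ^ k * (2 * (k : ℤ) - y + 1) * (c • f) k =
          c * ∑ k ∈ range (n + 1), (-1) ^ k * (2 * (k : ℤ) - y + 1) * f k := by
        rw [mul_sum]
        refine sum_congr rfl fun k _ => ?_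
        rw [Pi.smul_apply, smul_eq_mul]
        ring
      rw [h1]
      exact hf.mul_left c
  have h2 := key _ (odd_pow y s)
  have h3 := odd_sum y 0 n
  have h4 : ∑ k ∈ range (n + 1), (-1) ^ k * (2 * (k : ℤ) - y + 1) *
      ((fun k : ℕ => (k.choose y : ℤ) ^ (2 * s + 1)) - U y 0) k =
      ∑ k ∈ range (n + 1), (-1) ^ k * (2 * (k : ℤ) - y + 1) * (k.choose y : ℤ) ^ (2 * s + 1) -
      ∑ k ∈ range (n + 1), (-1) ^ k * (2 * (k : ℤ) - y + 1) * U y 0 k := by
    rw [← sum_sub_distrib]
    refine sum_congr rfl fun k _ => ?_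
    rw [Pi.sub_apply]
    ring
  rw [h4, h3] at h2
  simpa using h2

/-- The sum for positive even exponents is divisible by `n`. -/
lemma even_dvd (y s n : ℕ) : ((n + 1 : ℕ) : ℤ) ∣
    ∑ k ∈ range (n + 1), (2 * (k : ℤ) - y + 1) * (k.choose y : ℤ) ^ (2 * s + 2) := by
  have keyU : ∀ b, ((n + 1 : ℕ) : ℤ) ∣
      ∑ k ∈ range (n + 1), (2 * (k : ℤ) - y + 1) * (k.choose y * U y b k) := by
    intro b
    rw [even_sum]
    refine ⟨n.choose y * ((n + 1 + b).choose b * (n + 1).choose (y + b + 1)), ?_⟩
    push_cast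
    ring
  have key : ∀ f ∈ E y, ((n + 1 : ℕ) : ℤ) ∣
      ∑ k ∈ range (n + 1), (2 * (k : ℤ) - y + 1) * (k.choose y * f k) := by
    intro f hf
    unfold E at hf
    induction hf using Submodule.span_induction with
    | mem f hf =>
      obtain ⟨b, _, rfl⟩ := hf
      have h1 : ∑ k ∈ range (n + 1), (2 * (k : ℤ) - y + 1) * (k.choose y * (2 * U y b k)) =
          2 * ∑ k ∈ range (n + 1), (2 * (k : ℤ) - y + 1) * (k.choose y * U y b k) := by
        rw [mul_sum]
        exact sum_congr rfl fun k _ => by ring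
      rw [h1]
      exact (keyU b).mul_left 2
    | zero => simp
    | add f g _ _ hf hg =>
      have h1 : ∑ k ∈ range (n + 1), (2 * (k : ℤ) - y + 1) * (k.choose y * (f + g) k) =
          ∑ k ∈ range (n + 1), (2 * (k : ℤ) - y + 1) * (k.choose y * f k) +
          ∑ k ∈ range (n + 1), (2 * (k : ℤ) - y + 1) * (k.choose y * g k) := by
        rw [← sum_add_distrib]
        refine sum_congr rfl fun k _ => ?_
        rw [Pi.add_apply]
        ring
      rw [h1]
      exact dvd_add hf hg
    | smul c f _ hf =>
      have h1 : ∑ k ∈ range (n + 1), (2 * (k : ℤ) - y + 1) * (k.choose y * (c • f) k) =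
          c * ∑ k ∈ range (n + 1), (2 * (k : ℤ) - y + 1) * (k.choose y * f k) := by
        rw [mul_sum]
        refine sum_congr rfl fun k _ => ?_
        rw [Pi.smul_apply, smul_eq_mul]
        ring
      rw [h1]
      exact hf.mul_left c
  have h2 := dvd_add (key _ (odd_pow y s)) (keyU 0)
  have h4 : ∑ k ∈ range (n + 1), (2 * (k : ℤ) - y + 1) *
      (k.choose y * ((fun k : ℕ => (k.choose y : ℤ) ^ (2 * s + 1)) - U y 0) k) +
      ∑ k ∈ range (n + 1), (2 * (k : ℤ) - y + 1) * (k.choose y * U y 0 k) =
      ∑ k ∈ range (n + 1), (2 * (k : ℤ) - y + 1) * (k.choose y : ℤ) ^ (2 * s + 2) := by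
    rw [← sum_add_distrib]
    refine sum_congr rfl fun k _ => ?_
    rw [Pi.sub_apply]
    ring
  rwa [h4] at h2

/-- **The line sums.** For every positive exponent `r`, every `y` and every `n`, the number `n`
divides `∑_{k<n} (-1)^{rk} (2k-y+1) C(k,y)^r`. -/
theorem line_sum (y r n : ℕ) (hr : 1 ≤ r) : (n : ℤ) ∣
    ∑ k ∈ range n, (-1) ^ (r * k) * (2 * (k : ℤ) - y + 1) * (k.choose y : ℤ) ^ r := by
  rcases Nat.eq_zero_or_pos n with rfl | hn
  · simp
  obtain ⟨n, rfl⟩ : ∃ m, n = m + 1 := ⟨n - 1, by omega⟩
  rcases Nat.even_or_odd r with h | ⟨s, rfl⟩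
  · obtain ⟨s, rfl⟩ : ∃ s, r = 2 * s + 2 := by
      obtain ⟨s, hs⟩ := h
      exact ⟨s - 1, by omega⟩
    have h1 := even_dvd y s n
    have h2 : ∀ k ∈ range (n + 1), (-1 : ℤ) ^ ((2 * s + 2) * k) * (2 * (k : ℤ) - y + 1) *
        (k.choose y : ℤ) ^ (2 * s + 2) = (2 * (k : ℤ) - y + 1) * (k.choose y : ℤ) ^ (2 * s + 2) := by
      intro k _
      have : Even ((2 * s + 2) * k) := ⟨(s + 1) * k, by ring⟩
      rw [this.neg_one_pow, one_mul]
    rw [sum_congr rfl h2]
    exact h1
  · have h1 := odd_mod y s n
    have h2 : ∀ k ∈ range (n + 1), (-1 : ℤ) ^ ((2 * s + 1) * k) * (2 * (k : ℤ) - y + 1) *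
        (k.choose y : ℤ) ^ (2 * s + 1) =
        (-1) ^ k * (2 * (k : ℤ) - y + 1) * (k.choose y : ℤ) ^ (2 * s + 1) := by
      intro k _
      have h3 : (2 * s + 1) * k = 2 * (s * k) + k := by ring
      rw [h3, pow_add, pow_mul]
      simp
    rw [sum_congr rfl h2]
    have h4 : ((n + 1 : ℕ) : ℤ) ∣ ((2 * (n + 1) : ℕ) : ℤ) := ⟨2, by push_cast; ring⟩
    have h5 : ((n + 1 : ℕ) : ℤ) ∣ (-1) ^ n * ((n + 1) * n.choose y) :=
      ⟨(-1) ^ n * n.choose y, by push_cast; ring⟩
    have h6 := dvd_add (h4.trans h1) h5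
    rwa [sub_add_cancel] at h6

end Pool.Agent.X318.LineSum
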