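import Mathlib
import Pool.Agent.X318.LineSum
import Pool.Agent.X318.Landen

/-!
# Alternating sums of fourth powers of Delannoy polynomials
-/

set_option autoImplicit false

open Finset

namespace Pool.Agent.X318.DelannoyFour

/-- `u_b(k) = C(k+b,b) C(k,b)`. -/
def u (b k : ℕ) : ℤ := ((k + b).choose b : ℤ) * k.choose b

lemma u_eq (b k : ℕ) : u b k = LineSum.U 0 b k := by
  unfold u LineSum.U
  rw [zero_add]

lemma u_eq' (b k : ℕ) : u b k = LineSum.Φ 0 b k := by
  unfold u LineSum.Φ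
  rw [zero_add]

lemma u_zero_of_lt {b k : ℕ} (h : k < b) : u b k = 0 := by
  unfold u
  rw [Nat.choose_eq_zero_of_lt h]
  simp

/-- The structure constants. -/
def γ (i j c : ℕ) : ℤ := ((i + j).choose c : ℤ) * (c.choose i * c.choose j)

lemma γ_zero_of_lt {i j c : ℕ} (h : i + j < c) : γ i j c = 0 := by
  unfold γ
  rw [Nat.choose_eq_zero_of_lt h]
  simp

lemma product (i j k M : ℕ) (hM : i + j < M) : u i k * u j k =
    ∑ c ∈ range M, γ i j c * u c k := by
  have h := LineSum.product 0 j k i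
  rw [← u_eq', zero_add, ← u_eq] at h
  rw [h]
  -- sum over e with c = j + e
  have h1 : ∑ c ∈ range M, γ i j c * u c k =
      ∑ c ∈ range (j + (i + 1)), γ i j c * u c k := by
    symm
    apply sum_subset (range_mono (by omega))
    intro c _ hc
    have : i + j < c := by
      by_contra hcon
      exact hc (mem_range.2 (by omega))
    rw [γ_zero_of_lt this, zero_mul]
  rw [h1, Finset.sum_range_add (fun c => γ i j c * u c k) j (i + 1),
    sum_eq_zero (s := range j), zero_add]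
  · refine sum_congr rfl fun e he => ?_
    have he' := mem_range.1 he
    rw [u_eq]
    unfold LineSum.κ γ
    rw [Nat.zero_add, show (j + e).choose e = (j + e).choose j by rw [← Nat.choose_symm_add],
      add_comm i j]
    ring
  · intro c hc
    unfold γ
    rw [Nat.choose_eq_zero_of_lt (show c < j from mem_range.1 hc)]
    simp

/-- `D_k(x)`. -/
def D (k : ℕ) (x : ℤ) : ℤ := ∑ j ∈ range (k + 1), ((k.choose j * (k + j).choose j : ℕ) : ℤ) * x ^ j

lemma D_eq (k M : ℕ) (hM : k < M) (x : ℤ) : D k x = ∑ j ∈ range M, u j k * x ^ j := by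
  unfold D
  rw [← sum_subset (range_mono (show k + 1 ≤ M by omega))]
  · refine sum_congr rfl fun j _ => ?_
    unfold u
    push_cast
    ring
  · intro j _ hj
    rw [u_zero_of_lt, zero_mul]
    by_contra hcon
    exact hj (mem_range.2 (by omega))

open Polynomial in
/-- The double sum behind the square of the Delannoy polynomial. -/
lemma double_sum (c : ℕ) (x : ℤ) :
    ∑ i ∈ range (c + 1), ∑ j ∈ range (c + 1), γ i j c * x ^ (i + j) =
      (c.centralBinom : ℤ) * (x ^ 2 + x) ^ c := by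
  have h1 : (1 + C x * (1 + X) : ℤ[X]) ^ c =
      ∑ i ∈ range (c + 1), C (x ^ i * (c.choose i : ℤ)) * (1 + X) ^ i := by
    rw [add_comm, add_pow]
    refine sum_congr rfl fun i _ => ?_
    rw [mul_pow, one_pow, mul_one, map_mul, map_pow, map_natCast]
    ring
  have h2 : coeff ((1 + C x * (1 + X) : ℤ[X]) ^ c * (1 + C x * (1 + X) : ℤ[X]) ^ c) c =
      ∑ i ∈ range (c + 1), ∑ j ∈ range (c + 1), γ i j c * x ^ (i + j) := by
    rw [h1, sum_mul_sum, finsetSum_coeff]
    refine sum_congr rfl fun i _ => ?_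
    rw [finsetSum_coeff]
    refine sum_congr rfl fun j _ => ?_
    have e : C (x ^ i * (c.choose i : ℤ)) * (1 + X) ^ i * (C (x ^ j * (c.choose j : ℤ)) *
        (1 + X) ^ j) = C (x ^ i * (c.choose i : ℤ) * (x ^ j * (c.choose j : ℤ))) *
        (1 + X : ℤ[X]) ^ (i + j) := by
      simp only [map_mul, pow_add]
      ring
    rw [e, coeff_C_mul, coeff_one_add_X_pow]
    unfold γ
    push_cast
    ring
  rw [← h2, ← pow_add]
  have h3 : (1 + C x * (1 + X) : ℤ[X]) = C (1 + x) + C x * X := by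
    rw [map_add, map_one]
    ring
  have h4 : (1 + C x * (1 + X) : ℤ[X]) ^ (c + c) = ∑ m ∈ range (c + c + 1),
      C ((x ^ m * (1 + x) ^ (c + c - m)) * ((c + c).choose m : ℤ)) * X ^ m := by
    rw [h3, add_comm, add_pow]
    refine sum_congr rfl fun m _ => ?_
    rw [mul_pow, map_mul, map_mul, map_pow, map_pow, map_natCast]
    ring
  rw [h4, finsetSum_coeff, sum_eq_single c]
  · rw [coeff_C_mul, coeff_X_pow, if_pos rfl, Nat.add_sub_cancel, Nat.centralBinom, ← two_mul]
    rw [show x ^ 2 + x = x * (1 + x) by ring, mul_pow]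
    ring
  · intro m _ hm
    rw [coeff_C_mul, coeff_X_pow, if_neg (Ne.symm hm), mul_zero]
  · intro h
    exact absurd (mem_range.2 (by omega)) h

lemma D_sq (k M : ℕ) (hM : k < M) (x : ℤ) : D k x ^ 2 =
    ∑ c ∈ range M, u c k * ((c.centralBinom : ℤ) * (x ^ 2 + x) ^ c) := by
  have h1 : D k x ^ 2 = ∑ i ∈ range (k + 1), ∑ j ∈ range (k + 1),
      ∑ c ∈ range (2 * k + 1), γ i j c * u c k * x ^ (i + j) := by
    rw [sq, D_eq k (k + 1) (Nat.lt_succ_self k), sum_mul_sum]
    refine sum_congr rfl fun i hi => sum_congr rfl fun j hj => ?_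
    have hi' := mem_range.1 hi
    have hj' := mem_range.1 hj
    have h := product i j k (2 * k + 1) (by omega)
    rw [← sum_mul, ← h, pow_add]
    ring
  have h2 : D k x ^ 2 = ∑ c ∈ range (2 * k + 1), u c k *
      ∑ i ∈ range (k + 1), ∑ j ∈ range (k + 1), γ i j c * x ^ (i + j) := by
    rw [h1]
    calc ∑ i ∈ range (k + 1), ∑ j ∈ range (k + 1),
          ∑ c ∈ range (2 * k + 1), γ i j c * u c k * x ^ (i + j)
        = ∑ i ∈ range (k + 1), ∑ c ∈ range (2 * k + 1), ∑ j ∈ range (k + 1),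
            γ i j c * u c k * x ^ (i + j) := sum_congr rfl fun i _ => sum_comm
      _ = ∑ c ∈ range (2 * k + 1), ∑ i ∈ range (k + 1), ∑ j ∈ range (k + 1),
            γ i j c * u c k * x ^ (i + j) := sum_comm
      _ = _ := by
          refine sum_congr rfl fun c _ => ?_
          rw [mul_sum]
          refine sum_congr rfl fun i _ => ?_
          rw [mul_sum]
          exact sum_congr rfl fun j _ => by ring
  have h3 : D k x ^ 2 = ∑ c ∈ range (k + 1), u c k *
      ∑ i ∈ range (k + 1), ∑ j ∈ range (k + 1), γ i j c * x ^ (i + j) := by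
    rw [h2]
    symm
    apply sum_subset (range_mono (by omega))
    intro c _ hc
    rw [u_zero_of_lt, zero_mul]
    by_contra hcon
    exact hc (mem_range.2 (by omega))
  rw [h3]
  have h4 : ∑ c ∈ range M, u c k * ((c.centralBinom : ℤ) * (x ^ 2 + x) ^ c) =
      ∑ c ∈ range (k + 1), u c k * ((c.centralBinom : ℤ) * (x ^ 2 + x) ^ c) := by
    symm
    apply sum_subset (range_mono (by omega))
    intro c _ hc
    rw [u_zero_of_lt, zero_mul]
    by_contra hcon
    exact hc (mem_range.2 (by omega))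
  rw [h4]
  refine sum_congr rfl fun c hc => ?_
  have hc' := mem_range.1 hc
  rw [← double_sum]
  congr 1
  have hz : ∀ i j, c < i ∨ c < j → γ i j c * x ^ (i + j) = 0 := by
    intro i j h
    unfold γ
    rcases h with h | h
    · rw [Nat.choose_eq_zero_of_lt h]
      simp
    · rw [Nat.choose_eq_zero_of_lt h]
      simp
  symm
  calc ∑ i ∈ range (c + 1), ∑ j ∈ range (c + 1), γ i j c * x ^ (i + j)
      = ∑ i ∈ range (c + 1), ∑ j ∈ range (k + 1), γ i j c * x ^ (i + j) := by
        refine sum_congr rfl fun i _ => ?_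
        apply sum_subset (range_mono (by omega))
        intro j _ hj
        apply hz
        right
        by_contra hcon
        exact hj (mem_range.2 (by omega))
    _ = ∑ i ∈ range (k + 1), ∑ j ∈ range (k + 1), γ i j c * x ^ (i + j) := by
        apply sum_subset (range_mono (by omega))
        intro i _ hi
        apply sum_eq_zero
        intro j _
        apply hz
        left
        by_contra hcon
        exact hi (mem_range.2 (by omega))

/-- The alternating sum. -/
lemma alt_sum (c n : ℕ) : ∑ k ∈ range (n + 1), (-1) ^ k * (2 * (k : ℤ) + 1) * u c k =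
    (-1) ^ n * ((n + 1) * ((n + 1 + c).choose c * n.choose c)) := by
  have h := LineSum.odd_sum 0 c n
  rw [zero_add] at h
  rw [← h]
  refine sum_congr rfl fun k _ => ?_
  rw [u_eq]
  push_cast
  ring

open Polynomial in
/-- The alternating sum of the structure constants. -/
lemma γ_alt (i j : ℕ) : ∑ c ∈ range (i + j + 1), (-1) ^ c * γ i j c =
    (-1) ^ (i + j) * ((i + j).choose i : ℤ) := by
  have h1 : ∑ c ∈ range (i + j + 1), C ((-1) ^ c * (((i + j).choose c * c.choose i : ℕ) : ℤ)) *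
      (1 + X : ℤ[X]) ^ c = C ((-1) ^ (i + j) * ((i + j).choose i : ℤ)) * ((1 + X) ^ i * X ^ j) := by
    rw [show i + j + 1 = i + (j + 1) by ring, Finset.sum_range_add, sum_eq_zero (s := range i),
      zero_add]
    · have h2 : ∀ e ∈ range (j + 1), C ((-1) ^ (i + e) * (((i + j).choose (i + e) *
          (i + e).choose i : ℕ) : ℤ)) * (1 + X : ℤ[X]) ^ (i + e) =
          C ((-1) ^ i * ((i + j).choose i : ℤ)) * (1 + X) ^ i *
            ((-(1 + X)) ^ e * 1 ^ (j - e) * (j.choose e : ℤ[X])) := by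
        intro e he
        have he' : e ≤ j := Nat.lt_succ_iff.1 (mem_range.1 he)
        have h3 := Nat.choose_mul (n := i + j) (k := i + e) (s := i) (by omega)
        rw [show i + j - i = j by omega, show i + e - i = e by omega] at h3
        rw [h3, neg_pow (1 + X : ℤ[X]) e, one_pow]
        push_cast
        rw [map_mul, map_pow, map_mul, map_natCast, map_natCast, map_mul, map_pow, map_natCast,
          map_neg, map_one]
        ring
      rw [sum_congr rfl h2, ← mul_sum, ← add_pow, show (-(1 + X) + 1 : ℤ[X]) = -X by ring,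
        neg_pow (X : ℤ[X]) j, pow_add (-1 : ℤ) i j, map_mul, map_mul, map_mul]
      have h5 : C ((-1 : ℤ) ^ j) = (-1 : ℤ[X]) ^ j := by simp
      rw [h5]
      ring
    · intro c hc
      rw [Nat.choose_eq_zero_of_lt (show c < i from mem_range.1 hc)]
      simp
  have h2 := congrArg (fun f : ℤ[X] => coeff f j) h1
  rw [finsetSum_coeff, coeff_C_mul, coeff_mul_X_pow', if_pos le_rfl, Nat.sub_self] at h2
  have h3 : coeff ((1 + X : ℤ[X]) ^ i) 0 = 1 := by
    rw [coeff_one_add_X_pow]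
    simp
  rw [h3, mul_one] at h2
  rw [← h2]
  refine sum_congr rfl fun c _ => ?_
  rw [coeff_C_mul, coeff_one_add_X_pow]
  unfold γ
  push_cast
  ring

section prime

variable {p : ℕ} (hp : p.Prime)

include hp

lemma choose_sq (c : ℕ) (hc : c < p) :
    ((p : ℤ) ^ 2) ∣ ((p + c).choose c : ℤ) * ((p - 1).choose c : ℤ) - (-1) ^ c := by
  induction c with
  | zero => simp
  | succ c ih =>
    have h1 := ih (by omega)
    have h2 := LineSum.choose_succ_int (p - 1) c
    have h3 := LineSum.choose_add_succ p c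
    rw [Nat.cast_sub hp.one_le, Nat.cast_one] at h2
    have h4 : ((c : ℤ) + 1) ^ 2 * (((p + (c + 1)).choose (c + 1) : ℤ) *
        ((p - 1).choose (c + 1) : ℤ)) =
        ((p : ℤ) + c + 1) * (p - 1 - c) * (((p + c).choose c : ℤ) * ((p - 1).choose c : ℤ)) := by
      linear_combination ((c : ℤ) + 1) * ((p + (c + 1)).choose (c + 1) : ℤ) * h2 +
        ((p : ℤ) - 1 - c) * ((p - 1).choose c : ℤ) * h3
    obtain ⟨d, hd⟩ := h1
    have h5 : ((c : ℤ) + 1) ^ 2 * (((p + (c + 1)).choose (c + 1) : ℤ) *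
        ((p - 1).choose (c + 1) : ℤ) - (-1) ^ (c + 1)) =
        (p : ℤ) ^ 2 * ((-1) ^ c + (p ^ 2 - (c + 1) ^ 2) * d) := by
      have h6 : ((p + c).choose c : ℤ) * ((p - 1).choose c : ℤ) = (-1) ^ c + p ^ 2 * d := by
        linarith
      rw [mul_sub, h4, h6, pow_succ]
      ring
    have h7 : IsCoprime ((p : ℤ) ^ 2) (((c : ℤ) + 1) ^ 2) := by
      apply IsCoprime.pow
      rw [show ((c : ℤ) + 1) = ((c + 1 : ℕ) : ℤ) by push_cast; ring, Nat.isCoprime_iff_coprime]
      exact Nat.coprime_of_lt_prime (by omega) hc hp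
    exact h7.dvd_of_dvd_mul_left ⟨_, h5⟩

lemma dvd_centralBinom {i : ℕ} (h1 : p ≤ 2 * i) (h2 : i < p) : (p : ℤ) ∣ i.centralBinom := by
  rw [Nat.centralBinom, Int.natCast_dvd_natCast]
  exact hp.dvd_choose h2 (by omega) h1

lemma dvd_γ {i j c : ℕ} (hi : i < p) (hj : j < p) (hc : p ≤ c) : (p : ℤ) ∣ γ i j c := by
  by_cases h : c ≤ i + j
  · have h1 : (p : ℤ) ∣ (c.choose i : ℤ) := by
      rw [Int.natCast_dvd_natCast]
      exact hp.dvd_choose hi (by omega) hc
    unfold γ
    exact Dvd.dvd.mul_left (Dvd.dvd.mul_right h1 _) _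
  · rw [γ_zero_of_lt (by omega)]
    exact dvd_zero _

omit hp in
lemma γ_alt' (i j M : ℕ) (hM : i + j < M) : ∑ c ∈ range M, γ i j c * (-1) ^ c =
    (-1) ^ (i + j) * ((i + j).choose i : ℤ) := by
  rw [← γ_alt]
  symm
  calc ∑ c ∈ range (i + j + 1), (-1) ^ c * γ i j c
      = ∑ c ∈ range (i + j + 1), γ i j c * (-1) ^ c := sum_congr rfl fun c _ => mul_comm _ _
    _ = _ := by
      apply sum_subset (range_mono (by omega))
      intro c _ hc
      rw [γ_zero_of_lt, zero_mul]
      by_contra hcon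
      exact hc (mem_range.2 (by omega))

/-- The normalised moments. -/
def Λ (p i j : ℕ) : ℤ := ∑ c ∈ range (2 * p), γ i j c *
  (((p + c).choose c : ℤ) * ((p - 1).choose c : ℤ))

lemma Λ_small {i j : ℕ} (h : i + j < p) :
    (p : ℤ) ^ 2 ∣ Λ p i j - (-1) ^ (i + j) * ((i + j).choose i : ℤ) := by
  rw [← γ_alt' i j (2 * p) (by omega), Λ, ← sum_sub_distrib]
  refine dvd_sum fun c _ => ?_
  rw [← mul_sub]
  by_cases hc : c < p
  · exact Dvd.dvd.mul_left (choose_sq hp c hc) _
  · rw [γ_zero_of_lt (by omega), zero_mul]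
    exact dvd_zero _

lemma Λ_large {i j : ℕ} (hi : i < p) (hj : j < p) (h : p ≤ i + j) : (p : ℤ) ∣ Λ p i j := by
  have h1 : (p : ℤ) ∣ Λ p i j - (-1) ^ (i + j) * ((i + j).choose i : ℤ) := by
    rw [← γ_alt' i j (2 * p) (by omega), Λ, ← sum_sub_distrib]
    refine dvd_sum fun c _ => ?_
    rw [← mul_sub]
    by_cases hc : c < p
    · exact Dvd.dvd.mul_left ((dvd_pow_self _ two_ne_zero).trans (choose_sq hp c hc)) _
    · exact Dvd.dvd.mul_right (dvd_γ hp hi hj (by omega)) _
  have h2 : (p : ℤ) ∣ (-1) ^ (i + j) * ((i + j).choose i : ℤ) := by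
    apply Dvd.dvd.mul_left
    rw [Int.natCast_dvd_natCast]
    exact hp.dvd_choose hi (by omega) h
  have h3 := dvd_add h1 h2
  rwa [sub_add_cancel] at h3

/-- The weights. -/
def w (x : ℤ) (c : ℕ) : ℤ := (c.centralBinom : ℤ) * (x ^ 2 + x) ^ c

lemma S_eq (hodd : Odd p) (x : ℤ) : ∑ k ∈ range p, (-1) ^ k * (2 * (k : ℤ) + 1) * D k x ^ 4 =
    p * ∑ i ∈ range p, ∑ j ∈ range p, w x i * w x j * Λ p i j := by
  have h1 : ∀ k ∈ range p, (-1) ^ k * (2 * (k : ℤ) + 1) * D k x ^ 4 =
      ∑ i ∈ range p, ∑ j ∈ range p, w x i * w x j *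
        ((-1) ^ k * (2 * (k : ℤ) + 1) * (u i k * u j k)) := by
    intro k hk
    have h2 := D_sq k p (mem_range.1 hk) x
    rw [show D k x ^ 4 = D k x ^ 2 * D k x ^ 2 by ring, h2, sum_mul_sum, mul_sum]
    refine sum_congr rfl fun i _ => ?_
    rw [mul_sum]
    refine sum_congr rfl fun j _ => ?_
    unfold w
    ring
  rw [sum_congr rfl h1, sum_comm, mul_sum]
  refine sum_congr rfl fun i hi => ?_
  rw [sum_comm, mul_sum]
  refine sum_congr rfl fun j hj => ?_
  rw [← mul_sum]
  have hi' := mem_range.1 hi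
  have hj' := mem_range.1 hj
  have h3 : ∀ k ∈ range p, (-1) ^ k * (2 * (k : ℤ) + 1) * (u i k * u j k) =
      ∑ c ∈ range (2 * p), γ i j c * ((-1) ^ k * (2 * (k : ℤ) + 1) * u c k) := by
    intro k _
    rw [product i j k (2 * p) (by omega), mul_sum]
    exact sum_congr rfl fun c _ => by ring
  rw [sum_congr rfl h3, sum_comm]
  have h4 : ∀ c ∈ range (2 * p), ∑ k ∈ range p, γ i j c * ((-1) ^ k * (2 * (k : ℤ) + 1) * u c k) =
      p * (γ i j c * (((p + c).choose c : ℤ) * ((p - 1).choose c : ℤ))) := by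
    intro c _
    have h5 := alt_sum c (p - 1)
    have h6 : p - 1 + 1 = p := Nat.sub_add_cancel hp.one_le
    rw [h6, Nat.cast_sub hp.one_le, Nat.cast_one, sub_add_cancel] at h5
    have h7 : Even (p - 1) := by
      obtain ⟨m, hm⟩ := hodd
      exact ⟨m, by omega⟩
    rw [← mul_sum, h5, h7.neg_one_pow]
    ring
  rw [sum_congr rfl h4, ← mul_sum, Λ]
  ring

lemma middle (x : ℤ) : (p : ℤ) ^ 2 ∣ ∑ i ∈ range p, ∑ j ∈ range p, w x i * w x j * Λ p i j -
    ∑ N ∈ range p, (-1) ^ N * (x ^ 2 + x) ^ N * (Landen.b N : ℤ) := by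
  have h1 : ∑ N ∈ range p, (-1) ^ N * (x ^ 2 + x) ^ N * (Landen.b N : ℤ) =
      ∑ i ∈ range p, ∑ j ∈ range p, if i + j < p then
        w x i * w x j * ((-1) ^ (i + j) * ((i + j).choose i : ℤ)) else 0 := by
    have h2 := Finset.sum_range_diag_flip p
      (fun i j => w x i * w x j * ((-1) ^ (i + j) * ((i + j).choose i : ℤ)))
    have h3 : ∀ N ∈ range p, (-1) ^ N * (x ^ 2 + x) ^ N * (Landen.b N : ℤ) =
        ∑ k ∈ range (N + 1), w x k * w x (N - k) * ((-1) ^ (k + (N - k)) *
          ((k + (N - k)).choose k : ℤ)) := by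
      intro N _
      unfold Landen.b
      push_cast
      rw [mul_sum]
      refine sum_congr rfl fun k hk => ?_
      have hk' : k ≤ N := Nat.lt_succ_iff.1 (mem_range.1 hk)
      obtain ⟨l, rfl⟩ := Nat.exists_eq_add_of_le hk'
      rw [Nat.add_sub_cancel_left]
      unfold w
      rw [pow_add (x ^ 2 + x) k l]
      ring
    rw [sum_congr rfl h3, h2]
    refine sum_congr rfl fun i hi => ?_
    have hi' := mem_range.1 hi
    rw [← sum_filter]
    apply sum_congr
    · ext j
      rw [mem_filter, mem_range, mem_range]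
      omega
    · intro j _
      rfl
  rw [h1, ← sum_sub_distrib]
  refine dvd_sum fun i hi => ?_
  rw [← sum_sub_distrib]
  refine dvd_sum fun j hj => ?_
  have hi' := mem_range.1 hi
  have hj' := mem_range.1 hj
  split_ifs with h
  · rw [← mul_sub]
    exact Dvd.dvd.mul_left (Λ_small hp h) _
  · rw [sub_zero, sq]
    apply mul_dvd_mul _ (Λ_large hp hi' hj' (by omega))
    by_cases h2 : p ≤ 2 * i
    · apply Dvd.dvd.mul_right
      exact Dvd.dvd.mul_right (dvd_centralBinom hp h2 hi') _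
    · apply Dvd.dvd.mul_left
      exact Dvd.dvd.mul_right (dvd_centralBinom hp (by omega) hj') _

lemma last (x : ℤ) : (p : ℤ) ^ 2 ∣ ∑ N ∈ range p, (-1) ^ N * (x ^ 2 + x) ^ N * (Landen.R N : ℤ) -
    ∑ k ∈ range ((p - 1) / 2 + 1), (-1) ^ k * ((2 * k).choose k : ℤ) ^ 2 * (x ^ 2 + x) ^ k *
      (2 * x + 1) ^ (2 * k) := by
  have hp1 := hp.one_le
  have h2 := Finset.sum_range_diag_flip p
    (fun k l => ((-1) ^ k * (Landen.g k : ℤ) * (x ^ 2 + x) ^ k) *
      ((k.choose l : ℤ) * (4 * (x ^ 2 + x)) ^ l))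
  have h3 : ∀ N ∈ range p, (-1) ^ N * (x ^ 2 + x) ^ N * (Landen.R N : ℤ) =
      ∑ k ∈ range (N + 1), ((-1) ^ k * (Landen.g k : ℤ) * (x ^ 2 + x) ^ k) *
      ((k.choose (N - k) : ℤ) * (4 * (x ^ 2 + x)) ^ (N - k)) := by
    intro N _
    unfold Landen.R
    rw [mul_sum]
    refine sum_congr rfl fun k hk => ?_
    have hk' : k ≤ N := Nat.lt_succ_iff.1 (mem_range.1 hk)
    obtain ⟨l, rfl⟩ := Nat.exists_eq_add_of_le hk'
    rw [Nat.add_sub_cancel_left, mul_pow, neg_pow (4 : ℤ) l, pow_add, pow_add]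
    have h4 : ((-1 : ℤ) ^ l) * (-1) ^ l = 1 := by
      rw [← mul_pow]
      simp
    linear_combination ((-1 : ℤ) ^ k * (x ^ 2 + x) ^ k * (x ^ 2 + x) ^ l * (Landen.g k) *
      (k.choose l) * 4 ^ l) * h4
  rw [sum_congr rfl h3, h2]
  have h4 : ∑ k ∈ range ((p - 1) / 2 + 1), (-1) ^ k * ((2 * k).choose k : ℤ) ^ 2 *
      (x ^ 2 + x) ^ k * (2 * x + 1) ^ (2 * k) =
      ∑ k ∈ range p, if k < (p - 1) / 2 + 1 then (-1) ^ k * ((2 * k).choose k : ℤ) ^ 2 *
      (x ^ 2 + x) ^ k * (2 * x + 1) ^ (2 * k) else 0 := by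
    rw [← sum_filter]
    apply sum_congr
    · ext k
      rw [mem_filter, mem_range, mem_range]
      omega
    · intro k _
      rfl
  rw [h4, ← sum_sub_distrib]
  refine dvd_sum fun k hk => ?_
  have hk' := mem_range.1 hk
  have hg : (Landen.g k : ℤ) = ((2 * k).choose k : ℤ) ^ 2 := by
    unfold Landen.g Nat.centralBinom
    push_cast
    ring
  split_ifs with h
  · have h5 : ∑ l ∈ range (p - k), ((k.choose l : ℤ) * (4 * (x ^ 2 + x)) ^ l) =
        (2 * x + 1) ^ (2 * k) := by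
      have h6 : ∑ l ∈ range (p - k), ((k.choose l : ℤ) * (4 * (x ^ 2 + x)) ^ l) =
          ∑ l ∈ range (k + 1), ((k.choose l : ℤ) * (4 * (x ^ 2 + x)) ^ l) := by
        symm
        apply sum_subset (range_mono (by omega))
        intro l _ hl
        rw [Nat.choose_eq_zero_of_lt]
        · simp
        · by_contra hcon
          exact hl (mem_range.2 (by omega))
      rw [h6, pow_mul, show (2 * x + 1) ^ 2 = 4 * (x ^ 2 + x) + 1 by ring, add_pow]
      refine sum_congr rfl fun l _ => ?_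
      rw [one_pow]
      ring
    rw [← mul_sum, h5, hg, sub_self]
    exact dvd_zero _
  · rw [sub_zero, ← mul_sum]
    apply Dvd.dvd.mul_right
    apply Dvd.dvd.mul_right
    apply Dvd.dvd.mul_left
    unfold Landen.g
    push_cast
    exact pow_dvd_pow_of_dvd (dvd_centralBinom hp (by omega) hk') 2

/-- **Main theorem.** -/
theorem main (hodd : Odd p) (x : ℤ) : (p : ℤ) ^ 3 ∣
    ∑ k ∈ range p, (-1) ^ k * (2 * (k : ℤ) + 1) * D k x ^ 4 -
      p * ∑ k ∈ range ((p - 1) / 2 + 1), (-1) ^ k * ((2 * k).choose k : ℤ) ^ 2 *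
        (x ^ 2 + x) ^ k * (2 * x + 1) ^ (2 * k) := by
  rw [S_eq hp hodd, ← mul_sub, pow_succ, mul_comm ((p : ℤ) ^ 2) (p : ℤ)]
  apply mul_dvd_mul_left
  have h1 := middle hp x
  have h2 := last hp x
  have h3 : ∀ N ∈ range p, (-1) ^ N * (x ^ 2 + x) ^ N * (Landen.b N : ℤ) =
      (-1) ^ N * (x ^ 2 + x) ^ N * (Landen.R N : ℤ) := by
    intro N _
    rw [Landen.landen]
  rw [sum_congr rfl h3] at h1
  have h4 := dvd_add h1 h2
  rwa [sub_add_sub_cancel] at h4

end prime

end Pool.Agent.X318.DelannoyFour
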