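import Mathlib

/-!
# Permanents with entries `|j - k| + e δ_{jk}` modulo a prime
-/

set_option autoImplicit false

open Finset

namespace Pool.Agent.X318.PermCyc

variable {p : ℕ} [hp : Fact p.Prime]

/-- Orbit counting for an invariant subset. -/
lemma card_fiber {X : Type*} [Fintype X] [DecidableEq X] (φ : Equiv.Perm X) (hφ : φ ^ p = 1)
    (s : X → Prop) [DecidablePred s] (hs : ∀ x, s (φ x) ↔ s x) :
    ((univ.filter s).card : ZMod p) = ((univ.filter (fun x => φ x = x ∧ s x)).card : ZMod p) := by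
  have h1 : (φ.subtypePerm hs) ^ p ^ 1 = 1 := by
    rw [pow_one]
    ext x
    have h2 : ∀ n : ℕ, ((((φ.subtypePerm hs) ^ n) x : {x // s x}) : X) = (φ ^ n) x := by
      intro n
      rw [Equiv.Perm.subtypePerm_pow]
      rfl
    rw [h2, hφ]
    rfl
  have h3 := Equiv.Perm.card_compl_support_modEq h1
  rw [← ZMod.natCast_eq_natCast_iff, Fintype.card_subtype] at h3
  rw [← h3]
  congr 1
  apply Finset.card_bij (fun (x : {x // s x}) _ => (x : X))
  · intro x hx
    rw [mem_compl, Equiv.Perm.mem_support, not_not] at hx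
    rw [mem_filter]
    exact ⟨mem_univ _, congrArg Subtype.val hx, x.2⟩
  · intro x _ y _ h
    exact Subtype.ext h
  · intro x hx
    rw [mem_filter] at hx
    refine ⟨⟨x, hx.2.2⟩, ?_, rfl⟩
    rw [mem_compl, Equiv.Perm.mem_support, not_not]
    exact Subtype.ext hx.2.1

/-- Weighted orbit counting. -/
lemma sum_fixed {X : Type*} [Fintype X] [DecidableEq X] (φ : Equiv.Perm X) (hφ : φ ^ p = 1)
    (w : X → ZMod p) (hw : ∀ x, w (φ x) = w x) :
    ∑ x, w x = ∑ x ∈ univ.filter (fun x => φ x = x), w x := by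
  have h1 : ∑ x, w x = ∑ v : ZMod p, ((univ.filter (fun x => w x = v)).card : ZMod p) * v := by
    rw [← sum_fiberwise (s := univ) (g := w) (f := w)]
    refine sum_congr rfl fun v _ => ?_
    rw [sum_congr rfl (g := fun _ => v) (fun x hx => (mem_filter.1 hx).2), sum_const, nsmul_eq_mul]
  have h2 : ∑ x ∈ univ.filter (fun x => φ x = x), w x =
      ∑ v : ZMod p, ((univ.filter (fun x => φ x = x ∧ w x = v)).card : ZMod p) * v := by
    rw [← sum_fiberwise (s := univ.filter (fun x => φ x = x)) (g := w) (f := w)]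
    refine sum_congr rfl fun v _ => ?_
    rw [filter_filter, sum_congr rfl (g := fun _ => v) (fun x hx => (mem_filter.1 hx).2.2), sum_const,
      nsmul_eq_mul]
  rw [h1, h2]
  refine sum_congr rfl fun v _ => ?_
  rw [card_fiber φ hφ (fun x => w x = v) (fun x => by rw [hw])]

instance : NeZero p := ⟨hp.out.ne_zero⟩

/-- The entries modulo `p`. -/
def a (p : ℕ) (e : ℤ) (i k : ZMod p) : ZMod p :=
  ((|(i.val : ℤ) - (k.val : ℤ)| + (if i = k then e else 0) : ℤ) : ZMod p)

/-- The sign of the cyclic shift. -/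
def sg (p : ℕ) (i : ZMod p) : ZMod p := if i.val + 1 = p then -1 else 1

lemma sg_sq (i : ZMod p) : sg p i * sg p i = 1 := by
  unfold sg
  split_ifs <;> ring

lemma val_add_one (i : ZMod p) : (i + 1).val = if i.val + 1 = p then 0 else i.val + 1 := by
  rw [ZMod.val_add, ZMod.val_one'' hp.out.one_lt.ne']
  split_ifs with h
  · rw [h, Nat.mod_self]
  · have := ZMod.val_lt i
    exact Nat.mod_eq_of_lt (by omega)

lemma a_shift (e : ℤ) (i k : ZMod p) : a p e (i + 1) (k + 1) = sg p i * sg p k * a p e i k := by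
  by_cases hik : i = k
  · subst hik
    unfold a
    rw [sg_sq]
    simp
  · have hik' : i + 1 ≠ k + 1 := fun h => hik (add_right_cancel h)
    unfold a
    rw [if_neg hik, if_neg hik', add_zero, add_zero, val_add_one, val_add_one]
    have hi := ZMod.val_lt i
    have hk := ZMod.val_lt k
    have hv : i.val ≠ k.val := fun h => hik (ZMod.val_injective p h)
    unfold sg
    obtain ⟨x, hx⟩ : ∃ x, x = i.val := ⟨_, rfl⟩
    obtain ⟨y, hy⟩ : ∃ y, y = k.val := ⟨_, rfl⟩
    rw [← hx, ← hy] at hv ⊢
    rw [← hx] at hi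
    rw [← hy] at hk
    have hpz : ((p : ℤ) : ZMod p) = 0 := by simp
    by_cases h1 : x + 1 = p
    · have h2 : ¬ y + 1 = p := fun h => hv (by omega)
      rw [if_pos h1, if_neg h2, if_pos h1, if_neg h2]
      have e1 : |((0 : ℕ) : ℤ) - ((y + 1 : ℕ) : ℤ)| = (y : ℤ) + 1 := by
        rw [abs_sub_comm]
        push_cast
        rw [sub_zero, abs_of_nonneg (by positivity)]
      have e2 : |(x : ℤ) - (y : ℤ)| = (p : ℤ) - 1 - y := by
        rw [abs_of_nonneg (by omega)]
        omega
      rw [e1, e2]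
      push_cast
      simp
    · rw [if_neg h1, if_neg h1]
      by_cases h2 : y + 1 = p
      · rw [if_pos h2, if_pos h2]
        have e1 : |((x + 1 : ℕ) : ℤ) - ((0 : ℕ) : ℤ)| = (x : ℤ) + 1 := by
          push_cast
          rw [sub_zero, abs_of_nonneg (by positivity)]
        have e2 : |(x : ℤ) - (y : ℤ)| = (p : ℤ) - 1 - x := by
          rw [abs_sub_comm, abs_of_nonneg (by omega)]
          omega
        rw [e1, e2]
        push_cast
        simp
      · rw [if_neg h2, if_neg h2]
        push_cast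
        simp

/-- The weight of a permutation. -/
def w (p : ℕ) [NeZero p] (e : ℤ) (σ : Equiv.Perm (ZMod p)) : ZMod p := ∏ j, a p e j (σ j)

/-- The cyclic shift. -/
def c (p : ℕ) : Equiv.Perm (ZMod p) := Equiv.addRight 1

lemma c_apply (i : ZMod p) : c p i = i + 1 := rfl

lemma w_conj (e : ℤ) (σ : Equiv.Perm (ZMod p)) : w p e (c p * σ * (c p)⁻¹) = w p e σ := by
  unfold w
  rw [← Equiv.prod_comp (c p)]
  have h1 : ∀ i : ZMod p, a p e (c p i) ((c p * σ * (c p)⁻¹) (c p i)) =
      (sg p i * sg p (σ i)) * a p e i (σ i) := by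
    intro i
    have h2 : (c p * σ * (c p)⁻¹) (c p i) = σ i + 1 := by
      rw [Equiv.Perm.mul_apply, Equiv.Perm.inv_def, Equiv.symm_apply_apply, Equiv.Perm.mul_apply, c_apply]
    rw [h2, c_apply]
    exact a_shift e i (σ i)
  rw [prod_congr rfl fun i _ => h1 i, prod_mul_distrib, prod_mul_distrib,
    Equiv.prod_comp σ (sg p), ← prod_mul_distrib, prod_congr rfl fun i _ => sg_sq i]
  simp

/-- Conjugation by the cyclic shift. -/
def conj (p : ℕ) : Equiv.Perm (Equiv.Perm (ZMod p)) := (MulAut.conj (c p)).toEquiv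

lemma conj_apply (σ : Equiv.Perm (ZMod p)) : conj p σ = c p * σ * (c p)⁻¹ := rfl

lemma c_pow (n : ℕ) (i : ZMod p) : ((c p) ^ n) i = i + n := by
  induction n with
  | zero => simp
  | succ n ih =>
    rw [pow_succ', Equiv.Perm.mul_apply, ih, c_apply]
    push_cast
    ring

lemma c_pow_p : (c p) ^ p = 1 := by
  ext1 i
  rw [c_pow]
  simp

lemma conj_pow (n : ℕ) (σ : Equiv.Perm (ZMod p)) : ((conj p) ^ n) σ = (c p) ^ n * σ * ((c p) ^ n)⁻¹ := by
  induction n with
  | zero => simp
  | succ n ih =>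
    rw [pow_succ', Equiv.Perm.mul_apply, ih, conj_apply]
    group

lemma conj_pow_p : (conj p) ^ p = 1 := by
  ext1 σ
  rw [conj_pow, c_pow_p]
  simp

lemma fixed_iff (σ : Equiv.Perm (ZMod p)) : conj p σ = σ ↔ ∃ t : ZMod p, Equiv.addRight t = σ := by
  rw [conj_apply, mul_inv_eq_iff_eq_mul]
  constructor
  · intro h
    have h1 : ∀ i, σ (i + 1) = σ i + 1 := by
      intro i
      have := congrArg (fun τ : Equiv.Perm (ZMod p) => τ i) h
      simp only [Equiv.Perm.mul_apply, c_apply] at this
      exact this.symm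
    refine ⟨σ 0, ?_⟩
    have h2 : ∀ n : ℕ, σ (n : ZMod p) = n + σ 0 := by
      intro n
      induction n with
      | zero => simp
      | succ n ih =>
        push_cast
        rw [h1, ih]
        ring
    ext1 i
    have h3 := h2 i.val
    rw [ZMod.natCast_zmod_val] at h3
    rw [h3]
    rfl
  · rintro ⟨t, rfl⟩
    ext1 i
    simp only [Equiv.Perm.mul_apply, c_apply, Equiv.coe_addRight]
    ring

/-- The weight of a translation. -/
lemma w_trans (e : ℤ) (t : ZMod p) (ht : t ≠ 0) : w p e (Equiv.addRight t) = (-1) ^ t.val * t := by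
  have h1 : ∀ j : ZMod p, a p e j (Equiv.addRight t j) = (if p ≤ j.val + t.val then -1 else 1) * t := by
    intro j
    have hjt : j ≠ j + t := by
      intro h
      exact ht (by simpa using h.symm)
    rw [Equiv.coe_addRight]
    unfold a
    rw [if_neg hjt, add_zero, ZMod.val_add]
    have hj := ZMod.val_lt j
    have htv := ZMod.val_lt t
    split_ifs with h
    · have e1 : (j.val + t.val) % p = j.val + t.val - p := by
        rw [Nat.mod_eq_sub_mod h, Nat.mod_eq_of_lt (by omega)]
      have e2 : |(j.val : ℤ) - (((j.val + t.val) % p : ℕ) : ℤ)| = (p : ℤ) - t.val := by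
        rw [e1, Nat.cast_sub h]
        push_cast
        rw [abs_of_nonneg (by omega)]
        ring
      rw [e2]
      push_cast
      rw [ZMod.natCast_zmod_val]
      simp
    · have e2 : |(j.val : ℤ) - (((j.val + t.val) % p : ℕ) : ℤ)| = (t.val : ℤ) := by
        rw [Nat.mod_eq_of_lt (by omega), abs_sub_comm]
        push_cast
        rw [abs_of_nonneg (by omega)]
        ring
      rw [e2]
      push_cast
      rw [ZMod.natCast_zmod_val, one_mul]
  unfold w
  rw [prod_congr rfl fun j _ => h1 j, prod_mul_distrib, prod_const, card_univ, ZMod.card, ZMod.pow_card]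
  congr 1
  rw [prod_ite, prod_const_one, mul_one, prod_const]
  congr 1
  -- the number of `j` with `p ≤ j + t` is `t`
  have htv := ZMod.val_lt t
  have h2 : (univ.filter (fun j : ZMod p => p ≤ j.val + t.val)).card =
      ((Finset.range p).filter (fun j => p ≤ j + t.val)).card := by
    apply Finset.card_bij (fun (j : ZMod p) _ => j.val)
    · intro j hj
      rw [mem_filter] at hj ⊢
      exact ⟨mem_range.2 (ZMod.val_lt j), hj.2⟩
    · intro i _ j _ h
      exact ZMod.val_injective p h
    · intro j hj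
      rw [mem_filter, mem_range] at hj
      refine ⟨(j : ZMod p), ?_, ZMod.val_cast_of_lt hj.1⟩
      rw [mem_filter, ZMod.val_cast_of_lt hj.1]
      exact ⟨mem_univ _, hj.2⟩
  rw [h2]
  have h3 : (Finset.range p).filter (fun j => p ≤ j + t.val) = Finset.Ico (p - t.val) p := by
    ext j
    rw [mem_filter, mem_range, mem_Ico]
    omega
  rw [h3, Nat.card_Ico]
  omega

lemma alt_sum (m : ℕ) : ∑ t ∈ range (2 * m + 1), (-1 : ℤ) ^ t * t = m := by
  induction m with
  | zero => simp
  | succ m ih =>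
    rw [show 2 * (m + 1) + 1 = 2 * m + 1 + 1 + 1 by ring, sum_range_succ, sum_range_succ, ih]
    rw [show 2 * m + 1 + 1 = 2 * (m + 1) by ring, pow_mul, pow_add, pow_mul]
    push_cast
    ring

/-- **Main theorem.** -/
theorem main (hodd : Odd p) (e : ℤ) : 2 * ∑ σ : Equiv.Perm (ZMod p), w p e σ = 2 * e - 1 := by
  rw [sum_fixed (conj p) conj_pow_p (w p e) (fun σ => w_conj e σ)]
  have h1 : univ.filter (fun σ : Equiv.Perm (ZMod p) => conj p σ = σ) =
      univ.image (fun t : ZMod p => (Equiv.addRight t : Equiv.Perm (ZMod p))) := by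
    ext σ
    rw [mem_filter, mem_image]
    constructor
    · rintro ⟨_, h⟩
      obtain ⟨t, ht⟩ := (fixed_iff σ).1 h
      exact ⟨t, mem_univ _, ht⟩
    · rintro ⟨t, _, ht⟩
      exact ⟨mem_univ _, (fixed_iff σ).2 ⟨t, ht⟩⟩
  rw [h1, sum_image]
  · have h2 : ∀ t : ZMod p, w p e (Equiv.addRight t) = (-1) ^ t.val * t + (if t = 0 then (e : ZMod p) else 0) := by
      intro t
      by_cases ht : t = 0
      · subst ht
        rw [if_pos rfl, mul_zero, zero_add]
        unfold w
        have h3 : ∀ j : ZMod p, a p e j (Equiv.addRight 0 j) = (e : ZMod p) := by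
          intro j
          rw [Equiv.coe_addRight]
          unfold a
          simp
        rw [prod_congr rfl fun j _ => h3 j, prod_const, card_univ, ZMod.card, ZMod.pow_card]
      · rw [if_neg ht, add_zero]
        exact w_trans e t ht
    rw [sum_congr rfl fun t _ => h2 t, sum_add_distrib, sum_ite_eq' univ (0 : ZMod p)]
    rw [if_pos (mem_univ _)]
    obtain ⟨m, hm⟩ := hodd
    have h4 : ∑ t : ZMod p, (-1 : ZMod p) ^ t.val * t = ∑ t ∈ range p, ((-1 : ZMod p) ^ t * t) := by
      apply Finset.sum_bij (fun (j : ZMod p) _ => j.val)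
      · intro j _
        exact mem_range.2 (ZMod.val_lt j)
      · intro i _ j _ h
        exact ZMod.val_injective p h
      · intro j hj
        exact ⟨(j : ZMod p), mem_univ _, ZMod.val_cast_of_lt (mem_range.1 hj)⟩
      · intro j _
        rw [ZMod.natCast_zmod_val]
    have h5 := congrArg (Int.cast : ℤ → ZMod p) (alt_sum m)
    rw [← hm] at h5
    push_cast at h5
    rw [h4, h5]
    have h6 : ((2 * m + 1 : ℕ) : ZMod p) = 0 := by
      rw [← hm]
      simp
    push_cast at h6
    linear_combination h6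
  · intro t _ t' _ h
    have := congrArg (fun σ : Equiv.Perm (ZMod p) => σ 0) h
    simpa using this

/-- The index types `Fin p` and `ZMod p`. -/
def E (p : ℕ) [NeZero p] : Fin p ≃ ZMod p where
  toFun i := ((i : ℕ) : ZMod p)
  invFun z := ⟨z.val, ZMod.val_lt z⟩
  left_inv i := by
    apply Fin.ext
    exact ZMod.val_cast_of_lt i.2
  right_inv z := ZMod.natCast_zmod_val z

/-- **Main theorem**, for integer matrices. -/
theorem main_fin (hodd : Odd p) (e : ℤ) :
    (p : ℤ) ∣ 2 * (∑ σ : Equiv.Perm (Fin p), ∏ j : Fin p,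
      (|((j : ℕ) : ℤ) - ((σ j : ℕ) : ℤ)| + (if j = σ j then e else 0))) - (2 * e - 1) := by
  rw [← ZMod.intCast_zmod_eq_zero_iff_dvd]
  have h := main hodd e
  have h1 : ((∑ σ : Equiv.Perm (Fin p), ∏ j : Fin p,
      (|((j : ℕ) : ℤ) - ((σ j : ℕ) : ℤ)| + (if j = σ j then e else 0)) : ℤ) : ZMod p) =
      ∑ σ : Equiv.Perm (ZMod p), w p e σ := by
    rw [Int.cast_sum]
    apply Fintype.sum_equiv (Equiv.permCongr (E p))
    intro σ
    unfold w
    rw [Int.cast_prod]
    apply Fintype.prod_equiv (E p)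
    intro j
    have hv : ∀ j : Fin p, (E p j).val = (j : ℕ) := fun j => ZMod.val_cast_of_lt j.2
    have h2 : (Equiv.permCongr (E p) σ) (E p j) = E p (σ j) := by
      rw [Equiv.permCongr_apply, Equiv.symm_apply_apply]
    rw [h2]
    unfold a
    rw [hv, hv]
    simp only [(E p).injective.eq_iff]
  rw [Int.cast_sub, Int.cast_mul, h1]
  push_cast
  linear_combination h

end Pool.Agent.X318.PermCyc
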