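import Mathlib
import Pool.Agent.X318.DelannoyFour

/-!
# `p`-integral rationals: a light toolkit
-/

set_option autoImplicit false

open Finset

namespace Pool.Agent.X318.PInt

variable {p : ℕ} [hp : Fact p.Prime]

/-- The rationals that are integral at `p`. -/
def J (p : ℕ) [Fact p.Prime] : Subring ℚ where
  carrier := {x | padicNorm p x ≤ 1}
  mul_mem' := by
    intro a b ha hb
    simp only [Set.mem_ofPred_eq] at ha hb ⊢
    rw [padicNorm.mul]
    exact mul_le_one₀ ha (padicNorm.nonneg _) hb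
  one_mem' := by simp
  add_mem' := by
    intro a b ha hb
    simp only [Set.mem_ofPred_eq] at ha hb ⊢
    exact (padicNorm.nonarchimedean).trans (max_le ha hb)
  zero_mem' := by simp
  neg_mem' := by
    intro a ha
    simp only [Set.mem_ofPred_eq] at ha ⊢
    rwa [padicNorm.neg]

lemma mem_J {x : ℚ} : x ∈ J p ↔ padicNorm p x ≤ 1 := Iff.rfl

lemma inv_mem {k : ℤ} (hk : ¬ (p : ℤ) ∣ k) : ((k : ℚ))⁻¹ ∈ J p := by
  rw [mem_J]
  have h1 : padicNorm p (k : ℚ) = 1 := by
    by_contra hcon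
    exact hk ((padicNorm.int_lt_one_iff k).1 (lt_of_le_of_ne (padicNorm.of_int k) hcon))
  have h2 : padicNorm p ((k : ℚ)⁻¹) = (padicNorm p (k : ℚ))⁻¹ := by
    have hk0 : (k : ℚ) ≠ 0 := by
      intro h
      apply hk
      rw [Int.cast_eq_zero.1 h]
      exact dvd_zero _
    have h3 : padicNorm p ((k : ℚ)⁻¹ * k) = 1 := by
      rw [inv_mul_cancel₀ hk0]
      exact padicNorm.one
    rw [padicNorm.mul, h1, mul_one] at h3
    rw [h3, h1, inv_one]
  rw [h2, h1, inv_one]

/-- Congruence modulo `p^n` in the ring of `p`-integral rationals. -/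
def C (p : ℕ) [Fact p.Prime] (n : ℕ) (x y : ℚ) : Prop := ∃ r ∈ J p, x - y = (p : ℚ) ^ n * r

lemma C.of_dvd {n : ℕ} {a b : ℤ} (h : (p : ℤ) ^ n ∣ a - b) : C p n a b := by
  obtain ⟨c, hc⟩ := h
  refine ⟨c, intCast_mem (J p) c, ?_⟩
  have := congrArg (Int.cast : ℤ → ℚ) hc
  push_cast at this
  exact this

/-- A `p`-integral congruence as a statement about integers. -/
lemma C.to_int {n : ℕ} {x y : ℚ} (h : C p n x y) :
    ∃ u v : ℤ, ¬ (p : ℤ) ∣ v ∧ x - y = (p : ℚ) ^ n * (u / v) := by
  obtain ⟨r, hr, h⟩ := h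
  refine ⟨r.num, r.den, ?_, ?_⟩
  · intro hd
    have hd' : p ∣ r.den := by exact_mod_cast hd
    rw [mem_J] at hr
    have h1 : ¬ p ∣ r.num.natAbs := by
      intro h2
      have := r.reduced
      have h3 := Nat.dvd_gcd h2 hd'
      rw [Nat.Coprime] at this
      rw [this] at h3
      exact hp.out.one_lt.ne' (Nat.dvd_one.1 h3)
    have h4 : padicNorm p (r * r.den) = padicNorm p (r.num : ℚ) := by
      rw [Rat.mul_den_eq_num]
    rw [padicNorm.mul] at h4
    have h5 : padicNorm p (r.num : ℚ) = 1 := by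
      by_contra hcon
      have := (padicNorm.int_lt_one_iff r.num).1 (lt_of_le_of_ne (padicNorm.of_int _) hcon)
      exact h1 (Int.natCast_dvd.1 this)
    have h6 : padicNorm p ((r.den : ℤ) : ℚ) < 1 := (padicNorm.int_lt_one_iff _).2 hd
    have h7 : ((r.den : ℤ) : ℚ) = (r.den : ℚ) := by push_cast; rfl
    rw [h7] at h6
    rw [h5] at h4
    have h8 : padicNorm p r * padicNorm p (r.den : ℚ) < 1 := by
      calc padicNorm p r * padicNorm p (r.den : ℚ) ≤ 1 * padicNorm p (r.den : ℚ) :=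
            mul_le_mul_of_nonneg_right hr (padicNorm.nonneg _)
        _ < 1 := by rw [one_mul]; exact h6
    exact h8.ne h4
  · rw [h]
    congr 1
    push_cast
    exact r.num_div_den.symm

end Pool.Agent.X318.PInt
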