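import Mathlib
import Pool.Agent.X318.DelannoyFour

/-!
# Sums of `T_k(3,3) M_k(3,3) (-3)^(-k)`: algebraic part
-/

set_option autoImplicit false

open Finset

namespace Pool.Agent.X318.TMSum

/-! ### The polynomials `τ_n(x) = ∑ C(n,2j) C(2j,j) x^j` and `μ_n(x) = ∑ C(n,2j) C_j x^j` -/

/-- Coefficients of `τ`. -/
def tc (n j : ℕ) : ℚ := (n.choose (2 * j) : ℚ) * j.centralBinom

/-- Coefficients of `μ`. -/
def mc (n j : ℕ) : ℚ := (n.choose (2 * j) : ℚ) * (j.centralBinom / (j + 1))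

lemma tc_zero_of_lt {n j : ℕ} (h : n < 2 * j) : tc n j = 0 := by
  unfold tc
  rw [Nat.choose_eq_zero_of_lt h]
  simp

lemma mc_zero_of_lt {n j : ℕ} (h : n < 2 * j) : mc n j = 0 := by
  unfold mc
  rw [Nat.choose_eq_zero_of_lt h]
  simp

/-- `τ_n(x)`. -/
def τ (x : ℚ) (n : ℕ) : ℚ := ∑ j ∈ range (n + 1), tc n j * x ^ j

/-- `μ_n(x)`. -/
def μ (x : ℚ) (n : ℕ) : ℚ := ∑ j ∈ range (n + 1), mc n j * x ^ j

lemma τ_eq (x : ℚ) (n N : ℕ) (h : n < N) : τ x n = ∑ j ∈ range N, tc n j * x ^ j := by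
  unfold τ
  apply sum_subset (range_mono (by omega))
  intro j _ hj
  rw [tc_zero_of_lt, zero_mul]
  by_contra hcon
  exact hj (mem_range.2 (by omega))

lemma μ_eq (x : ℚ) (n N : ℕ) (h : n < N) : μ x n = ∑ j ∈ range N, mc n j * x ^ j := by
  unfold μ
  apply sum_subset (range_mono (by omega))
  intro j _ hj
  rw [mc_zero_of_lt, zero_mul]
  by_contra hcon
  exact hj (mem_range.2 (by omega))

lemma ch_succ (n k : ℕ) : ((n : ℚ) + 1) * n.choose k = (n + 1 - k) * (n + 1).choose k := by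
  by_cases h : k ≤ n + 1
  · have h3 := Nat.choose_mul_succ_eq n k
    have h4 := congrArg (Nat.cast : ℕ → ℚ) h3
    rw [Nat.cast_mul, Nat.cast_mul, Nat.cast_sub h] at h4
    push_cast at h4
    linear_combination h4
  · rw [Nat.choose_eq_zero_of_lt (show n < k by omega),
      Nat.choose_eq_zero_of_lt (show n + 1 < k by omega)]
    simp

lemma ch_down (n k : ℕ) : ((k : ℚ) + 1) * n.choose (k + 1) = (n - k) * n.choose k := by
  by_cases h : k ≤ n
  · have h1 := Nat.choose_succ_right_eq n k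
    have h2 := congrArg (Nat.cast : ℕ → ℚ) h1
    push_cast [Nat.cast_sub h] at h2
    linarith
  · rw [Nat.choose_eq_zero_of_lt (show n < k by omega),
      Nat.choose_eq_zero_of_lt (show n < k + 1 by omega)]
    simp

lemma cb_succ (j : ℕ) : ((j : ℚ) + 1) * (j + 1).centralBinom = 2 * (2 * j + 1) * j.centralBinom := by
  have h := Nat.succ_mul_centralBinom_succ j
  exact_mod_cast h

/-- `(j+1)^2 tc n (j+1) = (n-2j)(n-2j-1) tc n j`. -/
lemma tc_succ (n j : ℕ) : ((j : ℚ) + 1) ^ 2 * tc n (j + 1) = (n - 2 * j) * (n - 2 * j - 1) * tc n j := by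
  unfold tc
  have h1 := ch_down n (2 * j)
  have h2 := ch_down n (2 * j + 1)
  have h3 := cb_succ j
  rw [show 2 * (j + 1) = 2 * j + 1 + 1 by ring]
  push_cast at h1 h2
  have hj : (2 * (j : ℚ) + 1) ≠ 0 := by positivity
  apply mul_left_cancel₀ hj
  linear_combination ((j : ℚ) + 1) * (n.choose (2 * j + 1 + 1) : ℚ) * (2 * j + 1) * h3 +
    (2 * (j : ℚ) + 1) ^ 2 * (j.centralBinom : ℚ) * h2 +
    (2 * (j : ℚ) + 1) * (n - 2 * j - 1) * (j.centralBinom : ℚ) * h1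

lemma rec_coeff_zero (n : ℕ) : ((n : ℚ) + 2) * tc (n + 2) 0 =
    (2 * n + 3) * tc (n + 1) 0 - (n + 1) * tc n 0 := by
  unfold tc
  simp
  ring

lemma rec_coeff (n j : ℕ) : ((n : ℚ) + 2) * tc (n + 2) (j + 1) =
    (2 * n + 3) * tc (n + 1) (j + 1) - (n + 1) * tc n (j + 1) + 4 * (n + 1) * tc n j := by
  have h1 := ch_succ (n + 1) (2 * (j + 1))
  have h2 := ch_succ n (2 * (j + 1))
  have h3 := tc_succ n j
  have h4 := ch_succ (n + 1) (2 * (j + 1))
  have hA : ((n : ℚ) + 1 - 2 * j) * tc (n + 1) j = (n + 1) * tc n j := by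
    have := ch_succ n (2 * j)
    unfold tc
    push_cast at this
    linear_combination - (j.centralBinom : ℚ) * this
  -- everything in terms of A = C(n, 2j)
  have e1 : ((j : ℚ) + 1) ^ 2 * tc (n + 1) (j + 1) = (n + 1) * (n - 2 * j) * tc n j := by
    have := tc_succ (n + 1) j
    push_cast at this
    linear_combination this + ((n : ℚ) - 2 * j) * hA
  have hB : ((n : ℚ) + 2 - 2 * j) * tc (n + 2) j = (n + 2) * tc (n + 1) j := by
    have := ch_succ (n + 1) (2 * j)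
    unfold tc
    push_cast at this
    linear_combination - (j.centralBinom : ℚ) * this
  have e2 : ((j : ℚ) + 1) ^ 2 * tc (n + 2) (j + 1) = (n + 2) * (n + 1) * tc n j := by
    have := tc_succ (n + 2) j
    push_cast at this
    linear_combination this + ((n : ℚ) + 1 - 2 * j) * hB + ((n : ℚ) + 2) * hA
  have hj : ((j : ℚ) + 1) ^ 2 ≠ 0 := by positivity
  apply mul_left_cancel₀ hj
  linear_combination ((n : ℚ) + 2) * e2 - (2 * (n : ℚ) + 3) * e1 + ((n : ℚ) + 1) * h3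

lemma mu_coeff_zero (n : ℕ) : tc (n + 1) 0 - tc n 0 = 0 := by
  unfold tc
  simp

lemma mu_coeff (n j : ℕ) : 2 * ((n : ℚ) + 2) * mc n j =
    tc (n + 1) (j + 1) - tc n (j + 1) + 4 * tc n j := by
  have h3 := tc_succ n j
  have hA : ((n : ℚ) + 1 - 2 * j) * tc (n + 1) j = (n + 1) * tc n j := by
    have := ch_succ n (2 * j)
    unfold tc
    push_cast at this
    linear_combination - (j.centralBinom : ℚ) * this
  have e1 : ((j : ℚ) + 1) ^ 2 * tc (n + 1) (j + 1) = (n + 1) * (n - 2 * j) * tc n j := by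
    have := tc_succ (n + 1) j
    push_cast at this
    linear_combination this + ((n : ℚ) - 2 * j) * hA
  have e3 : ((j : ℚ) + 1) * mc n j = tc n j := by
    unfold mc tc
    have hj : ((j : ℚ) + 1) ≠ 0 := by positivity
    field_simp
  have hj : ((j : ℚ) + 1) ^ 2 ≠ 0 := by positivity
  apply mul_left_cancel₀ hj
  linear_combination 2 * ((n : ℚ) + 2) * (j + 1) * e3 - e1 + h3

/-- The recurrence of `τ`. -/
lemma τ_rec (x : ℚ) (n : ℕ) : ((n : ℚ) + 2) * τ x (n + 2) =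
    (2 * n + 3) * τ x (n + 1) - (n + 1) * (1 - 4 * x) * τ x n := by
  rw [τ_eq x (n + 2) (n + 3 + 1) (by omega), τ_eq x (n + 1) (n + 3 + 1) (by omega)]
  have h0 : τ x n = ∑ j ∈ range (n + 3 + 1), tc n j * x ^ j := τ_eq x n (n + 3 + 1) (by omega)
  have h1 : τ x n = ∑ j ∈ range (n + 3), tc n j * x ^ j := τ_eq x n (n + 3) (by omega)
  have e : ((n : ℚ) + 1) * (1 - 4 * x) * τ x n = (n + 1) * (∑ j ∈ range (n + 3 + 1), tc n j * x ^ j)
      - 4 * (n + 1) * x * ∑ j ∈ range (n + 3), tc n j * x ^ j := by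
    rw [← h0, ← h1]
    ring
  rw [e, sum_range_succ' (fun j => tc (n + 2) j * x ^ j) (n + 3),
    sum_range_succ' (fun j => tc (n + 1) j * x ^ j) (n + 3),
    sum_range_succ' (fun j => tc n j * x ^ j) (n + 3)]
  have h2 := rec_coeff_zero n
  have h3 : ((n : ℚ) + 2) * ∑ j ∈ range (n + 3), tc (n + 2) (j + 1) * x ^ (j + 1) =
      (2 * n + 3) * ∑ j ∈ range (n + 3), tc (n + 1) (j + 1) * x ^ (j + 1) -
      (n + 1) * ∑ j ∈ range (n + 3), tc n (j + 1) * x ^ (j + 1) +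
      4 * (n + 1) * x * ∑ j ∈ range (n + 3), tc n j * x ^ j := by
    rw [mul_sum, mul_sum, mul_sum, mul_sum, ← sum_sub_distrib, ← sum_add_distrib]
    refine sum_congr rfl fun j _ => ?_
    rw [pow_succ]
    linear_combination x ^ j * x * rec_coeff n j
  rw [pow_zero]
  linear_combination h3 + h2

/-- `μ` in terms of `τ`. -/
lemma μ_rel (x : ℚ) (n : ℕ) : 2 * x * ((n : ℚ) + 2) * μ x n = τ x (n + 1) - (1 - 4 * x) * τ x n := by
  rw [τ_eq x (n + 1) (n + 3 + 1) (by omega), μ_eq x n (n + 3) (by omega)]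
  have h0 : τ x n = ∑ j ∈ range (n + 3 + 1), tc n j * x ^ j := τ_eq x n (n + 3 + 1) (by omega)
  have h1 : τ x n = ∑ j ∈ range (n + 3), tc n j * x ^ j := τ_eq x n (n + 3) (by omega)
  have e : (1 - 4 * x) * τ x n = (∑ j ∈ range (n + 3 + 1), tc n j * x ^ j)
      - 4 * x * ∑ j ∈ range (n + 3), tc n j * x ^ j := by
    rw [← h0, ← h1]
    ring
  rw [e, sum_range_succ' (fun j => tc (n + 1) j * x ^ j) (n + 3),
    sum_range_succ' (fun j => tc n j * x ^ j) (n + 3)]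
  have h2 := mu_coeff_zero n
  have h3 : 2 * x * ((n : ℚ) + 2) * ∑ j ∈ range (n + 3), mc n j * x ^ j =
      ∑ j ∈ range (n + 3), tc (n + 1) (j + 1) * x ^ (j + 1) -
      ∑ j ∈ range (n + 3), tc n (j + 1) * x ^ (j + 1) +
      4 * x * ∑ j ∈ range (n + 3), tc n j * x ^ j := by
    rw [mul_sum, mul_sum, ← sum_sub_distrib, ← sum_add_distrib]
    refine sum_congr rfl fun j _ => ?_
    rw [pow_succ]
    linear_combination x ^ j * x * mu_coeff n j
  rw [pow_zero]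
  linear_combination h3 - h2

/-- The closed form of the sum of the `τ_k μ_k / (1-4x)^k`. -/
lemma closed_form (x : ℚ) (hd : 1 - 4 * x ≠ 0) (n : ℕ) :
    2 * x * ((n : ℚ) + 2) * ((1 - 4 * x) ^ n * ∑ k ∈ range (n + 1), τ x k * μ x k / (1 - 4 * x) ^ k) =
      (n + 1) * ((2 * n + 3) * (τ x (n + 1) * τ x n) - (n + 2) * τ x (n + 1) ^ 2 -
        (n + 1) * (1 - 4 * x) * τ x n ^ 2) := by
  induction n with
  | zero =>
    have h := μ_rel x 0
    have h0 : τ x 0 = 1 := by simp [τ, tc]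
    have h1 : τ x 1 = 1 := by
      simp [τ, tc, sum_range_succ]
    rw [zero_add, range_one, sum_singleton, pow_zero, h0]
    rw [h0, h1] at h
    rw [h1]
    push_cast at h ⊢
    linear_combination h
  | succ n ih =>
    rw [sum_range_succ]
    have h1 := τ_rec x n
    have h2 := μ_rel x (n + 1)
    push_cast at h2 ⊢
    have hpow : (1 - 4 * x) ^ (n + 1) ≠ 0 := pow_ne_zero _ hd
    obtain ⟨Q, hQ⟩ : ∃ Q, Q = (1 - 4 * x) ^ n * ∑ k ∈ range (n + 1), τ x k * μ x k /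
      (1 - 4 * x) ^ k := ⟨_, rfl⟩
    rw [← hQ] at ih
    have h3 : (1 - 4 * x) ^ (n + 1) * (∑ k ∈ range (n + 1), τ x k * μ x k / (1 - 4 * x) ^ k +
        τ x (n + 1) * μ x (n + 1) / (1 - 4 * x) ^ (n + 1)) =
        (1 - 4 * x) * Q + τ x (n + 1) * μ x (n + 1) := by
      rw [mul_add, mul_div_cancel₀ _ hpow, hQ, pow_succ]
      ring
    rw [h3]
    have hn2 : ((n : ℚ) + 2) ≠ 0 := by positivity
    apply mul_left_cancel₀ hn2
    have e : (n : ℚ) + 1 + 2 = n + 3 := by ring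
    -- replace τ (n+2)
    obtain ⟨A, hA⟩ : ∃ A, A = τ x (n + 2) := ⟨_, rfl⟩
    obtain ⟨B, hB⟩ : ∃ B, B = τ x (n + 1) := ⟨_, rfl⟩
    obtain ⟨C, hC⟩ : ∃ C, C = τ x n := ⟨_, rfl⟩
    rw [show n + 1 + 1 = n + 2 by ring] at h2 ⊢
    rw [← hA, ← hB] at h1 h2 ⊢
    rw [← hC] at h1 ih
    rw [← hB] at ih
    -- (n+2)A = (2n+3)B - (n+1) d C
    linear_combination ((n : ℚ) + 3) * (1 - 4 * x) * ih + ((n : ℚ) + 2) * B * h2 +
      ((n : ℚ) + 3) * (((n : ℚ) + 2) * A - ((n : ℚ) + 1) * (1 - 4 * x) * C) * h1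

end Pool.Agent.X318.TMSum
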