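import Mathlib
import Pool.Agent.X318.TMSum

/-!
# Sums of `T_k(3,3) M_k(3,3) (-3)^(-k)`: congruences
-/

set_option autoImplicit false

open Finset

namespace Pool.Agent.X318.TMSum

open Pool.Agent.X318.DelannoyFour (u)

/-- Twice the rational part of `ω^(2k)`. -/
def al (k : ℕ) : ℤ := if k % 3 = 0 then 2 else -1

/-- Twice the coefficient of `-i√3` in `ω^(2k)`. -/
def be (k : ℕ) : ℤ := if k % 3 = 0 then 0 else if k % 3 = 1 then 1 else -1

lemma al_succ (k : ℕ) : 2 * al (k + 1) = - al k - 3 * be k := by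
  unfold al be
  have : k % 3 = 0 ∨ k % 3 = 1 ∨ k % 3 = 2 := by omega
  rcases this with h | h | h
  · rw [if_neg (show ¬ (k + 1) % 3 = 0 by omega), if_pos h, if_pos h]
    norm_num
  · rw [if_neg (show ¬ (k + 1) % 3 = 0 by omega), if_neg (show ¬ k % 3 = 0 by omega),
      if_neg (show ¬ k % 3 = 0 by omega), if_pos h]
    norm_num
  · rw [if_pos (show (k + 1) % 3 = 0 by omega), if_neg (show ¬ k % 3 = 0 by omega),
      if_neg (show ¬ k % 3 = 0 by omega), if_neg (show ¬ k % 3 = 1 by omega)]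
    norm_num

lemma be_succ (k : ℕ) : 2 * be (k + 1) = al k - be k := by
  unfold al be
  have : k % 3 = 0 ∨ k % 3 = 1 ∨ k % 3 = 2 := by omega
  rcases this with h | h | h
  · rw [if_neg (show ¬ (k + 1) % 3 = 0 by omega), if_pos (show (k + 1) % 3 = 1 by omega), if_pos h,
      if_pos h]
    norm_num
  · rw [if_neg (show ¬ (k + 1) % 3 = 0 by omega), if_neg (show ¬ (k + 1) % 3 = 1 by omega),
      if_neg (show ¬ k % 3 = 0 by omega), if_neg (show ¬ k % 3 = 0 by omega), if_pos h]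
    norm_num
  · rw [if_pos (show (k + 1) % 3 = 0 by omega), if_neg (show ¬ k % 3 = 0 by omega),
      if_neg (show ¬ k % 3 = 0 by omega), if_neg (show ¬ k % 3 = 1 by omega)]
    norm_num

/-- The sums `∑_k C(n,k) C(n+k,k) g(k)`. -/
def P (g : ℕ → ℤ) (n : ℕ) : ℤ := ∑ k ∈ range (n + 1), u k n * g k

lemma u_zero_of_lt {b k : ℕ} (h : k < b) : u b k = 0 := DelannoyFour.u_zero_of_lt h

lemma P_eq (g : ℕ → ℤ) (n N : ℕ) (h : n < N) : P g n = ∑ k ∈ range N, u k n * g k := by
  unfold P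
  apply sum_subset (range_mono (by omega))
  intro j _ hj
  rw [u_zero_of_lt, zero_mul]
  by_contra hcon
  exact hj (mem_range.2 (by omega))

lemma chz_succ (n k : ℕ) : ((n : ℤ) + 1) * n.choose k = (n + 1 - k) * (n + 1).choose k := by
  by_cases h : k ≤ n + 1
  · have h3 := Nat.choose_mul_succ_eq n k
    have h4 := congrArg (Nat.cast : ℕ → ℤ) h3
    rw [Nat.cast_mul, Nat.cast_mul, Nat.cast_sub h] at h4
    push_cast at h4
    linear_combination h4
  · rw [Nat.choose_eq_zero_of_lt (show n < k by omega),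
      Nat.choose_eq_zero_of_lt (show n + 1 < k by omega)]
    simp

lemma u_up (k n : ℕ) : ((n : ℤ) + 1 - k) * u k (n + 1) = (n + 1 + k) * u k n := by
  unfold u
  have h1 := chz_succ n k
  have h2 := chz_succ (n + k) k
  rw [show n + k + 1 = n + 1 + k by ring] at h2
  push_cast at h2
  have hn : ((n : ℤ) + 1) ≠ 0 := by positivity
  apply mul_left_cancel₀ hn
  linear_combination (-((n : ℤ) + 1) * ((n + 1 + k).choose k : ℤ)) * h1 -
    ((n : ℤ) + 1) * (n.choose k : ℤ) * h2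

lemma u_down (k n : ℕ) : ((k : ℤ) + 1) ^ 2 * u (k + 1) n = (n - k) * (n + k + 1) * u k n := by
  unfold u
  have h1 := LineSum.choose_succ_int n k
  have h2 := LineSum.choose_add_succ n k
  linear_combination ((k : ℤ) + 1) * ((n + (k + 1)).choose (k + 1) : ℤ) * h1 +
    ((n : ℤ) - k) * (n.choose k : ℤ) * h2

lemma u_rec (k n : ℕ) : ((n : ℤ) + 2) * u (k + 1) (n + 2) + (n + 1) * u (k + 1) n =
    (2 * n + 3) * (u (k + 1) (n + 1) + 2 * u k (n + 1)) := by
  have h1 := u_down k (n + 2)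
  have h2 := u_down k (n + 1)
  have h3 := u_down k n
  have h4 := u_up k (n + 1)
  have h5 := u_up k n
  push_cast at h1 h2 h4
  have hk : ((k : ℤ) + 1) ^ 2 ≠ 0 := by positivity
  apply mul_left_cancel₀ hk
  linear_combination ((n : ℤ) + 2) * h1 + ((n : ℤ) + 1) * h3 - (2 * (n : ℤ) + 3) * h2 +
    ((n : ℤ) + 2) * (n + 2 + k + 1) * h4 - ((n : ℤ) + 1) * (n - k) * h5

/-- Recurrence for the sums, for arbitrary weights. -/
lemma P_rec (g : ℕ → ℤ) (n : ℕ) : ((n : ℤ) + 2) * P g (n + 2) =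
    (2 * n + 3) * P (fun k => g k + 2 * g (k + 1)) (n + 1) - (n + 1) * P g n := by
  rw [P_eq g (n + 2) (n + 2 + 1) (by omega), P_eq g n (n + 2 + 1) (by omega),
    sum_range_succ' (fun k => u k (n + 2) * g k) (n + 2),
    sum_range_succ' (fun k => u k n * g k) (n + 2)]
  have h0 : P (fun k => g k + 2 * g (k + 1)) (n + 1) =
      (∑ k ∈ range (n + 2 + 1), u k (n + 1) * g k) +
        ∑ k ∈ range (n + 2), 2 * u k (n + 1) * g (k + 1) := by
    rw [← P_eq g (n + 1) (n + 2 + 1) (by omega)]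
    unfold P
    rw [← sum_add_distrib]
    exact sum_congr rfl fun k _ => by ring
  rw [h0, sum_range_succ' (fun k => u k (n + 1) * g k) (n + 2)]
  have h1 : ((n : ℤ) + 2) * ∑ k ∈ range (n + 2), u (k + 1) (n + 2) * g (k + 1) =
      (2 * n + 3) * (∑ k ∈ range (n + 2), u (k + 1) (n + 1) * g (k + 1) +
        ∑ k ∈ range (n + 2), 2 * u k (n + 1) * g (k + 1)) -
      (n + 1) * ∑ k ∈ range (n + 2), u (k + 1) n * g (k + 1) := by
    rw [← sum_add_distrib, mul_sum, mul_sum, mul_sum, ← sum_sub_distrib]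
    refine sum_congr rfl fun k _ => ?_
    linear_combination g (k + 1) * u_rec k n
  have h2 : ∀ n, u 0 n = 1 := fun n => by simp [u]
  rw [h2, h2, h2]
  linear_combination h1

lemma P_al (n : ℕ) : ((n : ℤ) + 2) * P al (n + 2) = - 3 * (2 * n + 3) * P be (n + 1) -
    (n + 1) * P al n := by
  rw [P_rec]
  have h : P (fun k => al k + 2 * al (k + 1)) (n + 1) = - 3 * P be (n + 1) := by
    unfold P
    rw [mul_sum]
    refine sum_congr rfl fun k _ => ?_
    linear_combination u k (n + 1) * al_succ k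
  rw [h]
  ring

lemma P_be (n : ℕ) : ((n : ℤ) + 2) * P be (n + 2) = (2 * n + 3) * P al (n + 1) -
    (n + 1) * P be n := by
  rw [P_rec]
  have h : P (fun k => be k + 2 * be (k + 1)) (n + 1) = P al (n + 1) := by
    unfold P
    refine sum_congr rfl fun k _ => ?_
    linear_combination u k (n + 1) * be_succ k
  rw [h]

lemma parity (m : ℕ) : P be (2 * m) = 0 ∧ P al (2 * m + 1) = 0 := by
  induction m with
  | zero =>
    constructor
    · simp [P, be]
    · simp [P, al, sum_range_succ, u]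
  | succ m ih =>
    obtain ⟨h1, h2⟩ := ih
    have h3 := P_be (2 * m)
    rw [h1, h2] at h3
    have h4 : P be (2 * (m + 1)) = 0 := by
      rw [show 2 * (m + 1) = 2 * m + 2 by ring]
      have h5 : ((2 * m : ℕ) : ℤ) + 2 ≠ 0 := by positivity
      apply mul_left_cancel₀ h5
      rw [h3]
      ring
    refine ⟨h4, ?_⟩
    have h5 := P_al (2 * m + 1)
    rw [h2, show 2 * m + 1 + 1 = 2 * (m + 1) by ring, h4] at h5
    rw [show 2 * (m + 1) + 1 = 2 * m + 1 + 2 by ring]
    have h6 : ((2 * m + 1 : ℕ) : ℤ) + 2 ≠ 0 := by positivity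
    apply mul_left_cancel₀ h6
    rw [h5]
    ring

/-- The link with `τ`. -/
lemma τ_link (m : ℕ) : 2 * τ (1 / 3) (2 * m) = (-1 / 3) ^ m * (P al (2 * m) : ℚ) ∧
    2 * τ (1 / 3) (2 * m + 1) = (-1 / 3) ^ m * (P be (2 * m + 1) : ℚ) := by
  induction m with
  | zero =>
    constructor
    · simp [P, al, τ, tc, u]
    · simp [P, be, τ, tc, sum_range_succ, u]
  | succ m ih =>
    obtain ⟨h1, h2⟩ := ih
    have h3 := τ_rec (1 / 3) (2 * m)
    have h4 := congrArg (Int.cast : ℤ → ℚ) (P_al (2 * m))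
    push_cast at h3 h4
    have h5 : 2 * τ (1 / 3) (2 * (m + 1)) = (-1 / 3) ^ (m + 1) * (P al (2 * (m + 1)) : ℚ) := by
      rw [show 2 * (m + 1) = 2 * m + 2 by ring]
      have hm : (2 * (m : ℚ) + 2) ≠ 0 := by positivity
      apply mul_left_cancel₀ hm
      rw [pow_succ]
      linear_combination 2 * h3 + (2 * (2 * (m : ℚ)) + 3) * h2 + (1 / 3) * (2 * (m : ℚ) + 1) * h1 -
        (-1 / 3) ^ m * (-1 / 3) * h4
    refine ⟨h5, ?_⟩
    have h6 := τ_rec (1 / 3) (2 * m + 1)
    have h7 := congrArg (Int.cast : ℤ → ℚ) (P_be (2 * m + 1))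
    rw [show 2 * m + 1 + 1 = 2 * (m + 1) by ring] at h6 h7
    push_cast at h6 h7
    rw [show 2 * (m + 1) + 1 = 2 * m + 1 + 2 by ring]
    have hm : (2 * (m : ℚ) + 1 + 2) ≠ 0 := by positivity
    apply mul_left_cancel₀ hm
    rw [pow_succ] at h5 ⊢
    linear_combination 2 * h6 + (2 * (2 * (m : ℚ) + 1) + 3) * h5 +
      (1 / 3) * (2 * (m : ℚ) + 1 + 1) * h2 - (-1 / 3) ^ m * (-1 / 3) * h7

end Pool.Agent.X318.TMSum
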