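import Mathlib
import Pool.Agent.X318.TMCong
import Pool.Agent.X318.PInt

/-!
# The supercongruences for the sums of `T_k(3,3) M_k(3,3) (-3)^(-k)`
-/

set_option autoImplicit false

open Finset

namespace Pool.Agent.X318.TMSum

open Pool.Agent.X318.DelannoyFour (u)
open Pool.Agent.X318.PInt

variable {p : ℕ} [hp : Fact p.Prime]

/-- The alternating sums `∑_{k=1}^{p-1} (-1)^k g(k)/k^i`. -/
def A (p : ℕ) (i : ℕ) (g : ℕ → ℤ) : ℚ := ∑ k ∈ range (p - 1), (-1) ^ (k + 1) * g (k + 1) / ((k + 1 : ℕ) : ℚ) ^ i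

lemma ndvd {k : ℕ} (hk : k < p - 1) : ¬ (p : ℤ) ∣ ((k + 1 : ℕ) : ℤ) := by
  intro h
  have := Nat.le_of_dvd (by omega) (Int.natCast_dvd_natCast.1 h)
  omega

lemma inv_mem1 {k : ℕ} (hk : k < p - 1) : (((k + 1 : ℕ) : ℚ))⁻¹ ∈ J p := by
  have := inv_mem (ndvd hk)
  push_cast at this ⊢
  exact this

lemma inv_mem2 {k : ℕ} (hk : k < p - 1) : (((p : ℚ) + (k + 1 : ℕ)))⁻¹ ∈ J p := by
  have h : ¬ (p : ℤ) ∣ (p : ℤ) + ((k + 1 : ℕ) : ℤ) := by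
    intro h
    exact ndvd hk ((dvd_add_right (dvd_refl _)).1 h)
  have := inv_mem h
  push_cast at this ⊢
  exact this

lemma inv_mem3 {k : ℕ} (hk : k < p - 1) : (((p : ℚ) - (k + 1 : ℕ)))⁻¹ ∈ J p := by
  have h : ¬ (p : ℤ) ∣ (p : ℤ) - ((k + 1 : ℕ) : ℤ) := by
    intro h
    exact ndvd hk ((dvd_sub_right (dvd_refl _)).1 h)
  have := inv_mem h
  push_cast at this ⊢
  exact this

lemma A_mem (i : ℕ) (g : ℕ → ℤ) : A p i g ∈ J p := by
  unfold A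
  refine sum_mem fun k hk => ?_
  rw [div_eq_mul_inv, ← inv_pow]
  refine mul_mem (mul_mem (pow_mem (neg_mem (one_mem _)) _) (intCast_mem _ _)) (pow_mem (inv_mem1 (mem_range.1 hk)) _)

/-- Values at `p - 1`. -/
lemma L1 (g : ℕ → ℤ) : C p 3 (P g (p - 1) : ℤ) (g 0 + p * A p 1 g - p ^ 2 * A p 2 g) := by
  have hp1 : p - 1 + 1 = p := Nat.sub_add_cancel hp.out.one_lt.le
  have key : ∀ k ∈ range (p - 1), ∃ r ∈ J p, ((u (k + 1) (p - 1) * g (k + 1) : ℤ) : ℚ) -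
      (p * ((-1) ^ (k + 1) * g (k + 1) / ((k + 1 : ℕ) : ℚ) ^ 1) -
        p ^ 2 * ((-1) ^ (k + 1) * g (k + 1) / ((k + 1 : ℕ) : ℚ) ^ 2)) = (p : ℚ) ^ 3 * r := by
    intro k hk
    have hk := mem_range.1 hk
    obtain ⟨f, hf⟩ := DelannoyFour.choose_sq hp.out (k + 1) (by omega)
    -- (p + k) u = p e
    have h1 : ((p : ℤ) + (k + 1)) * u (k + 1) (p - 1) =
        p * (((p + (k + 1)).choose (k + 1) : ℤ) * ((p - 1).choose (k + 1) : ℤ)) := by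
      unfold u
      have h2 := chz_succ (p - 1 + (k + 1)) (k + 1)
      rw [show p - 1 + (k + 1) + 1 = p + (k + 1) by omega] at h2
      have h3 : ((p - 1 + (k + 1) : ℕ) : ℤ) = p + k := by
        rw [show p - 1 + (k + 1) = p + k by omega]
        push_cast
        ring
      rw [h3] at h2
      push_cast at h2
      linear_combination ((p - 1).choose (k + 1) : ℤ) * h2
    have h4 : ((p : ℚ) + (k + 1)) * (u (k + 1) (p - 1) : ℤ) = p * ((-1) ^ (k + 1) + p ^ 2 * f) := by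
      have h5 : ((p : ℤ) + (k + 1)) * u (k + 1) (p - 1) = p * ((-1) ^ (k + 1) + p ^ 2 * f) := by
        rw [h1]
        linear_combination (p : ℤ) * hf
      exact_mod_cast h5
    refine ⟨f * g (k + 1) * (((p : ℚ) + (k + 1 : ℕ)))⁻¹ +
      (-1) ^ (k + 1) * g (k + 1) * ((((k + 1 : ℕ) : ℚ))⁻¹) ^ 2 * (((p : ℚ) + (k + 1 : ℕ)))⁻¹, ?_, ?_⟩
    · refine add_mem (mul_mem (mul_mem (intCast_mem _ _) (intCast_mem _ _)) (inv_mem2 hk)) ?_
      exact mul_mem (mul_mem (mul_mem (pow_mem (neg_mem (one_mem _)) _) (intCast_mem _ _))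
        (pow_mem (inv_mem1 hk) _)) (inv_mem2 hk)
    · have hk0 : ((k + 1 : ℕ) : ℚ) ≠ 0 := by positivity
      have hk1 : (p : ℚ) + (k + 1 : ℕ) ≠ 0 := by positivity
      have h6 : ((u (k + 1) (p - 1) : ℤ) : ℚ) = p * ((-1) ^ (k + 1) + p ^ 2 * f) / ((p : ℚ) + (k + 1 : ℕ)) := by
        rw [eq_div_iff hk1]
        push_cast at h4 ⊢
        linear_combination h4
      rw [Int.cast_mul, h6]
      field_simp
      ring
  choose! r hr1 hr2 using key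
  refine ⟨∑ k ∈ range (p - 1), r k, sum_mem fun k hk => hr1 k hk, ?_⟩
  unfold P A
  rw [hp1, show range p = range (p - 1 + 1) by rw [hp1], sum_range_succ']
  have h0 : u 0 (p - 1) = 1 := by simp [u]
  rw [h0, mul_sum, mul_sum, mul_sum, ← sum_congr rfl hr2, sum_sub_distrib, sum_sub_distrib]
  push_cast
  ring

/-- Values at `p`. -/
lemma L2 (g : ℕ → ℤ) : C p 3 (P g p : ℤ) (g 0 - p * A p 1 g - p ^ 2 * A p 2 g + u p p * g p) := by
  have hp1 : p - 1 + 1 = p := Nat.sub_add_cancel hp.out.one_lt.le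
  have key : ∀ k ∈ range (p - 1), ∃ r ∈ J p, ((u (k + 1) p * g (k + 1) : ℤ) : ℚ) -
      (- (p * ((-1) ^ (k + 1) * g (k + 1) / ((k + 1 : ℕ) : ℚ) ^ 1)) -
        p ^ 2 * ((-1) ^ (k + 1) * g (k + 1) / ((k + 1 : ℕ) : ℚ) ^ 2)) = (p : ℚ) ^ 3 * r := by
    intro k hk
    have hk := mem_range.1 hk
    obtain ⟨f, hf⟩ := DelannoyFour.choose_sq hp.out (k + 1) (by omega)
    have h1 : ((p : ℤ) - (k + 1)) * u (k + 1) p =
        p * (((p + (k + 1)).choose (k + 1) : ℤ) * ((p - 1).choose (k + 1) : ℤ)) := by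
      unfold u
      have h2 := chz_succ (p - 1) (k + 1)
      rw [hp1] at h2
      have h3 : ((p - 1 : ℕ) : ℤ) = p - 1 := by
        rw [Nat.cast_sub hp.out.one_lt.le]
        simp
      rw [h3] at h2
      push_cast at h2
      linear_combination - ((p + (k + 1)).choose (k + 1) : ℤ) * h2
    have h4 : ((p : ℚ) - (k + 1)) * (u (k + 1) p : ℤ) = p * ((-1) ^ (k + 1) + p ^ 2 * f) := by
      have h5 : ((p : ℤ) - (k + 1)) * u (k + 1) p = p * ((-1) ^ (k + 1) + p ^ 2 * f) := by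
        rw [h1]
        linear_combination (p : ℤ) * hf
      exact_mod_cast h5
    refine ⟨f * g (k + 1) * (((p : ℚ) - (k + 1 : ℕ)))⁻¹ +
      (-1) ^ (k + 1) * g (k + 1) * ((((k + 1 : ℕ) : ℚ))⁻¹) ^ 2 * (((p : ℚ) - (k + 1 : ℕ)))⁻¹, ?_, ?_⟩
    · refine add_mem (mul_mem (mul_mem (intCast_mem _ _) (intCast_mem _ _)) (inv_mem3 hk)) ?_
      exact mul_mem (mul_mem (mul_mem (pow_mem (neg_mem (one_mem _)) _) (intCast_mem _ _))
        (pow_mem (inv_mem1 hk) _)) (inv_mem3 hk)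
    · have hk0 : ((k + 1 : ℕ) : ℚ) ≠ 0 := by positivity
      have hk1 : (p : ℚ) - (k + 1 : ℕ) ≠ 0 := by
        have : ((k + 1 : ℕ) : ℚ) < p := by exact_mod_cast (show k + 1 < p by omega)
        linarith
      have h6 : ((u (k + 1) p : ℤ) : ℚ) = p * ((-1) ^ (k + 1) + p ^ 2 * f) / ((p : ℚ) - (k + 1 : ℕ)) := by
        rw [eq_div_iff hk1]
        push_cast at h4 ⊢
        linear_combination h4
      rw [Int.cast_mul, h6]
      field_simp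
      ring
  choose! r hr1 hr2 using key
  refine ⟨∑ k ∈ range (p - 1), r k, sum_mem fun k hk => hr1 k hk, ?_⟩
  unfold P A
  rw [sum_range_succ, show range p = range (p - 1 + 1) by rw [hp1], sum_range_succ']
  have h0 : u 0 p = 1 := by simp [u]
  rw [h0, mul_sum, mul_sum, mul_sum, ← sum_congr rfl hr2, sum_sub_distrib, sum_sub_distrib,
    sum_neg_distrib]
  push_cast
  ring

/-- Reflection, order one. -/
lemma R1 (hodd : Odd p) (g g' : ℕ → ℤ) (hg : ∀ k, k < p → g' k = g (p - k)) :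
    C p 2 (A p 1 g) (A p 1 g' + p * A p 2 g') := by
  have key : ∀ k ∈ range (p - 1), ∃ r ∈ J p,
      (-1) ^ (p - 1 - 1 - k + 1) * (g (p - 1 - 1 - k + 1) : ℚ) / ((p - 1 - 1 - k + 1 : ℕ) : ℚ) ^ 1 -
      ((-1) ^ (k + 1) * g' (k + 1) / ((k + 1 : ℕ) : ℚ) ^ 1 +
        p * ((-1) ^ (k + 1) * g' (k + 1) / ((k + 1 : ℕ) : ℚ) ^ 2)) = (p : ℚ) ^ 2 * r := by
    intro k hk
    have hk := mem_range.1 hk
    have e : p - 1 - 1 - k + 1 = p - (k + 1) := by omega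
    rw [e, ← hg (k + 1) (by omega)]
    have h1 : ((-1 : ℚ)) ^ (p - (k + 1)) = - (-1) ^ (k + 1) := by
      have h2 : ((-1 : ℚ)) ^ (p - (k + 1)) * (-1) ^ (k + 1) = -1 := by
        rw [← pow_add, show p - (k + 1) + (k + 1) = p by omega]
        exact hodd.neg_one_pow
      rcases neg_one_pow_eq_or ℚ (k + 1) with h | h <;> rw [h] at h2 ⊢ <;> linarith
    have h3 : ((p - (k + 1) : ℕ) : ℚ) = p - (k + 1 : ℕ) := by
      rw [Nat.cast_sub (by omega)]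
    rw [h1, h3]
    refine ⟨- (-1) ^ (k + 1) * g' (k + 1) * ((((k + 1 : ℕ) : ℚ))⁻¹) ^ 2 * (((p : ℚ) - (k + 1 : ℕ)))⁻¹, ?_, ?_⟩
    · exact mul_mem (mul_mem (mul_mem (neg_mem (pow_mem (neg_mem (one_mem _)) _)) (intCast_mem _ _))
        (pow_mem (inv_mem1 hk) _)) (inv_mem3 hk)
    · have hk0 : ((k + 1 : ℕ) : ℚ) ≠ 0 := by positivity
      have hk1 : (p : ℚ) - (k + 1 : ℕ) ≠ 0 := by
        have : ((k + 1 : ℕ) : ℚ) < p := by exact_mod_cast (show k + 1 < p by omega)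
        linarith
      field_simp
      ring
  choose! r hr1 hr2 using key
  refine ⟨∑ k ∈ range (p - 1), r k, sum_mem fun k hk => hr1 k hk, ?_⟩
  unfold A
  rw [← sum_range_reflect, mul_sum, mul_sum, ← sum_congr rfl hr2, sum_sub_distrib, sum_add_distrib]

/-- Reflection, order two. -/
lemma R2 (hodd : Odd p) (g g' : ℕ → ℤ) (hg : ∀ k, k < p → g' k = g (p - k)) :
    C p 1 (A p 2 g) (- A p 2 g') := by
  have key : ∀ k ∈ range (p - 1), ∃ r ∈ J p,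
      (-1) ^ (p - 1 - 1 - k + 1) * (g (p - 1 - 1 - k + 1) : ℚ) / ((p - 1 - 1 - k + 1 : ℕ) : ℚ) ^ 2 -
      (- ((-1) ^ (k + 1) * g' (k + 1) / ((k + 1 : ℕ) : ℚ) ^ 2)) = (p : ℚ) ^ 1 * r := by
    intro k hk
    have hk := mem_range.1 hk
    have e : p - 1 - 1 - k + 1 = p - (k + 1) := by omega
    rw [e, ← hg (k + 1) (by omega)]
    have h1 : ((-1 : ℚ)) ^ (p - (k + 1)) = - (-1) ^ (k + 1) := by
      have h2 : ((-1 : ℚ)) ^ (p - (k + 1)) * (-1) ^ (k + 1) = -1 := by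
        rw [← pow_add, show p - (k + 1) + (k + 1) = p by omega]
        exact hodd.neg_one_pow
      rcases neg_one_pow_eq_or ℚ (k + 1) with h | h <;> rw [h] at h2 ⊢ <;> linarith
    have h3 : ((p - (k + 1) : ℕ) : ℚ) = p - (k + 1 : ℕ) := by
      rw [Nat.cast_sub (by omega)]
    rw [h1, h3]
    -- -s g'(1/(p-k)^2 - 1/k^2) = -s g' (k^2 - (p-k)^2)/(k^2 (p-k)^2) = -s g' p (2k-p)/...
    refine ⟨- (-1) ^ (k + 1) * g' (k + 1) * (2 * (k + 1 : ℕ) - (p : ℤ) : ℤ) * ((((k + 1 : ℕ) : ℚ))⁻¹) ^ 2 *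
      ((((p : ℚ) - (k + 1 : ℕ)))⁻¹) ^ 2, ?_, ?_⟩
    · exact mul_mem (mul_mem (mul_mem (mul_mem (neg_mem (pow_mem (neg_mem (one_mem _)) _)) (intCast_mem _ _))
        (intCast_mem _ _)) (pow_mem (inv_mem1 hk) _)) (pow_mem (inv_mem3 hk) _)
    · have hk0 : ((k + 1 : ℕ) : ℚ) ≠ 0 := by positivity
      have hk1 : (p : ℚ) - (k + 1 : ℕ) ≠ 0 := by
        have : ((k + 1 : ℕ) : ℚ) < p := by exact_mod_cast (show k + 1 < p by omega)
        linarith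
      rw [show (((2 * (k + 1 : ℕ) - (p : ℤ) : ℤ)) : ℚ) = 2 * ((k + 1 : ℕ) : ℚ) - p by push_cast; ring]
      field_simp
      ring
  choose! r hr1 hr2 using key
  refine ⟨∑ k ∈ range (p - 1), r k, sum_mem fun k hk => hr1 k hk, ?_⟩
  unfold A
  rw [← sum_range_reflect, mul_sum, ← sum_congr rfl hr2, sum_sub_distrib, sum_neg_distrib]

lemma A_lin (i : ℕ) (x y : ℤ) : A p i (fun k => x * al k + y * be k) = x * A p i al + y * A p i be := by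
  unfold A
  rw [mul_sum, mul_sum, ← sum_add_distrib]
  refine sum_congr rfl fun k _ => ?_
  push_cast
  ring

lemma w_eq (h3 : p % 3 = 1 ∨ p % 3 = 2) : al p = -1 := by
  unfold al
  rw [if_neg (by omega)]

/-- The sum in terms of `P`. -/
lemma S_eq (hodd : Odd p) (S : ℚ) (hS : S = ∑ k ∈ range p, τ (1 / 3) k * μ (1 / 3) k / (1 - 4 * (1 / 3)) ^ k) :
    8 * ((p : ℚ) + 1) * S = p * (3 * (2 * p + 1) * ((P al (p - 1) : ℤ) * (P be p : ℤ)) -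
      3 * (p + 1) * (P be p : ℤ) ^ 2 + p * (P al (p - 1) : ℤ) ^ 2) := by
  obtain ⟨m, hm⟩ := hodd
  have h := closed_form (1 / 3) (by norm_num) (2 * m)
  rw [show 2 * m + 1 = p by omega, ← hS] at h
  obtain ⟨h1, h2⟩ := τ_link m
  rw [show 2 * m + 1 = p by omega] at h2
  rw [show p - 1 = 2 * m by omega]
  have hp' : (p : ℚ) = 2 * m + 1 := by rw [hm]; push_cast; ring
  have hq : (1 - 4 * (1 / 3) : ℚ) ^ (2 * m) = ((-1 / 3) ^ m) ^ 2 := by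
    rw [← pow_mul, mul_comm m 2]
    norm_num
  rw [hq] at h
  obtain ⟨q, hq'⟩ : ∃ q : ℚ, q = (-1 / 3) ^ m := ⟨_, rfl⟩
  rw [← hq'] at h h1 h2
  have hq0 : q ^ 2 ≠ 0 := by
    rw [hq']
    exact pow_ne_zero _ (pow_ne_zero _ (by norm_num))
  have e1 : τ (1 / 3) (2 * m) = q * (P al (2 * m) : ℚ) / 2 := by linarith
  have e2 : τ (1 / 3) p = q * (P be p : ℚ) / 2 := by linarith
  rw [e1, e2] at h
  apply mul_left_cancel₀ hq0
  push_cast at h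
  have e3 : (m : ℚ) = ((p : ℚ) - 1) / 2 := by rw [hp']; ring
  rw [e3] at h
  linear_combination 12 * h

/-- Case `p ≡ 2 (mod 3)`. -/
lemma case_two (h3 : p % 3 = 2) (hp3 : 3 < p) (S : ℚ)
    (hS : S = ∑ k ∈ range p, τ (1 / 3) k * μ (1 / 3) k / (1 - 4 * (1 / 3)) ^ k) :
    C p 4 S (p ^ 3 - p ^ 2 - 3 * p) := by
  have hodd : Odd p := hp.out.odd_of_ne_two (by omega)
  have hpar := parity ((p - 1) / 2)
  have hpm : 2 * ((p - 1) / 2) = p - 1 := by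
    obtain ⟨m, hm⟩ := hodd
    omega
  rw [hpm, Nat.sub_add_cancel hp.out.one_lt.le] at hpar
  obtain ⟨hz1, hz2⟩ := hpar
  have hal : al p = -1 := w_eq (Or.inr h3)
  have hbe : be p = -1 := by
    unfold be
    rw [if_neg (by omega), if_neg (by omega)]
  have hrefl : ∀ k, k < p → (-1) * al k + (-3) * be k = 2 * al (p - k) + 0 * be (p - k) := by
    intro k hk
    unfold al be
    have : k % 3 = 0 ∨ k % 3 = 1 ∨ k % 3 = 2 := by omega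
    rcases this with h | h | h
    · rw [if_pos h, if_pos h, if_neg (show ¬ (p - k) % 3 = 0 by omega)]
      norm_num
    · rw [if_neg (show ¬ k % 3 = 0 by omega), if_neg (show ¬ k % 3 = 0 by omega), if_pos h,
        if_neg (show ¬ (p - k) % 3 = 0 by omega)]
      norm_num
    · rw [if_neg (show ¬ k % 3 = 0 by omega), if_neg (show ¬ k % 3 = 0 by omega),
        if_neg (show ¬ k % 3 = 1 by omega), if_pos (show (p - k) % 3 = 0 by omega)]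
      norm_num
  obtain ⟨r1, hr1, e1⟩ := R1 hodd (fun k => 2 * al k + 0 * be k) (fun k => (-1) * al k + (-3) * be k) hrefl
  obtain ⟨r2, hr2, e2⟩ := R2 hodd (fun k => 2 * al k + 0 * be k) (fun k => (-1) * al k + (-3) * be k) hrefl
  obtain ⟨r3, hr3, e3⟩ := L1 (p := p) be
  obtain ⟨r4, hr4, e4⟩ := L1 (p := p) al
  obtain ⟨r5, hr5, e5⟩ := L2 (p := p) al
  obtain ⟨r6, hr6, e6⟩ := L2 (p := p) be
  rw [A_lin, A_lin, A_lin] at e1
  rw [A_lin, A_lin] at e2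
  rw [hz1] at e3
  rw [hz2, hal] at e5
  rw [hbe] at e6
  have ha0 : al 0 = 2 := by simp [al]
  have hb0 : be 0 = 0 := by simp [be]
  rw [ha0] at e4 e5
  rw [hb0] at e3 e6
  have hS' := S_eq hodd S hS
  obtain ⟨X, hX⟩ : ∃ X : ℚ, X = (P al (p - 1) : ℤ) := ⟨_, rfl⟩
  obtain ⟨Y, hY⟩ : ∃ Y : ℚ, Y = (P be p : ℤ) := ⟨_, rfl⟩
  rw [← hX, ← hY] at hS'
  rw [← hX] at e4
  rw [← hY] at e6
  obtain ⟨a1, ha1⟩ : ∃ x, x = A p 1 al := ⟨_, rfl⟩
  obtain ⟨a2, ha2⟩ : ∃ x, x = A p 2 al := ⟨_, rfl⟩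
  obtain ⟨b1, hb1⟩ : ∃ x, x = A p 1 be := ⟨_, rfl⟩
  obtain ⟨b2, hb2⟩ : ∃ x, x = A p 2 be := ⟨_, rfl⟩
  have hβ : b2 ∈ J p := hb2 ▸ A_mem _ _
  rw [← ha1, ← ha2, ← hb1, ← hb2] at e1
  rw [← ha2, ← hb2] at e2
  rw [← hb1, ← hb2] at e3 e6
  rw [← ha1, ← ha2] at e4 e5
  obtain ⟨w, hw⟩ : ∃ w : ℚ, w = (u p p : ℤ) := ⟨_, rfl⟩
  push_cast at e1 e2 e3 e4 e5 e6 hw
  rw [← hw] at e5 e6
  obtain ⟨P', hP'⟩ : ∃ x : ℚ, x = p := ⟨_, rfl⟩
  rw [← hP'] at e1 e2 e3 e4 e5 e6 hS' ⊢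
  have hPJ : P' ∈ J p := hP' ▸ natCast_mem _ _
  have hP0 : P' ≠ 0 := by
    rw [hP']
    exact_mod_cast hp.out.ne_zero
  -- b1
  have f1 : b1 = P' * b2 - P' ^ 2 * r3 := by
    apply mul_left_cancel₀ hP0
    linear_combination - e3
  have f2 : a2 = 3 * b2 + P' * r2 := by linear_combination e2
  have f3 : 3 * a1 = -9 * P' * b2 + P' ^ 2 * (3 * r3 - r2 + r1) := by
    linear_combination e1 - P' * f2 - 3 * f1
  -- X
  obtain ⟨ρ, hρ⟩ : ∃ ρ, ρ = (1 * r3 - r2 * (3 : ℚ)⁻¹ + r1 * (3 : ℚ)⁻¹) - r2 + r4 := ⟨_, rfl⟩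
  have h3J : (3 : ℚ)⁻¹ ∈ J p := by
    have : ¬ (p : ℤ) ∣ 3 := by
      intro h
      have := Int.le_of_dvd (by norm_num) h
      omega
    have := inv_mem this
    push_cast at this
    exact this
  have hρJ : ρ ∈ J p := by
    rw [hρ]
    exact add_mem (sub_mem (add_mem (sub_mem (mul_mem (one_mem _) hr3) (mul_mem hr2 h3J))
      (mul_mem hr1 h3J)) hr2) hr4
  have g1 : X = 2 - 6 * P' ^ 2 * b2 + P' ^ 3 * ρ := by
    rw [hρ]
    linear_combination e4 + P' / 3 * f3 - P' ^ 2 * f2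
  have g2 : w = 2 + P' ^ 3 * (-(1 * r3 - r2 * (3 : ℚ)⁻¹ + r1 * (3 : ℚ)⁻¹) - r2 + r5) := by
    linear_combination e5 - P' / 3 * f3 - P' ^ 2 * f2
  obtain ⟨σ, hσ⟩ : ∃ σ, σ = r3 + (1 * r3 - r2 * (3 : ℚ)⁻¹ + r1 * (3 : ℚ)⁻¹) + r2 - r5 + r6 := ⟨_, rfl⟩
  have hσJ : σ ∈ J p := by
    rw [hσ]
    exact add_mem (sub_mem (add_mem (add_mem hr3 (add_mem (sub_mem (mul_mem (one_mem _) hr3) (mul_mem hr2 h3J))
      (mul_mem hr1 h3J))) hr2) hr5) hr6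
  have g3 : Y = -2 - 2 * P' ^ 2 * b2 + P' ^ 3 * σ := by
    rw [hσ]
    linear_combination e6 - P' * f1 - g2
  -- the final combination
  have h8J : (8 * (P' + 1))⁻¹ ∈ J p := by
    have : ¬ (p : ℤ) ∣ 8 * (p + 1) := by
      intro h
      rcases (Nat.prime_iff_prime_int.1 hp.out).dvd_or_dvd h with h | h
      · have h5 : p ∣ 8 := by exact_mod_cast h
        have h6 : p ∣ 2 ^ 3 := by simpa using h5
        have := hp.out.dvd_of_dvd_pow h6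
        have := Nat.le_of_dvd (by norm_num) this
        omega
      · have h5 : (p : ℤ) ∣ 1 := (dvd_add_right (dvd_refl _)).1 h
        have := Int.le_of_dvd (by norm_num) h5
        omega
    have := inv_mem this
    rw [hP']
    push_cast at this
    exact this
  obtain ⟨E1, hE1⟩ : ∃ E, E = 2 * σ - 2 * ρ + 12 * P' * b2 ^ 2 - 6 * P' ^ 2 * b2 * σ - 2 * P' ^ 2 * b2 * ρ +
    P' ^ 3 * ρ * σ := ⟨_, rfl⟩
  obtain ⟨E2, hE2⟩ : ∃ E, E = -4 * σ + 4 * P' * b2 ^ 2 - 4 * P' ^ 2 * b2 * σ + P' ^ 3 * σ ^ 2 := ⟨_, rfl⟩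
  obtain ⟨E3, hE3⟩ : ∃ E, E = -24 * b2 + 4 * P' * ρ + 36 * P' ^ 2 * b2 ^ 2 - 12 * P' ^ 3 * b2 * ρ +
    P' ^ 4 * ρ ^ 2 := ⟨_, rfl⟩
  have hn : ∀ n : ℕ, ((n : ℚ)) ∈ J p := fun n => natCast_mem _ _
  have hE1J : E1 ∈ J p := by
    rw [hE1]
    have h2 : (2 : ℚ) ∈ J p := by exact_mod_cast hn 2
    have h12 : (12 : ℚ) ∈ J p := by exact_mod_cast hn 12
    have h6 : (6 : ℚ) ∈ J p := by exact_mod_cast hn 6
    exact add_mem (sub_mem (sub_mem (add_mem (sub_mem (mul_mem h2 hσJ) (mul_mem h2 hρJ))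
      (mul_mem (mul_mem h12 hPJ) (pow_mem hβ _))) (mul_mem (mul_mem (mul_mem h6 (pow_mem hPJ _)) hβ) hσJ))
      (mul_mem (mul_mem (mul_mem h2 (pow_mem hPJ _)) hβ) hρJ)) (mul_mem (mul_mem (pow_mem hPJ _) hρJ) hσJ)
  have hE2J : E2 ∈ J p := by
    rw [hE2]
    have h4 : (4 : ℚ) ∈ J p := by exact_mod_cast hn 4
    exact add_mem (sub_mem (add_mem (mul_mem (neg_mem h4) hσJ) (mul_mem (mul_mem h4 hPJ) (pow_mem hβ _)))
      (mul_mem (mul_mem (mul_mem h4 (pow_mem hPJ _)) hβ) hσJ)) (mul_mem (pow_mem hPJ _) (pow_mem hσJ _))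
  have hE3J : E3 ∈ J p := by
    rw [hE3]
    have h4 : (4 : ℚ) ∈ J p := by exact_mod_cast hn 4
    have h24 : (24 : ℚ) ∈ J p := by exact_mod_cast hn 24
    have h36 : (36 : ℚ) ∈ J p := by exact_mod_cast hn 36
    have h12 : (12 : ℚ) ∈ J p := by exact_mod_cast hn 12
    exact add_mem (sub_mem (add_mem (add_mem (mul_mem (neg_mem h24) hβ) (mul_mem (mul_mem h4 hPJ) hρJ))
      (mul_mem (mul_mem h36 (pow_mem hPJ _)) (pow_mem hβ _)))
      (mul_mem (mul_mem (mul_mem h12 (pow_mem hPJ _)) hβ) hρJ)) (mul_mem (pow_mem hPJ _) (pow_mem hρJ _))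
  refine ⟨(8 * (P' + 1))⁻¹ * (24 * b2 + (6 * P' + 3) * E1 - (3 * P' + 3) * E2 + E3 - 8), ?_, ?_⟩
  · have h3 : (3 : ℚ) ∈ J p := by exact_mod_cast hn 3
    have h6 : (6 : ℚ) ∈ J p := by exact_mod_cast hn 6
    have h8 : (8 : ℚ) ∈ J p := by exact_mod_cast hn 8
    have h24 : (24 : ℚ) ∈ J p := by exact_mod_cast hn 24
    exact mul_mem h8J (sub_mem (add_mem (sub_mem (add_mem (mul_mem h24 hβ)
      (mul_mem (add_mem (mul_mem h6 hPJ) h3) hE1J)) (mul_mem (add_mem (mul_mem h3 hPJ) h3) hE2J)) hE3J) h8)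
  · have h8 : 8 * (P' + 1) ≠ 0 := by
      rw [hP']
      positivity
    apply mul_left_cancel₀ h8
    rw [← hP']
    rw [show 8 * (P' + 1) * (P' ^ 4 * ((8 * (P' + 1))⁻¹ * (24 * b2 + (6 * P' + 3) * E1 - (3 * P' + 3) * E2 + E3 - 8))) =
      P' ^ 4 * (24 * b2 + (6 * P' + 3) * E1 - (3 * P' + 3) * E2 + E3 - 8) by
        rw [show ∀ x : ℚ, 8 * (P' + 1) * (P' ^ 4 * ((8 * (P' + 1))⁻¹ * x)) =
          (8 * (P' + 1) * (8 * (P' + 1))⁻¹) * (P' ^ 4 * x) from fun x => by ring, mul_inv_cancel₀ h8, one_mul]]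
    rw [mul_sub, hS', g1, g3, hE1, hE2, hE3]
    ring

/-- Case `p ≡ 1 (mod 3)`. -/
lemma case_one (h3 : p % 3 = 1) (hp3 : 3 < p) (S : ℚ)
    (hS : S = ∑ k ∈ range p, τ (1 / 3) k * μ (1 / 3) k / (1 - 4 * (1 / 3)) ^ k) :
    C p 3 S (2 * p ^ 2) := by
  have hodd : Odd p := hp.out.odd_of_ne_two (by omega)
  have hpar := parity ((p - 1) / 2)
  have hpm : 2 * ((p - 1) / 2) = p - 1 := by
    obtain ⟨m, hm⟩ := hodd
    omega
  rw [hpm, Nat.sub_add_cancel hp.out.one_lt.le] at hpar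
  obtain ⟨hz1, hz2⟩ := hpar
  have hal : al p = -1 := w_eq (Or.inl h3)
  have hbe : be p = 1 := by
    unfold be
    rw [if_neg (by omega), if_pos h3]
  have hrefl : ∀ k, k < p → (-1) * al k + 3 * be k = 2 * al (p - k) + 0 * be (p - k) := by
    intro k hk
    unfold al be
    have : k % 3 = 0 ∨ k % 3 = 1 ∨ k % 3 = 2 := by omega
    rcases this with h | h | h
    · rw [if_pos h, if_pos h, if_neg (show ¬ (p - k) % 3 = 0 by omega)]
      norm_num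
    · rw [if_neg (show ¬ k % 3 = 0 by omega), if_neg (show ¬ k % 3 = 0 by omega), if_pos h,
        if_pos (show (p - k) % 3 = 0 by omega)]
      norm_num
    · rw [if_neg (show ¬ k % 3 = 0 by omega), if_neg (show ¬ k % 3 = 0 by omega),
        if_neg (show ¬ k % 3 = 1 by omega), if_neg (show ¬ (p - k) % 3 = 0 by omega)]
      norm_num
  obtain ⟨r1, hr1, e1⟩ := R1 hodd (fun k => 2 * al k + 0 * be k) (fun k => (-1) * al k + 3 * be k) hrefl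
  obtain ⟨r3, hr3, e3⟩ := L1 (p := p) be
  obtain ⟨r4, hr4, e4⟩ := L1 (p := p) al
  obtain ⟨r5, hr5, e5⟩ := L2 (p := p) al
  obtain ⟨r6, hr6, e6⟩ := L2 (p := p) be
  rw [A_lin, A_lin, A_lin] at e1
  rw [hz1] at e3
  rw [hz2, hal] at e5
  rw [hbe] at e6
  have ha0 : al 0 = 2 := by simp [al]
  have hb0 : be 0 = 0 := by simp [be]
  rw [ha0] at e4 e5
  rw [hb0] at e3 e6
  have hS' := S_eq hodd S hS
  obtain ⟨X, hX⟩ : ∃ X : ℚ, X = (P al (p - 1) : ℤ) := ⟨_, rfl⟩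
  obtain ⟨Y, hY⟩ : ∃ Y : ℚ, Y = (P be p : ℤ) := ⟨_, rfl⟩
  rw [← hX, ← hY] at hS'
  rw [← hX] at e4
  rw [← hY] at e6
  obtain ⟨a1, ha1⟩ : ∃ x, x = A p 1 al := ⟨_, rfl⟩
  obtain ⟨a2, ha2⟩ : ∃ x, x = A p 2 al := ⟨_, rfl⟩
  obtain ⟨b1, hb1⟩ : ∃ x, x = A p 1 be := ⟨_, rfl⟩
  obtain ⟨b2, hb2⟩ : ∃ x, x = A p 2 be := ⟨_, rfl⟩
  have hβ : b2 ∈ J p := hb2 ▸ A_mem _ _
  have hα : a2 ∈ J p := ha2 ▸ A_mem _ _
  rw [← ha1, ← ha2, ← hb1, ← hb2] at e1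
  rw [← hb1, ← hb2] at e3 e6
  rw [← ha1, ← ha2] at e4 e5
  obtain ⟨w, hw⟩ : ∃ w : ℚ, w = (u p p : ℤ) := ⟨_, rfl⟩
  push_cast at e1 e3 e4 e5 e6 hw
  rw [← hw] at e5 e6
  obtain ⟨P', hP'⟩ : ∃ x : ℚ, x = p := ⟨_, rfl⟩
  rw [← hP'] at e1 e3 e4 e5 e6 hS' ⊢
  have hPJ : P' ∈ J p := hP' ▸ natCast_mem _ _
  have hP0 : P' ≠ 0 := by
    rw [hP']
    exact_mod_cast hp.out.ne_zero
  have h3J : (3 : ℚ)⁻¹ ∈ J p := by
    have : ¬ (p : ℤ) ∣ 3 := by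
      intro h
      have := Int.le_of_dvd (by norm_num) h
      omega
    have := inv_mem this
    push_cast at this
    exact this
  have hn : ∀ n : ℕ, ((n : ℚ)) ∈ J p := fun n => natCast_mem _ _
  have h2' : (2 : ℚ) ∈ J p := by exact_mod_cast hn 2
  have h3' : (3 : ℚ) ∈ J p := by exact_mod_cast hn 3
  have h4' : (4 : ℚ) ∈ J p := by exact_mod_cast hn 4
  have h16' : (16 : ℚ) ∈ J p := by exact_mod_cast hn 16
  -- b1 = p γ
  obtain ⟨γ, hγ⟩ : ∃ γ, γ = b2 - P' * r3 := ⟨_, rfl⟩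
  have hγJ : γ ∈ J p := hγ ▸ sub_mem hβ (mul_mem hPJ hr3)
  have f1 : b1 = P' * γ := by
    rw [hγ]
    apply mul_left_cancel₀ hP0
    linear_combination - e3
  -- a1 = p δ
  obtain ⟨δ, hδ⟩ : ∃ δ, δ = γ + (-a2 + 3 * b2 + P' * r1) * (3 : ℚ)⁻¹ := ⟨_, rfl⟩
  have hδJ : δ ∈ J p := hδ ▸ add_mem hγJ (mul_mem (add_mem (add_mem (neg_mem hα) (mul_mem h3' hβ))
    (mul_mem hPJ hr1)) h3J)
  have f2 : a1 = P' * δ := by
    rw [hδ]
    linear_combination e1 / 3 + f1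
  obtain ⟨ρ, hρ⟩ : ∃ ρ, ρ = δ - a2 + P' * r4 := ⟨_, rfl⟩
  have hρJ : ρ ∈ J p := hρ ▸ add_mem (sub_mem hδJ hα) (mul_mem hPJ hr4)
  have g1 : X = 2 + P' ^ 2 * ρ := by
    rw [hρ]
    linear_combination e4 + P' * f2
  obtain ⟨σ, hσ⟩ : ∃ σ, σ = -γ - b2 + P' * r6 - δ - a2 + P' * r5 := ⟨_, rfl⟩
  have hσJ : σ ∈ J p := hσ ▸ add_mem (sub_mem (sub_mem (add_mem (sub_mem (neg_mem hγJ) hβ) (mul_mem hPJ hr6)) hδJ) hα)
    (mul_mem hPJ hr5)
  have g3 : Y = 2 + P' ^ 2 * σ := by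
    rw [hσ]
    linear_combination e6 + e5 - P' * f1 - P' * f2
  have h8J : (8 * (P' + 1))⁻¹ ∈ J p := by
    have : ¬ (p : ℤ) ∣ 8 * (p + 1) := by
      intro h
      rcases (Nat.prime_iff_prime_int.1 hp.out).dvd_or_dvd h with h | h
      · have h5 : p ∣ 8 := by exact_mod_cast h
        have h6 : p ∣ 2 ^ 3 := by simpa using h5
        have := hp.out.dvd_of_dvd_pow h6
        have := Nat.le_of_dvd (by norm_num) this
        omega
      · have h5 : (p : ℤ) ∣ 1 := (dvd_add_right (dvd_refl _)).1 h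
        have := Int.le_of_dvd (by norm_num) h5
        omega
    have := inv_mem this
    rw [hP']
    push_cast at this
    exact this
  obtain ⟨E, hE⟩ : ∃ E, E = 3 * (2 * P' + 1) * (2 * (ρ + σ) + P' ^ 2 * (ρ * σ)) -
    3 * (P' + 1) * (4 * σ + P' ^ 2 * σ ^ 2) + P' * (4 * ρ + P' ^ 2 * ρ ^ 2) - 16 := ⟨_, rfl⟩
  have hEJ : E ∈ J p := by
    rw [hE]
    exact sub_mem (add_mem (sub_mem (mul_mem (mul_mem h3' (add_mem (mul_mem h2' hPJ) (one_mem _)))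
      (add_mem (mul_mem h2' (add_mem hρJ hσJ)) (mul_mem (pow_mem hPJ _) (mul_mem hρJ hσJ))))
      (mul_mem (mul_mem h3' (add_mem hPJ (one_mem _))) (add_mem (mul_mem h4' hσJ)
        (mul_mem (pow_mem hPJ _) (pow_mem hσJ _)))))
      (mul_mem hPJ (add_mem (mul_mem h4' hρJ) (mul_mem (pow_mem hPJ _) (pow_mem hρJ _))))) h16'
  refine ⟨(8 * (P' + 1))⁻¹ * E, mul_mem h8J hEJ, ?_⟩
  have h8 : 8 * (P' + 1) ≠ 0 := by
    rw [hP']
    positivity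
  apply mul_left_cancel₀ h8
  rw [← hP']
  rw [show ∀ x : ℚ, 8 * (P' + 1) * (P' ^ 3 * ((8 * (P' + 1))⁻¹ * x)) =
    (8 * (P' + 1) * (8 * (P' + 1))⁻¹) * (P' ^ 3 * x) from fun x => by ring, mul_inv_cancel₀ h8, one_mul]
  rw [mul_sub, hS', g1, g3, hE]
  ring

end Pool.Agent.X318.TMSum
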