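import Pool.Agent.X318.LineSum

/-!
# Sums of powers of binomial coefficients with the weight `3 k + 2`
-/

set_option autoImplicit false

open Finset

namespace Pool.Agent.X318.LineSum

/-- By the symmetry of the rows of the triangle of Pascal, the sums with the weight `3 k + 2`
are twice the sums of the line sums. -/
lemma three_sum (r n : ℕ) (hr : 1 ≤ r) :
    ∑ k ∈ range n, (-1 : ℤ) ^ (r * k) * (3 * (k : ℤ) + 2) *
      ((∑ j ∈ range (k + 1), k.choose j ^ r : ℕ) : ℤ) =
    2 * ∑ y ∈ range n, ∑ k ∈ range n,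
      (-1 : ℤ) ^ (r * k) * (2 * (k : ℤ) - y + 1) * (k.choose y : ℤ) ^ r := by
  rw [sum_comm, mul_sum]
  refine sum_congr rfl fun k hk => ?_
  have hk' := mem_range.1 hk
  have h1 : ∑ y ∈ range n, (-1 : ℤ) ^ (r * k) * (2 * (k : ℤ) - y + 1) * (k.choose y : ℤ) ^ r =
      ∑ y ∈ range (k + 1), (-1 : ℤ) ^ (r * k) * (2 * (k : ℤ) - y + 1) * (k.choose y : ℤ) ^ r := by
    symm
    refine sum_subset (range_subset_range.2 (by omega)) fun y _ hy => ?_
    rw [mem_range, not_lt] at hy
    rw [Nat.choose_eq_zero_of_lt (show k < y by omega), Nat.cast_zero, zero_pow (by omega), mul_zero]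
  have h2 : ∑ y ∈ range (k + 1), (-1 : ℤ) ^ (r * k) * (2 * (k : ℤ) - y + 1) *
      (k.choose y : ℤ) ^ r =
      ∑ y ∈ range (k + 1), (-1 : ℤ) ^ (r * k) * ((k : ℤ) + y + 1) * (k.choose y : ℤ) ^ r := by
    rw [← sum_range_reflect]
    refine sum_congr rfl fun y hy => ?_
    have hy' : y ≤ k := Nat.lt_succ_iff.1 (mem_range.1 hy)
    rw [show k + 1 - 1 - y = k - y by omega, Nat.choose_symm hy', Nat.cast_sub hy']
    ring
  rw [h1, two_mul]
  nth_rw 2 [h2]
  rw [← sum_add_distrib]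
  push_cast
  rw [mul_sum]
  refine sum_congr rfl fun y _ => ?_
  ring

end Pool.Agent.X318.LineSum
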