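import Mathlib

/-! Hankel determinants of sequences `a : ℤ → ℤ` and their behaviour under `a(Y) ↦ a(Y²)`
and `a(Y) ↦ (1 - xY) a(Y²)`, `x = ±1`. -/

namespace X318.HankPar
open Matrix

/-- `N × N` determinant with entries given by a function of two naturals -/
def dN (N : ℕ) (F : ℕ → ℕ → ℤ) : ℤ := Matrix.det (Matrix.of fun i j : Fin N => F i j)

lemma dN_congr {N : ℕ} {F G : ℕ → ℕ → ℤ} (h : ∀ i j, i < N → j < N → F i j = G i j) :
    dN N F = dN N G := by
  unfold dN
  congr 1
  ext i j
  exact h i j i.2 j.2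

/-- Parity equivalence. -/
def par (N R S : ℕ) (h1 : N = R + S) (h2 : S ≤ R) (h3 : R ≤ S + 1) : Fin R ⊕ Fin S ≃ Fin N where
  toFun := Sum.elim (fun s => ⟨2 * s.1, by have := s.2; omega⟩)
    (fun s => ⟨2 * s.1 + 1, by have := s.2; omega⟩)
  invFun := fun i => if h : i.1 % 2 = 0 then Sum.inl ⟨i.1 / 2, by have := i.2; omega⟩
    else Sum.inr ⟨i.1 / 2, by have := i.2; omega⟩
  left_inv := by
    rintro (s | s)
    · simp
    · have h : ¬ ((2 * s.1 + 1) % 2 = 0) := by omega
      have h' : (2 * s.1 + 1) / 2 = s.1 := by omega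
      simp [h']
  right_inv := by
    intro i
    by_cases h : i.1 % 2 = 0
    · simp only [h, dif_pos, Sum.elim_inl]
      ext
      simp
      omega
    · simp only [h, dif_neg, not_false_eq_true, Sum.elim_inr]
      ext
      simp
      omega

/-- even rows only see even columns -/
lemma dN_par {N R S : ℕ} (h1 : N = R + S) (h2 : S ≤ R) (h3 : R ≤ S + 1) (F : ℕ → ℕ → ℤ)
    (h : ∀ s t, s < R → t < S → F (2 * s) (2 * t + 1) = 0) :
    dN N F = dN R (fun s t => F (2 * s) (2 * t)) * dN S (fun s t => F (2 * s + 1) (2 * t + 1)) := by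
  unfold dN
  rw [← det_submatrix_equiv_self (par N R S h1 h2 h3), ← det_fromBlocks_zero₁₂ _
    (Matrix.of fun (s : Fin S) (t : Fin R) => F (2 * s + 1) (2 * t))]
  congr 1
  ext i j
  rcases i with i | i <;> rcases j with j | j
  · simp [par]
  · simp only [par, Equiv.coe_fn_mk, submatrix_apply, Sum.elim_inl, Sum.elim_inr, of_apply,
      fromBlocks_apply₁₂, Matrix.zero_apply]
    exact h i j i.2 j.2
  · simp [par]
  · simp [par]

/-- odd rows only see odd columns -/
lemma dN_par' {N R S : ℕ} (h1 : N = R + S) (h2 : S ≤ R) (h3 : R ≤ S + 1) (F : ℕ → ℕ → ℤ)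
    (h : ∀ s t, s < S → t < R → F (2 * s + 1) (2 * t) = 0) :
    dN N F = dN R (fun s t => F (2 * s) (2 * t)) * dN S (fun s t => F (2 * s + 1) (2 * t + 1)) := by
  unfold dN
  rw [← det_submatrix_equiv_self (par N R S h1 h2 h3), ← det_fromBlocks_zero₂₁ _
    (Matrix.of fun (s : Fin R) (t : Fin S) => F (2 * s) (2 * t + 1))]
  congr 1
  ext i j
  rcases i with i | i <;> rcases j with j | j
  · simp [par]
  · simp [par]
  · simp only [par, Equiv.coe_fn_mk, submatrix_apply, Sum.elim_inl, Sum.elim_inr, of_apply,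
      fromBlocks_apply₂₁, Matrix.zero_apply]
    exact h i j i.2 j.2
  · simp [par]

lemma det_anti (m : ℕ) : (fromBlocks (0 : Matrix (Fin m) (Fin m) ℤ) (1 : Matrix (Fin m) (Fin m) ℤ)
    (1 : Matrix (Fin m) (Fin m) ℤ) (0 : Matrix (Fin m) (Fin m) ℤ)).det = (-1) ^ m := by
  have h : (fromBlocks (1 : Matrix (Fin m) (Fin m) ℤ) (1 : Matrix (Fin m) (Fin m) ℤ)
      (0 : Matrix (Fin m) (Fin m) ℤ) (1 : Matrix (Fin m) (Fin m) ℤ) *
      fromBlocks (0 : Matrix (Fin m) (Fin m) ℤ) (1 : Matrix (Fin m) (Fin m) ℤ)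
      (1 : Matrix (Fin m) (Fin m) ℤ) (0 : Matrix (Fin m) (Fin m) ℤ)).det
      = (fromBlocks (0 : Matrix (Fin m) (Fin m) ℤ) (1 : Matrix (Fin m) (Fin m) ℤ)
      (1 : Matrix (Fin m) (Fin m) ℤ) (0 : Matrix (Fin m) (Fin m) ℤ)).det := by
    rw [det_mul, det_fromBlocks_zero₂₁]
    simp
  rw [← h, fromBlocks_multiply]
  simp only [mul_zero, mul_one, zero_add, add_zero, Matrix.zero_mul, Matrix.mul_one, Matrix.mul_zero]
  rw [det_fromBlocks_one₁₁]
  simp [Matrix.det_neg]

/-- antidiagonal parity, even size -/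
lemma dN_anti {m : ℕ} (F : ℕ → ℕ → ℤ)
    (h : ∀ s t, s < m → t < m → F (2 * s) (2 * t) = 0 ∧ F (2 * s + 1) (2 * t + 1) = 0) :
    dN (2 * m) F = (-1) ^ m * dN m (fun s t => F (2 * s) (2 * t + 1)) *
      dN m (fun s t => F (2 * s + 1) (2 * t)) := by
  unfold dN
  rw [← det_submatrix_equiv_self (par (2 * m) m m (by omega) le_rfl (by omega))]
  have h2 : ((Matrix.of fun i j : Fin (2 * m) => F i j).submatrix (par (2 * m) m m (by omega) le_rfl (by omega))
      (par (2 * m) m m (by omega) le_rfl (by omega))) =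
      fromBlocks (Matrix.of fun (s : Fin m) (t : Fin m) => F (2 * s) (2 * t + 1)) 0 0
        (Matrix.of fun (s : Fin m) (t : Fin m) => F (2 * s + 1) (2 * t)) *
      fromBlocks (0 : Matrix (Fin m) (Fin m) ℤ) 1 1 0 := by
    have h3 : fromBlocks (Matrix.of fun (s : Fin m) (t : Fin m) => F (2 * s) (2 * t + 1)) 0 0
        (Matrix.of fun (s : Fin m) (t : Fin m) => F (2 * s + 1) (2 * t)) *
      fromBlocks (0 : Matrix (Fin m) (Fin m) ℤ) 1 1 0 = fromBlocks 0
        (Matrix.of fun (s : Fin m) (t : Fin m) => F (2 * s) (2 * t + 1))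
        (Matrix.of fun (s : Fin m) (t : Fin m) => F (2 * s + 1) (2 * t)) 0 := by
      rw [fromBlocks_multiply]
      simp only [Matrix.zero_mul, Matrix.mul_one, Matrix.mul_zero, zero_add, add_zero]
    rw [h3]
    ext i j
    rcases i with i | i <;> rcases j with j | j
    · simpa [par] using (h i j i.2 j.2).1
    · simp [par]
    · simp [par]
    · simpa [par] using (h i j i.2 j.2).2
  rw [h2, det_mul, det_anti, det_fromBlocks_zero₂₁]
  ring

/-- antidiagonal parity, odd size -/
lemma dN_anti_odd {m : ℕ} (F : ℕ → ℕ → ℤ)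
    (h : ∀ i j, (i + j) % 2 = 0 → F i j = 0) : dN (2 * m + 1) F = 0 := by
  have h1 : dN (2 * m + 1) F = - dN (2 * m + 1) F := by
    have e1 : dN (2 * m + 1) (fun i j => (-1) ^ i * ((-1) ^ j * F i j)) =
        (∏ i : Fin (2 * m + 1), (-1 : ℤ) ^ (i : ℕ)) * ((∏ i : Fin (2 * m + 1), (-1 : ℤ) ^ (i : ℕ)) *
          dN (2 * m + 1) F) := by
      unfold dN
      have := Matrix.det_mul_row (fun i : Fin (2 * m + 1) => (-1 : ℤ) ^ (i : ℕ))
        (Matrix.of fun i j : Fin (2 * m + 1) => F i j)
      rw [← this]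
      have := Matrix.det_mul_column (fun i : Fin (2 * m + 1) => (-1 : ℤ) ^ (i : ℕ))
        (Matrix.of fun i j : Fin (2 * m + 1) => (-1) ^ (j : ℕ) * F i j)
      simp only [of_apply] at this ⊢
      rw [← this]
    have e2 : (∏ i : Fin (2 * m + 1), (-1 : ℤ) ^ (i : ℕ)) * (∏ i : Fin (2 * m + 1), (-1 : ℤ) ^ (i : ℕ)) = 1 := by
      rw [← Finset.prod_mul_distrib]
      apply Finset.prod_eq_one
      intro i _
      rw [← pow_add]
      exact Even.neg_one_pow ⟨_, rfl⟩
    have e3 : dN (2 * m + 1) (fun i j => (-1) ^ i * ((-1) ^ j * F i j)) = - dN (2 * m + 1) F := by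
      have e4 : dN (2 * m + 1) (fun i j => (-1) ^ i * ((-1) ^ j * F i j)) =
          dN (2 * m + 1) (fun i j => - F i j) := by
        apply dN_congr
        intro i j _ _
        by_cases hp : (i + j) % 2 = 0
        · rw [h i j hp]; ring
        · rw [← mul_assoc, ← pow_add]
          have : Odd (i + j) := Nat.odd_iff.mpr (by omega)
          rw [this.neg_one_pow]; ring
      rw [e4]
      unfold dN
      have : (Matrix.of fun i j : Fin (2 * m + 1) => - F i j) = - (Matrix.of fun i j : Fin (2 * m + 1) => F i j) := by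
        ext i j; simp
      rw [this, Matrix.det_neg]
      simp [pow_succ, pow_mul]
    rw [← e3, e1, ← mul_assoc, e2, one_mul]
  omega

/-- Hankel determinant -/
def D (a : ℤ → ℤ) (p : ℤ) (n : ℕ) : ℤ := dN n (fun i j => a (p + i + j))

/-- multiplication by `1 - xY` -/
def mu (x : ℤ) (a : ℤ → ℤ) : ℤ → ℤ := fun z => a z - x * a (z - 1)

/-- `a(Y) ↦ a(Y²)` -/
def up (a : ℤ → ℤ) : ℤ → ℤ := fun z => if z % 2 = 0 then a (z / 2) else 0

lemma up_even (a : ℤ → ℤ) (z : ℤ) : up a (2 * z) = a z := by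
  unfold up
  rw [if_pos (by omega)]
  congr 1; omega

lemma up_odd (a : ℤ → ℤ) (z : ℤ) (h : z % 2 = 1) : up a z = 0 := by
  unfold up
  rw [if_neg (by omega)]

lemma up_even' (a : ℤ → ℤ) (z w : ℤ) (h : z = 2 * w) : up a z = a w := by
  rw [h, up_even]

/-- border first -/
lemma border_first (x : ℤ) (k : ℤ → ℤ) (q : ℤ) (n : ℕ) :
    dN (n + 1) (fun i c => if c = 0 then x ^ i else k (q + i + (c - 1 : ℤ))) = D (mu x k) (q + 1) n := by
  unfold D dN
  have h1 : (Matrix.of fun i j : Fin (n + 1) => if (j : ℕ) = 0 then x ^ (i : ℕ) else k (q + i + ((j : ℕ) - 1 : ℤ))).det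
      = (Matrix.of fun i j : Fin (n + 1) => if (i : ℕ) = 0 then (if (j : ℕ) = 0 then (1 : ℤ) else k (q + ((j : ℕ) - 1 : ℤ)))
        else (if (j : ℕ) = 0 then 0 else mu x k (q + i + ((j : ℕ) - 1 : ℤ)))).det := by
    apply det_eq_of_forall_row_eq_smul_add_pred (fun _ => x)
    · intro j
      simp
    · intro i j
      simp only [of_apply, Fin.val_succ, Fin.val_castSucc, Nat.add_eq_zero_iff, one_ne_zero, and_false,
        if_false]
      by_cases hj : (j : ℕ) = 0
      · simp [hj, pow_succ]; ring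
      · simp only [hj, if_false, mu]
        push_cast
        have : q + ((i : ℕ) + 1 : ℤ) + ((j : ℕ) - 1 : ℤ) - 1 = q + (i : ℕ) + ((j : ℕ) - 1 : ℤ) := by ring
        rw [this]
        ring
  rw [h1, det_succ_column_zero, Finset.sum_eq_single (0 : Fin (n + 1))]
  · simp only [Fin.val_zero, pow_zero, of_apply, if_true, one_mul]
    congr 1
    ext i j
    simp only [submatrix_apply, of_apply, Fin.zero_succAbove, Fin.val_succ, Nat.add_eq_zero_iff,
      one_ne_zero, and_false, if_false]
    congr 1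
    push_cast
    ring
  · intro i _ hi
    have hi' : (i : ℕ) ≠ 0 := fun h => hi (Fin.ext h)
    simp only [of_apply, if_neg hi', Fin.val_zero, Fin.val_last, if_true, mul_zero, zero_mul]
  · simp

/-- border last -/
lemma border_last (x y : ℤ) (k : ℤ → ℤ) (q : ℤ) (n : ℕ) :
    dN (n + 1) (fun i c => if c = n then y * x ^ i else k (q + i + c)) =
      (-1) ^ n * y * D (mu x k) (q + 1) n := by
  unfold D dN
  have h1 : (Matrix.of fun i j : Fin (n + 1) => if (j : ℕ) = n then y * x ^ (i : ℕ) else k (q + i + (j : ℕ))).det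
      = (Matrix.of fun i j : Fin (n + 1) => if (i : ℕ) = 0 then (if (j : ℕ) = n then y else k (q + (j : ℕ)))
        else (if (j : ℕ) = n then 0 else mu x k (q + i + (j : ℕ)))).det := by
    apply det_eq_of_forall_row_eq_smul_add_pred (fun _ => x)
    · intro j
      simp
    · intro i j
      simp only [of_apply, Fin.val_succ, Fin.val_castSucc, Nat.add_eq_zero_iff, one_ne_zero, and_false,
        if_false]
      by_cases hj : (j : ℕ) = n
      · simp [hj, pow_succ]; ring
      · simp only [hj, if_false, mu]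
        push_cast
        have : q + ((i : ℕ) + 1 : ℤ) + ((j : ℕ) : ℤ) - 1 = q + (i : ℕ) + ((j : ℕ) : ℤ) := by ring
        rw [this]
        ring
  rw [h1, det_succ_column _ (Fin.last n), Finset.sum_eq_single (0 : Fin (n + 1))]
  · simp only [Fin.val_zero, of_apply, if_true, Fin.val_last, zero_add]
    congr 2
    ext i j
    have hj : (j : ℕ) ≠ n := by have := j.2; omega
    simp only [submatrix_apply, of_apply, Fin.zero_succAbove, Fin.succAbove_last, Fin.val_succ, Fin.val_castSucc,
      Nat.add_eq_zero_iff, one_ne_zero, and_false, if_false, hj]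
    congr 1
    push_cast
    ring
  · intro i _ hi
    have hi' : (i : ℕ) ≠ 0 := fun h => hi (Fin.ext h)
    simp only [of_apply, if_neg hi', Fin.val_zero, Fin.val_last, if_true, mul_zero, zero_mul]
  · simp

/-- (A0) -/
lemma D_up_even (a : ℤ → ℤ) (q : ℤ) (R S : ℕ) (h2 : S ≤ R) (h3 : R ≤ S + 1) :
    D (up a) (2 * q) (R + S) = D a q R * D a (q + 1) S := by
  unfold D
  rw [dN_par rfl h2 h3]
  · congr 1
    · apply dN_congr
      intro i j _ _
      apply up_even'
      push_cast; ring
    · apply dN_congr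
      intro i j _ _
      apply up_even'
      push_cast; ring
  · intro s t _ _
    apply up_odd
    push_cast; omega

/-- (A1) -/
lemma D_up_odd_even (a : ℤ → ℤ) (q : ℤ) (m : ℕ) :
    D (up a) (2 * q - 1) (2 * m) = (-1) ^ m * (D a q m) ^ 2 := by
  unfold D
  rw [dN_anti]
  · rw [sq, ← mul_assoc]
    congr 1
    · congr 1
      apply dN_congr
      intro i j _ _
      apply up_even'
      push_cast; ring
    · apply dN_congr
      intro i j _ _
      apply up_even'
      push_cast; ring
  · intro s t _ _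
    constructor
    · apply up_odd
      push_cast; omega
    · apply up_odd
      push_cast; omega

lemma D_up_odd_odd (a : ℤ → ℤ) (q : ℤ) (m : ℕ) :
    D (up a) (2 * q - 1) (2 * m + 1) = 0 := by
  unfold D
  apply dN_anti_odd
  intro i j h
  apply up_odd
  omega

/-- (B0) -/
lemma D_mu_even (x : ℤ) (hx : x * x = 1) (a : ℤ → ℤ) (q : ℤ) (R S : ℕ) (h2 : S ≤ R) (h3 : R ≤ S + 1) :
    D (mu x (up a)) (2 * q) (R + S) = D (mu 1 a) (q + 1) S * D a q R := by
  have h := border_first x (up a) (2 * q - 1) (R + S)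
  rw [show (2 * q - 1 + 1 : ℤ) = 2 * q by ring] at h
  rw [← h, dN_par (R := S + 1) (S := R) (by omega) h3 (by omega)]
  · congr 1
    · rw [← border_first 1 a q S]
      apply dN_congr
      intro i j _ _
      by_cases hj : j = 0
      · subst hj
        simp [pow_mul, sq, hx]
      · have : 2 * j ≠ 0 := by omega
        rw [if_neg this, if_neg hj]
        apply up_even'
        push_cast; ring
    · unfold D
      apply dN_congr
      intro i j _ _
      have : 2 * j + 1 ≠ 0 := by omega
      rw [if_neg this]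
      apply up_even'
      push_cast; ring
  · intro s t _ _
    have : 2 * t + 1 ≠ 0 := by omega
    rw [if_neg this]
    apply up_odd
    push_cast; omega

/-- (B1e) -/
lemma D_mu_odd_even (x : ℤ) (hx : x * x = 1) (a : ℤ → ℤ) (q : ℤ) (m : ℕ) :
    D (mu x (up a)) (2 * q + 1) (2 * m) = (-1) ^ m * (D (mu 1 a) (q + 1) m * D a (q + 1) m) := by
  have h := border_last x 1 (up a) (2 * q) (2 * m)
  have h1 : ((-1 : ℤ)) ^ (2 * m) = 1 := by simp
  rw [h1, one_mul, one_mul] at h
  rw [← h, dN_par (R := m + 1) (S := m) (by omega) (by omega) (by omega)]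
  · rw [← mul_assoc]
    congr 1
    · have h2 := border_last 1 1 a q m
      rw [mul_one] at h2
      rw [← h2]
      apply dN_congr
      intro i j _ _
      by_cases hj : j = m
      · subst hj
        simp [pow_mul, sq, hx]
      · have : 2 * j ≠ 2 * m := by omega
        rw [if_neg this, if_neg hj]
        apply up_even'
        push_cast; ring
    · unfold D
      apply dN_congr
      intro i j _ _
      have : 2 * j + 1 ≠ 2 * m := by omega
      rw [if_neg this]
      apply up_even'
      push_cast; ring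
  · intro s t _ _
    have : 2 * t + 1 ≠ 2 * m := by omega
    rw [if_neg this]
    apply up_odd
    push_cast; omega

/-- (B1o) -/
lemma D_mu_odd_odd (x : ℤ) (hx : x * x = 1) (a : ℤ → ℤ) (q : ℤ) (m : ℕ) :
    D (mu x (up a)) (2 * q + 1) (2 * m + 1) =
      (-1) ^ (m + 1) * x * (D a q (m + 1) * D (mu 1 a) (q + 2) m) := by
  have h := border_last x 1 (up a) (2 * q) (2 * m + 1)
  have h1 : ((-1 : ℤ)) ^ (2 * m + 1) = -1 := by simp [pow_succ]
  rw [h1, mul_one] at h
  have h' : D (mu x (up a)) (2 * q + 1) (2 * m + 1) = - dN (2 * m + 1 + 1)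
      (fun i c => if c = 2 * m + 1 then 1 * x ^ i else up a (2 * q + i + c)) := by
    rw [h]; ring
  rw [h', dN_par' (R := m + 1) (S := m + 1) (by omega) (by omega) (by omega)]
  · have e1 : dN (m + 1) (fun s t => if 2 * t = 2 * m + 1 then 1 * x ^ (2 * s) else
        up a (2 * q + ((2 * s : ℕ) : ℤ) + ((2 * t : ℕ) : ℤ))) = D a q (m + 1) := by
      unfold D
      apply dN_congr
      intro i j _ _
      have : 2 * j ≠ 2 * m + 1 := by omega
      rw [if_neg this]
      apply up_even'
      push_cast; ring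
    have e2 : dN (m + 1) (fun s t => if 2 * t + 1 = 2 * m + 1 then 1 * x ^ (2 * s + 1) else
        up a (2 * q + ((2 * s + 1 : ℕ) : ℤ) + ((2 * t + 1 : ℕ) : ℤ))) =
        (-1) ^ m * x * D (mu 1 a) (q + 2) m := by
      have h2 := border_last 1 x a (q + 1) m
      rw [show (q + 1 + 1 : ℤ) = q + 2 by ring] at h2
      rw [← h2]
      apply dN_congr
      intro i j _ _
      by_cases hj : j = m
      · subst hj
        simp [pow_succ, pow_mul, hx]
      · have : 2 * j + 1 ≠ 2 * m + 1 := by omega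
        rw [if_neg this, if_neg hj]
        apply up_even'
        push_cast; ring
    rw [e1, e2]
    ring
  · intro s t _ _
    have : 2 * t ≠ 2 * m + 1 := by omega
    rw [if_neg this]
    apply up_odd
    push_cast; omega

end X318.HankPar
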