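import Pool.Agent.X318.HankPar

/-! Hankel determinants attached to the Moser–de Bruijn indicator. -/

namespace X318.HankPar
open Matrix

/-- indicator of the Moser–de Bruijn set -/
def phi (n : ℕ) : ℤ := if h : n = 0 then 1 else if n % 4 ≤ 1 then phi (n / 4) else 0
termination_by n
decreasing_by omega

lemma phi_zero : phi 0 = 1 := by rw [phi]; simp

lemma phi_4 (a : ℕ) : phi (4 * a) = phi a := by
  by_cases h : a = 0
  · subst h; rfl
  · rw [phi]
    rw [dif_neg (by omega), if_pos (by omega)]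
    congr 1; omega

lemma phi_41 (a : ℕ) : phi (4 * a + 1) = phi a := by
  rw [phi]
  rw [dif_neg (by omega), if_pos (by omega)]
  congr 1; omega

lemma phi_42 (a : ℕ) : phi (4 * a + 2) = 0 := by
  rw [phi]
  rw [dif_neg (by omega), if_neg (by omega)]

lemma phi_43 (a : ℕ) : phi (4 * a + 3) = 0 := by
  rw [phi]
  rw [dif_neg (by omega), if_neg (by omega)]

lemma phi_01 (n : ℕ) : phi n = 0 ∨ phi n = 1 := by
  induction n using Nat.strong_induction_on with
  | _ n ih =>
    by_cases h : n = 0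
    · subst h; right; exact phi_zero
    · rw [phi, dif_neg h]
      by_cases h2 : n % 4 ≤ 1
      · rw [if_pos h2]; exact ih _ (by omega)
      · rw [if_neg h2]; left; rfl

def f (z : ℤ) : ℤ := if 0 ≤ z then phi z.toNat else 0

lemma f_nat (n : ℕ) : f n = phi n := by simp [f]
lemma f_neg (z : ℤ) (h : z < 0) : f z = 0 := by simp [f, not_le.mpr h]

lemma f_eq : mu (-1) (up (up f)) = f := by
  funext z
  unfold mu
  rcases lt_or_ge z 0 with hz | hz
  · have h1 : ∀ w : ℤ, w < 0 → up (up f) w = 0 := by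
      intro w hw
      unfold up
      split_ifs
      · exact f_neg _ (by omega)
      · rfl
      · rfl
    rw [f_neg z hz, h1 z hz, h1 (z - 1) (by omega)]; simp
  · obtain ⟨n, rfl⟩ := Int.eq_ofNat_of_zero_le hz
    rw [f_nat]
    obtain ⟨a, s, hs, rfl⟩ : ∃ a s, s < 4 ∧ n = 4 * a + s := ⟨n / 4, n % 4, by omega, by omega⟩
    have hu : up (up f) (4 * (a : ℤ)) = f a := by
      rw [up_even' _ _ (2 * a) (by ring), up_even]
    interval_cases s
    · rw [show (((4 * a + 0 : ℕ) : ℤ)) = 4 * (a : ℤ) by push_cast; ring, hu, up_odd _ _ (by omega),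
        f_nat, add_zero, phi_4]; ring
    · rw [show (((4 * a + 1 : ℕ) : ℤ)) - 1 = 4 * (a : ℤ) by push_cast; ring, hu, up_odd _ _ (by omega),
        f_nat, phi_41]; ring
    · rw [phi_42, up_odd (up f) (((4 * a + 2 : ℕ) : ℤ) - 1) (by omega),
        up_even' (up f) ((4 * a + 2 : ℕ) : ℤ) (2 * a + 1) (by push_cast; ring), up_odd _ _ (by omega)]; ring
    · rw [phi_43, up_odd (up f) ((4 * a + 3 : ℕ) : ℤ) (by omega),
        up_even' (up f) (((4 * a + 3 : ℕ) : ℤ) - 1) (2 * a + 1) (by push_cast; ring), up_odd _ _ (by omega)]; ring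

/-- `(1-Y) f(Y^2)` -/
def b : ℤ → ℤ := mu 1 (up f)

lemma g_eq : mu 1 f = up b := by
  funext z
  have h : ∀ w, f w = up (up f) w + up (up f) (w - 1) := by
    intro w
    conv_lhs => rw [← f_eq]
    unfold mu; ring
  unfold mu
  rw [h z, h (z - 1)]
  rcases Int.even_or_odd' z with ⟨w, rfl | rfl⟩
  · rw [up_even, up_odd _ (2 * w - 1) (by omega), up_even, up_even' _ (2 * w - 1 - 1) (w - 1) (by ring)]
    unfold b mu
    ring
  · rw [up_odd _ (2 * w + 1) (by omega), up_odd _ (2 * w + 1) (by omega), up_even' _ (2 * w + 1 - 1) w (by ring),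
      up_odd _ (2 * w + 1 - 1 - 1) (by omega)]
    ring

lemma D_zero (a : ℤ → ℤ) (p : ℤ) : D a p 0 = 1 := by simp [D, dN]

lemma D_one (a : ℤ → ℤ) (p : ℤ) : D a p 1 = a p := by simp [D, dN]

/-! ### formulas specialised -/

/-- a = up f -/
lemma Da_even (q : ℤ) (R S : ℕ) (h2 : S ≤ R) (h3 : R ≤ S + 1) :
    D (up f) (2 * q) (R + S) = D f q R * D f (q + 1) S := D_up_even f q R S h2 h3
lemma Da_oe (q : ℤ) (m : ℕ) : D (up f) (2 * q - 1) (2 * m) = (-1) ^ m * (D f q m) ^ 2 :=
  D_up_odd_even f q m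
lemma Da_oo (q : ℤ) (m : ℕ) : D (up f) (2 * q - 1) (2 * m + 1) = 0 := D_up_odd_odd f q m

lemma Db_even (q : ℤ) (R S : ℕ) (h2 : S ≤ R) (h3 : R ≤ S + 1) :
    D b (2 * q) (R + S) = D (mu 1 f) (q + 1) S * D f q R := D_mu_even 1 (by norm_num) f q R S h2 h3
lemma Db_oe (q : ℤ) (m : ℕ) :
    D b (2 * q + 1) (2 * m) = (-1) ^ m * (D (mu 1 f) (q + 1) m * D f (q + 1) m) :=
  D_mu_odd_even 1 (by norm_num) f q m
lemma Db_oo (q : ℤ) (m : ℕ) :
    D b (2 * q + 1) (2 * m + 1) = (-1) ^ (m + 1) * (D f q (m + 1) * D (mu 1 f) (q + 2) m) := by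
  have := D_mu_odd_odd 1 (by norm_num) f q m
  rw [mul_one] at this
  exact this

lemma Dg_even (q : ℤ) (R S : ℕ) (h2 : S ≤ R) (h3 : R ≤ S + 1) :
    D (mu 1 f) (2 * q) (R + S) = D b q R * D b (q + 1) S := by
  rw [g_eq]; exact D_up_even b q R S h2 h3
lemma Dg_oe (q : ℤ) (m : ℕ) : D (mu 1 f) (2 * q - 1) (2 * m) = (-1) ^ m * (D b q m) ^ 2 := by
  rw [g_eq]; exact D_up_odd_even b q m
lemma Dg_oo (q : ℤ) (m : ℕ) : D (mu 1 f) (2 * q - 1) (2 * m + 1) = 0 := by
  rw [g_eq]; exact D_up_odd_odd b q m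

lemma Df_even (q : ℤ) (R S : ℕ) (h2 : S ≤ R) (h3 : R ≤ S + 1) :
    D f (2 * q) (R + S) = D b (q + 1) S * D (up f) q R := by
  have := D_mu_even (-1) (by norm_num) (up f) q R S h2 h3
  rw [f_eq] at this
  exact this
lemma Df_oe (q : ℤ) (m : ℕ) :
    D f (2 * q + 1) (2 * m) = (-1) ^ m * (D b (q + 1) m * D (up f) (q + 1) m) := by
  have := D_mu_odd_even (-1) (by norm_num) (up f) q m
  rw [f_eq] at this
  exact this
lemma Df_oo (q : ℤ) (m : ℕ) :
    D f (2 * q + 1) (2 * m + 1) = (-1) ^ m * (D (up f) q (m + 1) * D b (q + 2) m) := by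
  have := D_mu_odd_odd (-1) (by norm_num) (up f) q m
  rw [f_eq] at this
  rw [this]
  have e : (-1 : ℤ) ^ (m + 1) * (-1) = (-1) ^ m := by rw [pow_succ]; ring
  rw [e]
  rfl

/-! ### All Hankel determinants are in `{-1,0,1}` -/

def U (z : ℤ) : Prop := z = -1 ∨ z = 0 ∨ z = 1

lemma U.mul {x y : ℤ} (hx : U x) (hy : U y) : U (x * y) := by
  rcases hx with rfl | rfl | rfl <;> rcases hy with rfl | rfl | rfl <;> simp [U]

lemma U_one : U 1 := by simp [U]
lemma U_zero : U 0 := by simp [U]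
lemma U_neg_one_pow (m : ℕ) : U ((-1) ^ m) := by
  rcases neg_one_pow_eq_or ℤ m with h | h <;> rw [h] <;> simp [U]

lemma U.sq {x : ℤ} (hx : U x) : U (x ^ 2) := by rw [_root_.sq]; exact hx.mul hx

def UD (a : ℤ → ℤ) (n : ℕ) : Prop := ∀ p : ℤ, U (D a p n)

lemma UD_up {a : ℤ → ℤ} {n : ℕ} (h : ∀ s, 2 * s ≤ n + 1 → UD a s) : UD (up a) n := by
  intro p
  rcases Int.even_or_odd' p with ⟨q, rfl | rfl⟩
  · rcases Nat.even_or_odd' n with ⟨m, rfl | rfl⟩
    · rw [show 2 * m = m + m by ring, D_up_even a q m m le_rfl (by omega)]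
      exact (h m (by omega) _).mul (h m (by omega) _)
    · rw [show 2 * m + 1 = (m + 1) + m by ring, D_up_even a q (m + 1) m (by omega) le_rfl]
      exact (h _ (by omega) _).mul (h m (by omega) _)
  · rw [show 2 * q + 1 = 2 * (q + 1) - 1 by ring]
    rcases Nat.even_or_odd' n with ⟨m, rfl | rfl⟩
    · rw [D_up_odd_even]
      exact (U_neg_one_pow m).mul (h m (by omega) _).sq
    · rw [D_up_odd_odd]; exact U_zero

lemma UD_mu {x : ℤ} (hx : x = 1 ∨ x = -1) {a : ℤ → ℤ} {n : ℕ} (h : ∀ s, 2 * s ≤ n + 1 → UD a s)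
    (h' : ∀ s, 2 * s ≤ n + 1 → UD (mu 1 a) s) : UD (mu x (up a)) n := by
  have hxx : x * x = 1 := by rcases hx with rfl | rfl <;> norm_num
  have hU : U x := by rcases hx with rfl | rfl <;> simp [U]
  intro p
  rcases Int.even_or_odd' p with ⟨q, rfl | rfl⟩
  · rcases Nat.even_or_odd' n with ⟨m, rfl | rfl⟩
    · rw [show 2 * m = m + m by ring, D_mu_even x hxx a q m m le_rfl (by omega)]
      exact (h' m (by omega) _).mul (h m (by omega) _)
    · rw [show 2 * m + 1 = (m + 1) + m by ring, D_mu_even x hxx a q (m + 1) m (by omega) le_rfl]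
      exact (h' _ (by omega) _).mul (h _ (by omega) _)
  · rcases Nat.even_or_odd' n with ⟨m, rfl | rfl⟩
    · rw [D_mu_odd_even x hxx]
      exact (U_neg_one_pow m).mul ((h' m (by omega) _).mul (h m (by omega) _))
    · rw [D_mu_odd_odd x hxx]
      exact ((U_neg_one_pow _).mul hU).mul ((h _ (by omega) _).mul (h' m (by omega) _))

lemma UD_f_g (n : ℕ) : UD f n ∧ UD (mu 1 f) n := by
  induction n using Nat.strong_induction_on with
  | _ n ih =>
    have hf01 : ∀ z, f z = 0 ∨ f z = 1 := by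
      intro z
      rcases lt_or_ge z 0 with hz | hz
      · left; exact f_neg z hz
      · obtain ⟨n, rfl⟩ := Int.eq_ofNat_of_zero_le hz
        rw [f_nat]; exact phi_01 n
    rcases Nat.lt_or_ge n 2 with hn | hn
    · interval_cases n
      · constructor <;> intro p <;> rw [D_zero] <;> exact U_one
      · constructor
        · intro p; rw [D_one]
          rcases hf01 p with h | h <;> rw [h] <;> simp [U]
        · intro p; rw [D_one]; unfold mu
          rcases hf01 p with h | h <;> rcases hf01 (p - 1) with h' | h' <;> rw [h, h'] <;> simp [U]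
    · have h1 : ∀ t, 2 * t ≤ n + 1 → UD (up f) t ∧ UD b t := by
        intro t ht
        constructor
        · exact UD_up (fun s hs => (ih s (by omega)).1)
        · exact UD_mu (Or.inl rfl) (fun s hs => (ih s (by omega)).1) (fun s hs => (ih s (by omega)).2)
      constructor
      · rw [← f_eq]
        exact UD_mu (Or.inr rfl) (fun s hs => (h1 s hs).1) (fun s hs => (h1 s hs).2)
      · rw [g_eq]
        exact UD_up (fun s hs => (h1 s hs).2)

/-- the sequence `c_{m}`, shifted: `cc z = f ⌊z/2⌋` -/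
def cc : ℤ → ℤ := mu (-1) (up f)

lemma cc_nat (n : ℕ) : cc n = phi (n / 2) := by
  unfold cc mu
  rcases Nat.even_or_odd' n with ⟨m, rfl | rfl⟩
  · rw [show ((2 * m : ℕ) : ℤ) = 2 * (m : ℤ) by push_cast; ring, up_even, up_odd _ _ (by omega), f_nat]
    rw [show 2 * m / 2 = m by omega]; ring
  · rw [up_odd _ _ (by omega), up_even' _ _ (m : ℤ) (by push_cast; ring), f_nat]
    rw [show (2 * m + 1) / 2 = m by omega]; ring

lemma UD_cc (n : ℕ) : UD cc n :=
  UD_mu (Or.inr rfl) (fun s _ => (UD_f_g s).1) (fun s _ => (UD_f_g s).2)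

end X318.HankPar
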