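import Mathlib

/-! Determinants of `A + c J` (`J` all ones) and of 2×2 block matrices with off-diagonal `J`. -/

namespace X318.PencilDet
open Matrix Finset

variable {K : Type*} [CommRing K]

/-- sum of all cofactors of `A` -/
def bd {ι : Type*} [Fintype ι] [DecidableEq ι] (A : Matrix ι ι K) : K :=
  ∑ i, (A.updateRow i (fun _ => 1)).det

section
variable {ι : Type*} [Fintype ι] [DecidableEq ι]

lemma det_update_one_add (A : Matrix ι ι K) (c : ι → K) (i : ι) :
    ((Matrix.of fun k j => A k j + c k).updateRow i (fun _ => 1)).det =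
      (A.updateRow i (fun _ => 1)).det := by
  apply det_eq_of_forall_row_eq_smul_add_const (fun k => if k = i then 0 else c k) i (by simp)
  intro k j
  by_cases hk : k = i
  · subst hk; simp
  · simp [updateRow_apply, hk]

lemma det_add_on (A : Matrix ι ι K) (c : K) (s : Finset ι) :
    (Matrix.of fun k j => A k j + if k ∈ s then c else 0).det =
      A.det + c * ∑ i ∈ s, (A.updateRow i (fun _ => 1)).det := by
  induction s using Finset.induction_on with
  | empty =>
    simp only [Finset.notMem_empty, if_false, add_zero, Finset.sum_empty, mul_zero]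
    congr 1
  | insert i0 s hi0 ih =>
    have h1 : (Matrix.of fun k j => A k j + if k ∈ insert i0 s then c else 0) =
        (Matrix.of fun k j => A k j + if k ∈ s then c else 0).updateRow i0
          ((fun j => A i0 j) + c • (fun _ => (1 : K))) := by
      ext k j
      by_cases hk : k = i0
      · subst hk; simp [updateRow_self]
      · simp [updateRow_apply, hk]
    have h2 : (Matrix.of fun k j => A k j + if k ∈ s then c else 0).updateRow i0 (fun j => A i0 j) =
        (Matrix.of fun k j => A k j + if k ∈ s then c else 0) := by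
      ext k j
      by_cases hk : k = i0
      · subst hk; simp [updateRow_self, hi0]
      · simp [updateRow_apply, hk]
    rw [h1, det_updateRow_add, det_updateRow_smul, h2, ih,
      det_update_one_add A (fun k => if k ∈ s then c else 0) i0, Finset.sum_insert hi0]
    ring

lemma det_add_const (A : Matrix ι ι K) (c : K) :
    (Matrix.of fun k j => A k j + c).det = A.det + c * bd A := by
  have := det_add_on A c Finset.univ
  simpa [bd] using this

lemma bd_add_const (A : Matrix ι ι K) (c : K) :
    bd (Matrix.of fun k j => A k j + c) = bd A := by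
  unfold bd
  exact Finset.sum_congr rfl fun i _ => det_update_one_add A (fun _ => c) i

lemma bd_smul (A : Matrix ι ι K) (r : K) :
    bd (Matrix.of fun k j => r * A k j) = r ^ (Fintype.card ι - 1) * bd A := by
  unfold bd
  rw [Finset.mul_sum]
  apply Finset.sum_congr rfl
  intro i _
  have h1 : (Matrix.of fun k j => r * A k j).updateRow i (fun _ => 1) =
      Matrix.of fun k j => (if k = i then 1 else r) * (A.updateRow i (fun _ => 1)) k j := by
    ext k j
    by_cases hk : k = i
    · subst hk; simp
    · simp [updateRow_apply, hk]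
  rw [h1, det_mul_column]
  congr 1
  rw [← Finset.mul_prod_erase _ _ (Finset.mem_univ i)]
  rw [Finset.prod_congr rfl (g := fun _ => r) (fun k hk => by rw [if_neg (Finset.ne_of_mem_erase hk)])]
  simp [Finset.card_erase_of_mem]

lemma det_smul' (A : Matrix ι ι K) (r : K) :
    (Matrix.of fun k j => r * A k j).det = r ^ (Fintype.card ι) * A.det := by
  have := det_mul_column (fun _ : ι => r) A
  simpa using this

end

section blocks
variable {ι κ : Type*} [Fintype ι] [DecidableEq ι] [Fintype κ] [DecidableEq κ]

lemma bd_blocks (A : Matrix ι ι K) (B : Matrix κ κ K) :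
    bd (fromBlocks A 0 0 B) = bd A * B.det + A.det * bd B := by
  unfold bd
  rw [Fintype.sum_sum_type, Finset.sum_mul, Finset.mul_sum]
  congr 1
  · apply Finset.sum_congr rfl
    intro i _
    have : (fromBlocks A 0 0 B).updateRow (Sum.inl i) (fun _ => (1 : K)) =
        fromBlocks (A.updateRow i (fun _ => 1)) (Matrix.of fun k _ => if k = i then 1 else 0) 0 B := by
      ext k j
      rcases k with k | k <;> rcases j with j | j
      · by_cases hk : k = i
        · subst hk; simp
        · simp [updateRow_apply, hk]
      · by_cases hk : k = i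
        · subst hk; simp
        · simp [updateRow_apply, hk]
      · simp [updateRow_apply]
      · simp [updateRow_apply]
    rw [this, det_fromBlocks_zero₂₁]
  · apply Finset.sum_congr rfl
    intro i _
    have : (fromBlocks A 0 0 B).updateRow (Sum.inr i) (fun _ => (1 : K)) =
        fromBlocks A 0 (Matrix.of fun k _ => if k = i then 1 else 0) (B.updateRow i (fun _ => 1)) := by
      ext k j
      rcases k with k | k <;> rcases j with j | j
      · simp [updateRow_apply]
      · simp [updateRow_apply]
      · by_cases hk : k = i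
        · subst hk; simp
        · simp [updateRow_apply, hk]
      · by_cases hk : k = i
        · subst hk; simp
        · simp [updateRow_apply, hk]
    rw [this, det_fromBlocks_zero₁₂]

/-- `det [[X, J],[J, Y]] = det X det Y - bd X bd Y` -/
lemma det_offdiag (X : Matrix ι ι K) (Y : Matrix κ κ K) :
    (fromBlocks X (Matrix.of fun _ _ => 1) (Matrix.of fun _ _ => 1) Y).det =
      X.det * Y.det - bd X * bd Y := by
  have h : fromBlocks X (Matrix.of fun _ _ => (1 : K)) (Matrix.of fun _ _ => 1) Y =
      Matrix.of fun k j => fromBlocks (Matrix.of fun k j => X k j + (-1)) 0 0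
        (Matrix.of fun k j => Y k j + (-1)) k j + 1 := by
    ext k j
    rcases k with k | k <;> rcases j with j | j <;> simp
  rw [h, det_add_const, det_fromBlocks_zero₂₁, bd_blocks, det_add_const, det_add_const,
    bd_add_const, bd_add_const]
  ring

end blocks

/-- `N × N` determinant with entries given by a function of two naturals -/
def dN (N : ℕ) (F : ℕ → ℕ → K) : K := Matrix.det (Matrix.of fun i j : Fin N => F i j)

/-- `bd` for such matrices -/
def bN (N : ℕ) (F : ℕ → ℕ → K) : K := bd (Matrix.of fun i j : Fin N => F i j)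

lemma dN_congr {N : ℕ} {F G : ℕ → ℕ → K} (h : ∀ i j, i < N → j < N → F i j = G i j) :
    dN N F = dN N G := by
  unfold dN
  congr 1
  ext i j
  exact h i j i.2 j.2

lemma dN_add_const (N : ℕ) (F : ℕ → ℕ → K) (c : K) :
    dN N (fun i j => F i j + c) = dN N F + c * bN N F :=
  det_add_const (Matrix.of fun i j : Fin N => F i j) c

lemma bN_add_const (N : ℕ) (F : ℕ → ℕ → K) (c : K) :
    bN N (fun i j => F i j + c) = bN N F :=
  bd_add_const (Matrix.of fun i j : Fin N => F i j) c

lemma dN_smul (N : ℕ) (F : ℕ → ℕ → K) (r : K) :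
    dN N (fun i j => r * F i j) = r ^ N * dN N F := by
  have := det_smul' (Matrix.of fun i j : Fin N => F i j) r
  simpa [dN] using this

lemma bN_smul (N : ℕ) (F : ℕ → ℕ → K) (r : K) :
    bN N (fun i j => r * F i j) = r ^ (N - 1) * bN N F := by
  have := bd_smul (Matrix.of fun i j : Fin N => F i j) r
  simpa [bN] using this

lemma bN_eq (N : ℕ) (F : ℕ → ℕ → K) : bN N F = dN N (fun i j => F i j + 1) - dN N F := by
  rw [dN_add_const]; ring

/-- subtract row `i-1` from the odd rows `i` -/
lemma dN_rowop (N : ℕ) (F : ℕ → ℕ → K) :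
    dN N F = dN N (fun i j => F i j - if i % 2 = 1 then F (i - 1) j else 0) := by
  rcases N with _ | N
  · rfl
  · unfold dN
    apply det_eq_of_forall_row_eq_smul_add_pred (fun i => if (i : ℕ) % 2 = 0 then 1 else 0)
    · intro j; simp
    · intro i j
      simp only [of_apply, Fin.val_succ, Fin.val_castSucc, Nat.add_sub_cancel]
      by_cases hi : (i : ℕ) % 2 = 0
      · rw [if_pos (by omega), if_pos hi]; ring
      · rw [if_neg (by omega), if_neg hi]; ring

lemma dN_transpose (N : ℕ) (F : ℕ → ℕ → K) : dN N F = dN N (fun i j => F j i) := by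
  unfold dN
  rw [← det_transpose]
  rfl

lemma dN_colop (N : ℕ) (F : ℕ → ℕ → K) :
    dN N F = dN N (fun i j => F i j - if j % 2 = 1 then F i (j - 1) else 0) := by
  rw [dN_transpose, dN_rowop, dN_transpose]

/-- Parity equivalence. -/
def par (N R S : ℕ) (h1 : N = R + S) (h2 : S ≤ R) (h3 : R ≤ S + 1) : Fin R ⊕ Fin S ≃ Fin N where
  toFun := Sum.elim (fun s => ⟨2 * s.1, by have := s.2; omega⟩)
    (fun s => ⟨2 * s.1 + 1, by have := s.2; omega⟩)
  invFun := fun i => if h : i.1 % 2 = 0 then Sum.inl ⟨i.1 / 2, by have := i.2; omega⟩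
    else Sum.inr ⟨i.1 / 2, by have := i.2; omega⟩
  left_inv := by
    rintro (s | s)
    · simp
    · have h : ¬ ((2 * s.1 + 1) % 2 = 0) := by omega
      have h' : (2 * s.1 + 1) / 2 = s.1 := by omega
      simp [h']
  right_inv := by
    intro i
    by_cases h : i.1 % 2 = 0
    · simp only [h, dif_pos, Sum.elim_inl]
      ext
      simp
      omega
    · simp only [h, dif_neg, not_false_eq_true, Sum.elim_inr]
      ext
      simp
      omega

lemma dN_blocks {N R S : ℕ} (h1 : N = R + S) (h2 : S ≤ R) (h3 : R ≤ S + 1) (F : ℕ → ℕ → K) :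
    dN N F = (fromBlocks (Matrix.of fun s t : Fin R => F (2 * s) (2 * t))
      (Matrix.of fun (s : Fin R) (t : Fin S) => F (2 * s) (2 * t + 1))
      (Matrix.of fun (s : Fin S) (t : Fin R) => F (2 * s + 1) (2 * t))
      (Matrix.of fun s t : Fin S => F (2 * s + 1) (2 * t + 1))).det := by
  unfold dN
  rw [← det_submatrix_equiv_self (par N R S h1 h2 h3)]
  congr 1
  ext i j
  rcases i with i | i <;> rcases j with j | j <;> simp [par]

lemma dN_sign (N : ℕ) (F : ℕ → ℕ → K) :
    dN N (fun i j => (-1) ^ (i + j) * F i j) = dN N F := by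
  have e1 : dN N (fun i j => (-1) ^ (i + j) * F i j) =
      (∏ i : Fin N, (-1 : K) ^ (i : ℕ)) * ((∏ i : Fin N, (-1 : K) ^ (i : ℕ)) * dN N F) := by
    unfold dN
    have := Matrix.det_mul_row (fun i : Fin N => (-1 : K) ^ (i : ℕ))
      (Matrix.of fun i j : Fin N => F i j)
    rw [← this]
    have := Matrix.det_mul_column (fun i : Fin N => (-1 : K) ^ (i : ℕ))
      (Matrix.of fun i j : Fin N => (-1) ^ (j : ℕ) * F i j)
    simp only [of_apply] at this ⊢
    rw [← this]
    congr 1
    ext i j
    simp only [of_apply]
    rw [pow_add]; ring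
  have e2 : (∏ i : Fin N, (-1 : K) ^ (i : ℕ)) * (∏ i : Fin N, (-1 : K) ^ (i : ℕ)) = 1 := by
    rw [← Finset.prod_mul_distrib]
    apply Finset.prod_eq_one
    intro i _
    rw [← pow_add]
    exact Even.neg_one_pow ⟨_, rfl⟩
  rw [e1, ← mul_assoc, e2, one_mul]

end X318.PencilDet
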